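import Pool.Agent.P.MP_1fec7a_co.S.Iface

/-! The example. -/

set_option autoImplicit false
set_option linter.unusedSectionVars false
set_option linter.unusedVariables false

namespace Pool.Agent.P.MP_1fec7a_co.S

section


open Finset

lemma gcp_sub {V Λ : Type} [DecidableEq V] [DecidableEq Λ] {P : Finset V} {ln : Λ → Finset V}
    (h : Geo P ln) {s : Set V} (hs : (gr ln).IsClique s) {i : Λ} {u v : V} (hu : u ∈ s)
    (hv : v ∈ s) (huv : u ≠ v) (h1 : u ∈ ln i) (h2 : v ∈ ln i) : s ⊆ (ln i : Set V) := by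
  intro w hw
  by_contra hn
  have a1 : w ≠ u := fun e => hn (e ▸ h1)
  have a2 : w ≠ v := fun e => hn (e ▸ h2)
  exact huv (h.one hn h1 h2 (hs hw hu a1) (hs hw hv a2))

lemma gcp_clique {V Λ : Type} [DecidableEq V] [DecidableEq Λ] (ln : Λ → Finset V) (i : Λ) :
    (gr ln).IsClique (ln i : Set V) := fun _ hu _ hv e => ⟨e, i, hu, hv⟩

theorem p_GCP :
    S_GCP := by
  intro V Λ _ _ _ ln k hk h hc
  refine ⟨fun s t hs ht hne u hu v hv => ?_, fun u v huv => ?_, ?_⟩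
  · by_contra e
    obtain ⟨_, i, h1, h2⟩ := hs.prop hu.1 hv.1 e
    exact hne ((hs.eq_of_subset (gcp_clique ln i) (gcp_sub h hs.prop hu.1 hv.1 e h1 h2)).trans
      (ht.eq_of_subset (gcp_clique ln i) (gcp_sub h ht.prop hu.2 hv.2 e h1 h2)).symm)
  · split_ifs with a
    · obtain ⟨_, i, h1, h2⟩ := a
      rw [Nat.card_eq_one_iff_exists]
      exact ⟨⟨i, h1, h2⟩, fun j => Subtype.ext (h.lin _ _ u v huv j.2.1 j.2.2 h1 h2)⟩
    · rw [Nat.card_eq_zero]
      exact Or.inl ⟨fun j => a ⟨huv, j.1, j.2.1, j.2.2⟩⟩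
  · obtain ⟨s, hs⟩ := (gr ln).exists_isNClique_cliqueNum
    rw [← hs.card_eq]
    by_contra hn
    obtain ⟨u, hu, v, hv, e⟩ := one_lt_card.1 (show 1 < s.card by omega)
    obtain ⟨_, i, h1, h2⟩ := hs.isClique hu hv e
    exact hn ((card_le_card (coe_subset.1 (gcp_sub h hs.isClique hu hv e h1 h2))).trans (hc i))

end

section


open Finset

lemma gen_pow {D Φ : Type} (σ : Equiv.Perm D) (α : Equiv.Perm Φ) (a : Φ → D)
    (h : ∀ f, σ (a f) = a (α f)) (n : ℕ) (f : Φ) : (σ ^ n) (a f) = a ((α ^ n) f) := by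
  induction n with
  | zero => rfl
  | succ n ih => rw [pow_succ', pow_succ', Equiv.Perm.mul_apply, Equiv.Perm.mul_apply, ih, h]

lemma gen_cyc {D Φ : Type} [Finite D] [Finite Φ] (σ : Equiv.Perm D) (α : Equiv.Perm Φ)
    (a : Φ → D) (h : ∀ f, σ (a f) = a (α f)) (f : Φ) (d : D) :
    σ.SameCycle (a f) d ↔ ∃ f', α.SameCycle f f' ∧ a f' = d := by
  constructor
  · intro H
    obtain ⟨n, rfl⟩ := H.exists_nat_pow_eq
    exact ⟨(α ^ n) f, ⟨n, by rw [zpow_natCast]⟩, (gen_pow σ α a h n f).symm⟩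
  · rintro ⟨f', H, rfl⟩
    obtain ⟨n, rfl⟩ := H.exists_nat_pow_eq
    exact ⟨n, by rw [zpow_natCast, gen_pow σ α a h]⟩

lemma gen_mod {Φ : Type} (γ : Equiv.Perm Φ) (f : Φ) (h : (γ ^ 4) f = f) (m : ℕ) :
    (γ ^ m) f = (γ ^ (m % 4)) f := by
  have h1 : ∀ n : ℕ, (γ ^ (4 * n)) f = f := fun n => by
    induction n with
    | zero => rfl
    | succ n ih => rw [mul_add, mul_one, pow_add, Equiv.Perm.mul_apply, h, ih]
  conv_lhs => rw [← Nat.mod_add_div m 4, pow_add, Equiv.Perm.mul_apply, h1]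

lemma gen_faces {D Φ : Type} [Finite D] (φ : Equiv.Perm D) (α ρ : Equiv.Perm Φ) (a b : Φ → D)
    (ha : Function.Injective a) (hab : ∀ f f', a f ≠ b f') (h1 : ∀ f, φ (a f) = b (ρ f))
    (h2 : ∀ f, φ (b f) = a (α f)) (S : Finset Φ) (hS : ∀ f ∈ S, ((α * ρ) ^ 4) f = f) :
    S.card ≤ 4 * Nat.card (Quotient (Equiv.Perm.SameCycle.setoid φ)) := by
  classical
  have key : ∀ (f : Φ) (n : ℕ), ∃ m : ℕ, (φ ^ n) (a f) = a (((α * ρ) ^ m) f) ∨
      (φ ^ n) (a f) = b (ρ (((α * ρ) ^ m) f)) := fun f n => by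
    induction n with
    | zero => exact ⟨0, Or.inl rfl⟩
    | succ n ih =>
      obtain ⟨m, e | e⟩ := ih
      · exact ⟨m, Or.inr (by rw [pow_succ', Equiv.Perm.mul_apply, e, h1])⟩
      · exact ⟨m + 1, Or.inl (by rw [pow_succ', Equiv.Perm.mul_apply, e, h2, pow_succ']; rfl)⟩
  have := Fintype.ofFinite (Quotient (Equiv.Perm.SameCycle.setoid φ))
  let q : Φ → Quotient (Equiv.Perm.SameCycle.setoid φ) := fun f => Quotient.mk _ (a f)
  refine (card_le_mul_card_image (f := q) S 4 fun c hc => ?_).trans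
    (Nat.mul_le_mul_left 4 (by rw [Nat.card_eq_fintype_card]; exact card_le_univ _))
  obtain ⟨f, hf, rfl⟩ := mem_image.1 hc
  refine le_trans (card_le_card (t := (range 4).image fun i => ((α * ρ) ^ i) f) fun f' hf' => ?_)
    (card_image_le.trans (card_range 4).le)
  have H : φ.SameCycle (a f) (a f') := Quotient.exact (mem_filter.1 hf').2.symm
  obtain ⟨n, hn⟩ := H.exists_nat_pow_eq
  obtain ⟨m, e | e⟩ := key f n
  · exact mem_image.2 ⟨m % 4, mem_range.2 (Nat.mod_lt _ (by norm_num)),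
      (gen_mod _ f (hS f hf) m).symm.trans (ha (e.symm.trans hn))⟩
  · exact absurd (hn.symm.trans e) (hab _ _)

theorem p_GEN :
    S_GEN := by
  intro V Λ Φ _ _ _ ln pt li α ρ S g hln hinj hpt hα hρ hS hc
  classical
  set I := incidenceGraph fun i => (ln i : Set V) with hI
  have adj : ∀ f, I.Adj (.inl (pt f)) (.inr (li f)) := fun f => by
    rw [hI, incidenceGraph, SimpleGraph.fromRel_adj]
    exact ⟨by simp, Or.inl ⟨_, _, rfl, rfl, mem_coe.2 ((hln _ _).2 ⟨f, rfl, rfl⟩)⟩⟩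
  have adj' : ∀ x y, I.Adj x y → ∃ f, (x = .inl (pt f) ∧ y = .inr (li f)) ∨
      (x = .inr (li f) ∧ y = .inl (pt f)) := fun x y h => by
    rw [hI, incidenceGraph, SimpleGraph.fromRel_adj] at h
    obtain ⟨-, ⟨v, i, rfl, rfl, hv⟩ | ⟨v, i, rfl, rfl, hv⟩⟩ := h <;>
      obtain ⟨f, rfl, rfl⟩ := (hln _ _).1 (mem_coe.1 hv)
    · exact ⟨f, Or.inl ⟨rfl, rfl⟩⟩
    · exact ⟨f, Or.inr ⟨rfl, rfl⟩⟩
  let a : Φ → I.Dart := fun f => ⟨(.inl (pt f), .inr (li f)), adj f⟩
  let b : Φ → I.Dart := fun f => ⟨(.inr (li f), .inl (pt f)), (adj f).symm⟩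
  have ha : Function.Injective a := fun f f' h => by
    have := congrArg SimpleGraph.Dart.toProd h
    simp only [a, Prod.mk.injEq, Sum.inl.injEq, Sum.inr.injEq] at this
    exact hinj f f' this.1 this.2
  have hb : Function.Injective b := fun f f' h => ha (congrArg SimpleGraph.Dart.symm h)
  have hab : ∀ f f', a f ≠ b f' := fun f f' h => by
    have := congrArg (fun d : I.Dart => d.fst) h
    simp [a, b] at this
  have hsur : ∀ d : I.Dart, ∃ f, a f = d ∨ b f = d := fun ⟨(x, y), h⟩ => by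
    obtain ⟨f, ⟨rfl, rfl⟩ | ⟨rfl, rfl⟩⟩ := adj' x y h
    · exact ⟨f, Or.inl rfl⟩
    · exact ⟨f, Or.inr rfl⟩
  let e : Φ ⊕ Φ ≃ I.Dart := Equiv.ofBijective (Sum.elim a b)
    ⟨ha.sumElim hb hab, fun d => by
      obtain ⟨f, h | h⟩ := hsur d
      exacts [⟨.inl f, h⟩, ⟨.inr f, h⟩]⟩
  let σ : Equiv.Perm I.Dart := e.permCongr (Equiv.Perm.sumCongr α ρ)
  have sa : ∀ f, σ (a f) = a (α f) := fun f => by
    show e (Equiv.Perm.sumCongr α ρ (e.symm (e (.inl f)))) = _
    rw [Equiv.symm_apply_apply]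
    rfl
  have sb : ∀ f, σ (b f) = b (ρ f) := fun f => by
    show e (Equiv.Perm.sumCongr α ρ (e.symm (e (.inr f)))) = _
    rw [Equiv.symm_apply_apply]
    rfl
  have fin : Finite I.Dart := inferInstance
  have rot : IsRotationSystem I σ := fun d d' => by
    obtain ⟨f, rfl | rfl⟩ := hsur d
    · rw [gen_cyc σ α a sa]
      refine ⟨fun ⟨f', h, e⟩ => e ▸ congrArg Sum.inl ((hα _ _).1 h), fun h => ?_⟩
      obtain ⟨f', rfl | rfl⟩ := hsur d'
      · exact ⟨f', (hα _ _).2 (Sum.inl.inj h), rfl⟩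
      · exact absurd h Sum.inl_ne_inr
    · rw [gen_cyc σ ρ b sb]
      refine ⟨fun ⟨f', h, e⟩ => e ▸ congrArg Sum.inr ((hρ _ _).1 h), fun h => ?_⟩
      obtain ⟨f', rfl | rfl⟩ := hsur d'
      · exact absurd h Sum.inr_ne_inl
      · exact ⟨f', (hρ _ _).2 (Sum.inr.inj h), rfl⟩
  have hF := gen_faces (σ * dartReverse I) α ρ a b ha hab (fun f => sb f) (fun f => sa f) S hS
  have hE : Nat.card I.edgeSet ≤ Nat.card Φ :=
    Nat.card_le_card_of_surjective (fun f => ⟨s(.inl (pt f), .inr (li f)), adj f⟩) fun ⟨x, hx⟩ => by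
      induction x using Sym2.ind with
      | h x y =>
        obtain ⟨f, ⟨rfl, rfl⟩ | ⟨rfl, rfl⟩⟩ := adj' x y hx
        · exact ⟨f, rfl⟩
        · exact ⟨f, Subtype.ext Sym2.eq_swap⟩
  have hC : Nat.card I.ConnectedComponent ≤ Nat.card Λ :=
    Nat.card_le_card_of_surjective (fun i => I.connectedComponentMk (.inr i)) fun c => by
      obtain ⟨v | i, rfl⟩ := c.exists_rep
      · obtain ⟨f, rfl⟩ := hpt v
        exact ⟨li f, SimpleGraph.ConnectedComponent.sound (adj f).symm.reachable⟩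
      · exact ⟨i, rfl⟩
  refine Nat.sInf_le ⟨σ, rot, ?_⟩
  rw [faceCount, Nat.card_sum]
  simp only [Nat.card_eq_fintype_card (α := Λ), Nat.card_eq_fintype_card (α := V),
    Nat.card_eq_fintype_card (α := Φ)] at hE hC ⊢
  omega

end

section


open Finset

section
variable {k : ℕ} [NeZero k]

/-- The two lines through a point. -/
def rg1_e : Option (ZMod k × ZMod k) × Bool → ZMod k ⊕ ZMod k ⊕ Unit
  | (some p, false) => .inl p.1
  | (some p, true) => if p.1 = 0 ∧ p.2 = 0 then .inr (.inr ()) else .inr (.inl p.2)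
  | (none, false) => .inr (.inl 0)
  | (none, true) => .inr (.inr ())

/-- Lines that can meet. -/
def rg1_A : ZMod k ⊕ ZMod k ⊕ Unit → ZMod k ⊕ ZMod k ⊕ Unit → Prop
  | .inl a, .inr (.inl b) => ¬ (a = 0 ∧ b = 0)
  | .inr (.inl b), .inl a => ¬ (a = 0 ∧ b = 0)
  | .inl a, .inr (.inr _) => a = 0
  | .inr (.inr _), .inl a => a = 0
  | .inr (.inl b), .inr (.inr _) => b = 0
  | .inr (.inr _), .inr (.inl b) => b = 0
  | _, _ => False

lemma rg1_mem {p : Option (ZMod k × ZMod k)} {l : ZMod k ⊕ ZMod k ⊕ Unit} :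
    p ∈ rl k l ↔ ∃ b, l = rg1_e (p, b) := by
  rw [Bool.exists_bool]
  rcases l with i | j | u <;> rcases p with _ | ⟨a, b⟩
  · simp [rl, rg1_e]
  · by_cases h : a = 0 ∧ b = 0 <;> simp [rl, rg1_e, h]
  · simp [rl, rg1_e]
  · by_cases h : a = 0 ∧ b = 0
    · simp +contextual [rl, rg1_e, h.1, h.2]
    · simp only [rl, rg1_e, if_neg h, mem_image, mem_univ, true_and, reduceCtorEq, false_or,
        Sum.inr.injEq, Sum.inl.injEq]
      refine ⟨fun ⟨i, hi⟩ => ?_, fun e => ⟨a, by rw [e, if_neg h]⟩⟩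
      split_ifs at hi
      exact (Prod.ext_iff.1 (Option.some.inj hi)).2
  · simp [rl, rg1_e]
  · by_cases h : a = 0 ∧ b = 0 <;> simp [rl, rg1_e, h]

lemma rg1_ne (p : Option (ZMod k × ZMod k)) {b c : Bool} (h : rg1_e (p, b) = rg1_e (p, c)) :
    b = c := by
  rcases p with _ | p <;> cases b <;> cases c <;> simp only [rg1_e] at h <;>
    first | rfl | (split_ifs at h) | simp at h

lemma rg1_A_of {p : Option (ZMod k × ZMod k)} {x y : ZMod k ⊕ ZMod k ⊕ Unit} (hx : p ∈ rl k x)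
    (hy : p ∈ rl k y) (h : x ≠ y) : rg1_A x y := by
  obtain ⟨b, rfl⟩ := rg1_mem.1 hx
  obtain ⟨c, rfl⟩ := rg1_mem.1 hy
  rcases p with _ | p <;> cases b <;> cases c <;> first | exact absurd rfl h | skip
  all_goals simp only [rg1_e]
  all_goals first | (split_ifs with e <;> simp only [rg1_A] <;> tauto) | simp [rg1_A]

lemma rg1_lin (i j : ZMod k ⊕ ZMod k ⊕ Unit) (u v : Option (ZMod k × ZMod k)) (h : u ≠ v)
    (h1 : u ∈ rl k i) (h2 : v ∈ rl k i) (h3 : u ∈ rl k j) (h4 : v ∈ rl k j) : i = j := by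
  by_contra n
  apply h
  simp only [rg1_mem, Bool.exists_bool] at h1 h2 h3 h4
  rcases u with _ | ⟨a, b⟩ <;> rcases v with _ | ⟨c, d⟩ <;> simp only [rg1_e] at h1 h2 h3 h4
  · rfl
  · split_ifs at h2 h4 <;> grind
  · split_ifs at h1 h3 <;> grind
  · split_ifs at h1 h2 h3 h4 <;> grind

end

theorem p_RG1 :
    S_RG1 := by
  intro k _ hk
  refine ⟨⟨fun _ => subset_univ _, rg1_lin, fun i j l u v w n1 n2 n3 a1 a2 b1 b2 c1 c2 => ?_⟩,
    fun i => ?_, fun ⟨c, h1, h2⟩ => ?_⟩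
  · by_contra n
    have m1 : i ≠ l := fun e => n (rg1_lin i j v w n2 a2 (e ▸ c2) b1 b2)
    have m2 : j ≠ l := fun e => n (rg1_lin i j u v n1 a1 a2 (e ▸ c1) b1)
    have e1 := rg1_A_of a2 b1 n
    have e2 := rg1_A_of a1 c1 m1
    have e3 := rg1_A_of b2 c2 m2
    rcases i with i | i | i <;> rcases j with j | j | j <;> rcases l with l | l | l <;>
      simp only [rg1_A] at e1 e2 e3 <;> tauto
  · rcases i with i | i | i
    · exact card_image_le.trans (by simp)
    · exact card_image_le.trans (by simp)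
    · exact card_le_two.trans hk
  · obtain ⟨t, -, ht⟩ := exists_lt_card_fiber_of_mul_lt_card_of_maps_to (s := univ) (t := range k)
      (f := c) (n := k) (fun p hp => mem_range.2 (h1 p hp)) (by simp)
    have := card_le_card_of_injOn (s := (univ.filter fun p => c p = t) ×ˢ univ) (t := univ) rg1_e
      (fun _ _ => mem_univ _) fun ⟨p, b⟩ hp ⟨q, d⟩ hq e => by
        obtain rfl : p = q := by
          by_contra n
          simp only [coe_product, Set.mem_prod, mem_coe, mem_filter] at hp hq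
          exact h2 p (mem_univ _) q (mem_univ _)
            ⟨n, _, rg1_mem.2 ⟨b, rfl⟩, rg1_mem.2 ⟨d, e⟩⟩ (hp.1.2.trans hq.1.2.symm)
        rw [rg1_ne p e]
    simp only [card_product, card_univ, Fintype.card_bool, Fintype.card_sum, ZMod.card,
      Fintype.card_unit] at this
    omega

end

section


open Finset

lemma rg2_inv {Φ β : Type} [Finite Φ] (σ : Equiv.Perm Φ) (p : Φ → β) (h : ∀ f, p (σ f) = p f)
    {f f' : Φ} (e : σ.SameCycle f f') : p f = p f' := by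
  obtain ⟨q, -, rfl⟩ := e.exists_pow_eq'
  clear e
  induction q with
  | zero => rfl
  | succ q ih => rw [pow_succ', Equiv.Perm.mul_apply, h, ← ih]

/-- The flags of the example. -/
abbrev RgF (k : ℕ) := (ZMod k × ZMod k × Bool) ⊕ Bool

/-- The point of a flag. -/
def rg2Pt (k : ℕ) : RgF k → Option (ZMod k × ZMod k)
  | .inl (i, j, true) => some (i, j)
  | .inl (i, j, false) => if i = 0 ∧ j = 0 then none else some (i, j)
  | .inr true => some (0, 0)
  | .inr false => none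

/-- The line of a flag. -/
def rg2Li (k : ℕ) : RgF k → ZMod k ⊕ ZMod k ⊕ Unit
  | .inl (i, _, true) => .inl i
  | .inl (_, j, false) => .inr (.inl j)
  | .inr _ => .inr (.inr ())

/-- The other flag at the same point. -/
def rg2Al (k : ℕ) : RgF k → RgF k
  | .inl (i, j, b) => if i = 0 ∧ j = 0 then .inr b else .inl (i, j, !b)
  | .inr b => .inl (0, 0, b)

/-- The rotation with steps `u`. -/
def rg2Ro (k : ℕ) (u : ZMod k → ZMod k) : RgF k → RgF k
  | .inl (i, j, true) => .inl (i, j + u i, true)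
  | .inl (i, j, false) => .inl (i + u j, j, false)
  | .inr b => .inr (!b)

lemma rg2_al_inv (k : ℕ) : Function.Involutive (rg2Al k) := by
  rintro (⟨i, j, b⟩ | b)
  · by_cases h : i = 0 ∧ j = 0
    · obtain ⟨rfl, rfl⟩ := h
      simp [rg2Al]
    · simp [rg2Al, h]
  · simp [rg2Al]

/-- The rotation as a permutation. -/
def rg2Rho (k : ℕ) (u : ZMod k → ZMod k) : Equiv.Perm (RgF k) where
  toFun := rg2Ro k u
  invFun := rg2Ro k fun i => -u i
  left_inv := by rintro (⟨i, j, _ | _⟩ | b) <;> simp [rg2Ro]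
  right_inv := by rintro (⟨i, j, _ | _⟩ | b) <;> simp [rg2Ro]

lemma rg2_pow (k : ℕ) (u : ZMod k → ZMod k) (q : ℕ) (i j : ZMod k) :
    (rg2Rho k u ^ q) (.inl (i, j, true)) = .inl (i, j + q * u i, true) ∧
      (rg2Rho k u ^ q) (.inl (i, j, false)) = .inl (i + q * u j, j, false) := by
  induction q with
  | zero => simp
  | succ q ih =>
    rw [pow_succ', Equiv.Perm.mul_apply, Equiv.Perm.mul_apply, ih.1, ih.2]
    refine ⟨?_, ?_⟩ <;> simp [rg2Rho, rg2Ro, add_mul, add_assoc]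

lemma rg2_pt_eq (k : ℕ) (f f' : RgF k) (h : rg2Pt k f = rg2Pt k f') :
    f' = f ∨ f' = rg2Al k f := by
  rcases f with ⟨i, j, _ | _⟩ | _ | _ <;> rcases f' with ⟨i', j', _ | _⟩ | _ | _ <;>
    simp only [rg2Pt, rg2Al] at h ⊢ <;> (try split_ifs at h ⊢) <;>
    simp_all [eq_comm (a := (0 : ZMod k))]

lemma rg2_pt_al (k : ℕ) (f : RgF k) : rg2Pt k (rg2Al k f) = rg2Pt k f := by
  rcases f with ⟨i, j, _ | _⟩ | _ | _ <;> simp only [rg2Al] <;> (try split_ifs) <;>
    simp_all [rg2Pt]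

lemma rg2_main (hGEN : S_GEN) (k : ℕ) [NeZero k] (u : ZMod k → ZMod k)
    (hu : ∀ i, u i = 1 ∨ u i = -1) (hs : ∀ i, u (i + 1) = -u i) (g : ℕ)
    (hg : 2 * k ^ 2 + 14 * k + 8 ≤ 8 * g) :
    genus (incidenceGraph fun i => (rl k i : Set (Option (ZMod k × ZMod k)))) ≤ g := by
  classical
  have hs' : ∀ i, u (i + -1) = -u i := fun i => by
    have := hs (i + -1)
    rw [neg_add_cancel_right] at this
    rw [this, neg_neg]
  have h1 : ∀ i j, u (i + u j) = -u i := fun i j => by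
    rcases hu j with e | e <;> rw [e]
    exacts [hs i, hs' i]
  have h2 : ∀ i j, u (i + -u j) = -u i := fun i j => by
    rcases hu j with e | e <;> rw [e]
    exacts [hs' i, by rw [neg_neg]; exact hs i]
  have huu : ∀ i, u i * u i = 1 := fun i => by rcases hu i with e | e <;> simp [e]
  let B : Finset (ZMod k) := univ \ {-1, 0, 1}
  have hB : k ≤ B.card + 3 := by
    have a1 : ({-1, 0, 1} : Finset (ZMod k)).card ≤ 3 := card_le_three
    have a2 := le_card_sdiff ({-1, 0, 1} : Finset (ZMod k)) univ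
    rw [card_univ, ZMod.card] at a2
    simp only [B]; omega
  refine hGEN _ _ (RgF k) (rl k) (rg2Pt k) (rg2Li k) (rg2_al_inv k).toPerm (rg2Rho k u)
    ((B ×ˢ (univ : Finset (ZMod k × Bool))).map Function.Embedding.inl) g ?_ ?_ ?_ ?_ ?_ ?_ ?_
  · rintro v (i | j | ⟨⟩)
    · simp only [rl, mem_image, mem_univ, true_and]
      refine ⟨fun ⟨j, e⟩ => ⟨.inl (i, j, true), e, rfl⟩, ?_⟩
      rintro ⟨⟨a, b, _ | _⟩ | _, e, e'⟩ <;> simp only [rg2Li, reduceCtorEq, Sum.inl.injEq] at e'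
      exact ⟨b, e' ▸ e⟩
    · simp only [rl, mem_image, mem_univ, true_and]
      refine ⟨fun ⟨i, e⟩ => ⟨.inl (i, j, false), e, rfl⟩, ?_⟩
      rintro ⟨⟨a, b, _ | _⟩ | _, e, e'⟩ <;>
        simp only [rg2Li, reduceCtorEq, Sum.inl.injEq, Sum.inr.injEq] at e'
      exact ⟨a, e' ▸ e⟩
    · simp only [rl, mem_insert, mem_singleton]
      refine ⟨?_, ?_⟩
      · rintro (rfl | rfl)
        exacts [⟨.inr false, rfl, rfl⟩, ⟨.inr true, rfl, rfl⟩]
      · rintro ⟨⟨a, b, _ | _⟩ | _ | _, e, e'⟩ <;>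
          simp only [rg2Li, reduceCtorEq, Sum.inr.injEq] at e'
        exacts [Or.inl e.symm, Or.inr e.symm]
  · intro f f' e e'
    rcases rg2_pt_eq k f f' e with rfl | rfl
    · rfl
    · exfalso
      rcases f with ⟨i, j, _ | _⟩ | _ | _ <;> simp only [rg2Al] at e' <;> (try split_ifs at e') <;>
        simp [rg2Li] at e'
  · rintro (_ | ⟨i, j⟩)
    exacts [⟨.inr false, rfl⟩, ⟨.inl (i, j, true), rfl⟩]
  · refine fun f f' => ⟨rg2_inv _ _ (rg2_pt_al k), fun e => ?_⟩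
    rcases rg2_pt_eq k f f' e with rfl | rfl
    exacts [Equiv.Perm.SameCycle.refl _ _, ⟨1, rfl⟩]
  · refine fun f f' => ⟨rg2_inv _ _ ?_, fun e => ?_⟩
    · rintro (⟨i, j, _ | _⟩ | b) <;> rfl
    · rcases f with ⟨i, j, _ | _⟩ | b <;> rcases f' with ⟨i', j', _ | _⟩ | b' <;>
        simp only [rg2Li, reduceCtorEq, Sum.inl.injEq, Sum.inr.injEq] at e
      · subst e
        refine ⟨(((i' - i) * u j).val : ℕ), ?_⟩
        rw [zpow_natCast, (rg2_pow k u _ i j).2, ZMod.natCast_zmod_val, mul_assoc, huu]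
        simp
      · subst e
        refine ⟨(((j' - j) * u i).val : ℕ), ?_⟩
        rw [zpow_natCast, (rg2_pow k u _ i j).1, ZMod.natCast_zmod_val, mul_assoc, huu]
        simp
      · by_cases hb : b' = b
        · exact hb ▸ Equiv.Perm.SameCycle.refl _ _
        · exact ⟨1, by cases b <;> cases b' <;> first | rfl | exact absurd rfl hb⟩
  · intro f hf
    obtain ⟨⟨i, j, b⟩, hi, rfl⟩ := mem_map.1 hf
    have hi' : ¬ (i = -1 ∨ i = 0 ∨ i = 1) := by simpa [B] using (mem_product.1 hi).1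
    have n0 : i ≠ 0 := fun e => hi' (Or.inr (Or.inl e))
    have n1 : i + u j ≠ 0 := fun e => hi' (by
      rcases hu j with c | c <;> rw [c] at e
      exacts [Or.inl (eq_neg_of_add_eq_zero_left e), Or.inr (Or.inr (add_neg_eq_zero.1 e))])
    have n2 : i + -u j ≠ 0 := fun e => hi' (by
      rcases hu j with c | c <;> rw [c] at e
      exacts [Or.inr (Or.inr (add_neg_eq_zero.1 e)),
        Or.inl (eq_neg_of_add_eq_zero_left (by rwa [neg_neg] at e))])
    have st : ∀ a c, a ≠ 0 → ((rg2_al_inv k).toPerm * rg2Rho k u) (.inl (a, c, true)) =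
        .inl (a, c + u a, false) := fun a c h => by simp [rg2Rho, rg2Ro, rg2Al, h]
    have sf : ∀ a c, a + u c ≠ 0 → ((rg2_al_inv k).toPerm * rg2Rho k u) (.inl (a, c, false)) =
        .inl (a + u c, c, true) := fun a c h => by simp [rg2Rho, rg2Ro, rg2Al, h]
    have p4 : ∀ (σ : Equiv.Perm (RgF k)) x, (σ ^ 4) x = σ (σ (σ (σ x))) := fun σ x => rfl
    rw [p4, Function.Embedding.inl_apply]
    cases b
    · rw [sf i j n1, st _ _ n1, h1, sf _ _ (by rw [h2]; simpa using n0), h2, add_neg_cancel_right,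
        st _ _ n0, neg_add_cancel_right]
    · rw [st i j n0, sf _ _ (by rw [h1]; exact n2), h1, st _ _ n2, h2, add_neg_cancel_right,
        sf _ _ (by simpa using n0), neg_add_cancel_right]
  · simp only [card_map, card_product, card_univ, Fintype.card_sum, Fintype.card_prod, ZMod.card,
      Fintype.card_bool, Fintype.card_unit, Fintype.card_option]
    nlinarith [Nat.mul_le_mul_left k hB]

theorem p_RG2 (hGEN : S_GEN) :
    S_RG2 := by
  intro n _ hn
  let φ := ZMod.castHom (dvd_mul_right 2 n) (ZMod 2)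
  refine rg2_main hGEN (2 * n) (fun i => if φ i = 0 then 1 else -1)
    (fun i => by by_cases h : φ i = 0 <;> simp [h]) (fun i => ?_) _ (by nlinarith)
  have h : ∀ x : ZMod 2, x + 1 = 0 ↔ ¬ x = 0 := by decide
  simp only [map_add, map_one, h]
  by_cases e : φ i = 0 <;> simp [e]

end

section


open Finset

lemma low_chi {V Λ : Type} [Fintype V] [DecidableEq V] [DecidableEq Λ] (ln : Λ → Finset V) (k : ℕ)
    (h : ¬ ∃ c, PC ln univ k c) : ∃ N : ℕ, (gr ln).chromaticNumber = N ∧ k < N := by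
  have h1 : (gr ln).chromaticNumber ≠ ⊤ :=
    ne_top_of_le_ne_top (ENat.natCast_ne_top _) (gr ln).colorable_of_fintype.chromaticNumber_le
  obtain ⟨N, hN⟩ := ENat.ne_top_iff_exists.1 h1
  refine ⟨N, hN.symm, lt_of_not_ge fun hk => h ?_⟩
  have h2 : (gr ln).Colorable k := by
    rw [← SimpleGraph.chromaticNumber_le_iff_colorable, ← hN]
    exact_mod_cast hk
  obtain ⟨C⟩ := h2
  exact ⟨fun v => (C v : ℕ), fun v _ => (C v).2,
    fun u _ v _ huv e => C.valid (show (gr ln).Adj u v from huv) (Fin.ext e)⟩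

theorem p_LOW (hGCP : S_GCP) (hRG1 : S_RG1) (hRG2 : S_RG2) :
    S_LOW := by
  intro ε hε
  refine ⟨max 16 ⌈(5 / ε) ^ 2⌉₊, fun g hg => ?_⟩
  have hg1 : 16 ≤ g := le_trans (le_max_left _ _) hg
  have hg2 : (5 / ε) ^ 2 ≤ (g : ℝ) := Nat.ceil_le.1 (le_trans (le_max_right _ _) hg)
  have hs : 4 ≤ Nat.sqrt g := Nat.le_sqrt.2 (by omega)
  obtain ⟨n, hn⟩ : ∃ n, Nat.sqrt g = n + 2 := ⟨Nat.sqrt g - 2, by omega⟩
  have hn2 : 2 ≤ n := by omega
  have : NeZero (2 * n) := ⟨by omega⟩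
  obtain ⟨hG, hc, hP⟩ := hRG1 (2 * n) (by omega)
  obtain ⟨h1, h2, h3⟩ := hGCP _ _ (rl (2 * n)) (2 * n) (by omega) hG hc
  obtain ⟨N, hN, hk⟩ := low_chi _ _ hP
  have hsq : (n + 2) * (n + 2) ≤ g := hn ▸ Nat.sqrt_le g
  have hlt : g < (n + 3) * (n + 3) := by
    have := Nat.lt_succ_sqrt g
    rwa [hn] at this
  refine ⟨_, inferInstance, gr (rl (2 * n)), N, h1, ?_, hN, max_lt ?_ ?_⟩
  · refine le_trans (Nat.sInf_le ⟨_, inferInstance, _, h2, rfl⟩) ((hRG2 n hn2).trans ?_)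
    nlinarith
  · have a1 : √(g : ℝ) < n + 3 := by
      rw [Real.sqrt_lt' (by positivity)]
      have : (g : ℝ) < (n + 3) * (n + 3) := by exact_mod_cast hlt
      nlinarith
    have a2 : 5 / ε ≤ √(g : ℝ) := Real.le_sqrt_of_sq_le hg2
    have a3 : 5 ≤ ε * √(g : ℝ) := by rwa [div_le_iff₀' hε] at a2
    have a4 : ((2 * n + 1 : ℕ) : ℝ) ≤ N := by exact_mod_cast hk
    push_cast at a4
    nlinarith
  · exact_mod_cast lt_of_le_of_lt h3 hk

end

end Pool.Agent.P.MP_1fec7a_co.S
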