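import Pool.Agent.P.MP_1fec7a_co.S.Iface

/-! Geometry: removal, structure, degeneracy. -/

set_option autoImplicit false
set_option linter.unusedSectionVars false
set_option linter.unusedVariables false

namespace Pool.Agent.P.MP_1fec7a_co.S

section


open Finset

lemma rem_core (ε : ℝ) (hε : 0 < ε) : ∃ n₀ : ℝ, ∀ (α : Type) [Fintype α] [DecidableEq α]
    (G : SimpleGraph α) [DecidableRel G.Adj], G.EdgeDisjointTriangles →
    ((G.cliqueFinset 3).card : ℝ) ≤ ε * (Fintype.card α : ℝ) ^ 2 + n₀ := by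
  have hb := SimpleGraph.triangleRemovalBound_pos hε
  refine ⟨(1 / SimpleGraph.triangleRemovalBound ε) ^ 2, fun α _ _ G _ hG => ?_⟩
  set b := SimpleGraph.triangleRemovalBound ε with hbdef
  set N : ℝ := (Fintype.card α : ℝ) with hN
  have hN0 : 0 ≤ N := Nat.cast_nonneg _
  have h1 : ((G.cliqueFinset 3).card : ℝ) ≤ N ^ 2 := by
    have a1 := hG.card_edgeFinset_le
    have a2 := G.card_edgeFinset_le_card_choose_two
    have a3 : (Fintype.card α).choose 2 ≤ Fintype.card α ^ 2 := Nat.choose_le_pow _ _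
    have a4 : (G.cliqueFinset 3).card ≤ Fintype.card α ^ 2 := by omega
    rw [hN]; exact_mod_cast a4
  by_cases h : ε * N ^ 2 ≤ (G.cliqueFinset 3).card
  · have h2 : G.FarFromTriangleFree ε := hG.farFromTriangleFree (by push_cast; exact h)
    have h3 : b * N ^ 3 ≤ (G.cliqueFinset 3).card := h2.le_card_cliqueFinset
    have h4 : N ≤ 1 / b := by
      rcases hN0.eq_or_lt with e | e
      · rw [← e]; positivity
      · rw [le_div_iff₀ hb]
        have h5 : (N * b) * N ^ 2 ≤ 1 * N ^ 2 := by nlinarith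
        exact le_of_mul_le_mul_right h5 (by positivity)
    have h6 : N ^ 2 ≤ (1 / b) ^ 2 := pow_le_pow_left₀ hN0 h4 2
    have h7 : 0 ≤ ε * N ^ 2 := by positivity
    linarith
  · have h7 : 0 ≤ (1 / b) ^ 2 := by positivity
    linarith [not_le.1 h]

lemma rem_triples {α : Type} [DecidableEq α] (m : ℕ) : ∀ s : Finset α, 3 * m ≤ s.card →
    ∃ T : Finset (Finset α), T.card = m ∧ (∀ t ∈ T, t ⊆ s ∧ t.card = 3) ∧
      ∀ t ∈ T, ∀ u ∈ T, ∀ x, x ∈ t → x ∈ u → t = u := by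
  induction m with
  | zero => intro s _; exact ⟨∅, rfl, by simp, by simp⟩
  | succ m ih =>
    intro s hs
    obtain ⟨t, ht, hc⟩ := exists_subset_card_eq (s := s) (n := 3) (by omega)
    obtain ⟨T, h1, h2, h3⟩ := ih (s \ t) (by rw [card_sdiff_of_subset ht]; omega)
    have hn : ∀ u ∈ T, ∀ x, x ∈ t → x ∉ u := fun u hu x hx hxu =>
      (mem_sdiff.1 ((h2 u hu).1 hxu)).2 hx
    have hT : t ∉ T := fun h => by
      obtain ⟨x, hx⟩ : t.Nonempty := card_pos.1 (by omega)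
      exact hn t h x hx hx
    refine ⟨insert t T, by rw [card_insert_of_notMem hT, h1], fun u hu => ?_, ?_⟩
    · rcases mem_insert.1 hu with rfl | hu
      · exact ⟨ht, hc⟩
      · exact ⟨(h2 u hu).1.trans sdiff_subset, (h2 u hu).2⟩
    · intro u hu v hv x hxu hxv
      rcases mem_insert.1 hu with e | hu' <;> rcases mem_insert.1 hv with e' | hv'
      · rw [e, e']
      · exact absurd hxv (hn v hv' x (e ▸ hxu))
      · exact absurd hxu (hn u hu' x (e' ▸ hxv))
      · exact h3 u hu' v hv' x hxu hxv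

lemma rem_graph {V Λ : Type} [DecidableEq V] [DecidableEq Λ] (P : Finset V) (ln : Λ → Finset V)
    (Lr : Finset Λ) (hg : Geo P ln) : ∃ (G : SimpleGraph Lr) (_ : DecidableRel G.Adj),
    G.EdgeDisjointTriangles ∧
      ∑ v ∈ P, (thr ln Lr v).card / 3 ≤ (G.cliqueFinset 3).card := by
  classical
  have hcard : ∀ p : V, (univ.filter fun x : Lr => p ∈ ln x).card = (thr ln Lr p).card := by
    intro p
    refine card_bij (fun x _ => (x : Λ)) ?_ ?_ ?_
    · intro x hx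
      exact mem_fl.2 ⟨x.2, (mem_filter.1 hx).2⟩
    · intro x _ y _ h
      exact Subtype.ext h
    · intro y hy
      exact ⟨⟨y, (mem_fl.1 hy).1⟩, mem_filter.2 ⟨mem_univ _, (mem_fl.1 hy).2⟩, rfl⟩
  have hex : ∀ p : V, ∃ T : Finset (Finset Lr), T.card = (thr ln Lr p).card / 3 ∧
      (∀ t ∈ T, t ⊆ (univ.filter fun x : Lr => p ∈ ln x) ∧ t.card = 3) ∧
      ∀ t ∈ T, ∀ u ∈ T, ∀ x, x ∈ t → x ∈ u → t = u := fun p =>
    rem_triples _ _ (by rw [hcard]; omega)
  choose T hT1 hT2 hT3 using hex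
  have hon : ∀ p, ∀ t ∈ T p, ∀ x ∈ t, p ∈ ln (x : Lr) := fun p t ht x hx =>
    (mem_filter.1 ((hT2 p t ht).1 hx)).2
  have hlin : ∀ p q : V, ∀ x y : Lr, x ≠ y → p ∈ ln x → q ∈ ln x → p ∈ ln y → q ∈ ln y → p = q :=
    fun p q x y hxy a b c d => by
      by_contra e
      exact hxy (Subtype.ext (hg.lin _ _ p q e a b c d))
  let G : SimpleGraph Lr :=
    { Adj := fun x y => x ≠ y ∧ ∃ p, ∃ t ∈ T p, x ∈ t ∧ y ∈ t
      symm := ⟨fun _ _ h => ⟨h.1.symm, by
        obtain ⟨p, t, ht, a, b⟩ := h.2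
        exact ⟨p, t, ht, b, a⟩⟩⟩
      loopless := ⟨fun _ h => h.1 rfl⟩ }
  have htri : ∀ s, G.IsNClique 3 s → ∃ p, s ∈ T p := by
    intro s hs
    obtain ⟨x, y, z, ⟨nxy, p, t1, m1, x1, y1⟩, ⟨nxz, r, t3, m3, x3, z3⟩,
      ⟨nyz, q, t2, m2, y2, z2⟩, rfl⟩ := SimpleGraph.is3Clique_iff.1 hs
    have px := hon p t1 m1 x x1
    have py := hon p t1 m1 y y1
    have qy := hon q t2 m2 y y2
    have qz := hon q t2 m2 z z2
    have rx := hon r t3 m3 x x3
    have rz := hon r t3 m3 z z3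
    have hpq : p = q := by
      by_contra e
      by_cases e1 : q = r
      · exact e (hlin p q x y nxy px (e1 ▸ rx) py qy)
      by_cases e2 : p = r
      · exact e (hlin p q y z nyz py qy (e2 ▸ rz) qz)
      exact nyz (Subtype.ext (hg.tri _ _ _ p q r e e1 e2 py qy qz rz px rx))
    subst hpq
    have e := hT3 p t1 m1 t2 m2 y y1 y2
    subst e
    refine ⟨p, ?_⟩
    have hsub : ({x, y, z} : Finset Lr) ⊆ t1 := by
      simp only [insert_subset_iff, singleton_subset_iff]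
      exact ⟨x1, y1, z2⟩
    rw [eq_of_subset_of_card_le hsub (by rw [(hT2 p t1 m1).2, hs.card_eq])]
    exact m1
  refine ⟨G, inferInstance, ?_, ?_⟩
  · intro s hs t ht hst x hx y hy
    obtain ⟨p, hp⟩ := htri s hs
    obtain ⟨q, hq⟩ := htri t ht
    by_contra e
    have hpq := hlin p q x y e (hon p s hp x hx.1) (hon q t hq x hx.2) (hon p s hp y hy.1)
      (hon q t hq y hy.2)
    subst hpq
    exact hst (hT3 p s hp t hq x hx.1 hx.2)
  · have hd : (P : Set V).PairwiseDisjoint T := by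
      intro p _ q _ hpq
      refine disjoint_left.2 fun t hp hq => hpq ?_
      obtain ⟨x, hx, y, hy, e⟩ := one_lt_card.1 (show 1 < t.card by rw [(hT2 p t hp).2]; omega)
      exact hlin p q x y e (hon p t hp x hx) (hon q t hq x hx) (hon p t hp y hy) (hon q t hq y hy)
    rw [sum_congr rfl fun p _ => (hT1 p).symm, ← card_biUnion hd]
    refine card_le_card fun t ht => ?_
    obtain ⟨p, _, hp⟩ := mem_biUnion.1 ht
    refine SimpleGraph.mem_cliqueFinset_iff.2 ⟨fun x hx y hy e => ⟨e, p, t, hp, hx, hy⟩, ?_⟩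
    exact (hT2 p t hp).2

theorem p_REM :
    S_REM := by
  intro δ C hδ
  obtain ⟨n₀, hn⟩ := rem_core (δ / (2 * (C ^ 2 + 1))) (by positivity)
  obtain ⟨k₀, hk₀⟩ := exists_nat_ge (2 * n₀ / δ)
  refine ⟨k₀ + 1, fun k hk V Λ _ _ P ln Lr hg hL => ?_⟩
  obtain ⟨G, _, h1, h2⟩ := rem_graph P ln Lr hg
  have h3 := hn Lr G h1
  rw [Fintype.card_coe] at h3
  have h4 : (∑ v ∈ P, (((thr ln Lr v).card / 3 : ℕ) : ℝ)) ≤ (G.cliqueFinset 3).card := by
    exact_mod_cast h2
  have hk1 : (k₀ : ℝ) + 1 ≤ k := by exact_mod_cast hk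
  have hk0 : (0 : ℝ) ≤ k₀ := Nat.cast_nonneg _
  have h5 : (Lr.card : ℝ) ^ 2 ≤ (C ^ 2 + 1) * k ^ 2 := by
    have := pow_le_pow_left₀ (Nat.cast_nonneg _) hL 2
    nlinarith [sq_nonneg (k : ℝ)]
  have h6 : δ / (2 * (C ^ 2 + 1)) * (Lr.card : ℝ) ^ 2 ≤ δ / 2 * k ^ 2 := by
    calc _ ≤ δ / (2 * (C ^ 2 + 1)) * ((C ^ 2 + 1) * k ^ 2) :=
          mul_le_mul_of_nonneg_left h5 (by positivity)
      _ = δ / 2 * k ^ 2 := by field_simp
  have h7 : n₀ ≤ δ / 2 * k ^ 2 := by
    rw [div_le_iff₀ hδ] at hk₀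
    have : (k₀ : ℝ) ≤ (k : ℝ) ^ 2 := by nlinarith
    nlinarith
  linarith

end

section


open Finset

lemma str_dc {V Λ : Type} [DecidableEq V] [DecidableEq Λ] (ln : Λ → Finset V) (L : Finset Λ)
    (Y : Finset V) :
    ∑ v ∈ Y, ((thr ln L v).card : ℝ) = ∑ i ∈ L, ((ln i ∩ Y).card : ℝ) := by
  have h1 : ∀ v, ((thr ln L v).card : ℝ) = ∑ i ∈ L, if v ∈ ln i then (1 : ℝ) else 0 := fun v => by
    rw [thr, fl_eq, card_filter]; push_cast; rfl
  have h2 : ∀ i, ((ln i ∩ Y).card : ℝ) = ∑ v ∈ Y, if v ∈ ln i then (1 : ℝ) else 0 := fun i => by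
    rw [inter_comm, ← filter_mem_eq_inter, card_filter]; push_cast; rfl
  simp only [h1, h2]
  exact sum_comm

lemma str_markov {α : Type} (s : Finset α) (p : α → Prop) (f : α → ℝ) (t : ℝ)
    (h0 : ∀ a ∈ s, 0 ≤ f a) (h : ∀ a ∈ s, p a → t ≤ f a) :
    ((fl s p).card : ℝ) * t ≤ ∑ a ∈ s, f a := by
  calc ((fl s p).card : ℝ) * t = ∑ a ∈ fl s p, t := by rw [sum_const, nsmul_eq_mul]
    _ ≤ ∑ a ∈ fl s p, f a := sum_le_sum fun a ha => h a (mem_fl.1 ha).1 (mem_fl.1 ha).2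
    _ ≤ _ := sum_le_sum_of_subset_of_nonneg (fl_subset s p) fun a ha _ => h0 a ha

lemma str_bu {V Λ : Type} [DecidableEq V] (L : Finset Λ) (f : Λ → Finset V) (t : ℝ)
    (h : ∀ i ∈ L, ((f i).card : ℝ) ≤ t) : ((L.biUnion f).card : ℝ) ≤ L.card * t := by
  calc ((L.biUnion f).card : ℝ) ≤ ((∑ i ∈ L, (f i).card : ℕ) : ℝ) := by
        exact_mod_cast card_biUnion_le
    _ = ∑ i ∈ L, ((f i).card : ℝ) := by push_cast; rfl
    _ ≤ ∑ i ∈ L, t := sum_le_sum h
    _ = _ := by rw [sum_const, nsmul_eq_mul]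

lemma str_thr_mono {V Λ : Type} [DecidableEq V] [DecidableEq Λ] (ln : Λ → Finset V)
    {L L' : Finset Λ} (h : L ⊆ L') (v : V) : (thr ln L v).card ≤ (thr ln L' v).card :=
  card_le_card (fl_mono fun _ hi e => ⟨h hi, e⟩)

/-- The weight of the first exceptional set. -/
lemma str_X0 {V Λ : Type} [DecidableEq V] [DecidableEq Λ] [Fintype Λ] {P : Finset V}
    {ln : Λ → Finset V} (hG : Geo P ln) (Lr : Finset Λ) (k s : ℝ) (hs : 0 < s)
    (hsum : ∑ i, ((ln i).card : ℝ) ≤ 400 * k ^ 2)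
    (hrem : ∑ v ∈ P, (((thr ln Lr v).card / 3 : ℕ) : ℝ) ≤ s ^ 2 / 12 * k ^ 2) :
    ∑ v ∈ fl P fun v => 2400 / s ^ 2 < ((thr ln univ v).card : ℝ) ∨ 3 ≤ (thr ln Lr v).card,
      (1 + ((thr ln Lr v).card : ℝ)) ≤ s ^ 2 * k ^ 2 := by
  classical
  have h1 : ∑ v ∈ P, ((thr ln univ v).card : ℝ) ≤ 400 * k ^ 2 := by
    rw [str_dc]
    exact (sum_le_sum fun i _ => by exact_mod_cast card_le_card inter_subset_left).trans hsum
  have h2 := (str_markov P (fun v => 2400 / s ^ 2 < ((thr ln univ v).card : ℝ))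
    (fun v => ((thr ln univ v).card : ℝ)) (2400 / s ^ 2) (fun _ _ => Nat.cast_nonneg _)
    fun _ _ h => h.le).trans h1
  set H := fl P fun v => 2400 / s ^ 2 < ((thr ln univ v).card : ℝ) with hH
  have h3 : (H.card : ℝ) ≤ s ^ 2 * k ^ 2 / 6 := by
    have hs2 : 0 < s ^ 2 := by positivity
    rw [← mul_div_assoc, div_le_iff₀ hs2] at h2
    nlinarith
  have h4 : ∑ v ∈ P, (if v ∈ H then (3 : ℝ) else 0) = 3 * H.card := by
    rw [← sum_filter, filter_mem_eq_inter, inter_eq_right.2 (fl_subset _ _), sum_const,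
      nsmul_eq_mul, mul_comm]
  calc _ ≤ ∑ v ∈ fl P fun v => 2400 / s ^ 2 < ((thr ln univ v).card : ℝ) ∨
        3 ≤ (thr ln Lr v).card, ((if v ∈ H then (3 : ℝ) else 0) +
          6 * (((thr ln Lr v).card / 3 : ℕ) : ℝ)) := by
        refine sum_le_sum fun v hv => ?_
        obtain ⟨hP, hv⟩ := mem_fl.1 hv
        by_cases h3 : 3 ≤ (thr ln Lr v).card
        · have : 1 + (thr ln Lr v).card ≤ 6 * ((thr ln Lr v).card / 3) := by omega
          have : (1 : ℝ) + (thr ln Lr v).card ≤ 6 * (((thr ln Lr v).card / 3 : ℕ) : ℝ) := by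
            exact_mod_cast this
          split_ifs <;> linarith
        · have hv' : v ∈ H := mem_fl.2 ⟨hP, hv.resolve_right h3⟩
          have : ((thr ln Lr v).card : ℝ) ≤ 2 := by exact_mod_cast (by omega : _ ≤ 2)
          have : (0 : ℝ) ≤ (((thr ln Lr v).card / 3 : ℕ) : ℝ) := Nat.cast_nonneg _
          rw [if_pos hv']; linarith
    _ ≤ ∑ v ∈ P, ((if v ∈ H then (3 : ℝ) else 0) + 6 * (((thr ln Lr v).card / 3 : ℕ) : ℝ)) :=
        sum_le_sum_of_subset_of_nonneg (fl_subset _ _) fun v _ _ => by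
          split_ifs <;> positivity
    _ ≤ _ := by rw [sum_add_distrib, h4, ← mul_sum]; linarith

theorem p_STR (hREM : S_REM) :
    S_STR := by
  intro σ hσ
  obtain ⟨s, hs, hs1, hsσ⟩ : ∃ s : ℝ, 0 < s ∧ s ≤ 1 / 4 ∧ 4 * s ≤ σ :=
    ⟨min σ 1 / 4, by positivity, by linarith [min_le_right σ 1], by linarith [min_le_left σ 1]⟩
  obtain ⟨η, hη, hηs, hηD⟩ : ∃ η : ℝ, 0 < η ∧ η ≤ s ∧ 2400 / s ^ 2 * η = s :=
    ⟨s ^ 3 / 2400, by positivity, by nlinarith [mul_pos hs hs], by field_simp⟩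
  obtain ⟨k₀, hk₀⟩ := hREM (s ^ 2 / 12) (400 / η) (by positivity)
  refine ⟨400 / η, max k₀ 1, fun k hk V Λ _ _ _ P ln hG hln hsum => ?_⟩
  have hk1 : (1 : ℝ) ≤ k := by exact_mod_cast (le_max_right _ _).trans hk
  have hk0 : (0 : ℝ) < k := by linarith
  have hsum' : ∑ i, ((ln i).card : ℝ) ≤ 400 * (k : ℝ) ^ 2 := by exact_mod_cast hsum
  have hln' : ∀ i, ((ln i).card : ℝ) ≤ k := fun i => by exact_mod_cast hln i
  obtain ⟨Lr, hLr⟩ : ∃ Lr, Lr = fl (univ : Finset Λ) fun i => η * k ≤ ((ln i).card : ℝ) :=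
    ⟨_, rfl⟩
  have mLr : ∀ i, i ∈ Lr ↔ η * k ≤ ((ln i).card : ℝ) := fun i => by simp [hLr]
  have cLr : (Lr.card : ℝ) ≤ 400 / η * k := by
    have := (str_markov (univ : Finset Λ) (fun i => η * k ≤ ((ln i).card : ℝ))
      (fun i => ((ln i).card : ℝ)) (η * k) (fun _ _ => Nat.cast_nonneg _)
      fun _ _ h => h).trans hsum'
    rw [← hLr] at this
    rw [div_mul_eq_mul_div, le_div_iff₀ hη]
    nlinarith
  have hX0 := str_X0 hG Lr k s hs hsum'
    (hk₀ k ((le_max_left _ _).trans hk) V Λ P ln Lr hG cLr)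
  obtain ⟨X0, hX⟩ : ∃ X0, X0 = fl P fun v => 2400 / s ^ 2 < ((thr ln univ v).card : ℝ) ∨
    3 ≤ (thr ln Lr v).card := ⟨_, rfl⟩
  rw [← hX, sum_add_distrib, sum_const, nsmul_eq_mul, mul_one] at hX0
  have mX : ∀ v ∈ P, v ∉ X0 → ((thr ln univ v).card : ℝ) ≤ 2400 / s ^ 2 ∧
      (thr ln Lr v).card ≤ 2 := fun v hv h => by
    rw [hX, mem_fl, not_and, not_or, not_lt] at h
    exact ⟨(h hv).1, by have := (h hv).2; omega⟩
  have a0 : (0 : ℝ) ≤ X0.card := Nat.cast_nonneg _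
  have a1 : (0 : ℝ) ≤ ∑ v ∈ X0, ((thr ln Lr v).card : ℝ) := by positivity
  obtain ⟨Bd, hBd⟩ : ∃ Bd, Bd = fl Lr fun i => s * k < ((ln i ∩ X0).card : ℝ) := ⟨_, rfl⟩
  have cBd : (Bd.card : ℝ) ≤ s * k := by
    have := str_markov Lr (fun i => s * k < ((ln i ∩ X0).card : ℝ))
      (fun i => ((ln i ∩ X0).card : ℝ)) (s * k) (fun _ _ => Nat.cast_nonneg _) fun _ _ h => h.le
    rw [← hBd, ← str_dc] at this
    have hp : 0 < s * k := by positivity
    refine le_of_mul_le_mul_right ?_ hp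
    nlinarith
  have cB : ((Bd.biUnion ln).card : ℝ) ≤ s * k ^ 2 := by
    have := str_bu Bd ln k fun i _ => hln' i
    nlinarith
  have hBP : Bd.biUnion ln ⊆ P := biUnion_subset.2 fun i _ => hG.sub i
  have hk2 : (0 : ℝ) < k ^ 2 := by positivity
  have hss : s ^ 2 * k ^ 2 ≤ s * k ^ 2 := mul_le_mul_of_nonneg_right (by nlinarith) hk2.le
  have hsk : 4 * s * k ≤ σ * k := mul_le_mul_of_nonneg_right hsσ hk0.le
  have hsk2 : 4 * s * k ^ 2 ≤ σ * k ^ 2 := mul_le_mul_of_nonneg_right hsσ hk2.le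
  have hp1 : 0 < s * k := by positivity
  have hp2 : 0 < s * k ^ 2 := by positivity
  refine ⟨X0 ∪ Bd.biUnion ln, Bd, Lr \ Bd, union_subset (hX ▸ fl_subset _ _) hBP, disjoint_sdiff,
    by linarith, le_trans (by exact_mod_cast card_le_card sdiff_subset) cLr, ?_, ?_, ?_, ?_⟩
  · have : ((X0 ∪ Bd.biUnion ln).card : ℝ) ≤ X0.card + (Bd.biUnion ln).card := by
      exact_mod_cast card_union_le _ _
    linarith
  · rw [← union_sdiff_self_eq_union, sum_union disjoint_sdiff]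
    have b1 : ∑ v ∈ X0, ((thr ln (Lr \ Bd) v).card : ℝ) ≤ ∑ v ∈ X0, ((thr ln Lr v).card : ℝ) :=
      sum_le_sum fun v _ => by exact_mod_cast str_thr_mono ln sdiff_subset v
    have b2 : ∑ v ∈ Bd.biUnion ln \ X0, ((thr ln (Lr \ Bd) v).card : ℝ) ≤
        ∑ v ∈ Bd.biUnion ln \ X0, (2 : ℝ) := sum_le_sum fun v hv => by
      exact_mod_cast (str_thr_mono ln sdiff_subset v).trans
        (mX v (hBP (mem_sdiff.1 hv).1) (mem_sdiff.1 hv).2).2
    rw [sum_const, nsmul_eq_mul] at b2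
    have b3 : ((Bd.biUnion ln \ X0).card : ℝ) ≤ (Bd.biUnion ln).card := by
      exact_mod_cast card_le_card sdiff_subset
    linarith
  · intro i hi
    by_cases hiL : i ∈ Lr
    · have b1 : ((ln i ∩ X0).card : ℝ) ≤ s * k := by
        rw [hBd, mem_fl, not_and, not_lt] at hi
        exact hi hiL
      have b2 := str_bu Bd (fun j => ln i ∩ ln j) 1 fun j hj => by
        have : (ln i ∩ ln j).card ≤ 1 := card_le_one.2 fun u hu v hv => by
          by_contra e
          exact hi (hG.lin i j u v e (mem_inter.1 hu).1 (mem_inter.1 hv).1 (mem_inter.1 hu).2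
            (mem_inter.1 hv).2 ▸ hj)
        exact_mod_cast this
      have b3 : ((ln i ∩ (X0 ∪ Bd.biUnion ln)).card : ℝ) ≤
          (ln i ∩ X0).card + (Bd.biUnion fun j => ln i ∩ ln j).card := by
        rw [inter_union_distrib_left, inter_biUnion]
        exact_mod_cast card_union_le _ _
      linarith
    · have b1 := not_le.1 (mt (mLr i).2 hiL)
      have b2 : ((ln i ∩ (X0 ∪ Bd.biUnion ln)).card : ℝ) ≤ (ln i).card := by
        exact_mod_cast card_le_card inter_subset_left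
      have b3 : η * k ≤ s * k := mul_le_mul_of_nonneg_right hηs hk0.le
      linarith
  · intro v hv
    obtain ⟨hvP, hvX⟩ := mem_sdiff.1 hv
    rw [mem_union, not_or] at hvX
    obtain ⟨m1, m2⟩ := mX v hvP hvX.1
    refine ⟨(str_thr_mono ln sdiff_subset v).trans m2, ?_⟩
    have b1 : (fl P fun u => u ≠ v ∧ ∃ i ∉ Lr \ Bd, u ∈ ln i ∧ v ∈ ln i) ⊆
        (thr ln univ v \ Lr).biUnion ln := fun u hu => by
      obtain ⟨_, _, i, hi, h1, h2⟩ := mem_fl.1 hu
      refine mem_biUnion.2 ⟨i, mem_sdiff.2 ⟨mem_fl.2 ⟨mem_univ _, h2⟩, fun h => hi ?_⟩, h1⟩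
      exact mem_sdiff.2 ⟨h, fun h' => hvX.2 (mem_biUnion.2 ⟨i, h', h2⟩)⟩
    have b2 := str_bu (thr ln univ v \ Lr) ln (η * k) fun i hi =>
      (not_le.1 (mt (mLr i).2 (mem_sdiff.1 hi).2)).le
    have b3 : ((thr ln univ v \ Lr).card : ℝ) ≤ 2400 / s ^ 2 :=
      le_trans (by exact_mod_cast card_le_card sdiff_subset) m1
    have b4 : ((thr ln univ v \ Lr).card : ℝ) * (η * k) ≤ s * k := by
      rw [← hηD, mul_assoc (2400 / s ^ 2)]
      exact mul_le_mul_of_nonneg_right (hηD.symm ▸ b3) (by positivity)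
    have b5 : ((fl P fun u => u ≠ v ∧ ∃ i ∉ Lr \ Bd, u ∈ ln i ∧ v ∈ ln i).card : ℝ) ≤
        ((thr ln univ v \ Lr).biUnion ln).card := by exact_mod_cast card_le_card b1
    linarith

end

section


open Finset

lemma deg_one {V Λ : Type} [DecidableEq V] [DecidableEq Λ] [Fintype Λ] {P U : Finset V}
    {ln : Λ → Finset V} (G : Geo P ln) {v u : V} (hu : u ∈ U) {l : Λ} (hvl : v ∈ ln l)
    (hul : u ∈ ln l) (hne : v ≠ u) :
    ((nb ln U u).card : ℝ) ≤ (ln l ∩ U).card +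
      2 * ∑ i ∈ fl univ fun i => u ∈ ln i ∧ v ∉ ln i, cost (ln i ∩ U).card := by
  have h1 : nb ln U u ⊆ (ln l ∩ U) ∪
      (fl univ fun i => u ∈ ln i ∧ v ∉ ln i).biUnion fun i => (ln i ∩ U).erase u := by
    intro w hw
    obtain ⟨hwU, hn, i, hi, hwi⟩ := mem_fl.1 hw
    by_cases hv : v ∈ ln i
    · exact mem_union_left _ (mem_inter.2 ⟨G.lin i l v u hne hv hi hvl hul ▸ hwi, hwU⟩)
    · exact mem_union_right _ (mem_biUnion.2 ⟨i, mem_fl.2 ⟨mem_univ _, hi, hv⟩,
        mem_erase.2 ⟨hn.symm, mem_inter.2 ⟨hwi, hwU⟩⟩⟩)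
  have h2 := (card_le_card h1).trans ((card_union_le _ _).trans
    (Nat.add_le_add_left card_biUnion_le _))
  have h3 : ((nb ln U u).card : ℝ) ≤ (ln l ∩ U).card +
      ∑ i ∈ fl univ fun i => u ∈ ln i ∧ v ∉ ln i, (((ln i ∩ U).erase u).card : ℝ) := by
    exact_mod_cast h2
  refine h3.trans (add_le_add_right ?_ _)
  rw [mul_sum]
  refine sum_le_sum fun i hi => ?_
  have h4 := card_erase_add_one (mem_inter.2 ⟨(mem_fl.1 hi).2.1, hu⟩ : u ∈ ln i ∩ U)
  have h5 : (((ln i ∩ U).erase u).card : ℝ) + 1 = (ln i ∩ U).card := by exact_mod_cast h4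
  have := half_le_cost (ln i ∩ U).card
  linarith

theorem p_DEG :
    S_DEG := by
  intro V Λ _ _ _ P U ln D s G hU hD hs hdeg hl
  obtain ⟨v, hv⟩ := hU
  have h1 : ∀ u ∈ nb ln U v, (D - s) / 2 ≤
      ∑ i ∈ fl univ fun i => u ∈ ln i ∧ v ∉ ln i, cost (ln i ∩ U).card := by
    intro u hu
    obtain ⟨huU, hn, l, hvl, hul⟩ := mem_fl.1 hu
    have := deg_one G huU hvl hul hn
    have := hdeg u huU
    have := hl l
    linarith
  have h2 : ((nb ln U v : Finset V) : Set V).PairwiseDisjoint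
      fun u => fl univ fun i => u ∈ ln i ∧ v ∉ ln i := by
    intro u hu u' hu' hne
    refine disjoint_left.2 fun i hi hi' => hne ?_
    exact G.one (mem_fl.1 hi).2.2 (mem_fl.1 hi).2.1 (mem_fl.1 hi').2.1
      (mem_fl.1 (mem_coe.1 hu)).2 (mem_fl.1 (mem_coe.1 hu')).2
  have h3 := card_nsmul_le_sum _ _ _ h1
  rw [← sum_biUnion h2, nsmul_eq_mul] at h3
  have h4 := sum_le_sum_of_subset_of_nonneg (subset_univ ((nb ln U v).biUnion
    fun u => fl univ fun i => u ∈ ln i ∧ v ∉ ln i))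
    (f := fun i => cost (ln i ∩ U).card) fun i _ _ => cost_nonneg _
  have h5 := mul_le_mul_of_nonneg_right (hdeg v hv) (show 0 ≤ (D - s) / 2 by linarith)
  linarith

end

section


open Finset

theorem p_BAL :
    S_BAL := by
  intro V _ W Ad k e M S w h1 h2 he hM
  induction W using Finset.strongInduction with
  | H W ih =>
  intro h3 h4 h5
  have hS : 0 ≤ S := (sum_nonneg fun v hv => (h3 v hv).1).trans h4
  rcases W.eq_empty_or_nonempty with rfl | hW
  · refine ⟨fun _ => 0, by simp, by simp, fun c => ?_⟩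
    rw [show (fl (∅ : Finset V) fun _ => 0 = c) = ∅ from subset_empty.1 (fl_subset _ _), sum_empty]
    positivity
  obtain ⟨v, hv, hd⟩ := h5 W subset_rfl hW
  have s1 : ∑ u ∈ W.erase v, w u ≤ S :=
    (sum_le_sum_of_subset_of_nonneg (erase_subset _ _) fun u hu _ => (h3 u hu).1).trans h4
  obtain ⟨c, c1, c2, c3⟩ := ih (W.erase v) (erase_ssubset hv)
    (fun u hu => h3 u (mem_of_mem_erase hu)) s1 fun W' a => h5 W' (a.trans (erase_subset _ _))
  let Fr := range k \ (fl W (Ad v)).image c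
  have f1 : e ≤ Fr.card := by
    have a := le_card_sdiff ((fl W (Ad v)).image c) (range k)
    have b := card_image_le (s := fl W (Ad v)) (f := c)
    have d : k ≤ Fr.card + (fl W (Ad v)).card := by
      rw [card_range] at a
      simp only [Fr]
      omega
    have : (k : ℝ) ≤ Fr.card + (fl W (Ad v)).card := by exact_mod_cast d
    linarith
  have f2 : ∑ c₀ ∈ Fr, ∑ u ∈ fl (W.erase v) fun u => c u = c₀, w u ≤ ∑ _c ∈ Fr, S / e := by
    simp only [fl_eq]
    rw [sum_fiberwise_eq_sum_filter, sum_const, nsmul_eq_mul]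
    refine ((sum_le_sum_of_subset_of_nonneg (filter_subset _ _) fun u hu _ =>
      (h3 u (mem_of_mem_erase hu)).1).trans s1).trans ?_
    rw [mul_div_assoc', le_div_iff₀ he]
    nlinarith
  obtain ⟨c₀, a1, a2⟩ := exists_le_of_sum_le (card_pos.1 (Nat.cast_pos.1 (he.trans_le f1))) f2
  obtain ⟨a3, a4⟩ := mem_sdiff.1 a1
  have key : ∀ u ∈ W, Ad v u → Function.update c v c₀ v ≠ Function.update c v c₀ u := by
    intro u hu a
    have : u ≠ v := fun e => h2 v (e ▸ a)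
    rw [Function.update_self, Function.update_of_ne this]
    exact fun e => a4 (mem_image.2 ⟨u, mem_fl.2 ⟨hu, a⟩, e.symm⟩)
  refine ⟨Function.update c v c₀, fun u hu => ?_, fun u hu u' hu' a => ?_, fun c₁ => ?_⟩
  · by_cases b : u = v
    · rw [b, Function.update_self]; exact mem_range.1 a3
    · rw [Function.update_of_ne b]; exact c1 u (mem_erase.2 ⟨b, hu⟩)
  · by_cases b : u = v
    · subst b; exact key u' hu' a
    by_cases b' : u' = v
    · subst b'; exact (key u hu (h1 _ _ a)).symm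
    rw [Function.update_of_ne b, Function.update_of_ne b']
    exact c2 u (mem_erase.2 ⟨b, hu⟩) u' (mem_erase.2 ⟨b', hu'⟩) a
  · by_cases b : c₀ = c₁
    · have : (fl W fun u => Function.update c v c₀ u = c₁) =
          insert v (fl (W.erase v) fun u => c u = c₀) := by
        ext u
        by_cases d : u = v <;> simp [d, b, hv]
      rw [this, sum_insert (by simp)]
      linarith [(h3 v hv).2]
    · have : (fl W fun u => Function.update c v c₀ u = c₁) = fl (W.erase v) fun u => c u = c₁ := by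
        ext u
        by_cases d : u = v <;> simp [d, b]
      rw [this]
      exact c3 c₁

end

section


open Finset

theorem p_DH :
    S_DH := by
  classical
  intro V _ Z S Bad p q hZ hp hq hpq
  have key : ∀ T : Finset {v // v ∈ Z},
      T.card ≤ (T.biUnion fun v => fl S fun c => ¬ Bad v.1 c).card := by
    intro T
    rcases T.eq_empty_or_nonempty with rfl | ⟨v, hv⟩
    · simp
    by_cases hT : q < (T.card : ℝ)
    · have hsub : S ⊆ T.biUnion fun v => fl S fun c => ¬ Bad v.1 c := by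
        intro c hc
        by_contra hn
        have h1 : T.map (Function.Embedding.subtype _) ⊆ fl Z fun v => Bad v c := by
          intro w hw
          obtain ⟨u, hu, rfl⟩ := mem_map.1 hw
          refine mem_fl.2 ⟨u.2, ?_⟩
          by_contra hb
          exact hn (mem_biUnion.2 ⟨u, hu, mem_fl.2 ⟨hc, hb⟩⟩)
        have h2 := card_le_card h1
        rw [card_map] at h2
        have h3 : (T.card : ℝ) ≤ ((fl Z fun v => Bad v c).card : ℝ) := by exact_mod_cast h2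
        linarith [hq c hc]
      have h4 : T.card ≤ Z.card := by
        simpa using card_le_univ T
      exact h4.trans (hZ.trans (card_le_card hsub))
    · have h1 : (fl S fun c => ¬ Bad v.1 c) ⊆ T.biUnion fun v => fl S fun c => ¬ Bad v.1 c :=
        subset_biUnion_of_mem (fun v : {v // v ∈ Z} => fl S fun c => ¬ Bad v.1 c) hv
      have h2 : S ⊆ fl S (Bad v.1) ∪ fl S fun c => ¬ Bad v.1 c := by
        intro c hc
        by_cases hb : Bad v.1 c
        · exact mem_union_left _ (mem_fl.2 ⟨hc, hb⟩)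
        · exact mem_union_right _ (mem_fl.2 ⟨hc, hb⟩)
      have h3 := (card_le_card h2).trans (card_union_le _ _)
      have h4 := card_le_card h1
      have h5 : (S.card : ℝ) ≤ ((fl S (Bad v.1)).card : ℝ) +
          ((T.biUnion fun v => fl S fun c => ¬ Bad v.1 c).card : ℝ) := by
        exact_mod_cast h3.trans (Nat.add_le_add_left h4 _)
      have h6 : (T.card : ℝ) ≤ ((T.biUnion fun v => fl S fun c => ¬ Bad v.1 c).card : ℝ) := by
        linarith [hp v.1 v.2, not_lt.1 hT]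
      exact_mod_cast h6
  obtain ⟨f, hf, hm⟩ := (Finset.all_card_le_biUnion_card_iff_exists_injective _).1 key
  refine ⟨fun v => if h : v ∈ Z then f ⟨v, h⟩ else 0, fun v hv => ?_, fun u hu v hv h => ?_⟩
  · simp only [dif_pos hv]
    exact mem_fl.1 (hm ⟨v, hv⟩)
  · simp only [dif_pos hu, dif_pos hv] at h
    exact congrArg Subtype.val (hf h)

end

end Pool.Agent.P.MP_1fec7a_co.S
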