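import Pool.Agent.P.MP_1fec7a_co.S.Iface

/-! The exceptional points and the weights. -/

set_option autoImplicit false
set_option linter.unusedSectionVars false
set_option linter.unusedVariables false

namespace Pool.Agent.P.MP_1fec7a_co.S

section


open Finset

theorem p_EX2 (hDH : S_DH) :
    S_EX2 := by
  intro V Λ _ _ P X W ln Bd k c hG hWX hc h1 h2 h3
  have uniq : ∀ v ∈ X, v ∉ W → ∀ i ∈ Bd, ∀ j ∈ Bd, v ∈ ln i → v ∈ ln j → i = j := by
    intro v hv hW i hi j hj a b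
    exact card_le_one.1 (h1 v (mem_sdiff.2 ⟨hv, hW⟩)).le i (mem_fl.2 ⟨hi, a⟩) j (mem_fl.2 ⟨hj, b⟩)
  have key : ∀ B : Finset Λ, B ⊆ Bd → ∃ c' : V → ℕ,
      PC ln (fl X fun v => v ∈ W ∨ ∃ j ∈ B, v ∈ ln j) k c' ∧ (∀ v ∈ W, c' v = c v) ∧
      ∀ c₀, (fl (fl X fun v => v ∈ W ∨ ∃ j ∈ B, v ∈ ln j) fun v => c' v = c₀).card ≤
        (fl W fun v => c v = c₀).card + B.card := by
    intro B
    induction B using Finset.induction_on with
    | empty =>
      intro _
      have e : (fl X fun v => v ∈ W ∨ ∃ j ∈ (∅ : Finset Λ), v ∈ ln j) = W := by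
        ext v
        simpa using fun h => hWX h
      rw [e]
      exact ⟨c, hc, fun _ _ => rfl, fun _ => by simp⟩
    | insert i B hiB ih =>
      intro hsub
      have hi : i ∈ Bd := hsub (mem_insert_self _ _)
      have hB : B ⊆ Bd := (subset_insert _ _).trans hsub
      obtain ⟨c', p1, p2, p3⟩ := ih hB
      set XB := fl X fun v => v ∈ W ∨ ∃ j ∈ B, v ∈ ln j with hXB
      set Z := fl X fun v => v ∉ W ∧ v ∈ ln i with hZ
      set S := range k \ (ln i ∩ W).image c with hS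
      obtain ⟨q1, q2, q3⟩ := h2 i hi
      have hZX : ∀ v ∈ XB, v ∉ Z := by
        intro v hv hz
        obtain ⟨a, b, d⟩ := mem_fl.1 hz
        rcases (mem_fl.1 hv).2 with h | ⟨j, hj, h⟩
        · exact b h
        · exact hiB (uniq v a b i hi j (hB hj) d h ▸ hj)
      have hSc : k ≤ S.card + (ln i ∩ W).card := by
        have a := le_card_sdiff ((ln i ∩ W).image c) (range k)
        have b := card_image_le (s := ln i ∩ W) (f := c)
        rw [card_range, ← hS] at a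
        omega
      have hZc : Z.card + (ln i ∩ W).card ≤ k := by
        have a : Z ⊆ ln i \ W := fun v hv =>
          mem_sdiff.2 ⟨(mem_fl.1 hv).2.2, (mem_fl.1 hv).2.1⟩
        have b := card_le_card a
        have d := card_sdiff_add_card_inter (ln i) W
        omega
      obtain ⟨g, g1, g2⟩ := hDH V Z S
        (fun v c₀ => ∃ u ∈ XB, u ∉ ln i ∧ Coll ln v u ∧ c' u = c₀) (k / 4) (k / 4) (by omega)
        (fun v hv => by
          obtain ⟨a, b, d⟩ := mem_fl.1 hv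
          have e := q3 v (mem_sdiff.2 ⟨a, b⟩) d
          have s : fl S (fun c₀ => ∃ u ∈ XB, u ∉ ln i ∧ Coll ln v u ∧ c' u = c₀) ⊆
              (nb ln X v \ ln i).image c' := by
            intro c₀ h
            obtain ⟨u, u1, u2, u3, u4⟩ := (mem_fl.1 h).2
            exact mem_image.2 ⟨u, mem_sdiff.2 ⟨mem_fl.2 ⟨(mem_fl.1 u1).1, u3⟩, u2⟩, u4⟩
          have t := (card_le_card s).trans card_image_le
          rw [le_div_iff₀ (by norm_num)]
          exact_mod_cast (by omega : _ * 4 ≤ k))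
        (fun c₀ _ => by
          have t : (fl Z fun v => ∃ u ∈ XB, u ∉ ln i ∧ Coll ln v u ∧ c' u = c₀).card ≤
              (fl XB fun v => c' v = c₀).card := by
            refine card_le_card_of_forall_subsingleton (fun v u => u ∉ ln i ∧ Coll ln v u)
              (fun v hv => ?_) fun u _ v hv v' hv' => ?_
            · obtain ⟨u, u1, u2, u3, u4⟩ := (mem_fl.1 hv).2
              exact ⟨u, mem_fl.2 ⟨u1, u4⟩, u2, u3⟩
            · exact hG.one hv.2.1 (mem_fl.1 (mem_fl.1 (mem_coe.1 hv.1)).1).2.2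
                (mem_fl.1 (mem_fl.1 (mem_coe.1 hv'.1)).1).2.2 hv.2.2.symm hv'.2.2.symm
          have e := p3 c₀
          have e' := h3 c₀
          have e'' := card_le_card hB
          rw [le_div_iff₀ (by norm_num)]
          exact_mod_cast (by omega : _ * 4 ≤ k))
        (by
          have : (k : ℝ) ≤ 2 * S.card := by exact_mod_cast (by omega : k ≤ 2 * S.card)
          linarith)
      have hmem : ∀ v ∈ fl X fun v => v ∈ W ∨ ∃ j ∈ insert i B, v ∈ ln j, v ∉ Z → v ∈ XB := by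
        intro v hv hz
        obtain ⟨a, b⟩ := mem_fl.1 hv
        by_cases hW : v ∈ W
        · exact mem_fl.2 ⟨a, Or.inl hW⟩
        · obtain ⟨j, hj, h⟩ := b.resolve_left hW
          rcases mem_insert.1 hj with rfl | hj
          · exact absurd (mem_fl.2 ⟨a, hW, h⟩) hz
          · exact mem_fl.2 ⟨a, Or.inr ⟨j, hj, h⟩⟩
      have mixed : ∀ u ∈ Z, ∀ v ∈ XB, Coll ln u v → g u ≠ c' v := by
        intro u hu v hv h e
        by_cases hl : v ∈ ln i
        · have hW : v ∈ W := by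
            by_contra hW
            exact hZX v hv (mem_fl.2 ⟨(mem_fl.1 hv).1, hW, hl⟩)
          exact (mem_sdiff.1 (g1 u hu).1).2
            (mem_image.2 ⟨v, mem_inter.2 ⟨hl, hW⟩, by rw [e, p2 v hW]⟩)
        · exact (g1 u hu).2 ⟨v, hv, hl, h, e.symm⟩
      refine ⟨fun v => if v ∈ Z then g v else c' v, ⟨fun v hv => ?_, fun u hu v hv h => ?_⟩,
        fun v hv => ?_, fun c₀ => ?_⟩
      · by_cases hz : v ∈ Z
        · simp only [if_pos hz]
          exact mem_range.1 (mem_sdiff.1 (g1 v hz).1).1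
        · simp only [if_neg hz]
          exact p1.1 v (hmem v hv hz)
      · by_cases hu' : u ∈ Z <;> by_cases hv' : v ∈ Z
        · simp only [if_pos hu', if_pos hv']
          exact fun e => h.1 (g2 u hu' v hv' e)
        · simp only [if_pos hu', if_neg hv']
          exact mixed u hu' v (hmem v hv hv') h
        · simp only [if_neg hu', if_pos hv']
          exact (mixed v hv' u (hmem u hu hu') h.symm).symm
        · simp only [if_neg hu', if_neg hv']
          exact p1.2 u (hmem u hu hu') v (hmem v hv hv') h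
      · have hz : v ∉ Z := fun hz => (mem_fl.1 hz).2.1 hv
        simp only [if_neg hz]
        exact p2 v hv
      · have s : (fl (fl X fun v => v ∈ W ∨ ∃ j ∈ insert i B, v ∈ ln j)
            fun v => (if v ∈ Z then g v else c' v) = c₀) ⊆
            (fl Z fun v => g v = c₀) ∪ fl XB fun v => c' v = c₀ := by
          intro v hv
          obtain ⟨a, b⟩ := mem_fl.1 hv
          by_cases hz : v ∈ Z
          · rw [if_pos hz] at b
            exact mem_union_left _ (mem_fl.2 ⟨hz, b⟩)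
          · rw [if_neg hz] at b
            exact mem_union_right _ (mem_fl.2 ⟨hmem v a hz, b⟩)
        have t := (card_le_card s).trans (card_union_le _ _)
        have o : (fl Z fun v => g v = c₀).card ≤ 1 := card_le_one.2 fun u hu v hv =>
          g2 u (mem_fl.1 hu).1 v (mem_fl.1 hv).1 ((mem_fl.1 hu).2.trans (mem_fl.1 hv).2.symm)
        have e := p3 c₀
        rw [card_insert_of_notMem hiB]
        exact t.trans (by omega)
  obtain ⟨c', p1, p2, -⟩ := key Bd subset_rfl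
  have e : (fl X fun v => v ∈ W ∨ ∃ j ∈ Bd, v ∈ ln j) = X := by
    refine (fl_subset _ _).antisymm fun v hv => mem_fl.2 ⟨hv, ?_⟩
    by_cases hW : v ∈ W
    · exact Or.inl hW
    · obtain ⟨j, hj⟩ := card_pos.1 (show 0 < (thr ln Bd v).card by
        rw [h1 v (mem_sdiff.2 ⟨hv, hW⟩)]; exact one_pos)
      exact Or.inr ⟨j, mem_fl.1 hj⟩
  rw [e] at p1
  exact ⟨c', p1, p2⟩

end

section


open Finset

section
variable {V Λ : Type} [DecidableEq V] [DecidableEq Λ] {P : Finset V} {ln : Λ → Finset V}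

lemma ex1_second (hG : Geo P ln) (Bd : Finset Λ) (i : Λ) :
    (fl (ln i) fun v => ∃ j ∈ Bd, j ≠ i ∧ v ∈ ln j).card ≤ Bd.card := by
  refine card_le_card_of_forall_subsingleton (fun v j => j ≠ i ∧ v ∈ ln i ∧ v ∈ ln j)
    (fun v hv => ?_) (fun j _ u hu v hv => ?_)
  · obtain ⟨h1, j, h2, h3, h4⟩ := mem_fl.1 hv
    exact ⟨j, h2, h3, h1, h4⟩
  · by_contra e
    exact hu.2.1 (hG.lin j i u v e hu.2.2.2 hv.2.2.2 hu.2.2.1 hv.2.2.1)

lemma ex1_far (hG : Geo P ln) (X : Finset V) (i : Λ) (k : ℕ) :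
    (fl (ln i) fun v => k < 4 * (nb ln X v \ ln i).card).card * k ≤ 4 * X.card := by
  obtain ⟨A, hA⟩ : ∃ A, A = fl (ln i) fun v => k < 4 * (nb ln X v \ ln i).card := ⟨_, rfl⟩
  rw [← hA]
  have h1 : (A.biUnion fun v => nb ln X v \ ln i).card = ∑ v ∈ A, (nb ln X v \ ln i).card := by
    refine card_biUnion fun u hu v hv e => disjoint_left.2 fun p h1 h2 => e ?_
    rw [hA] at hu hv
    exact hG.one (mem_sdiff.1 h1).2 (mem_fl.1 hu).1 (mem_fl.1 hv).1
      (mem_fl.1 (mem_sdiff.1 h1).1).2.symm (mem_fl.1 (mem_sdiff.1 h2).1).2.symm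
  have h2 : (A.biUnion fun v => nb ln X v \ ln i).card ≤ X.card :=
    card_le_card (biUnion_subset.2 fun v _ => sdiff_subset.trans (fl_subset _ _))
  have h3 : A.card * k ≤ ∑ v ∈ A, 4 * (nb ln X v \ ln i).card := by
    rw [← smul_eq_mul]
    exact card_nsmul_le_sum _ _ _ fun v hv => (mem_fl.1 (hA ▸ hv)).2.le
  rw [← mul_sum, ← h1] at h3
  omega

lemma ex1_heavy (S : Finset V) (w : V → ℝ) (h : ∀ v ∈ S, 0 ≤ w v) (t : ℝ) :
    ((fl S fun v => t < w v).card : ℝ) * t ≤ ∑ v ∈ S, w v := by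
  rw [← nsmul_eq_mul]
  exact (card_nsmul_le_sum _ _ _ fun v hv => (mem_fl.1 hv).2.le).trans
    (sum_le_sum_of_subset_of_nonneg (fl_subset _ _) fun v hv _ => h v hv)

end

theorem p_EX1 (hDEG : S_DEG) (hBAL : S_BAL) :
    S_EX1 := by
  intro ε τ hε hε2 hτ hτε k M V Λ _ _ _ P X ln Bd w hk hM hG hB hBd hX hw hS h5
  have hk' : (0 : ℝ) < k := by exact_mod_cast hk
  have hw0 : ∀ v ∈ X, 0 ≤ w v := fun v hv => zero_le_one.trans (hw v hv).1
  have hXc : (X.card : ℝ) ≤ τ ^ 2 * k ^ 2 := by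
    refine le_trans ?_ hS
    rw [← mul_one (X.card : ℝ), ← nsmul_eq_mul]
    exact card_nsmul_le_sum _ _ _ fun v hv => (hw v hv).1
  have hτ1 : τ ≤ 1 / 80 := by linarith
  have hτk : 0 < τ * k := mul_pos hτ hk'
  have hτ2 : τ ^ 2 * k ≤ 1 / 80 * (τ * k) := by nlinarith
  obtain ⟨W, hW⟩ : ∃ W, W = fl X fun v => (thr ln Bd v).card ≠ 1 ∨
    (∃ i ∈ Bd, v ∈ ln i ∧ k < 4 * (nb ln X v \ ln i).card) ∨ 1 / τ < w v := ⟨_, rfl⟩
  have hWX : W ⊆ X := hW ▸ fl_subset _ _
  have hline : ∀ i, ((ln i ∩ W).card : ℝ) ≤ 6 * (τ * k) := by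
    intro i
    by_cases hi : i ∈ Bd
    · have h1 : ln i ∩ W ⊆ (fl (ln i) fun v => ∃ j ∈ Bd, j ≠ i ∧ v ∈ ln j) ∪
          ((fl (ln i) fun v => k < 4 * (nb ln X v \ ln i).card) ∪
            fl (ln i ∩ X) fun v => 1 / τ < w v) := by
        intro v hv
        obtain ⟨a, b⟩ := mem_inter.1 hv
        rw [hW, mem_fl] at b
        simp only [mem_union, mem_fl, mem_inter]
        rcases b.2 with c | ⟨j, c1, c2, c3⟩ | c
        · refine Or.inl ⟨a, ?_⟩
          by_contra e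
          push Not at e
          refine c (card_eq_one.2 ⟨i, eq_singleton_iff_unique_mem.2
            ⟨mem_fl.2 ⟨hi, a⟩, fun j hj => ?_⟩⟩)
          by_contra e'
          exact e j (mem_fl.1 hj).1 e' (mem_fl.1 hj).2
        · by_cases e : j = i
          · subst e
            exact Or.inr (Or.inl ⟨a, c3⟩)
          · exact Or.inl ⟨a, j, c1, e, c2⟩
        · exact Or.inr (Or.inr ⟨⟨a, b.1⟩, c⟩)
      have h2 := (card_le_card h1).trans ((card_union_le _ _).trans
        (Nat.add_le_add_left (card_union_le _ _) _))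
      have h3 := ex1_second hG Bd i
      have h4 := ex1_far hG X i k
      have h6 := (ex1_heavy (ln i ∩ X) w (fun v hv => hw0 v (mem_inter.1 hv).2) (1 / τ)).trans
        (h5 i hi)
      rw [mul_one_div, div_le_iff₀ hτ] at h6
      generalize (fl (ln i) fun v => ∃ j ∈ Bd, j ≠ i ∧ v ∈ ln j).card = a at *
      generalize (fl (ln i) fun v => k < 4 * (nb ln X v \ ln i).card).card = b at *
      generalize (fl (ln i ∩ X) fun v => 1 / τ < w v).card = c at *
      have h2' : ((ln i ∩ W).card : ℝ) ≤ a + (b + c) := by exact_mod_cast h2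
      have h3' : (a : ℝ) ≤ Bd.card := by exact_mod_cast h3
      have h4' : (b : ℝ) * k ≤ 4 * X.card := by exact_mod_cast h4
      have h7 : (b : ℝ) ≤ 4 * (τ ^ 2 * k) :=
        le_of_mul_le_mul_right (h4'.trans (by nlinarith)) hk'
      nlinarith
    · have h1 : ((ln i ∩ W).card : ℝ) ≤ (ln i ∩ X).card := by
        exact_mod_cast card_le_card (inter_subset_inter_left hWX)
      linarith [hX i hi]
  have he : 0 < ε * k / 4 := by positivity
  obtain ⟨c, c1, c2, c3⟩ := hBAL V W (Coll ln) k (ε * k / 4) M (τ ^ 2 * k ^ 2) w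
    (fun _ _ h => h.symm) (fun _ h => h.1 rfl) he hM
    (fun v hv => ⟨hw0 v (hWX hv), (hw v (hWX hv)).2⟩)
    ((sum_le_sum_of_subset_of_nonneg hWX fun v hv _ => hw0 v hv).trans hS) (by
      intro W' h1 h2
      by_contra e
      push Not at e
      have h3 := hDEG V Λ P W' ln (k - ε * k / 4) (6 * (τ * k)) hG h2 (by nlinarith)
        (by nlinarith) (fun v hv => by have := e v hv; rw [nb]; linarith) (fun i => le_trans
          (by exact_mod_cast card_le_card (inter_subset_inter_left h1)) (hline i))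
      have h4 : (W'.card : ℝ) ≤ X.card := by exact_mod_cast card_le_card (h1.trans hWX)
      have h6 := h3.trans (hB W')
      have h7 : τ ^ 2 + (1 / 2 - ε) < (1 - ε / 4) * (1 - ε / 4 - 6 * τ) / 2 := by nlinarith
      have h8 := mul_lt_mul_of_pos_right h7 (pow_pos hk' 2)
      nlinarith)
  refine ⟨W, c, hWX, ⟨c1, c2⟩, fun v hv => ?_, fun i hi => ⟨?_, fun v hv hvi => ?_⟩,
    fun c₀ => (c3 c₀).trans ?_⟩
  · obtain ⟨a, b⟩ := mem_sdiff.1 hv
    rw [hW, mem_fl] at b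
    push Not at b
    exact ⟨(b a).1, (b a).2.2⟩
  · have h1 : 2 * ((ln i ∩ W).card : ℝ) ≤ k := by nlinarith [hline i]
    exact_mod_cast h1
  · obtain ⟨a, b⟩ := mem_sdiff.1 hv
    rw [hW, mem_fl] at b
    push Not at b
    exact (b a).2.1 i hi hvi
  · refine add_le_add_left ?_ _
    rw [div_le_iff₀ he]
    have h1 : 0 ≤ τ * k ^ 2 * (ε / 4 - τ) := mul_nonneg (by positivity) (by linarith)
    nlinarith

end

section


open Finset

lemma exc_card {V Λ : Type} [DecidableEq V] [DecidableEq Λ] {X W : Finset V} {ln : Λ → Finset V}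
    {Bd : Finset Λ} {k : ℕ} {c : V → ℕ} (hc : PC ln X k c)
    (h : ∀ v ∈ X \ W, (thr ln Bd v).card = 1) (c₀ : ℕ) :
    (fl (X \ W) fun v => c v = c₀).card ≤ Bd.card := by
  refine card_le_card_of_forall_subsingleton (fun v i => v ∈ ln i) ?_ ?_
  · intro v hv
    obtain ⟨i, hi⟩ := card_pos.1 (show 0 < (thr ln Bd v).card by
      rw [h v (mem_fl.1 hv).1]
      exact one_pos)
    exact ⟨i, (mem_fl.1 hi).1, (mem_fl.1 hi).2⟩
  · rintro i hi u ⟨hu, hu'⟩ v ⟨hv, hv'⟩
    by_contra e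
    have h1 := mem_fl.1 hu
    have h2 := mem_fl.1 hv
    exact hc.2 u (mem_sdiff.1 h1.1).1 v (mem_sdiff.1 h2.1).1 ⟨e, i, hu', hv'⟩ (h1.2.trans h2.2.symm)

theorem p_EXC (hEX1 : S_EX1) (hEX2 : S_EX2) :
    S_EXC := by
  intro ε δ he he' hd
  obtain ⟨τ, t0, t1, t2⟩ : ∃ τ : ℝ, 0 < τ ∧ τ ≤ ε / 40 ∧ τ ≤ δ / 3 :=
    ⟨min (ε / 40) (δ / 3), lt_min (by positivity) (by positivity), min_le_left _ _,
      min_le_right _ _⟩
  refine ⟨τ ^ 2, by positivity, fun M => ?_⟩
  obtain ⟨N, n0, n1⟩ : ∃ N : ℝ, 0 ≤ N ∧ M ≤ N := ⟨max M 0, le_max_right _ _, le_max_left _ _⟩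
  refine ⟨⌈10 * N⌉₊ + ⌈3 * N / δ⌉₊ + 1, ?_⟩
  intro k hk V Λ _ _ _ P X ln Bd w hG hl hB hBd hs hw hsum hlin
  have k0 : 0 < k := by omega
  have k1 : 10 * N ≤ k := Nat.ceil_le.1 (by omega)
  have k2 : 3 * N / δ ≤ k := Nat.ceil_le.1 (by omega)
  rw [div_le_iff₀ hd] at k2
  have kp : (0 : ℝ) ≤ k := Nat.cast_nonneg k
  obtain ⟨W, c, hW, hc, h1, h2, h3⟩ := hEX1 ε τ he he' t0 t1 k N V Λ P X ln Bd w k0 n0 hG hB hBd hs
    (fun v hv => ⟨(hw v hv).1, (hw v hv).2.trans n1⟩) hsum hlin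
  have a1 : τ * k ≤ 1 / 80 * k := mul_le_mul_of_nonneg_right (by linarith) kp
  have a2 : τ ^ 2 * k ≤ τ * k := mul_le_mul_of_nonneg_right (by nlinarith) kp
  have a3 : τ * k ≤ δ / 3 * k := mul_le_mul_of_nonneg_right t2 kp
  obtain ⟨c', hc', e⟩ := hEX2 V Λ P X W ln Bd k c hG hW hc (fun v hv => (h1 v hv).1)
    (fun i hi => ⟨hl i, h2 i hi⟩) (fun c₀ => by
      have b1 : ((fl W fun v => c v = c₀).card : ℝ) ≤ ∑ v ∈ fl W fun v => c v = c₀, w v := by
        rw [card_eq_sum_ones]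
        push_cast
        exact sum_le_sum fun v hv => (hw v (hW (mem_fl.1 hv).1)).1
      have b2 := h3 c₀
      have : (4 : ℝ) * (((fl W fun v => c v = c₀).card : ℝ) + Bd.card) ≤ k := by linarith
      exact_mod_cast this)
  refine ⟨c', hc', fun c₀ => ?_⟩
  have u : (fl X fun v => c' v = c₀) =
      (fl W fun v => c v = c₀) ∪ fl (X \ W) fun v => c' v = c₀ := by
    ext v
    simp only [mem_fl, mem_union, mem_sdiff]
    constructor
    · rintro ⟨a, b⟩
      by_cases hv : v ∈ W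
      · exact Or.inl ⟨hv, (e v hv).symm.trans b⟩
      · exact Or.inr ⟨⟨a, hv⟩, b⟩
    · rintro (⟨a, b⟩ | ⟨a, b⟩)
      · exact ⟨hW a, (e v a).trans b⟩
      · exact ⟨a.1, b⟩
  rw [u, sum_union (disjoint_left.2 fun v a b =>
    (mem_sdiff.1 (mem_fl.1 b).1).2 (mem_fl.1 a).1)]
  have b1 := sum_le_card_nsmul (fl (X \ W) fun v => c' v = c₀) w (1 / τ)
    fun v hv => (h1 v (mem_fl.1 hv).1).2
  have b2 : ((fl (X \ W) fun v => c' v = c₀).card : ℝ) ≤ τ ^ 2 * k :=
    le_trans (by exact_mod_cast exc_card hc' (fun v hv => (h1 v hv).1) c₀) hBd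
  have b3 : τ ^ 2 * k * (1 / τ) = τ * k := by field_simp
  have b4 := mul_le_mul_of_nonneg_right b2 (show 0 ≤ 1 / τ by positivity)
  rw [nsmul_eq_mul] at b1
  have b5 := h3 c₀
  linarith

end

section


open Finset

lemma wgt_swap {V Λ : Type} [DecidableEq V] (ln : Λ → Finset V) (L : Finset Λ) (U : Finset V) :
    ∑ v ∈ U, (thr ln L v).card = ∑ x ∈ L, (ln x ∩ U).card := by
  classical
  have h := sum_card_bipartiteAbove_eq_sum_card_bipartiteBelow (s := U) (t := L)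
    (fun v x => v ∈ ln x)
  refine (sum_congr rfl fun v _ => ?_).trans (h.trans (sum_congr rfl fun x _ => ?_))
  · rw [thr, fl_eq]; rfl
  · exact congrArg card (by ext v; simp [bipartiteBelow, and_comm])

lemma wgt_dc {V Λ : Type} [DecidableEq V] (P X : Finset V) (ln : Λ → Finset V) (Lg : Finset Λ) :
    ∑ x ∈ Lg, (ln x ∩ F2 P X ln Lg).card = 2 * (F2 P X ln Lg).card := by
  rw [← wgt_swap, mul_comm]
  exact sum_const_nat fun v hv => (mem_fl.1 hv).2

lemma wgt_thr {V Λ : Type} [DecidableEq V] [DecidableEq Λ] {P X : Finset V} {ln : Λ → Finset V}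
    {Lg : Finset Λ} {k : ℕ} (hG : Geo P ln) {v : V} (hv : v ∈ X) :
    k * (thr ln (A0 P X ln Lg k) v).card ≤ 2 * Lg.card := by
  set T := thr ln (A0 P X ln Lg k) v with hT
  set F := F2 P X ln Lg with hF
  have hne : ∀ p ∈ F, v ≠ p := fun p hp e => (mem_sdiff.1 (mem_fl.1 hp).1).2 (e ▸ hv)
  have hTm : ∀ x ∈ T, (x ∈ Lg ∧ k ≤ 2 * (ln x ∩ F).card) ∧ v ∈ ln x := fun x hx =>
    ⟨mem_fl.1 (mem_fl.1 hx).1, (mem_fl.1 hx).2⟩
  have h1 : (T.biUnion fun x => ln x ∩ F).card = ∑ x ∈ T, (ln x ∩ F).card := by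
    refine card_biUnion fun x hx y hy e => disjoint_left.2 fun p hp hq => e ?_
    exact hG.lin x y v p (hne p (mem_inter.1 hp).2) (hTm x hx).2 (mem_inter.1 hp).1
      (hTm y hy).2 (mem_inter.1 hq).1
  have h2 : ∀ p ∈ T.biUnion fun x => ln x ∩ F,
      Coll ln v p ∧ ∃ y ∈ Lg, p ∈ ln y ∧ v ∉ ln y := by
    intro p hp
    obtain ⟨x, hx, hp⟩ := mem_biUnion.1 hp
    obtain ⟨hpx, hpF⟩ := mem_inter.1 hp
    refine ⟨⟨hne p hpF, x, (hTm x hx).2, hpx⟩, ?_⟩
    have hc : 1 < (thr ln Lg p).card := by rw [(mem_fl.1 hpF).2]; norm_num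
    obtain ⟨y, hy, hyx⟩ := exists_mem_ne hc x
    exact ⟨y, (mem_fl.1 hy).1, (mem_fl.1 hy).2, fun hvy =>
      hyx (hG.lin y x v p (hne p hpF) hvy (mem_fl.1 hy).2 (hTm x hx).2 hpx)⟩
  have h3 : (T.biUnion fun x => ln x ∩ F).card ≤ Lg.card := by
    refine card_le_card_of_forall_subsingleton (fun p y => p ∈ ln y ∧ v ∉ ln y)
      (fun p hp => (h2 p hp).2.imp fun y hy => ⟨hy.1, hy.2⟩) fun y _ p hp q hq => ?_
    exact hG.one hp.2.2 hp.2.1 hq.2.1 (h2 p hp.1).1 (h2 q hq.1).1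
  have h4 : T.card * k ≤ ∑ x ∈ T, 2 * (ln x ∩ F).card := by
    simpa using card_nsmul_le_sum T _ k fun x hx => (hTm x hx).1.2
  rw [← mul_sum, ← h1] at h4
  rw [mul_comm]
  omega

theorem p_WGT :
    S_WGT := by
  intro V Λ _ _ _ P X ln Lg k C B hk hG hL hB
  have hk' : (0 : ℝ) < k := by exact_mod_cast hk
  have hdc := wgt_dc P X ln Lg
  refine ⟨?_, fun v hv => ?_, ?_, fun i hi => ?_⟩
  · have h1 := hB (F2 P X ln Lg)
    have h2 : ∑ x ∈ Lg, cost (ln x ∩ F2 P X ln Lg).card ≤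
        ∑ x, cost (ln x ∩ F2 P X ln Lg).card :=
      sum_le_sum_of_subset_of_nonneg (subset_univ _) fun x _ _ => cost_nonneg _
    have h3 : ∑ x ∈ Lg, (3 * ((ln x ∩ F2 P X ln Lg).card : ℝ) / 4 - 4) ≤
        ∑ x ∈ Lg, cost (ln x ∩ F2 P X ln Lg).card := sum_le_sum fun x _ => big_le_cost _
    have h4 : ∑ x ∈ Lg, ((ln x ∩ F2 P X ln Lg).card : ℝ) = 2 * (F2 P X ln Lg).card := by
      exact_mod_cast hdc
    rw [sum_sub_distrib, ← sum_div, ← mul_sum, h4, sum_const, nsmul_eq_mul] at h3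
    linarith
  · have h1 : (k : ℝ) * (thr ln (A0 P X ln Lg k) v).card ≤ 2 * Lg.card := by
      exact_mod_cast wgt_thr hG hv
    refine le_of_mul_le_mul_left ?_ hk'
    linarith
  · have h1 : (A0 P X ln Lg k).card * k ≤
        ∑ x ∈ A0 P X ln Lg k, 2 * (ln x ∩ F2 P X ln Lg).card := by
      simpa using card_nsmul_le_sum (A0 P X ln Lg k) _ k fun x hx => (mem_fl.1 hx).2
    have h2 : ∑ x ∈ A0 P X ln Lg k, (ln x ∩ F2 P X ln Lg).card ≤
        ∑ x ∈ Lg, (ln x ∩ F2 P X ln Lg).card := sum_le_sum_of_subset (fl_subset _ _)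
    rw [← mul_sum] at h1
    rw [mul_comm]
    omega
  · rw [wgt_swap]
    have h1 : ∀ x ∈ A0 P X ln Lg k, (ln x ∩ ln i).card ≤ 1 := fun x hx =>
      card_le_one.2 fun u hu w hw => by
        by_contra e
        have := hG.lin x i u w e (mem_inter.1 hu).1 (mem_inter.1 hw).1 (mem_inter.1 hu).2
          (mem_inter.1 hw).2
        exact hi (this ▸ (mem_fl.1 hx).1)
    simpa using sum_le_card_nsmul _ _ 1 h1

end

end Pool.Agent.P.MP_1fec7a_co.S
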