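import Pool.Agent.P.MP_1fec7a_co.S.Iface

/-! From the geometry to the instance. -/

set_option autoImplicit false
set_option linter.unusedSectionVars false
set_option linter.unusedVariables false

namespace Pool.Agent.P.MP_1fec7a_co.S

section


open Finset

/-- The instance attached to a geometry with a coloured set `X` and long lines `Lg`. -/
noncomputable def red_I {V Λ : Type} [DecidableEq V] [DecidableEq Λ] (P X : Finset V)
    (ln : Λ → Finset V) (Lg : Finset Λ) (c₀ : V → ℕ) (a b : V → Λ) : Inst V Λ where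
  P := P \ X
  L := Lg
  a := a
  b := b
  H := fun u v => u ≠ v ∧ ∃ i ∉ Lg, u ∈ ln i ∧ v ∈ ln i
  U := fun x => (fl (ln x ∩ X) fun _ => x ∈ Lg).image c₀
  Fb := fun v => (fl X fun u => v ≠ u ∧ ∃ i ∉ Lg, v ∈ ln i ∧ u ∈ ln i).image c₀

lemma red_pair {Λ : Type} [DecidableEq Λ] {s : Finset Λ} (h1 : s.Nonempty) (h2 : s.card ≤ 2) :
    ∃ a b, s = {a, b} := by
  rcases Nat.lt_or_ge s.card 2 with h | h
  · obtain ⟨a, ha⟩ := card_eq_one.1 (show s.card = 1 by have := h1.card_pos; omega)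
    exact ⟨a, a, by simp [ha]⟩
  · obtain ⟨a, b, -, e⟩ := card_eq_two.1 (le_antisymm h2 h)
    exact ⟨a, b, e⟩

theorem p_RED :
    S_RED := by
  intro V Λ _ _ _ P X ln Lg k ε δ C c₀ hk hδ hδ1 G hln hnb hXP hLg hX hthr hF hPC hcls hA
  have hk' : (0 : ℝ) < k := by exact_mod_cast hk
  have hδk : 0 ≤ δ * k := by positivity
  have hex : ∀ v, ∃ a b : Λ, v ∈ P \ X → thr ln Lg v = {a, b} := by
    intro v
    by_cases hv : v ∈ P \ X
    · have hne : (thr ln Lg v).Nonempty := by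
        by_contra hne
        have hs : nb ln P v ⊆ fl P fun u => u ≠ v ∧ ∃ i ∉ Lg, u ∈ ln i ∧ v ∈ ln i :=
          fl_mono fun u hu ⟨n, i, h1, h2⟩ =>
            ⟨hu, n.symm, i, fun hi => hne ⟨i, mem_fl.2 ⟨hi, h1⟩⟩, h2, h1⟩
        have h1 : ((nb ln P v).card : ℝ) ≤ δ * k :=
          le_trans (by exact_mod_cast card_le_card hs) (hthr v hv).2
        have h2 : (k : ℝ) ≤ (nb ln P v).card := by exact_mod_cast hnb v (mem_sdiff.1 hv).1
        nlinarith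
      obtain ⟨a, b, e⟩ := red_pair hne (hthr v hv).1
      exact ⟨a, b, fun _ => e⟩
    · exact ⟨Classical.arbitrary Λ, Classical.arbitrary Λ, fun h => absurd h hv⟩
  choose a b hab using hex
  set I := red_I P X ln Lg c₀ a b with hI
  have hOn : ∀ v ∈ P \ X, ∀ x, I.On v x ↔ x ∈ Lg ∧ v ∈ ln x := by
    intro v hv x
    have : x ∈ thr ln Lg v ↔ x ∈ Lg ∧ v ∈ ln x := mem_fl
    rw [← this, hab v hv, mem_insert, mem_singleton, eq_comm, @eq_comm _ x]
    rfl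
  have hpts : ∀ x v, v ∈ I.pts x → v ∈ P \ X ∧ x ∈ Lg ∧ v ∈ ln x := fun x v hv =>
    have h := Inst.mem_pts.1 hv
    ⟨h.1, (hOn v h.1 x).1 h.2⟩
  have hU : ∀ x c, c ∈ I.U x ↔ x ∈ Lg ∧ ∃ p ∈ ln x ∩ X, c₀ p = c := by
    intro x c
    constructor
    · intro h
      obtain ⟨p, hp, e⟩ := mem_image.1 h
      exact ⟨(mem_fl.1 hp).2, p, (mem_fl.1 hp).1, e⟩
    · rintro ⟨h, p, hp, e⟩
      exact mem_image.2 ⟨p, mem_fl.2 ⟨hp, h⟩, e⟩
  have hFb : ∀ v c, c ∈ I.Fb v ↔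
      ∃ p ∈ X, (v ≠ p ∧ ∃ i ∉ Lg, v ∈ ln i ∧ p ∈ ln i) ∧ c₀ p = c := by
    intro v c
    constructor
    · intro h
      obtain ⟨p, hp, e⟩ := mem_image.1 h
      exact ⟨p, (mem_fl.1 hp).1, (mem_fl.1 hp).2, e⟩
    · rintro ⟨p, hp, h, e⟩
      exact mem_image.2 ⟨p, mem_fl.2 ⟨hp, h⟩, e⟩
  have hUc : ∀ x, (I.U x).card ≤ (ln x ∩ X).card := fun x =>
    card_image_le.trans (card_fl_le _ _)
  have hF2 : ∀ v ∈ P \ X, a v ≠ b v → v ∈ F2 P X ln Lg := fun v hv n =>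
    mem_fl.2 ⟨hv, by rw [hab v hv, card_pair n]⟩
  refine ⟨I, ⟨?_, hLg, ?_, ?_, ?_, ?_, ?_, ?_, ?_, ?_, ?_, ?_, ?_⟩, ⟨?_, ?_, ?_⟩, ?_⟩
  · exact fun v hv => ⟨((hOn v hv _).1 (Or.inl rfl)).1, ((hOn v hv _).1 (Or.inr rfl)).1⟩
  · intro u hu v hv x y n h1 h2 h3 h4
    by_contra e
    exact n (G.lin x y u v e ((hOn u hu x).1 h1).2 ((hOn v hv x).1 h3).2 ((hOn u hu y).1 h2).2
      ((hOn v hv y).1 h4).2)
  · exact fun u v ⟨n, i, hi, h1, h2⟩ => ⟨n.symm, i, hi, h2, h1⟩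
  · intro v hv
    refine le_trans (Nat.cast_le.2 (card_le_card ?_)) (hthr v hv).2
    exact fl_mono fun u hu ⟨n, i, hi, h1, h2⟩ => ⟨(mem_sdiff.1 hu).1, n.symm, i, hi, h2, h1⟩
  · intro v hv x u hu u' hu' ⟨n, i, hi, h1, h2⟩ ⟨n', i', hi', h1', h2'⟩
    obtain ⟨-, hx, hux⟩ := hpts x u hu
    refine G.one (i := x) (p := v) (fun hvx => hi ?_) hux (hpts x u' hu').2.2 ⟨n, i, h1, h2⟩
      ⟨n', i', h1', h2'⟩
    exact G.lin x i v u n hvx hux h1 h2 ▸ hx
  · intro x u hu v hv ⟨n, i, hi, h1, h2⟩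
    obtain ⟨-, hx, hux⟩ := hpts x u hu
    exact hi (G.lin x i u v n hux (hpts x v hv).2.2 h1 h2 ▸ hx)
  · intro x
    have h1 : (I.pts x).card ≤ (ln x \ X).card := card_le_card fun v hv =>
      mem_sdiff.2 ⟨(hpts x v hv).2.2, (mem_sdiff.1 (hpts x v hv).1).2⟩
    have h2 := card_sdiff_add_card_inter (ln x) X
    have := hUc x
    have := hln x
    omega
  · intro x c hc
    obtain ⟨-, p, hp, rfl⟩ := (hU x c).1 hc
    exact hPC.1 p (mem_inter.1 hp).2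
  · intro v _ c hc
    obtain ⟨p, hp, -, rfl⟩ := (hFb v c).1 hc
    exact hPC.1 p hp
  · intro x
    by_cases hx : x ∈ Lg
    · exact le_trans (by exact_mod_cast hUc x) (hX x hx)
    · rw [show I.U x = ∅ from eq_empty_of_forall_notMem fun c hc => hx ((hU x c).1 hc).1]
      simpa using hδk
  · intro v hv
    refine le_trans (Nat.cast_le.2 (card_image_le.trans (card_le_card ?_))) (hthr v hv).2
    exact fl_mono fun u hu ⟨n, i, hi, h1, h2⟩ => ⟨hXP hu, n.symm, i, hi, h2, h1⟩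
  · intro x c
    refine le_trans ?_ (hcls c)
    norm_cast
    refine card_le_card_of_forall_subsingleton (fun v p => p ∉ ln x ∧ Coll ln p v) ?_ ?_
    · intro v hv
      obtain ⟨hv, h⟩ := mem_fl.1 hv
      obtain ⟨hvP, hx, hvx⟩ := hpts x v hv
      rcases h with h | ⟨y, n, h1, h2⟩
      · obtain ⟨p, hp, ⟨n, i, hi, h1, h2⟩, e⟩ := (hFb v c).1 h
        exact ⟨p, mem_fl.2 ⟨hp, e⟩, fun hpx => hi (G.lin x i v p n hvx hpx h1 h2 ▸ hx),
          n.symm, i, h2, h1⟩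
      · obtain ⟨-, p, hp, e⟩ := (hU y c).1 h2
        obtain ⟨hp1, hp2⟩ := mem_inter.1 hp
        have n' : p ≠ v := fun e => (mem_sdiff.1 hvP).2 (e ▸ hp2)
        have hvy := ((hOn v hvP y).1 h1).2
        exact ⟨p, mem_fl.2 ⟨hp2, e⟩, fun hpx => n (G.lin y x p v n' hp1 hvy hpx hvx),
          n', y, hp1, hvy⟩
    · intro p _ u ⟨hu, h1, h2⟩ v ⟨hv, _, h3⟩
      exact G.one h1 (hpts x u (mem_fl.1 hu).1).2.2 (hpts x v (mem_fl.1 hv).1).2.2 h2 h3
  · intro u hu v hv w hw x y z n1 n2 n3 h1 h2 h3 h4 h5 h6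
    have key : ∀ t, I.On t x → I.On t y → I.On t z → False := by
      intro t e1 e2 e3
      rcases e1 with e1 | e1 <;> rcases e2 with e2 | e2 <;> rcases e3 with e3 | e3 <;>
        first | exact n1 (e1.symm.trans e2) | exact n2 (e2.symm.trans e3) |
          exact n3 (e1.symm.trans e3)
    have m1 : u ≠ v := fun e => key u h1 h2 (e ▸ h4)
    have m2 : v ≠ w := fun e => key v (e ▸ h5) h3 h4
    have m3 : u ≠ w := fun e => key u h1 h2 (e ▸ h6)
    exact n2 (G.tri y z x u v w m1 m2 m3 ((hOn u hu y).1 h2).2 ((hOn v hv y).1 h3).2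
      ((hOn v hv z).1 h4).2 ((hOn w hw z).1 h6).2 ((hOn u hu x).1 h1).2 ((hOn w hw x).1 h5).2)
  · refine le_trans ?_ hF
    exact_mod_cast card_le_card fun v hv => hF2 v (mem_fl.1 hv).1 (mem_fl.1 hv).2
  · intro c
    refine le_trans (Nat.cast_le.2 (card_le_card ?_)) (hA c)
    have : ∀ x, (I.edg x).card ≤ (ln x ∩ F2 P X ln Lg).card := fun x => card_le_card fun v hv =>
      have h := Inst.mem_edg.1 hv
      mem_inter.2 ⟨((hOn v h.1 x).1 h.2.1).2, hF2 v h.1 h.2.2⟩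
    exact fl_mono fun x hx ⟨h1, h2⟩ =>
      ⟨mem_fl.2 ⟨hx, h1.trans (Nat.mul_le_mul_left 2 (this x))⟩, ((hU x c).1 h2).2⟩
  · rintro ⟨c₁, h1, h2, h3⟩
    have mix : ∀ u ∈ X, ∀ v ∈ P \ X, Coll ln u v → c₀ u ≠ c₁ v := by
      intro u hu v hv ⟨n, i, hui, hvi⟩ e
      obtain ⟨-, q1, q2, q3⟩ := h1 v hv
      by_cases hi : i ∈ Lg
      · have hc : c₁ v ∈ I.U i := (hU i _).2 ⟨hi, u, mem_inter.2 ⟨hui, hu⟩, e⟩
        rcases (hOn v hv i).2 ⟨hi, hvi⟩ with e' | e'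
        · exact q1 (e' ▸ hc)
        · exact q2 (e' ▸ hc)
      · exact q3 ((hFb v _).2 ⟨u, hu, ⟨n.symm, i, hi, hvi, hui⟩, e⟩)
    refine ⟨fun v => if v ∈ X then c₀ v else c₁ v, fun v hv => ?_, fun u hu v hv h => ?_⟩
    · by_cases hX' : v ∈ X
      · simpa [hX'] using hPC.1 v hX'
      · simpa [hX'] using (h1 v (mem_sdiff.2 ⟨hv, hX'⟩)).1
    · by_cases p1 : u ∈ X <;> by_cases p2 : v ∈ X <;> simp only [p1, p2, if_true, if_false]
      · exact hPC.2 u p1 v p2 h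
      · exact mix u p1 v (mem_sdiff.2 ⟨hv, p2⟩) h
      · exact (mix v p2 u (mem_sdiff.2 ⟨hu, p1⟩) h.symm).symm
      · have hu' := mem_sdiff.2 ⟨hu, p1⟩
        have hv' := mem_sdiff.2 ⟨hv, p2⟩
        obtain ⟨n, i, hui, hvi⟩ := h
        by_cases hi : i ∈ Lg
        · exact fun e => n (h2 i u (Inst.mem_pts.2 ⟨hu', (hOn u hu' i).2 ⟨hi, hui⟩⟩) v
            (Inst.mem_pts.2 ⟨hv', (hOn v hv' i).2 ⟨hi, hvi⟩⟩) e)
        · exact h3 u hu' v hv' ⟨n, i, hi, hui, hvi⟩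

end

section


open Finset

lemma flx_oth {V Λ : Type} [DecidableEq V] [DecidableEq Λ] (I : Inst V Λ) {x : Λ} {v : V}
    (h : v ∈ I.edg x) : I.oth x v ≠ x ∧ I.On v (I.oth x v) := by
  obtain ⟨-, h1, h2⟩ := Inst.mem_edg.1 h
  unfold Inst.oth
  split_ifs with e
  · exact ⟨fun q => h2 (e.trans q.symm), Or.inr rfl⟩
  · exact ⟨e, Or.inl rfl⟩

lemma flx_card {V Λ : Type} [DecidableEq V] [DecidableEq Λ] (I : Inst V Λ) (A : Finset Λ) (m : ℕ)
    (h : ∀ x ∈ A, m ≤ (I.edg x).card) :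
    A.card * m ≤ (fl I.P fun v => I.a v ≠ I.b v).card * 2 := by
  classical
  refine card_mul_le_card_mul (fun x v => I.On v x) (fun x hx => (h x hx).trans
    (card_le_card fun v hv => ?_)) fun v _ => ?_
  · obtain ⟨h0, h1, h2⟩ := Inst.mem_edg.1 hv
    exact (mem_bipartiteAbove _).2 ⟨mem_fl.2 ⟨h0, h2⟩, h1⟩
  · refine le_trans (card_le_card (t := {I.a v, I.b v}) fun x hx => ?_) card_le_two
    rcases ((mem_bipartiteBelow _).1 hx).2 with e | e <;> simp [← e]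

theorem p_FLX :
    S_FLX := by
  classical
  intro V Λ _ _ I k r ε δ C h0 h1 hδ hr hG hZ
  have hr0 : (0 : ℝ) ≤ r := Nat.cast_nonneg r
  have hk : (0 : ℝ) < k := by
    by_contra hc
    have : (k : ℝ) = 0 := le_antisymm (not_lt.1 hc) (Nat.cast_nonneg k)
    rw [this] at hr
    linarith
  set A := fl I.L fun x => k ≤ (I.U x).card + (I.edg x).card + r with hA
  set F := fl I.L fun y => ((I.U y).card + (I.edg y).card : ℝ) + ε / 5 * k ≤ k with hF
  have hdis : ∀ x ∈ A, x ∉ F := by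
    intro x hx hy
    have a1 : (k : ℝ) ≤ (I.U x).card + (I.edg x).card + r := by exact_mod_cast (mem_fl.1 hx).2
    linarith [(mem_fl.1 hy).2]
  have hden : ∀ x ∈ I.L, x ∉ F → (1 - ε / 4) * k ≤ ((I.edg x).card : ℝ) := by
    intro x hx hy
    have a1 := not_le.1 fun q => hy (mem_fl.2 ⟨hx, q⟩)
    have a2 := hG.Ule x
    have a3 : δ * k ≤ ε / 20 * k := mul_le_mul_of_nonneg_right hδ hk.le
    linarith
  have hhalf : ∀ x ∈ A, k ≤ 2 * (I.edg x).card := by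
    intro x hx
    have a1 := hden x (mem_fl.1 hx).1 (hdis x hx)
    have a2 : (k : ℝ) ≤ 2 * (I.edg x).card := by nlinarith
    exact_mod_cast a2
  have hfew := hZ.few
  refine ⟨A, F, ⟨fl_subset _ _, disjoint_left.2 hdis, ?_, fun x hx => (mem_fl.1 hx).2,
    fun x hx hn => ?_, fun y hy => (mem_fl.1 hy).2⟩, fun x hx => ?_, fun c => ?_⟩
  · have a1 := flx_card I A ((k + 1) / 2) fun x hx => by have := hhalf x hx; omega
    have a2 : ((fl I.P fun v => I.a v ≠ I.b v).card : ℝ) ≤ k * k := by nlinarith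
    have a3 : (fl I.P fun v => I.a v ≠ I.b v).card ≤ k * k := by exact_mod_cast a2
    have a4 : A.card * k ≤ A.card * (2 * ((k + 1) / 2)) := Nat.mul_le_mul_left _ (by omega)
    have a5 : 0 < k := by exact_mod_cast hk
    refine Nat.le_of_mul_le_mul_right ?_ a5
    nlinarith
  · exact (not_le.1 fun q => hn (mem_fl.2 ⟨hx, q⟩)).le
  · set B := (I.edg x).filter fun v => ¬ (I.a v ∈ F ∨ I.b v ∈ F) with hB
    have a1 : ((fl (I.edg x) fun v => I.a v ∈ F ∨ I.b v ∈ F).card : ℝ) + B.card =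
        (I.edg x).card := by
      rw [fl_eq]
      exact_mod_cast card_filter_add_card_filter_not (s := I.edg x) _
    have a2 : ∀ v ∈ B, (1 - ε / 4) * k ≤ ((I.edg (I.oth x v)).card : ℝ) := by
      intro v hv
      obtain ⟨b1, b2⟩ := mem_filter.1 hv
      have b3 := hG.mem v (Inst.mem_edg.1 b1).1
      rcases (flx_oth I b1).2 with e | e <;> rw [← e]
      · exact hden _ b3.1 fun q => b2 (Or.inl q)
      · exact hden _ b3.2 fun q => b2 (Or.inr q)
    have a3 : ∑ v ∈ B, (I.edg (I.oth x v)).card ≤ (fl I.P fun v => I.a v ≠ I.b v).card := by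
      rw [← card_biUnion]
      · refine card_le_card fun w hw => ?_
        obtain ⟨v, -, hw⟩ := mem_biUnion.1 hw
        exact mem_fl.2 ⟨(Inst.mem_edg.1 hw).1, (Inst.mem_edg.1 hw).2.2⟩
      · intro v hv v' hv' hne
        have b1 := (mem_filter.1 hv).1
        have b2 := (mem_filter.1 hv').1
        obtain ⟨c1, c2⟩ := flx_oth I b1
        obtain ⟨d1, d2⟩ := flx_oth I b2
        obtain ⟨e1, e2, -⟩ := Inst.mem_edg.1 b1
        obtain ⟨f1, f2, -⟩ := Inst.mem_edg.1 b2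
        refine disjoint_left.2 fun w hw hw' => ?_
        exact hZ.tri v e1 w (Inst.mem_edg.1 hw).1 v' f1 x _ _ c1.symm
          (fun q => hne (hG.simple v e1 v' f1 x _ c1.symm e2 c2 f2 (q ▸ d2))) d1.symm e2 c2
          (Inst.mem_edg.1 hw).2.1 (Inst.mem_edg.1 hw').2.1 f2 d2
    have a4 : (B.card : ℝ) * ((1 - ε / 4) * k) ≤ (1 - ε) * k ^ 2 := by
      have b1 := card_nsmul_le_sum B (fun v => ((I.edg (I.oth x v)).card : ℝ)) _ a2
      rw [nsmul_eq_mul] at b1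
      have b2 : ∑ v ∈ B, ((I.edg (I.oth x v)).card : ℝ) ≤
          (fl I.P fun v => I.a v ≠ I.b v).card := by exact_mod_cast a3
      linarith
    have a5 : (B.card : ℝ) * (1 - ε / 4) ≤ (1 - ε) * k :=
      le_of_mul_le_mul_right (by nlinarith) hk
    have a6 := hden x (mem_fl.1 hx).1 (hdis x hx)
    have a7 : (B.card : ℝ) ≤ (1 - 13 / 20 * ε) * k := by
      refine le_of_mul_le_mul_right (a5.trans ?_) (show 0 < 1 - ε / 4 by linarith)
      nlinarith [mul_pos h0 hk, mul_pos (mul_pos h0 h0) hk]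
    linarith
  · refine le_trans ?_ (hZ.spr c)
    exact Nat.cast_le.2 (card_le_card
      (fl_mono fun x hx hc => ⟨(mem_fl.1 hx).1, hhalf x hx, hc⟩))

end

section


open Finset

lemma st1_cover {α β : Type} (B : Finset α) (J : Finset β) (p : β → α → Prop) (n : ℝ)
    (h : ∀ a ∈ B, ∃ j ∈ J, p j a) (hn : ∀ j ∈ J, ((fl B (p j)).card : ℝ) ≤ n) :
    (B.card : ℝ) ≤ J.card * n := by
  classical
  have h1 : B.card ≤ ∑ j ∈ J, (fl B (p j)).card :=
    (card_le_card fun a ha => by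
      obtain ⟨j, hj, e⟩ := h a ha
      exact mem_biUnion.2 ⟨j, hj, mem_fl.2 ⟨ha, e⟩⟩).trans card_biUnion_le
  have h2 : (B.card : ℝ) ≤ ∑ j ∈ J, ((fl B (p j)).card : ℝ) := by exact_mod_cast h1
  simpa using h2.trans (sum_le_card_nsmul _ _ n hn)

lemma st1_inj {α β : Type} (B : Finset α) (J : Finset β) (p : α → β → Prop)
    (h : ∀ a ∈ B, ∃ j ∈ J, p a j) (h1 : ∀ j ∈ J, ∀ a ∈ B, ∀ a' ∈ B, p a j → p a' j → a = a') :
    (B.card : ℝ) ≤ J.card := by
  have := st1_cover B J (fun j a => p a j) 1 h fun j hj => by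
    exact_mod_cast card_le_one.2 fun a ha a' ha' =>
      h1 j hj a (mem_fl.1 ha).1 a' (mem_fl.1 ha').1 (mem_fl.1 ha).2 (mem_fl.1 ha').2
  simpa using this

variable {V Λ : Type} [DecidableEq V] [DecidableEq Λ]

/-- A coloured set of edges from `A` to `F`. -/
structure st1_Pre (I : Inst V Λ) (k T : ℕ) (η : ℝ) (A F : Finset Λ) (S : Finset V) (c : V → ℕ) :
    Prop where
  sub : S ⊆ I.P
  ends : ∀ v ∈ S, I.a v ∈ A ∧ I.b v ∈ F ∨ I.a v ∈ F ∧ I.b v ∈ A
  ok : ∀ v ∈ S, c v < k ∧ c v ∉ I.U (I.a v) ∧ c v ∉ I.U (I.b v) ∧ c v ∉ I.Fb v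
  inj : ∀ u ∈ S, ∀ v ∈ S, ∀ x, I.On u x → I.On v x → c u = c v → u = v
  hne : ∀ u ∈ S, ∀ v ∈ S, I.H u v → c u ≠ c v
  typ : ∀ x ∈ A, ∀ v ∈ S, I.On v x → ∃ c₀ ∈ I.U x, c₀ % T = c v % T
  lineF : ∀ y ∈ F, ((fl S fun v => I.On v y).card : ℝ) ≤ η * k

variable {I : Inst V Λ} {k T m : ℕ} {η δ C : ℝ} {A F : Finset Λ} {S : Finset V} {c : V → ℕ}

lemma st1_endA (h : st1_Pre I k T η A F S c) {v : V} (hv : v ∈ S) : ∃ x ∈ A, I.On v x :=
  (h.ends v hv).elim (fun e => ⟨_, e.1, Or.inl rfl⟩) fun e => ⟨_, e.2, Or.inr rfl⟩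

lemma st1_uniq (h : st1_Pre I k T η A F S c) (hd : Disjoint A F) {v : V} (hv : v ∈ S) {y z : Λ}
    (hy : y ∈ F) (hz : z ∈ F) (h1 : I.On v y) (h2 : I.On v z) : y = z := by
  have d := disjoint_left.1 hd
  rcases h.ends v hv with e | e <;> rcases h1 with rfl | rfl <;> rcases h2 with rfl | rfl <;>
    first | rfl | exact absurd hy (d e.1) | exact absurd hz (d e.1) | exact absurd hy (d e.2) |
      exact absurd hz (d e.2)

lemma st1_lineA (h : st1_Pre I k T η A F S c) (g : I.Good k δ C) (hT : 0 < T)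
    (hc : ∀ j, j < T → cap k T j ≤ m + 1) {x : Λ} (hx : x ∈ A) :
    ((fl S fun v => I.On v x).card : ℝ) ≤ (m + 1) * (δ * k) := by
  refine (st1_cover _ (I.U x) (fun c₀ v => c₀ % T = c v % T) (m + 1)
    (fun v hv => h.typ x hx v (mem_fl.1 hv).1 (mem_fl.1 hv).2) fun c₀ _ => ?_).trans ?_
  · refine (st1_inj _ (fl (range k) fun c => c % T = c₀ % T) (fun v j => c v = j)
      (fun v hv => ⟨c v, ?_, rfl⟩) fun j _ u hu v hv e e' => ?_).trans ?_
    · simp only [mem_fl] at hv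
      exact mem_fl.2 ⟨mem_range.2 (h.ok v hv.1.1).1, hv.2.symm⟩
    · simp only [mem_fl] at hu hv
      exact h.inj u hu.1.1 v hv.1.1 x hu.1.2 hv.1.2 (e.trans e'.symm)
    · exact_mod_cast hc _ (Nat.mod_lt c₀ hT)
  · rw [mul_comm]
    exact mul_le_mul_of_nonneg_left (g.Ule x) (by positivity)

lemma st1_cls (h : st1_Pre I k T η A F S c) (g : I.Good k δ C) (hT : 0 < T) (h0 : 0 ≤ δ)
    (hc : ∀ j, j < T → cap k T j ≤ m + 1)
    (hs : ∀ c, ((fl A fun x => c ∈ I.U x).card : ℝ) ≤ δ * k) (c₀ : ℕ) :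
    ((fl S fun v => c v = c₀).card : ℝ) ≤ (m + 1) * (δ * k) := by
  refine (st1_cover _ (fl (range k) fun c => c % T = c₀ % T)
    (fun c₁ v => ∃ x ∈ A, I.On v x ∧ c₁ ∈ I.U x) (δ * k) (fun v hv => ?_) fun c₁ _ => ?_).trans ?_
  · obtain ⟨hv, e0⟩ := mem_fl.1 hv
    obtain ⟨x, hx, e⟩ := st1_endA h hv
    obtain ⟨c₁, h1, h2⟩ := h.typ x hx v hv e
    exact ⟨c₁, mem_fl.2 ⟨mem_range.2 (g.Ult x c₁ h1), e0 ▸ h2⟩, x, hx, e, h1⟩
  · refine (st1_inj _ (fl A fun x => c₁ ∈ I.U x) (fun v x => I.On v x)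
      (fun v hv => ?_) fun x _ u hu v hv e e' => ?_).trans (hs c₁)
    · obtain ⟨x, hx, e, h1⟩ := (mem_fl.1 hv).2
      exact ⟨x, mem_fl.2 ⟨hx, h1⟩, e⟩
    · simp only [mem_fl] at hu hv
      exact h.inj u hu.1.1 v hv.1.1 x e e' (hu.1.2.trans hv.1.2.symm)
  · exact mul_le_mul_of_nonneg_right (by exact_mod_cast hc _ (Nat.mod_lt c₀ hT)) (by positivity)

lemma st1_heavy (h : st1_Pre I k T η A F S c) (hd : Disjoint A F) (n : ℝ) :
    ((fl F fun y => n < (fl S fun v => I.On v y).card).card : ℝ) * n ≤ S.card := by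
  set Y := fl F fun y => n < (fl S fun v => I.On v y).card
  have h1 : ∑ y ∈ Y, (fl S fun v => I.On v y).card ≤ S.card := by
    rw [← card_biUnion fun y hy z hz e => disjoint_left.2 fun v h1 h2 => e (st1_uniq h hd
      (mem_fl.1 h1).1 (mem_fl.1 hy).1 (mem_fl.1 hz).1 (mem_fl.1 h1).2 (mem_fl.1 h2).2)]
    exact card_le_card (biUnion_subset.2 fun y _ => fl_subset _ _)
  have h2 : ∑ y ∈ Y, ((fl S fun v => I.On v y).card : ℝ) ≤ S.card := by exact_mod_cast h1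
  have h3 := card_nsmul_le_sum Y (fun y => ((fl S fun v => I.On v y).card : ℝ)) n
    fun y hy => (mem_fl.1 hy).2.le
  simpa using h3.trans h2

lemma st1_ins (h : st1_Pre I k T η A F S c) (g : I.Good k δ C) (hd : Disjoint A F) {x y : Λ}
    (hx : x ∈ A) (hy : y ∈ F) {v : V} (hv : v ∈ I.P) (hS : v ∉ S)
    (he : I.a v = x ∧ I.b v = y ∨ I.a v = y ∧ I.b v = x) {c₀ c' : ℕ} (h0 : c₀ ∈ I.U x)
    (hk : c' < k) (ht : c' % T = c₀ % T) (n1 : c' ∉ I.U x) (n2 : c' ∉ I.U y) (n3 : c' ∉ I.Fb v)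
    (n4 : ∀ u ∈ S, I.On u x → c u ≠ c') (n5 : ∀ u ∈ S, I.On u y → c u ≠ c')
    (n6 : ∀ u ∈ S, I.H v u → c u ≠ c')
    (n7 : ((fl S fun v => I.On v y).card : ℝ) ≤ η * k - 1) :
    st1_Pre I k T η A F (insert v S) (Function.update c v c') := by
  have up : ∀ u ∈ S, Function.update c v c' u = c u := fun u hu =>
    Function.update_of_ne (fun e : u = v => hS (e ▸ hu)) _ _
  have on : ∀ z, I.On v z → z = x ∨ z = y := fun z e => by
    rcases he with ⟨rfl, rfl⟩ | ⟨rfl, rfl⟩ <;> rcases e with rfl | rfl <;> simp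
  have ox : I.On v x := he.elim (fun e => Or.inl e.1) fun e => Or.inr e.2
  have n45 : ∀ u ∈ S, ∀ z, I.On v z → I.On u z → c u ≠ c' := fun u hu z e e' => by
    rcases on z e with rfl | rfl
    exacts [n4 u hu e', n5 u hu e']
  refine ⟨insert_subset hv h.sub, ?_, ?_, ?_, ?_, ?_, ?_⟩
  · refine (forall_mem_insert _ _ _).2 ⟨?_, h.ends⟩
    rcases he with ⟨rfl, rfl⟩ | ⟨rfl, rfl⟩
    exacts [Or.inl ⟨hx, hy⟩, Or.inr ⟨hy, hx⟩]
  · refine (forall_mem_insert _ _ _).2 ⟨?_, fun u hu => by rw [up u hu]; exact h.ok u hu⟩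
    rw [Function.update_self]
    rcases he with ⟨rfl, rfl⟩ | ⟨rfl, rfl⟩
    exacts [⟨hk, n1, n2, n3⟩, ⟨hk, n2, n1, n3⟩]
  · intro u hu w hw z e e' q
    replace hu := mem_insert.1 hu
    replace hw := mem_insert.1 hw
    rcases hu with rfl | hu <;> rcases hw with rfl | hw
    · rfl
    · rw [Function.update_self, up w hw] at q
      exact absurd q.symm (n45 w hw z e e')
    · rw [Function.update_self, up u hu] at q
      exact absurd q (n45 u hu z e' e)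
    · rw [up u hu, up w hw] at q
      exact h.inj u hu w hw z e e' q
  · intro u hu w hw e
    replace hu := mem_insert.1 hu
    replace hw := mem_insert.1 hw
    rcases hu with rfl | hu <;> rcases hw with rfl | hw
    · exact absurd e (g.hzero x _ (Inst.mem_pts.2 ⟨hv, ox⟩) _ (Inst.mem_pts.2 ⟨hv, ox⟩))
    · rw [Function.update_self, up w hw]
      exact (n6 w hw e).symm
    · rw [Function.update_self, up u hu]
      exact n6 u hu (g.symm _ _ e)
    · rw [up u hu, up w hw]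
      exact h.hne u hu w hw e
  · intro z hz u hu e
    rcases mem_insert.1 hu with rfl | hu
    · rcases on z e with rfl | rfl
      · exact ⟨c₀, h0, by rw [Function.update_self, ht]⟩
      · exact absurd hy (disjoint_left.1 hd hz)
    · rw [up u hu]
      exact h.typ z hz u hu e
  · intro z hz
    by_cases e : I.On v z
    · rcases on z e with rfl | rfl
      · exact absurd hz (disjoint_left.1 hd hx)
      · have : (fl (insert v S) fun u => I.On u z).card ≤ (fl S fun u => I.On u z).card + 1 :=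
          (card_le_card fun u hu => by
            simp only [mem_fl, mem_insert] at hu ⊢
            tauto).trans (card_insert_le v _)
        have : ((fl (insert v S) fun u => I.On u z).card : ℝ) ≤
          (fl S fun u => I.On u z).card + 1 := by exact_mod_cast this
        linarith
    · exact le_trans (Nat.cast_le.2 (card_le_card (fl_mono fun u hu q =>
        ⟨(mem_insert.1 hu).resolve_left fun r => e (r ▸ q), q⟩))) (h.lineF z hz)

theorem p_ST1 :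
    S_ST1 := by
  intro β η hβ hη m
  obtain ⟨μ, m0, m1, m2, m3⟩ : ∃ μ : ℝ, 0 < μ ∧ μ ≤ η ∧ μ ≤ β / 20 ∧ μ ≤ β * η / 20 :=
    ⟨min η (min (β / 20) (β * η / 20)), by positivity, min_le_left _ _,
      (min_le_right _ _).trans (min_le_left _ _), (min_le_right _ _).trans (min_le_right _ _)⟩
  have d0 : 0 < μ / (m + 1) := by positivity
  refine ⟨μ / (m + 1), d0, ⌈2 / η⌉₊, fun k hk T C V Λ _ _ I A F hT hc g hd hA hM hs => ?_⟩
  have k2 : 2 ≤ η * k := by
    have := (div_le_iff₀ hη).1 (Nat.ceil_le.1 hk)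
    linarith
  have k0 : (0 : ℝ) < k := by
    by_contra q
    nlinarith [not_lt.1 q]
  have eD : ((m : ℝ) + 1) * (μ / (m + 1) * k) = μ * k := by field_simp
  have dD : μ / (m + 1) * k ≤ μ * k := mul_le_mul_of_nonneg_right
    (div_le_self m0.le (by linarith [(Nat.cast_nonneg m : (0 : ℝ) ≤ m)])) k0.le
  have Dη : μ * k ≤ η * k := mul_le_mul_of_nonneg_right m1 k0.le
  obtain ⟨S, hS, mx⟩ := exists_max_image
    (fl I.P.powerset fun S => ∃ c, st1_Pre I k T η A F S c) card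
    ⟨∅, mem_fl.2 ⟨by simp, fun _ => 0, by simp, by simp, by simp, by simp, by simp, by simp,
      fun y _ => le_trans (by exact_mod_cast card_fl_le _ _) (by simp; linarith : ((∅ : Finset
        V).card : ℝ) ≤ η * k)⟩⟩
  obtain ⟨c, h⟩ := (mem_fl.1 hS).2
  have lA : ∀ x ∈ A, ((fl S fun v => I.On v x).card : ℝ) ≤ μ * k := fun x hx =>
    eD ▸ st1_lineA h g hT hc hx
  have cl : ∀ c₀, ((fl S fun v => c v = c₀).card : ℝ) ≤ μ * k := fun c₀ =>
    eD ▸ st1_cls h g hT d0.le hc hs c₀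
  refine ⟨S, c, h.sub, fun v hv e => ?_, h.ok, h.inj, h.hne, fun x => ?_,
    fun c₀ => (cl c₀).trans Dη, h.typ, fun x hx c₀ h0 c' hk ht => ?_⟩
  · rcases h.ends v hv with q | q
    exacts [disjoint_left.1 hd q.1 (e ▸ q.2), disjoint_left.1 hd q.2 (e ▸ q.1)]
  · by_cases hx : x ∈ A
    · exact (lA x hx).trans Dη
    by_cases hy : x ∈ F
    · exact h.lineF x hy
    have : (fl S fun v => I.On v x) = ∅ := eq_empty_of_forall_notMem fun v hv => by
      obtain ⟨hv, e⟩ := mem_fl.1 hv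
      rcases h.ends v hv with q | q <;> rcases e with rfl | rfl <;> simp_all
    rw [this]
    simp only [card_empty, Nat.cast_zero]
    linarith
  by_contra q
  push Not at q
  set E := fl (I.edg x) fun v => I.a v ∈ F ∨ I.b v ∈ F
  have hE : ∀ v ∈ E, v ∈ I.P ∧ I.On v x ∧ I.oth x v ∈ F ∧ I.On v (I.oth x v) ∧
      (I.a v = x ∧ I.b v = I.oth x v ∨ I.a v = I.oth x v ∧ I.b v = x) := fun v hv => by
    obtain ⟨h1, h2⟩ := mem_fl.1 hv
    obtain ⟨h1, h3, h4⟩ := Inst.mem_edg.1 h1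
    have nx := disjoint_left.1 hd hx
    unfold Inst.oth
    split_ifs with e
    · exact ⟨h1, h3, h2.resolve_left (e ▸ nx), Or.inr rfl, Or.inl ⟨e, rfl⟩⟩
    · have e' := h3.resolve_left e
      exact ⟨h1, h3, h2.resolve_right (e' ▸ nx), Or.inl rfl, Or.inr ⟨rfl, e'⟩⟩
  have ne : ∀ v ∈ E, x ≠ I.oth x v := fun v hv e => disjoint_left.1 hd hx (e ▸ (hE v hv).2.2.1)
  have io : ∀ u ∈ E, ∀ v ∈ E, I.oth x u = I.oth x v → u = v := fun u hu v hv e =>
    g.simple u (hE u hu).1 v (hE v hv).1 x _ (ne u hu) (hE u hu).2.1 (hE u hu).2.2.2.1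
      (hE v hv).2.1 (e ▸ (hE v hv).2.2.2.1)
  set Y := fl F fun y => η * k - 1 < (fl S fun v => I.On v y).card
  have cS : (S.card : ℝ) ≤ 4 * k * (μ * k) :=
    (st1_cover S A (fun x v => I.On v x) _ (fun v hv => st1_endA h hv) lA).trans
      (mul_le_mul_of_nonneg_right (by exact_mod_cast hA) (by positivity))
  have cY : (Y.card : ℝ) ≤ 8 * (β / 20 * k) := by
    have h1 : (Y.card : ℝ) * (η * k - 1) ≤ S.card := st1_heavy h hd _
    have h2 : (Y.card : ℝ) * (η * k / 2) ≤ Y.card * (η * k - 1) :=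
      mul_le_mul_of_nonneg_left (by linarith) (by positivity)
    have h3 : 4 * k * (μ * k) ≤ 4 * k * (β * η / 20 * k) := by gcongr
    exact le_of_mul_le_mul_right (a := η * k / 2) (by linarith) (by positivity)
  have b3 := (st1_inj (fl E fun v => ∃ u ∈ S, I.On u (I.oth x v) ∧ c u = c')
    (fl S fun v => c v = c') (fun v u => I.On u (I.oth x v))
    (fun v hv => let ⟨u, a1, a2, a3⟩ := (mem_fl.1 hv).2; ⟨u, mem_fl.2 ⟨a1, a3⟩, a2⟩)
    fun u hu v hv w hw e e' => io v (mem_fl.1 hv).1 w (mem_fl.1 hw).1 (st1_uniq h hd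
      (mem_fl.1 hu).1 (hE v (mem_fl.1 hv).1).2.2.1 (hE w (mem_fl.1 hw).1).2.2.1 e e')).trans (cl c')
  have b4 := (st1_inj (fl E fun v => ∃ u ∈ S, I.H v u ∧ c u = c')
    (fl S fun v => c v = c') (fun v u => I.H v u)
    (fun v hv => let ⟨u, a1, a2, a3⟩ := (mem_fl.1 hv).2; ⟨u, mem_fl.2 ⟨a1, a3⟩, a2⟩)
    fun u hu v hv w hw e e' => g.hone u (h.sub (mem_fl.1 hu).1) x
      v (Inst.mem_pts.2 ⟨(hE v (mem_fl.1 hv).1).1, (hE v (mem_fl.1 hv).1).2.1⟩)
      w (Inst.mem_pts.2 ⟨(hE w (mem_fl.1 hw).1).1, (hE w (mem_fl.1 hw).1).2.1⟩)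
      (g.symm _ _ e) (g.symm _ _ e')).trans (cl c')
  have b5 := (st1_inj (fl E fun v => I.oth x v ∈ Y) Y (fun v y => I.oth x v = y)
    (fun v hv => ⟨_, (mem_fl.1 hv).2, rfl⟩)
    fun u hu v hv w hw e e' => io v (mem_fl.1 hv).1 w (mem_fl.1 hw).1 (e.trans e'.symm)).trans cY
  have b1 := lA x hx
  have b2 := (g.spread x c').trans dD
  have b0 := hM x hx
  generalize hB1 : (fl S fun v => I.On v x) = B1 at b1
  generalize hB2 : fl (I.pts x) _ = B2 at b2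
  generalize hB3 : fl E _ = B3 at b3
  generalize hB4 : fl E _ = B4 at b4
  generalize hB5 : fl E _ = B5 at b5
  obtain ⟨v, hv, nv⟩ : ∃ v ∈ E, v ∉ B1 ∪ B2 ∪ B3 ∪ B4 ∪ B5 := by
    refine exists_mem_notMem_of_card_lt_card ?_
    have h1 : (B1 ∪ B2 ∪ B3 ∪ B4 ∪ B5).card ≤ B1.card + B2.card + B3.card + B4.card + B5.card := by
      have := card_union_le (B1 ∪ B2 ∪ B3 ∪ B4) B5
      have := card_union_le (B1 ∪ B2 ∪ B3) B4
      have := card_union_le (B1 ∪ B2) B3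
      have := card_union_le B1 B2
      omega
    have h2 : ((B1 ∪ B2 ∪ B3 ∪ B4 ∪ B5).card : ℝ) ≤
      B1.card + B2.card + B3.card + B4.card + B5.card := by exact_mod_cast h1
    have h3 : μ * k ≤ β / 20 * k := by gcongr
    have h4 : 0 < β * k := by positivity
    have : ((B1 ∪ B2 ∪ B3 ∪ B4 ∪ B5).card : ℝ) < E.card := by linarith
    exact_mod_cast this
  subst hB1 hB2 hB3 hB4 hB5
  obtain ⟨p1, p2, p3, p4, p5⟩ := hE v hv
  simp only [mem_union, mem_fl, Inst.mem_pts, not_or, not_and, not_exists, Y, not_lt] at nv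
  obtain ⟨⟨⟨⟨r1, r2⟩, r3⟩, r4⟩, r5⟩ := nv
  have hv' := mem_fl.1 hv
  have nS : v ∉ S := fun e => r1 e p2
  have := st1_ins h g hd hx p3 p1 nS p5 h0 hk ht q.1
    ((r2 ⟨p1, p2⟩).2 _ (ne v hv).symm p4) (r2 ⟨p1, p2⟩).1 q.2 (r3 hv) (r4 hv) (r5 hv p3)
  have := mx _ (mem_fl.2 ⟨mem_powerset.2 this.sub, _, this⟩)
  rw [card_insert_of_notMem nS] at this
  omega

end

end Pool.Agent.P.MP_1fec7a_co.S
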