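import Pool.Agent.P.MP_1fec7a_co.S.Iface
import Pool.Agent.P.MP_e2f256_co.EC

/-! Preparation of the instance, colours from types. -/

set_option autoImplicit false
set_option linter.unusedSectionVars false
set_option linter.unusedVariables false

namespace Pool.Agent.P.MP_1fec7a_co.S

section


open Finset

section
variable {V Λ : Type} [DecidableEq V] [DecidableEq Λ] {I : Inst V Λ} {k T : ℕ} {δ η C : ℝ}
  {A : Finset Λ} {S : Finset V} {c : V → ℕ}

lemma st2_pts (x : Λ) (v : V) : v ∈ (I.ext S c).pts x ↔ v ∈ I.pts x ∧ v ∉ S := by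
  simp only [Inst.pts, mem_fl]
  change v ∈ I.P \ S ∧ I.On v x ↔ _
  rw [mem_sdiff]; tauto

lemma st2_edg (x : Λ) (v : V) : v ∈ (I.ext S c).edg x ↔ v ∈ I.edg x ∧ v ∉ S := by
  simp only [Inst.edg, mem_fl]
  change v ∈ I.P \ S ∧ I.On v x ∧ I.a v ≠ I.b v ↔ _
  rw [mem_sdiff]; tauto

lemma st2_U (x : Λ) (d : ℕ) :
    d ∈ (I.ext S c).U x ↔ d ∈ I.U x ∨ ∃ v ∈ S, I.On v x ∧ c v = d := by
  change d ∈ I.U x ∪ (fl S fun v => I.On v x).image c ↔ _
  simp only [mem_union, mem_image, mem_fl, and_assoc]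

lemma st2_Fb (v : V) (d : ℕ) :
    d ∈ (I.ext S c).Fb v ↔ d ∈ I.Fb v ∨ ∃ u ∈ S, I.H v u ∧ c u = d := by
  change d ∈ I.Fb v ∪ (fl S fun u => I.H v u).image c ↔ _
  simp only [mem_union, mem_image, mem_fl, and_assoc]

lemma st2_cardU (h : I.Star k T η A S c) (x : Λ) :
    ((I.ext S c).U x).card = (I.U x).card + (fl S fun v => I.On v x).card := by
  change (I.U x ∪ (fl S fun v => I.On v x).image c).card = _
  rw [card_union_of_disjoint, card_image_of_injOn]
  · intro u hu v hv e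
    have hu := mem_fl.1 (mem_coe.1 hu)
    have hv := mem_fl.1 (mem_coe.1 hv)
    exact h.inj u hu.1 v hv.1 x hu.2 hv.2 e
  · rw [disjoint_left]
    intro d hd hd'
    obtain ⟨v, hv, rfl⟩ := mem_image.1 hd'
    obtain ⟨hv, hx⟩ := mem_fl.1 hv
    obtain ⟨-, h1, h2, -⟩ := h.ok v hv
    rcases hx with rfl | rfl
    exacts [h1 hd, h2 hd]

lemma st2_split {X Y Z : Finset V} (h : ∀ v, v ∈ Y ↔ v ∈ X ∧ v ∉ S)
    (h' : ∀ v, v ∈ Z ↔ v ∈ X ∧ v ∈ S) : Y.card + Z.card = X.card := by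
  rw [← card_union_of_disjoint]
  · congr 1; ext v; rw [mem_union, h, h']; tauto
  · rw [disjoint_left]; intro v hv hv'; exact ((h v).1 hv).2 ((h' v).1 hv').2

lemma st2_cardP (h : I.Star k T η A S c) (x : Λ) :
    ((I.ext S c).pts x).card + (fl S fun v => I.On v x).card = (I.pts x).card :=
  st2_split (st2_pts x) fun v => by
    simp only [Inst.pts, mem_fl]
    exact ⟨fun q => ⟨⟨h.sub q.1, q.2⟩, q.1⟩, fun q => ⟨q.2, q.1.2⟩⟩

lemma st2_cardE (h : I.Star k T η A S c) (x : Λ) :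
    ((I.ext S c).edg x).card + (fl S fun v => I.On v x).card = (I.edg x).card :=
  st2_split (st2_edg x) fun v => by
    simp only [Inst.edg, mem_fl]
    exact ⟨fun q => ⟨⟨h.sub q.1, q.2, h.edge v q.1⟩, q.1⟩, fun q => ⟨q.2, q.1.2.1⟩⟩

lemma st2_sub (X W : Finset V) (r : V → V → Prop)
    (h : ∀ u ∈ W, ∀ v ∈ X, ∀ v' ∈ X, r v u → r v' u → v = v') :
    (fl X fun v => ∃ u ∈ W, r v u).card ≤ W.card := by
  refine card_le_card_of_forall_subsingleton r (fun v hv => (mem_fl.1 hv).2) fun u hu => ?_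
  intro v hv v' hv'
  exact h u hu v (mem_fl.1 hv.1).1 v' (mem_fl.1 hv'.1).1 hv.2 hv'.2

lemma st2_spread (g : I.Good k δ C) (h : I.Star k T η A S c) (x : Λ) (d : ℕ) :
    ((fl ((I.ext S c).pts x) fun v => d ∈ (I.ext S c).Fb v ∨
      ∃ y, y ≠ x ∧ (I.ext S c).On v y ∧ d ∈ (I.ext S c).U y).card : ℝ) ≤ δ * k + 3 * (η * k) := by
  have hW := h.cls d
  set W := fl S fun v => c v = d with hWd
  have hP : ∀ v ∈ I.pts x, v ∈ I.P ∧ I.On v x := fun v hv => mem_fl.1 hv
  have h1 := st2_sub (I.pts x) W (fun v u => I.H v u) fun u hu v hv v' hv' e e' =>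
    g.hone u (h.sub (mem_fl.1 hu).1) x v hv v' hv' (g.symm _ _ e) (g.symm _ _ e')
  have h2 := st2_sub (I.pts x) W (fun v u => I.a u ≠ x ∧ I.On v (I.a u))
    fun u hu v hv v' hv' e e' => g.simple v (hP v hv).1 v' (hP v' hv').1 x (I.a u) e.1.symm
      (hP v hv).2 e.2 (hP v' hv').2 e'.2
  have h3 := st2_sub (I.pts x) W (fun v u => I.b u ≠ x ∧ I.On v (I.b u))
    fun u hu v hv v' hv' e e' => g.simple v (hP v hv).1 v' (hP v' hv').1 x (I.b u) e.1.symm
      (hP v hv).2 e.2 (hP v' hv').2 e'.2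
  have h0 := g.spread x d
  have hs : (fl ((I.ext S c).pts x) fun v => d ∈ (I.ext S c).Fb v ∨
      ∃ y, y ≠ x ∧ (I.ext S c).On v y ∧ d ∈ (I.ext S c).U y) ⊆
      (fl (I.pts x) fun v => d ∈ I.Fb v ∨ ∃ y, y ≠ x ∧ I.On v y ∧ d ∈ I.U y) ∪
      (fl (I.pts x) fun v => ∃ u ∈ W, I.H v u) ∪
      (fl (I.pts x) fun v => ∃ u ∈ W, I.a u ≠ x ∧ I.On v (I.a u)) ∪
      (fl (I.pts x) fun v => ∃ u ∈ W, I.b u ≠ x ∧ I.On v (I.b u)) := by
    intro v hv
    obtain ⟨hv, q⟩ := mem_fl.1 hv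
    have hv := ((st2_pts x v).1 hv).1
    simp only [mem_union, mem_fl, hv, true_and, hWd]
    rcases q with q | ⟨y, hy, hvy, q⟩
    · rcases (st2_Fb v d).1 q with q | ⟨u, hu, q, e⟩
      · exact Or.inl (Or.inl (Or.inl (Or.inl q)))
      · exact Or.inl (Or.inl (Or.inr ⟨u, ⟨hu, e⟩, q⟩))
    · rcases (st2_U y d).1 q with q | ⟨u, hu, q, e⟩
      · exact Or.inl (Or.inl (Or.inl (Or.inr ⟨y, hy, hvy, q⟩)))
      · rcases q with rfl | rfl
        · exact Or.inl (Or.inr ⟨u, ⟨hu, e⟩, hy, hvy⟩)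
        · exact Or.inr ⟨u, ⟨hu, e⟩, hy, hvy⟩
  have h4 := (card_le_card hs).trans ((card_union_le _ _).trans (Nat.add_le_add
    ((card_union_le _ _).trans (Nat.add_le_add ((card_union_le _ _).trans
      (Nat.add_le_add_left h1 _)) h2)) h3))
  have h5 := (Nat.cast_le (α := ℝ)).2 h4
  push_cast at h5
  linarith

lemma st2_good (hδ : 0 ≤ δ) (hη : 0 ≤ η) (g : I.Good k δ C) (h : I.Star k T η A S c) :
    (I.ext S c).Good k (2 * δ + 3 * η) C := by
  have hk : (0 : ℝ) ≤ k := Nat.cast_nonneg k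
  have e1 := mul_nonneg hδ hk
  have e2 := mul_nonneg hη hk
  have hP : ∀ v ∈ (I.ext S c).P, v ∈ I.P := fun v hv => (mem_sdiff.1 hv).1
  have hp : ∀ x, ∀ v ∈ (I.ext S c).pts x, v ∈ I.pts x := fun x v hv => ((st2_pts x v).1 hv).1
  refine ⟨fun v hv => g.mem v (hP v hv), g.cardL,
    fun u hu v hv => g.simple u (hP u hu) v (hP v hv), g.symm, fun v hv => ?_,
    fun v hv x u hu u' hu' => g.hone v (hP v hv) x u (hp x u hu) u' (hp x u' hu'),
    fun x u hu v hv => g.hzero x u (hp x u hu) v (hp x v hv), fun x => ?_, fun x d hd => ?_,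
    fun v hv d hd => ?_, fun x => ?_, fun v hv => ?_, fun x d => ?_⟩
  · have h1 := g.hdeg v (hP v hv)
    have h2 : (fl (I.ext S c).P ((I.ext S c).H v)).card ≤ (fl I.P (I.H v)).card :=
      card_le_card (fl_mono fun u hu q => ⟨hP u hu, q⟩)
    have h3 := (Nat.cast_le (α := ℝ)).2 h2
    nlinarith
  · have := g.size x
    have := st2_cardU h x
    have := st2_cardP h x
    omega
  · rcases (st2_U x d).1 hd with q | ⟨u, hu, -, rfl⟩
    exacts [g.Ult x d q, (h.ok u hu).1]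
  · rcases (st2_Fb v d).1 hd with q | ⟨u, hu, -, rfl⟩
    exacts [g.Flt v (hP v hv) d q, (h.ok u hu).1]
  · have h1 := g.Ule x
    have h2 := h.line x
    rw [st2_cardU h x]
    push_cast
    nlinarith
  · have h1 := g.hdeg v (hP v hv)
    have h2 := g.Fle v (hP v hv)
    have h3 : ((I.ext S c).Fb v).card ≤ (I.Fb v).card + (fl I.P (I.H v)).card :=
      (card_union_le _ _).trans (Nat.add_le_add_left (card_image_le.trans
        (card_le_card (fl_mono fun u hu q => ⟨h.sub hu, q⟩))) _)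
    have h4 := (Nat.cast_le (α := ℝ)).2 h3
    push_cast at h4
    nlinarith
  · have := st2_spread g h x d
    nlinarith

lemma st2_col (g : I.Good k δ C) (h : I.Star k T η A S c) (hc : (I.ext S c).Col k) : I.Col k := by
  obtain ⟨c', h1, h2, h3⟩ := hc
  have hP : ∀ v ∈ I.P, v ∉ S → v ∈ (I.ext S c).P := fun v hv q => mem_sdiff.2 ⟨hv, q⟩
  have key : ∀ x, ∀ u ∈ I.pts x, ∀ v ∈ I.pts x, u ∈ S → v ∉ S → c u ≠ c' v := by
    intro x u hu v hv qu qv e
    obtain ⟨hv, hx⟩ := mem_fl.1 hv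
    obtain ⟨-, a1, a2, -⟩ := h1 v (hP v hv qv)
    have : c' v ∈ (I.ext S c).U x := (st2_U x _).2 (Or.inr ⟨u, qu, (mem_fl.1 hu).2, e⟩)
    rcases hx with rfl | rfl
    exacts [a1 this, a2 this]
  have key2 : ∀ u ∈ S, ∀ v ∈ I.P, v ∉ S → I.H v u → c u ≠ c' v := fun u hu v hv qv q e =>
    (h1 v (hP v hv qv)).2.2.2 ((st2_Fb v _).2 (Or.inr ⟨u, hu, q, e⟩))
  refine ⟨fun v => if v ∈ S then c v else c' v, fun v hv => ?_, fun x u hu v hv => ?_,
    fun u hu v hv q => ?_⟩
  · by_cases q : v ∈ S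
    · simp only [if_pos q]; exact h.ok v q
    · simp only [if_neg q]
      obtain ⟨a0, a1, a2, a3⟩ := h1 v (hP v hv q)
      exact ⟨a0, fun e => a1 ((st2_U _ _).2 (Or.inl e)), fun e => a2 ((st2_U _ _).2 (Or.inl e)),
        fun e => a3 ((st2_Fb _ _).2 (Or.inl e))⟩
  · by_cases qu : u ∈ S <;> by_cases qv : v ∈ S <;> simp only [qu, qv, if_true, if_false] <;>
      intro e
    · exact h.inj u qu v qv x (mem_fl.1 hu).2 (mem_fl.1 hv).2 e
    · exact (key x u hu v hv qu qv e).elim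
    · exact (key x v hv u hu qv qu e.symm).elim
    · exact h2 x u ((st2_pts x u).2 ⟨hu, qu⟩) v ((st2_pts x v).2 ⟨hv, qv⟩) e
  · by_cases qu : u ∈ S <;> by_cases qv : v ∈ S <;> simp only [qu, qv, if_true, if_false]
    · exact h.hne u qu v qv q
    · exact key2 u qu v hv qv (g.symm _ _ q)
    · exact (key2 v qv u hu qu q).symm
    · exact h3 u (hP u hu qu) v (hP v hv qv) q

end

theorem p_ST2 :
    S_ST2 := by
  intro V Λ _ _ I k T δ η C A S c hδ hη g h
  refine ⟨st2_good hδ hη g h, fun x => ?_, fun x hx d hd c' hc' e => ?_, fun n F hm x hx => ?_,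
    st2_col g h⟩
  · have := st2_cardU h x
    have := st2_cardE h x
    omega
  · rw [st2_U] at hd ⊢
    rcases hd with q | ⟨v, hv, q, rfl⟩
    · exact h.full x hx d q c' hc' e
    · obtain ⟨c₀, h0, e0⟩ := h.typ x hx v hv q
      exact h.full x hx c₀ h0 c' hc' (e.trans e0.symm)
  · have h1 := hm x hx
    have h2 := h.line x
    have h3 : (fl (I.edg x) fun v => I.a v ∈ F ∨ I.b v ∈ F) ⊆
        (fl ((I.ext S c).edg x) fun v => (I.ext S c).a v ∈ F ∨ (I.ext S c).b v ∈ F) ∪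
          (fl S fun v => I.On v x) := by
      intro v hv
      obtain ⟨hv, q⟩ := mem_fl.1 hv
      by_cases qv : v ∈ S
      · exact mem_union_right _ (mem_fl.2 ⟨qv, (mem_fl.1 hv).2.1⟩)
      · exact mem_union_left _ (mem_fl.2 ⟨(st2_edg x v).2 ⟨hv, qv⟩, q⟩)
    have h4 := (Nat.cast_le (α := ℝ)).2 ((card_le_card h3).trans (card_union_le _ _))
    push_cast at h4
    linarith

end

section


open Finset

/-- Inserting one element raises the number of elements with a property by at most one. -/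
lemma res_ins {V : Type} [DecidableEq V] {R : Finset V} {v : V} {p q : V → Prop} {n : ℕ}
    (h : ∀ u ∈ R, p u → q u) (h1 : (fl R q).card ≤ n) (h2 : p v → (fl R q).card < n) :
    (fl (insert v R) p).card ≤ n := by
  by_cases hv : p v
  · refine le_trans (card_le_card (t := insert v (fl R q)) fun u hu => ?_)
      ((card_insert_le _ _).trans (h2 hv))
    obtain ⟨a, b⟩ := mem_fl.1 hu
    exact mem_insert.2 ((mem_insert.1 a).imp_right fun a => mem_fl.2 ⟨a, h u a b⟩)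
  · refine le_trans (card_le_card (fl_mono fun u a b => ?_)) h1
    rcases mem_insert.1 a with rfl | a
    · exact absurd b hv
    · exact ⟨a, h u a b⟩

lemma res_fib {V W : Type} (R : Finset V) (T : Finset W) (f : V → W) :
    ∑ y ∈ T, (fl R fun v => f v = y).card = (fl R fun v => f v ∈ T).card := by
  classical
  simp only [fl_eq]
  exact sum_card_fiberwise_eq_card_filter R T f

theorem p_RES :
    S_RES := by
  intro V Λ _ _ I k r κ G₀ β δ C A F hβ hG hS hM h1 h2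
  obtain ⟨t, ht⟩ : ∃ t : V → Λ, t = fun v => if I.a v ∈ A then I.a v else I.b v := ⟨_, rfl⟩
  obtain ⟨o, ho⟩ : ∃ o : V → Λ, o = fun v => if I.a v ∈ A then I.b v else I.a v := ⟨_, rfl⟩
  have hn : ∀ x ∈ A, ∃ n, n ≤ r ∧ n + k = r + (I.U x).card + (I.edg x).card := fun x hx => by
    have a := hS.tight x hx
    have b := hG.size x
    have c : (I.edg x).card ≤ (I.pts x).card := card_le_card (fl_mono fun v a b => ⟨a, b.1⟩)
    exact ⟨r + (I.U x).card + (I.edg x).card - k, by omega, by omega⟩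
  choose! n n1 n2 using hn
  let Q : Finset V → Prop := fun R => ∃ gp : V → ℕ,
    (∀ v ∈ R, t v ∈ A ∧ o v ∈ F ∧ (I.a v = t v ∧ I.b v = o v ∨ I.a v = o v ∧ I.b v = t v)) ∧
    (∀ v ∈ R, gp v < κ) ∧ (∀ x ∈ A, (fl R fun v => t v = x).card ≤ n x) ∧
    ∀ y g, (fl R fun v => o v = y ∧ gp v = g).card ≤ G₀
  obtain ⟨R, hR, mx⟩ := exists_max_image (fl I.P.powerset Q) card ⟨∅, mem_fl.2 ⟨by simp, 0, by simp,
    by simp, fun _ _ => (card_fl_le _ _).trans (by simp), fun _ _ => (card_fl_le _ _).trans (by simp)⟩⟩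
  obtain ⟨r0, gp, r1, r2, r3, r4⟩ := mem_fl.1 hR
  rw [mem_powerset] at r0
  refine ⟨R, t, o, gp, r0, r1, r2, fun x hx => ?_, r4⟩
  rw [← n2 x hx, add_left_inj]
  by_contra hne
  have lt := lt_of_le_of_ne (r3 x hx) hne
  have c1 : R.card ≤ 4 * k * r :=
    calc R.card ≤ (fl R fun v => t v ∈ A).card :=
          card_le_card fun v hv => mem_fl.2 ⟨hv, (r1 v hv).1⟩
      _ ≤ A.card • r := by
          rw [← res_fib]
          exact sum_le_card_nsmul _ _ _ fun z hz => (r3 z hz).trans (n1 z hz)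
      _ ≤ _ := Nat.mul_le_mul_right _ hS.cardA
  obtain ⟨Y, hY⟩ : ∃ Y, Y = fl F fun y => ∀ g < κ, G₀ ≤ (fl R fun v => o v = y ∧ gp v = g).card :=
    ⟨_, rfl⟩
  have c2 : Y.card * κ * G₀ ≤ R.card :=
    calc _ = (Y ×ˢ range κ).card • G₀ := by simp
      _ ≤ ∑ z ∈ Y ×ˢ range κ, (fl R fun v => (o v, gp v) = z).card :=
          card_nsmul_le_sum _ _ _ fun z hz => by
            rw [mem_product, hY, mem_fl, mem_range] at hz
            simpa only [Prod.ext_iff] using hz.1.2 _ hz.2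
      _ ≤ _ := by rw [res_fib]; exact card_fl_le _ _
  have c3 : ((fl R fun v => t v = x).card : ℝ) + 1 ≤ r := by exact_mod_cast lt.trans_le (n1 x hx)
  have c4 : (Y.card : ℝ) ≤ β * k / 2 := by
    have a : (Y.card : ℝ) * κ * G₀ ≤ 4 * k * r := by exact_mod_cast c2.trans c1
    have b : (0 : ℝ) ≤ (fl R fun v => t v = x).card := Nat.cast_nonneg _
    have c : (0 : ℝ) < κ * G₀ := (mul_pos_iff_of_pos_left hβ).1 (by linarith)
    refine le_of_mul_le_mul_right ?_ c
    nlinarith [mul_le_mul_of_nonneg_left h2 (Nat.cast_nonneg k)]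
  have hd := disjoint_left.1 hS.disj
  have e1 : ∀ v ∈ fl (I.edg x) fun v => I.a v ∈ F ∨ I.b v ∈ F, v ∈ I.P ∧ t v = x ∧ o v ∈ F ∧
      (I.a v = t v ∧ I.b v = o v ∨ I.a v = o v ∧ I.b v = t v) := fun v hv => by
    obtain ⟨a, b⟩ := mem_fl.1 hv
    obtain ⟨a, e | e, -⟩ := Inst.mem_edg.1 a
    · have : I.a v ∈ A := e ▸ hx
      simpa [ht, ho, hx, a, e] using b.resolve_left (hd this)
    · have f := b.resolve_right (hd (e ▸ hx))
      have : I.a v ∉ A := fun q => hd q f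
      simp [ht, ho, this, a, e, f]
  obtain ⟨v, hv, v1, v2⟩ : ∃ v ∈ fl (I.edg x) fun v => I.a v ∈ F ∨ I.b v ∈ F, v ∉ R ∧ o v ∉ Y := by
    by_contra! H
    have a := hM x hx
    generalize (fl (I.edg x) fun v => I.a v ∈ F ∨ I.b v ∈ F) = E at e1 H a
    have on : ∀ v ∈ E, I.On v x ∧ I.On v (o v) := fun v hv => by
      obtain ⟨-, b, -, c | c⟩ := e1 v hv
      exacts [⟨.inl (c.1.trans b), .inr c.2⟩, ⟨.inr (c.2.trans b), .inl c.1⟩]
    have b : (E \ R).card ≤ Y.card := card_le_card_of_injOn o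
      (fun v hv => H v (mem_sdiff.1 hv).1 (mem_sdiff.1 hv).2) fun u hu v hv e => by
        have hu := (mem_sdiff.1 hu).1
        have hv := (mem_sdiff.1 hv).1
        exact hG.simple u (e1 u hu).1 v (e1 v hv).1 x (o u) (fun q => hd hx (q ▸ (e1 u hu).2.2.1))
          (on u hu).1 (on u hu).2 (on v hv).1 (e ▸ (on v hv).2)
    have c : (E ∩ R).card ≤ (fl R fun v => t v = x).card := card_le_card fun v hv =>
      mem_fl.2 ⟨(mem_inter.1 hv).2, (e1 v (mem_inter.1 hv).1).2.1⟩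
    have d : (E.card : ℝ) ≤ Y.card + (fl R fun v => t v = x).card := by
      have := card_sdiff_add_card_inter E R
      exact_mod_cast (by omega : E.card ≤ Y.card + (fl R fun v => t v = x).card)
    linarith
  obtain ⟨f1, f2, f3, f4⟩ := e1 v hv
  simp only [hY, mem_fl, f3, true_and, not_forall, not_le] at v2
  obtain ⟨g, g1, g2⟩ := v2
  have up : ∀ u ∈ R, Function.update gp v g u = gp u := fun u hu =>
    Function.update_of_ne (ne_of_mem_of_not_mem hu v1) _ _
  have := mx (insert v R) (mem_fl.2 ⟨mem_powerset.2 (insert_subset f1 r0), Function.update gp v g,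
    forall_mem_insert .. |>.2 ⟨⟨f2 ▸ hx, f3, f4⟩, r1⟩,
    forall_mem_insert .. |>.2 ⟨by simpa using g1, fun u hu => up u hu ▸ r2 u hu⟩,
    fun z hz => res_ins (fun _ _ => id) (r3 z hz) fun e => by rw [← e, f2]; exact lt,
    fun y j => res_ins (fun u hu e => ⟨e.1, up u hu ▸ e.2⟩) (r4 y j) fun e => by
      rw [← e.1, ← e.2, Function.update_self]; exact g2⟩)
  rw [card_insert_of_notMem v1] at this
  omega

end

section


open Finset

lemma col_inj {V : Type} (A : Finset V) (B : Finset ℕ) (h : A.card ≤ B.card) :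
    ∃ g : V → ℕ, Set.MapsTo g A B ∧ Set.InjOn g A := by
  classical
  obtain ⟨f, hf⟩ := Function.Embedding.exists_of_card_le_finset (α := A) (s := B) (by simpa using h)
  refine ⟨fun v => if hv : v ∈ A then f ⟨v, hv⟩ else 0, fun v hv => ?_, fun u hu v hv e => ?_⟩
  · simpa only [dif_pos (mem_coe.1 hv)] using hf ⟨_, rfl⟩
  · simp only [dif_pos (mem_coe.1 hv), dif_pos (mem_coe.1 hu)] at e
    exact congrArg Subtype.val (f.injective e)

lemma col_edge {V Λ : Type} [DecidableEq V] [DecidableEq Λ] {I : Inst V Λ} {k T : ℕ}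
    {s : Λ → ℕ → Bool} {ty : V → ℕ} (h : I.Typing k T s I.P ty) (j : ℕ) :
    ∃ e : V → ℕ, ∀ v ∈ I.P, I.a v ≠ I.b v → ty v = j → e v ∈ fl (range k) (fun c => c % T = j) ∧
      ∀ u ∈ I.P, I.a u ≠ I.b u → ty u = j → ∀ x, I.On u x → I.On v x → e u = e v → u = v := by
  set E := fl I.P fun v => I.a v ≠ I.b v ∧ ty v = j with hE
  rcases E.eq_empty_or_nonempty with h0 | ⟨v₀, h0⟩
  · exact ⟨fun _ => 0, fun v h1 h2 h3 => absurd (h0 ▸ (mem_fl.2 ⟨h1, h2, h3⟩ : v ∈ E))
      (notMem_empty v)⟩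
  have hj : j < T := (mem_fl.1 h0).2.2 ▸ h.lt v₀ (mem_fl.1 h0).1
  have key : ∀ (p : E → Λ), (∀ v : E, I.On v (p v)) → ∀ x,
      (univ.filter fun v => p v = x).card ≤ cap k T j := fun p hp x => by
    refine le_trans ?_ (le_of_add_le_left (h.cnt x j hj))
    refine card_le_card_of_injOn Subtype.val (fun v hv => ?_) Subtype.val_injective.injOn
    have := mem_fl.1 v.2
    exact mem_coe.2 (mem_fl.2 ⟨this.1, (mem_filter.1 hv).2 ▸ hp v, this.2.2⟩)
  obtain ⟨c, hc⟩ := Pool.Agent.P.MP_e2f256_co.konig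
    (fun v : E => if s (I.a v) j then I.a v else I.b v)
    (fun v : E => if s (I.a v) j then I.b v else I.a v) (cap k T j)
    (lt_of_lt_of_le (card_pos.2 ⟨⟨v₀, h0⟩, by simp⟩) (key (fun v => I.a v) (fun v => .inl rfl) (I.a v₀)))
    (key _ fun v => by unfold Inst.On; split_ifs <;> simp)
    (key _ fun v => by unfold Inst.On; split_ifs <;> simp)
  classical
  refine ⟨fun v => if hv : v ∈ E then ((fl (range k) fun c => c % T = j).equivFin.symm
    (c ⟨v, hv⟩) : ℕ) else 0, fun v h1 h2 h3 => ?_⟩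
  have hv : v ∈ E := mem_fl.2 ⟨h1, h2, h3⟩
  refine ⟨by simp only [dif_pos hv]; exact Subtype.prop _, fun u g1 g2 g3 x hu hx e => ?_⟩
  have hu' : u ∈ E := mem_fl.2 ⟨g1, g2, g3⟩
  simp only [dif_pos hv, dif_pos hu', Subtype.coe_inj] at e
  refine congrArg Subtype.val (hc ⟨u, hu'⟩ ⟨v, hv⟩ ?_ (Equiv.injective _ e))
  have f1 := (h.fit u g1 g2).1
  have f2 := (h.fit v h1 h2).1
  rw [g3] at f1
  rw [h3] at f2
  rcases hu with rfl | rfl <;> rcases hx with hx | hx <;> simp only [← hx] at f1 ⊢ <;>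
    revert f1 f2 <;> cases s (I.a u) j <;> cases s (I.a v) j <;> cases s (I.b v) j <;>
    simp [hx]

theorem p_COL :
    S_COL := by
  intro V Λ _ _ I k T s ty h
  choose e he using col_edge h
  have : ∀ x j, ∃ g : V → ℕ, j < T →
      Set.MapsTo g (fl I.P fun v => (I.a v = x ∧ I.b v = x) ∧ ty v = j)
        (fl (range k) (fun c => c % T = j) \ (fl (I.U x) (fun c => c % T = j) ∪
          (fl (I.edg x) fun v => ty v = j).image (e j)) : Finset ℕ) ∧
      Set.InjOn g (fl I.P fun v => (I.a v = x ∧ I.b v = x) ∧ ty v = j) := fun x j => by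
    by_cases hj : j < T
    swap
    · exact ⟨fun _ => 0, fun q => absurd q hj⟩
    simp only [hj, true_imp_iff]
    refine col_inj _ _ (le_trans ?_ (le_card_sdiff _ _))
    have h1 := h.cnt x j hj
    have h2 := card_union_le (fl (I.U x) (fun c => c % T = j))
      ((fl (I.edg x) fun v => ty v = j).image (e j))
    have h3 := card_image_le (s := fl (I.edg x) fun v => ty v = j) (f := e j)
    have h4 : (fl I.P fun v => (I.a v = x ∧ I.b v = x) ∧ ty v = j).card +
        (fl (I.edg x) fun v => ty v = j).card ≤ ld I.P I.a I.b ty x j := by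
      rw [← card_union_of_disjoint (disjoint_left.2 fun v h1 h2 => by
        simp only [mem_fl, Inst.mem_edg] at h1 h2
        exact h2.1.2.2 (h1.2.1.1.trans h1.2.1.2.symm))]
      refine card_le_card fun v hv => mem_fl.2 ?_
      simp only [mem_union, mem_fl, Inst.mem_edg, Inst.On] at hv
      tauto
    unfold uc cap at h1
    omega
  choose g hg using this
  have hp : ∀ v ∈ I.P, I.a v = I.b v →
      v ∈ fl I.P fun u => (I.a u = I.a v ∧ I.b u = I.a v) ∧ ty u = ty v :=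
    fun v hv e => mem_fl.2 ⟨hv, ⟨rfl, e.symm⟩, rfl⟩
  have hq := fun v hv e => mem_sdiff.1 (mem_coe.1 ((hg _ _ (h.lt v hv)).1 (hp v hv e)))
  let c : V → ℕ := fun v => if I.a v = I.b v then g (I.a v) (ty v) v else e (ty v) v
  have hc : ∀ v ∈ I.P, c v < k ∧ c v % T = ty v := fun v hv => by
    simp only [c]
    split_ifs with q
    · simpa using (hq v hv q).1
    · simpa using (he _ v hv q rfl).1
  have hm : ∀ x, ∀ u ∈ I.pts x, ∀ v ∈ I.pts x, I.a u = I.b u → I.a v ≠ I.b v → c u ≠ c v := by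
    intro x u hu v hv q1 q2 q
    rw [Inst.mem_pts] at hu hv
    have t : ty v = ty u := by rw [← (hc u hu.1).2, q, (hc v hv.1).2]
    have ex : I.a u = x := hu.2.elim id q1.trans
    refine (hq u hu.1 q1).2 (mem_union_right _ (mem_image.2 ⟨v, mem_fl.2
      ⟨Inst.mem_edg.2 ⟨hv.1, ex ▸ hv.2, q2⟩, t⟩, ?_⟩))
    simpa only [c, if_pos q1, if_neg q2, t] using q.symm
  refine ⟨c, fun v hv => ⟨(hc v hv).1, ?_⟩, fun x u hu v hv q => ?_, fun u hu v hv H q =>
    h.hne u hu v hv H (by rw [← (hc u hu).2, q, (hc v hv).2])⟩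
  · rw [← and_assoc]
    refine ⟨?_, fun q => uc_eq_zero.1 (h.fb v hv) _ q (hc v hv).2⟩
    by_cases q : I.a v = I.b v
    · rw [← q, and_self]
      refine fun r => (hq v hv q).2 (mem_union_left _ (mem_fl.2 ?_))
      simpa only [c, if_pos q] using And.intro r (hc v hv).2
    · exact ⟨fun r => uc_eq_zero.1 (h.fit v hv q).2.1 _ r (hc v hv).2,
        fun r => uc_eq_zero.1 (h.fit v hv q).2.2 _ r (hc v hv).2⟩
  · by_cases q1 : I.a u = I.b u <;> by_cases q2 : I.a v = I.b v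
    · rw [Inst.mem_pts] at hu hv
      have t : ty u = ty v := by rw [← (hc u hu.1).2, q, (hc v hv.1).2]
      have ex : I.a u = I.a v := (hu.2.elim id q1.trans).trans (hv.2.elim id q2.trans).symm
      refine (hg _ _ (h.lt v hv.1)).2 (mem_coe.2 (mem_fl.2 ⟨hu.1, ⟨ex, q1 ▸ ex⟩, t⟩))
        (hp v hv.1 q2) ?_
      simpa only [c, if_pos q1, if_pos q2, t, ex] using q
    · exact absurd q (hm x u hu v hv q1 q2)
    · exact absurd q.symm (hm x v hv u hu q2 q1)
    · rw [Inst.mem_pts] at hu hv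
      have t : ty u = ty v := by rw [← (hc u hu.1).2, q, (hc v hv.1).2]
      refine (he _ v hv.1 q2 rfl).2 u hu.1 q1 t x hu.2 hv.2 ?_
      simpa only [c, if_neg q1, if_neg q2, t] using q

end

section


open Finset

theorem p_QL :
    S_QL := by
  intro V S J e ν b ζ ρ n hν hb hζ hρ hS hc hn
  classical
  set ε : V → ℕ → ℝ := fun v j => if e v j then 1 else -1 with hε
  have hn0 : (0 : ℝ) ≤ n := (Nat.cast_nonneg _).trans hS
  have e1 : ∑ v ∈ S, ∑ j ∈ fl J (e v), ν j =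
      S.card * (∑ j ∈ J, ν j) / 2 + (∑ j ∈ J, ν j * ∑ v ∈ S, ε v j) / 2 := by
    have : ∀ v, ∑ j ∈ fl J (e v), ν j = (∑ j ∈ J, ν j) / 2 + (∑ j ∈ J, ν j * ε v j) / 2 := fun v => by
      rw [fl_eq, sum_filter, ← add_div, ← sum_add_distrib, sum_div]
      exact sum_congr rfl fun j _ => by simp only [hε]; split_ifs <;> ring
    simp only [this, sum_add_distrib, sum_const, nsmul_eq_mul, ← sum_div, mul_sum]
    rw [sum_comm, ← mul_sum, mul_div_assoc]
  have e2 : ∀ u ∈ S, ∀ v ∈ S, ∑ j ∈ J, ε u j * ε v j ≤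
      (if u = v then (J.card : ℝ) else 0) + 2 * ζ * J.card := fun u hu v hv => by
    have a : ∑ j ∈ J, ε u j * ε v j = 2 * ((fl J fun j => e u j ↔ e v j).card : ℝ) - J.card := by
      rw [fl_eq, card_filter, card_eq_sum_ones J]
      push_cast
      rw [mul_sum, ← sum_sub_distrib]
      exact sum_congr rfl fun j _ => by
        by_cases h1 : e u j <;> by_cases h2 : e v j <;> simp [hε, h1, h2] <;> norm_num
    have b0 : (0 : ℝ) ≤ ζ * J.card := by positivity
    rw [a]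
    split_ifs with h
    · have : ((fl J fun j => e u j ↔ e v j).card : ℝ) ≤ J.card := by exact_mod_cast card_fl_le _ _
      linarith
    · linarith [hc u hu v hv h]
  have e3 : ∑ j ∈ J, |∑ v ∈ S, ε v j| ^ 2 ≤ J.card * (ρ * n) ^ 2 := by
    calc ∑ j ∈ J, |∑ v ∈ S, ε v j| ^ 2 = ∑ u ∈ S, ∑ v ∈ S, ∑ j ∈ J, ε u j * ε v j := by
          simp only [sq_abs]
          simp only [sq, sum_mul_sum]
          rw [sum_comm]
          exact sum_congr rfl fun u _ => sum_comm
      _ ≤ ∑ u ∈ S, ∑ v ∈ S, ((if u = v then (J.card : ℝ) else 0) + 2 * ζ * J.card) :=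
          sum_le_sum fun u hu => sum_le_sum fun v hv => e2 u hu v hv
      _ = ∑ _u ∈ S, ((J.card : ℝ) + S.card * (2 * ζ * J.card)) :=
          sum_congr rfl fun u hu => by simp [sum_add_distrib, hu]
      _ = J.card * (S.card + 2 * ζ * (S.card : ℝ) ^ 2) := by simp; ring
      _ ≤ J.card * (n + 2 * ζ * n ^ 2) := by gcongr
      _ ≤ _ := by rw [mul_pow]; gcongr
  have e4 : ∑ j ∈ J, |∑ v ∈ S, ε v j| ≤ J.card * (ρ * n) := by
    refine le_of_sq_le_sq ?_ (by positivity)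
    refine sq_sum_le_card_mul_sum_sq.trans ?_
    calc _ ≤ (J.card : ℝ) * (J.card * (ρ * n) ^ 2) := by gcongr
      _ = _ := by ring
  have e5 : ∑ j ∈ J, ν j * ∑ v ∈ S, ε v j ≤ b * ∑ j ∈ J, |∑ v ∈ S, ε v j| := by
    rw [mul_sum]
    exact sum_le_sum fun j hj => (mul_le_mul_of_nonneg_left (le_abs_self _) (hν j hj).1).trans
      (mul_le_mul_of_nonneg_right (hν j hj).2 (abs_nonneg _))
  have e6 := mul_le_mul_of_nonneg_left e4 hb
  rw [e1]
  nlinarith

end

end Pool.Agent.P.MP_1fec7a_co.S
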