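import Pool.Agent.P.MP_1fec7a_co.S.Iface

/-! Random choices. -/

set_option autoImplicit false
set_option linter.unusedSectionVars false
set_option linter.unusedVariables false

namespace Pool.Agent.P.MP_1fec7a_co.S

section


open Finset

noncomputable def hc_sg (β b : Bool) : ℝ := if b = β then 1 else -1

lemma hc_sum_exp {ι : Type} [Fintype ι] [DecidableEq ι] (β : Bool) (a : ι → ℝ) :
    ∑ ε : ι → Bool, Real.exp (∑ i, a i * hc_sg β (ε i)) ≤
      2 ^ Fintype.card ι * Real.exp ((∑ i, a i ^ 2) / 2) := by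
  simp only [Real.exp_sum]
  rw [← Fintype.piFinset_univ,
    ← prod_univ_sum (fun _ => univ) (fun i b => Real.exp (a i * hc_sg β b)),
    sum_div, Real.exp_sum, ← card_univ, ← prod_const, ← prod_mul_distrib]
  refine prod_le_prod (fun i _ => sum_nonneg fun _ _ => (Real.exp_pos _).le) fun i _ => ?_
  have := Real.cosh_le_exp_half_sq (a i)
  rw [Real.cosh_eq] at this
  cases β <;> simp [hc_sg] <;> linarith

lemma hc_id {ι : Type} (S : Finset ι) (β : Bool) (ω : ι → Bool) :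
    ∑ i ∈ S, hc_sg β (ω i) = 2 * (((fl S fun i => ω i = β).card : ℝ) - S.card / 2) := by
  have e : ∀ i, hc_sg β (ω i) = 2 * (if ω i = β then (1 : ℝ) else 0) - 1 := fun i => by
    unfold hc_sg; split_ifs <;> norm_num
  simp only [e, sum_sub_distrib, ← mul_sum, sum_boole, fl_eq, sum_const, nsmul_eq_mul, mul_one]
  ring

lemma hc_one {ι : Type} [Fintype ι] [DecidableEq ι] (S : Finset ι) (β : Bool) (n t c : ℝ)
    (hn : 0 < n) (hS : (S.card : ℝ) ≤ n) (hc : c ^ 2 = 1) :
    ∑ ω : ι → Bool, Real.exp (2 * t / n * (c * ∑ i ∈ S, hc_sg β (ω i) - 2 * t)) ≤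
      2 ^ Fintype.card ι * Real.exp (-(2 * t ^ 2 / n)) := by
  have h1 : ∀ ω : ι → Bool, Real.exp (2 * t / n * (c * ∑ i ∈ S, hc_sg β (ω i) - 2 * t)) =
      Real.exp (-(2 * t / n * (2 * t))) *
        Real.exp (∑ i, (if i ∈ S then 2 * t / n * c else 0) * hc_sg β (ω i)) := by
    intro ω
    simp only [ite_mul, zero_mul, sum_ite_mem, univ_inter, ← mul_sum, ← Real.exp_add]
    congr 1; ring
  simp only [h1, ← mul_sum]
  refine (mul_le_mul_of_nonneg_left (hc_sum_exp β _) (Real.exp_pos _).le).trans ?_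
  rw [mul_left_comm, ← Real.exp_add]
  refine mul_le_mul_of_nonneg_left (Real.exp_le_exp.2 ?_) (by positivity)
  have e0 : ∑ i, (if i ∈ S then 2 * t / n * c else 0) ^ 2 = S.card * (2 * t / n) ^ 2 := by
    simp only [ite_pow, mul_pow _ c, hc, mul_one, ne_eq, OfNat.ofNat_ne_zero, not_false_eq_true,
      zero_pow, sum_ite_mem, univ_inter, sum_const, nsmul_eq_mul]
  have := mul_le_mul_of_nonneg_right hS (sq_nonneg (2 * t / n))
  have e : -(2 * t ^ 2 / n) = -(2 * t / n * (2 * t)) + n * (2 * t / n) ^ 2 / 2 := by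
    field_simp; ring
  rw [e0, e]; linarith

theorem p_HC :
    S_HC := by
  intro ι _ _ S β n t hn ht hS
  have h1 := hc_one S β n t 1 hn hS (by norm_num)
  have h2 := hc_one S β n t (-1) hn hS (by norm_num)
  have hp : 0 ≤ 2 * t / n := by positivity
  rw [card_eq_sum_ones, Nat.cast_sum]
  refine le_trans (sum_le_sum (g := fun ω : ι → Bool =>
    Real.exp (2 * t / n * (1 * ∑ i ∈ S, hc_sg β (ω i) - 2 * t)) +
      Real.exp (2 * t / n * (-1 * ∑ i ∈ S, hc_sg β (ω i) - 2 * t))) fun ω hω => ?_) ?_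
  · have h := (mem_fl.1 hω).2
    rw [hc_id, Nat.cast_one]
    rcases lt_abs.1 h with h | h
    · exact le_add_of_le_of_nonneg (Real.one_le_exp (mul_nonneg hp (by linarith)))
        (Real.exp_pos _).le
    · exact le_add_of_nonneg_of_le (Real.exp_pos _).le
        (Real.one_le_exp (mul_nonneg hp (by linarith)))
  · refine (sum_le_sum_of_subset_of_nonneg (fl_subset _ _) fun _ _ _ => by positivity).trans ?_
    rw [sum_add_distrib]; linarith

end

section


open Finset

lemma side_cnt {α ι : Type} [DecidableEq ι] (A : Finset α) (e : α → ι) (he : Set.InjOn e A)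
    (p : α → Prop) (q : ι → Prop) (h : ∀ a ∈ A, p a ↔ q (e a)) :
    (fl (A.image e) q).card = (fl A p).card := by
  have : fl (A.image e) q = (fl A p).image e := by
    ext i
    simp only [mem_fl, mem_image]
    constructor
    · rintro ⟨⟨a, ha, rfl⟩, hq⟩
      exact ⟨a, ⟨ha, (h a ha).2 hq⟩, rfl⟩
    · rintro ⟨a, ⟨ha, hp⟩, rfl⟩
      exact ⟨⟨a, ha, rfl⟩, (h a ha).1 hp⟩
  rw [this, card_image_of_injOn (he.mono fun a ha => fl_subset A p ha)]

lemma side_b (hHC : S_HC) {α ι : Type} [Fintype ι] [DecidableEq ι] (A : Finset α) (e : α → ι)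
    (he : Set.InjOn e A) (β : Bool) (ζ n : ℝ) (hζ : 0 < ζ) (hn : 0 < n) (hA : (A.card : ℝ) ≤ n) :
    ((fl univ fun ω : ι → Bool =>
      ζ * n < |((fl A fun a => ω (e a) = β).card : ℝ) - A.card / 2|).card : ℝ) ≤
      2 ^ Fintype.card ι * (2 * Real.exp (-(2 * ζ ^ 2 * n))) := by
  have h := hHC ι (A.image e) β n (ζ * n) hn (by positivity)
    (by rwa [card_image_of_injOn he])
  have e1 : 2 * (ζ * n) ^ 2 / n = 2 * ζ ^ 2 * n := by field_simp
  rw [e1, card_image_of_injOn he] at h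
  refine le_trans (le_of_eq ?_) h
  congr 2
  ext ω
  simp only [mem_fl]
  rw [side_cnt A e he (fun a => ω (e a) = β) _ fun a _ => Iff.rfl]

lemma side_a (hHC : S_HC) {α ι κ : Type} [Fintype ι] [DecidableEq ι] [Fintype κ] [DecidableEq κ]
    (A : Finset α) (e : α → κ) (he : Set.InjOn e A) (x y : ι) (hxy : x ≠ y) (ζ n : ℝ)
    (hζ : 0 < ζ) (hn : 0 < n) (hA : (A.card : ℝ) ≤ n) :
    ((fl univ fun ω : ι × κ → Bool =>
      ζ * n < |((fl A fun a => ω (x, e a) = ω (y, e a)).card : ℝ) - A.card / 2|).card : ℝ) ≤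
      2 ^ Fintype.card (ι × κ) * (2 * Real.exp (-(2 * ζ ^ 2 * n))) := by
  refine le_trans ?_ (side_b hHC A (fun a => (x, e a))
    (fun a ha b hb h => he ha hb (Prod.ext_iff.1 h).2) false ζ n hζ hn hA)
  let φ : (ι × κ → Bool) → ι × κ → Bool := fun ω i =>
    if i.1 = x then xor (ω (x, i.2)) (ω (y, i.2)) else ω i
  have hφ : Function.Involutive φ := by
    intro ω
    funext ⟨z, j⟩
    by_cases h : z = x
    · subst h
      simp [φ, hxy.symm]
    · simp [φ, h]
  refine Nat.cast_le.2 (card_le_card_of_injOn φ (fun ω hω => ?_) hφ.injective.injOn)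
  have h1 := (mem_fl.1 (mem_coe.1 hω)).2
  refine mem_coe.2 (mem_fl.2 ⟨mem_univ _, ?_⟩)
  have : (fl A fun a => φ ω (x, e a) = false) = fl A fun a => ω (x, e a) = ω (y, e a) := by
    ext a
    simp [φ]
  rwa [this]

lemma side_num (ζ C : ℝ) (hζ : 0 < ζ) (m : ℕ) (hm : 0 < m) : ∃ k₀ : ℕ, ∀ k ≥ k₀, m ≤ k ∧
    ∀ l : ℝ, 0 ≤ l → l ≤ C * k → l * l * (2 * Real.exp (-(2 * ζ ^ 2 * (k / m : ℕ)))) +
      l * ((k / m : ℕ) * 4) * (2 * Real.exp (-(2 * ζ ^ 2 * k))) < 1 := by
  have hm' : (0 : ℝ) < m := by exact_mod_cast hm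
  set c : ℝ := 2 * ζ ^ 2 / m with hc
  have hc0 : 0 < c := by positivity
  have t1 := ((Real.tendsto_pow_mul_exp_neg_atTop_nhds_zero 2).comp
    (tendsto_natCast_atTop_atTop.const_mul_atTop hc0)).const_mul
    ((2 * C ^ 2 + 8 * |C|) * Real.exp (2 * ζ ^ 2) / c ^ 2)
  rw [mul_zero] at t1
  obtain ⟨k₀, hk₀⟩ := Filter.eventually_atTop.1 (t1.eventually (gt_mem_nhds one_pos))
  refine ⟨max k₀ m, fun k hk => ⟨le_of_max_le_right hk, fun l hl0 hl => ?_⟩⟩
  refine lt_of_le_of_lt ?_ (hk₀ k (le_of_max_le_left hk))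
  have h1 : ((k / m : ℕ) : ℝ) ≤ k := Nat.cast_le.2 (Nat.div_le_self _ _)
  have h2 : (k : ℝ) / m - 1 ≤ (k / m : ℕ) := by
    have : (k : ℝ) < (k / m : ℕ) * m + m := by exact_mod_cast Nat.lt_div_mul_add hm
    rw [sub_le_iff_le_add, div_le_iff₀ hm']
    nlinarith
  have hk0 : (0 : ℝ) ≤ k := Nat.cast_nonneg k
  have h3 : Real.exp (-(2 * ζ ^ 2 * (k / m : ℕ))) ≤
      Real.exp (2 * ζ ^ 2) * Real.exp (-(c * k)) := by
    rw [← Real.exp_add]
    refine Real.exp_le_exp.2 ?_
    have : c * k = 2 * ζ ^ 2 * (k / m) := by rw [hc]; ring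
    nlinarith [sq_nonneg ζ]
  have h4 : Real.exp (-(2 * ζ ^ 2 * k)) ≤ Real.exp (2 * ζ ^ 2) * Real.exp (-(c * k)) :=
    le_trans (Real.exp_le_exp.2 (by nlinarith [sq_nonneg ζ])) h3
  have h5 : l ≤ |C| * k := hl.trans (mul_le_mul_of_nonneg_right (le_abs_self C) hk0)
  have h6 : l * l ≤ C ^ 2 * k ^ 2 := by
    have := mul_self_le_mul_self hl0 h5
    rw [← sq_abs C]; nlinarith
  have h7 : l * ((k / m : ℕ) * 4) ≤ |C| * k * (k * 4) := by gcongr
  calc _ ≤ C ^ 2 * k ^ 2 * (2 * (Real.exp (2 * ζ ^ 2) * Real.exp (-(c * k)))) +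
        |C| * k * (k * 4) * (2 * (Real.exp (2 * ζ ^ 2) * Real.exp (-(c * k)))) := by gcongr
    _ = _ := by
      simp only [Function.comp]
      field_simp
      ring

theorem p_SIDE (hHC : S_HC) :
    S_SIDE := by
  intro ζ C hζ m hm
  obtain ⟨k₀, hk₀⟩ := side_num ζ C hζ m hm
  refine ⟨k₀, fun k hk Λ _ L S₁ S₂ hL hS => ?_⟩
  obtain ⟨hmk, hnum⟩ := hk₀ k hk
  have hnum := hnum L.card (Nat.cast_nonneg _) hL
  have hT : 0 < k / m := Nat.div_pos hmk hm
  have hk0 : (0 : ℝ) < k := by exact_mod_cast hm.trans_le hmk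
  generalize k / m = T at hnum hT ⊢
  have hT0 : (0 : ℝ) < T := by exact_mod_cast hT
  let p : Λ → Option L := fun y => if h : y ∈ L then some ⟨y, h⟩ else none
  let q : ℕ → Fin T := fun j => ⟨j % T, Nat.mod_lt j hT⟩
  have hp : Set.InjOn p L := by
    intro x hx y hy h
    simpa [p, mem_coe.1 hx, mem_coe.1 hy] using h
  have hq : Set.InjOn q (range T) := by
    intro i hi j hj h
    simpa [q, Nat.mod_eq_of_lt (mem_range.1 hi), Nat.mod_eq_of_lt (mem_range.1 hj)] using h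
  let S : Λ → Bool → Finset Λ := fun x b => if b then S₁ x else S₂ x
  let E₁ : Λ × Λ → Finset (Option L × Fin T → Bool) := fun z => fl univ fun ω =>
    ζ * T < |((fl (range T) fun j => ω (p z.1, q j) = ω (p z.2, q j)).card : ℝ) -
      (range T).card / 2|
  let E₂ : Λ × ℕ × Bool × Bool → Finset (Option L × Fin T → Bool) := fun z => fl univ fun ω =>
    ζ * k < |((fl (S z.1 z.2.2.2) fun y => ω (p y, q z.2.1) = z.2.2.1).card : ℝ) -
      (S z.1 z.2.2.2).card / 2|
  have c1 : (((L.offDiag).biUnion E₁).card : ℝ) ≤ L.card * L.card *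
      (2 ^ Fintype.card (Option L × Fin T) * (2 * Real.exp (-(2 * ζ ^ 2 * T)))) := by
    refine (Nat.cast_le.2 card_biUnion_le).trans ?_
    rw [Nat.cast_sum]
    refine (sum_le_card_nsmul _ _ _ fun z hz => side_a hHC (range T) q hq (p z.1) (p z.2)
      (fun h => (mem_offDiag.1 hz).2.2 (hp (mem_offDiag.1 hz).1 (mem_offDiag.1 hz).2.1 h)) ζ T hζ
      hT0 (by simp)).trans ?_
    rw [nsmul_eq_mul]
    gcongr
    rw [offDiag_card]
    exact_mod_cast Nat.sub_le _ _
  have c2 : (((L ×ˢ range T ×ˢ (univ : Finset (Bool × Bool))).biUnion E₂).card : ℝ) ≤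
      L.card * (T * 4) *
      (2 ^ Fintype.card (Option L × Fin T) * (2 * Real.exp (-(2 * ζ ^ 2 * k)))) := by
    refine (Nat.cast_le.2 card_biUnion_le).trans ?_
    rw [Nat.cast_sum]
    refine (sum_le_card_nsmul _ _ (2 ^ Fintype.card (Option L × Fin T) *
      (2 * Real.exp (-(2 * ζ ^ 2 * k)))) fun z hz => ?_).trans (le_of_eq ?_)
    rotate_left
    · rw [nsmul_eq_mul]
      congr 1
      simp
    · have h := hS z.1 (mem_product.1 hz).1
      have h1 : S z.1 z.2.2.2 ⊆ L ∧ (S z.1 z.2.2.2).card ≤ k := by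
        simp only [S]; split_ifs; exacts [⟨h.1, h.2.2.1⟩, ⟨h.2.1, h.2.2.2⟩]
      exact side_b hHC _ (fun y => (p y, q z.2.1))
        (fun a ha b hb e => hp (h1.1 ha) (h1.1 hb) (Prod.ext_iff.1 e).1) _ ζ k hζ hk0
        (Nat.cast_le.2 h1.2)
  obtain ⟨ω, -, hω⟩ := exists_mem_notMem_of_card_lt_card (t := univ)
    (s := (L.offDiag).biUnion E₁ ∪ (L ×ˢ range T ×ˢ (univ : Finset (Bool × Bool))).biUnion E₂) (by
      refine (card_union_le _ _).trans_lt (Nat.cast_lt (α := ℝ).1 ?_)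
      rw [card_univ, Fintype.card_fun, Fintype.card_bool]
      push_cast
      have : (0 : ℝ) < 2 ^ Fintype.card (Option L × Fin T) := by positivity
      nlinarith)
  simp only [mem_union, mem_biUnion, not_or, not_exists, not_and] at hω
  refine ⟨fun y j => ω (p y, q j), fun x hx y hy hxy => ?_, fun x hx j hj β => ?_⟩
  · have := hω.1 (x, y) (mem_offDiag.2 ⟨hx, hy, hxy⟩)
    simpa [E₁] using this
  · have h1 := hω.2 (x, j, β, true) (by simp [hx, hj])
    have h2 := hω.2 (x, j, β, false) (by simp [hx, hj])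
    exact ⟨by simpa [E₂, S] using h1, by simpa [E₂, S] using h2⟩

end

section


open Finset

lemma seq_one (A : ℝ) : A * Real.exp (-(A - 1)) ≤ 1 := by
  have h := Real.add_one_le_exp (A - 1)
  have h2 : Real.exp (A - 1) * Real.exp (-(A - 1)) = 1 := by
    rw [← Real.exp_add]; simp
  have h3 := Real.exp_pos (-(A - 1))
  nlinarith

lemma seq_pick {Ω κ : Type} (O : Finset Ω) (hO : O.Nonempty) (St : Finset κ) (w : κ → ℝ)
    (D : κ → Ω → ℝ) (hw : ∑ σ ∈ St, Real.exp (w σ) ≤ 1) :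
    ∃ o ∈ O, ∑ σ ∈ St,
      Real.exp (w σ + (D σ o - ((∑ o ∈ O, Real.exp (D σ o)) / O.card - 1))) ≤ 1 := by
  have hc : (0 : ℝ) < O.card := by exact_mod_cast hO.card_pos
  apply exists_le_of_sum_le hO
  rw [sum_comm, sum_const, nsmul_eq_mul, mul_one]
  calc ∑ σ ∈ St, ∑ o ∈ O,
        Real.exp (w σ + (D σ o - ((∑ o ∈ O, Real.exp (D σ o)) / O.card - 1)))
      ≤ ∑ σ ∈ St, O.card * Real.exp (w σ) := by
        refine sum_le_sum fun σ _ => ?_
        set A := (∑ o ∈ O, Real.exp (D σ o)) / O.card with hA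
        have e : ∑ o ∈ O, Real.exp (w σ + (D σ o - (A - 1))) =
            O.card * Real.exp (w σ) * (A * Real.exp (-(A - 1))) := by
          have : ∀ o, Real.exp (w σ + (D σ o - (A - 1))) =
              Real.exp (w σ) * Real.exp (-(A - 1)) * Real.exp (D σ o) := fun o => by
            rw [← Real.exp_add, ← Real.exp_add]; congr 1; ring
          simp only [this]
          rw [← mul_sum, hA]
          field_simp
        rw [e]
        have := seq_one A
        have h2 : 0 ≤ (O.card : ℝ) * Real.exp (w σ) := by positivity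
        nlinarith
    _ = O.card * ∑ σ ∈ St, Real.exp (w σ) := by rw [mul_sum]
    _ ≤ O.card := by nlinarith

lemma seq_ord {V : Type} [DecidableEq V] {M : Finset V} {pre : V → Finset V} {v : V}
    (hv : v ∉ M) (h : Ord M pre) : Ord (insert v M) (Function.update pre v M) := by
  have e : ∀ u ∈ M, Function.update pre v M u = pre u := fun u hu =>
    Function.update_of_ne (fun q : u = v => hv (q ▸ hu)) _ _
  refine ⟨fun u hu => ?_, fun B hB hn => ?_⟩
  · rcases mem_insert.1 hu with rfl | hu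
    · rw [Function.update_self]
      exact ⟨subset_insert _ _, hv⟩
    · rw [e u hu]
      exact ⟨(h.1 u hu).1.trans (subset_insert _ _), (h.1 u hu).2⟩
  · by_cases hvB : v ∈ B
    · refine ⟨v, hvB, fun u hu hne => ?_⟩
      rw [Function.update_self]
      exact (mem_insert.1 (hB hu)).resolve_left hne
    · have hB' : B ⊆ M := fun u hu =>
        (mem_insert.1 (hB hu)).resolve_left fun q => hvB (q ▸ hu)
      obtain ⟨w, hw, H⟩ := h.2 B hB' hn
      exact ⟨w, hw, fun u hu hne => by rw [e w (hB' hw)]; exact H u hu hne⟩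

lemma seq_main {V Ω κ : Type} [DecidableEq V] [Nonempty Ω]
    (O : V → Finset V → (V → Ω) → Finset Ω) (St : Finset κ) (Δ : κ → V → Ω → ℝ) (θ : κ → ℝ)
    (h2 : ∀ v S f g, (∀ u ∈ S, f u = g u) → O v S f = O v S g)
    (h3 : ∑ σ ∈ St, Real.exp (-θ σ) ≤ 1) (M : Finset V) :
    (∀ v ∈ M, ∀ S f, (O v S f).Nonempty) →
    ∃ (pre : V → Finset V) (f : V → Ω), Ord M pre ∧ (∀ v ∈ M, f v ∈ O v (pre v) f) ∧
      ∑ σ ∈ St, Real.exp (-θ σ + ∑ v ∈ M, (Δ σ v (f v) -
        ((∑ o ∈ O v (pre v) f, Real.exp (Δ σ v o)) / (O v (pre v) f).card - 1))) ≤ 1 := by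
  induction M using Finset.induction_on with
  | empty =>
    intro _
    exact ⟨fun _ => ∅, fun _ => Classical.arbitrary Ω,
      ⟨by simp, fun B hB hn => absurd (subset_empty.1 hB) hn.ne_empty⟩, by simp, by simpa using h3⟩
  | insert v M hv ih =>
    intro h1
    obtain ⟨pre, f, ho, hf, hs⟩ := ih fun u hu => h1 u (mem_insert_of_mem hu)
    obtain ⟨o, hoO, hle⟩ := seq_pick (O v M f) (h1 v (mem_insert_self _ _) M f) St _
      (fun σ => Δ σ v) hs
    have ne : ∀ u ∈ M, u ≠ v := fun u hu q => hv (q ▸ hu)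
    have ef : ∀ u ∈ M, Function.update f v o u = f u := fun u hu =>
      Function.update_of_ne (ne u hu) _ _
    have eO : ∀ u ∈ M, O u (Function.update pre v M u) (Function.update f v o) = O u (pre u) f :=
      fun u hu => by
        rw [Function.update_of_ne (ne u hu)]
        exact h2 _ _ _ _ fun x hx => ef x ((ho.1 u hu).1 hx)
    have eV : O v (Function.update pre v M v) (Function.update f v o) = O v M f := by
      rw [Function.update_self]
      exact h2 _ _ _ _ ef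
    refine ⟨Function.update pre v M, Function.update f v o, seq_ord hv ho, fun u hu => ?_, ?_⟩
    · rcases mem_insert.1 hu with rfl | hu
      · rw [eV, Function.update_self]; exact hoO
      · rw [eO u hu, ef u hu]; exact hf u hu
    · refine le_of_eq_of_le (sum_congr rfl fun σ _ => ?_) hle
      rw [sum_insert hv, eV, Function.update_self,
        sum_congr (s₁ := M) rfl fun u hu => by rw [eO u hu, ef u hu]]
      congr 1
      ring

theorem p_SEQ :
    S_SEQ := by
  intro V Ω κ _ _ M O St Δ θ h1 h2 h3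
  obtain ⟨pre, f, ho, hf, hs⟩ := seq_main O St Δ θ h2 h3 M h1
  refine ⟨pre, f, ho, hf, fun σ hσ => ?_⟩
  have h := (single_le_sum (f := fun σ => Real.exp (-θ σ + ∑ v ∈ M, (Δ σ v (f v) -
    ((∑ o ∈ O v (pre v) f, Real.exp (Δ σ v o)) / (O v (pre v) f).card - 1))))
    (fun _ _ => (Real.exp_pos _).le) hσ).trans hs
  rw [Real.exp_le_one_iff, sum_sub_distrib] at h
  linarith

end

section


open Finset

lemma sql_avg (O W : Finset ℕ) (hO : O.Nonempty) (x : ℝ) :
    (∑ o ∈ O, Real.exp (if o ∈ W then x else 0)) / O.card - 1 =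
      (Real.exp x - 1) * (O ∩ W).card / O.card := by
  have h0 : (O.card : ℝ) ≠ 0 := by exact_mod_cast hO.card_pos.ne'
  have h1 : ∑ o ∈ O, Real.exp (if o ∈ W then x else 0) =
      ∑ o ∈ O, (1 + if o ∈ W then Real.exp x - 1 else 0) :=
    sum_congr rfl fun o _ => by split_ifs <;> simp
  rw [h1, sum_add_distrib, ← sum_filter, filter_mem_eq_inter]
  simp only [sum_const, nsmul_eq_mul, mul_one]
  field_simp
  ring

lemma sql_exp {s e : ℝ} (hs : |s| ≤ 1 / 2) (h0 : 0 ≤ e) (h2 : e ≤ 2) :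
    Real.exp (s * e) - 1 ≤ (s + 2 * s ^ 2) * e := by
  have h1 : |s * e| ≤ 1 := by
    rw [abs_mul, abs_of_nonneg h0]
    nlinarith [abs_nonneg s]
  have h3 := (abs_le.1 (Real.abs_exp_sub_one_sub_id_le h1)).2
  have h4 : (s * e) ^ 2 ≤ 2 * s ^ 2 * e := by
    have : 0 ≤ s ^ 2 * e * (2 - e) := by have : 0 ≤ 2 - e := by linarith
                                         positivity
    nlinarith
  linarith

theorem p_SQL (hSEQ : S_SEQ) :
    S_SQL := by
  intro V κ _ M O St s θ e W hO hl hθ hs he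
  obtain ⟨pre, f, h1, h2, h3⟩ := hSEQ V ℕ κ M O St
    (fun σ v o => if o ∈ W σ then s σ * e σ v else 0) θ hO hl hθ
  refine ⟨pre, f, h1, h2, fun σ hσ => ?_⟩
  have h4 := h3 σ hσ
  rw [← sum_filter, ← mul_sum, ← fl_eq] at h4
  refine h4.trans (add_le_add le_rfl ?_)
  rw [mul_sum]
  refine sum_le_sum fun v hv => ?_
  rw [sql_avg _ _ (hO v hv _ _), ← mul_div_assoc, ← mul_assoc]
  gcongr
  exact sql_exp (hs σ hσ) (he σ v).1 (he σ v).2

end

section


open Finset

theorem p_CHO :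
    S_CHO := by
  intro n t ρ hρ h
  have h1 : (n.choose t : ℝ) ≤ (n : ℝ) ^ t / (t.factorial : ℝ) := Nat.choose_le_pow_div t n
  have h2 : (t : ℝ) ^ t / (t.factorial : ℝ) ≤ Real.exp t :=
    Real.pow_div_factorial_le_exp (t : ℝ) (Nat.cast_nonneg t) t
  have h3 : (n : ℝ) ≤ t / ρ := by
    rw [le_div_iff₀ hρ]
    linarith
  have h4 : (n : ℝ) ^ t ≤ ((t : ℝ) / ρ) ^ t := pow_le_pow_left₀ (Nat.cast_nonneg n) h3 t
  have hf : (0 : ℝ) < t.factorial := by exact_mod_cast t.factorial_pos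
  have hp : (0 : ℝ) < ρ ^ t := pow_pos hρ t
  have h5 : Real.exp 1 ^ t = Real.exp t := by rw [← Real.exp_nat_mul, mul_one]
  calc (n.choose t : ℝ) ≤ (n : ℝ) ^ t / (t.factorial : ℝ) := h1
    _ ≤ ((t : ℝ) / ρ) ^ t / (t.factorial : ℝ) := div_le_div_of_nonneg_right h4 hf.le
    _ = (t : ℝ) ^ t / (t.factorial : ℝ) / ρ ^ t := by rw [div_pow]; ring
    _ ≤ Real.exp t / ρ ^ t := div_le_div_of_nonneg_right h2 hp.le
    _ = (Real.exp 1 / ρ) ^ t := by rw [div_pow, h5]

end

section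


open Finset

open Classical in
lemma mr_sum {α : Type} (s : Finset α) (p : α → Prop) (h : α → ℝ) :
    ∑ x ∈ fl s p, h x = ∑ x ∈ s, if p x then h x else 0 := by
  rw [fl_eq, sum_filter]

open Classical in
lemma mr_card {α : Type} (s : Finset α) (p : α → Prop) :
    ((fl s p).card : ℝ) = ∑ x ∈ s, if p x then 1 else 0 := by
  rw [← mr_sum, sum_const, nsmul_eq_mul, mul_one]

section

variable {V Λ : Type} [DecidableEq V] [DecidableEq Λ]

/-- The number of ends of `v` in `X`. -/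
noncomputable def mr_e (a b : V → Λ) (X : Finset Λ) (v : V) : ℝ :=
  ((fl X fun y => a v = y ∨ b v = y).card : ℝ)

lemma mr_e_le (a b : V → Λ) (X : Finset Λ) (v : V) : 0 ≤ mr_e a b X v ∧ mr_e a b X v ≤ 2 := by
  refine ⟨Nat.cast_nonneg _, ?_⟩
  have h : (fl X fun y => a v = y ∨ b v = y) ⊆ {a v, b v} := fun y hy => by
    rcases (mem_fl.1 hy).2 with e | e <;> simp [← e]
  have h2 := (card_le_card h).trans card_le_two
  unfold mr_e
  exact_mod_cast h2

lemma mr_1 (M : Finset V) (a b : V → Λ) (f : V → ℕ) (X : Finset Λ) (W : Finset ℕ) :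
    ∑ v ∈ fl M fun v => f v ∈ W, mr_e a b X v = ∑ y ∈ X, ∑ j ∈ W, (ld M a b f y j : ℝ) := by
  classical
  simp only [mr_e, ld, mr_sum, mr_card]
  simp only [sum_comm (s := W) (t := M)]
  rw [sum_comm (s := X)]
  refine sum_congr rfl fun v _ => ?_
  by_cases h : f v ∈ W
  · rw [if_pos h]
    refine sum_congr rfl fun y _ => ?_
    by_cases h2 : a v = y ∨ b v = y
    · simp [h2, h]
    · simp [h2]
  · rw [if_neg h]
    refine (sum_eq_zero fun y _ => sum_eq_zero fun j hj => if_neg fun e => h ?_).symm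
    rw [e.2]
    exact hj

lemma mr_2 (M : Finset V) (a b : V → Λ) (o : V → Finset ℕ) (X : Finset Λ) (W : Finset ℕ) :
    ∑ v ∈ M, mr_e a b X v * (o v ∩ W).card / (o v).card =
      ∑ y ∈ X, ∑ j ∈ W, exl M a b o y j := by
  classical
  have h : ∀ v, ((o v ∩ W).card : ℝ) = ∑ j ∈ W, if j ∈ o v then 1 else 0 := fun v => by
    rw [sum_boole, filter_mem_eq_inter, inter_comm]
  simp only [mr_e, exl, mr_sum, mr_card, h]
  simp only [sum_comm (s := W) (t := M)]
  rw [sum_comm (s := X)]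
  refine sum_congr rfl fun v _ => ?_
  rw [sum_mul_sum, sum_div]
  refine sum_congr rfl fun y _ => ?_
  rw [sum_div]
  refine sum_congr rfl fun j _ => ?_
  by_cases h1 : a v = y ∨ b v = y <;> by_cases h2 : j ∈ o v <;> simp [h1, h2]

end

/-- The index type of the statistics. -/
abbrev mr_K (Λ : Type) : Type :=
  (Λ × Finset ℕ) ⊕ (Σ _ : Λ, Finset Λ × ℕ) ⊕ (Finset Λ × ℕ) ⊕ (Λ × ℕ)

theorem p_MR (hSQL : S_SQL) :
    S_MR := by
  intro V Λ _ _ M L A a b Nb Y O k T t₀ t₁ t₂ s g θ hne hloc hs0 hs1 hNb hA hsum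
  classical
  let St : Finset (mr_K Λ) := (L ×ˢ powersetCard t₀ (range T)).disjSum
    ((L.sigma fun x => powersetCard t₁ (Nb x) ×ˢ range T).disjSum
      ((powersetCard t₂ A ×ˢ range T).disjSum (L ×ˢ range T)))
  let sg : mr_K Λ → ℝ := Sum.elim (fun _ => s) (Sum.elim (fun _ => s)
    (Sum.elim (fun _ => -s) fun _ => 1 / 2))
  let th : mr_K Λ → ℝ := Sum.elim (fun _ => t₀ * g) (Sum.elim (fun _ => t₁ * g)
    (Sum.elim (fun _ => t₂ * g) fun _ => θ))
  let e : mr_K Λ → V → ℝ := Sum.elim (fun p => mr_e a b {p.1}) (Sum.elim (fun p => mr_e a b p.2.1)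
    (Sum.elim (fun p => mr_e a b p.1) fun p v => if v ∈ Y p.1 then 1 else 0))
  let W : mr_K Λ → Finset ℕ := Sum.elim (fun p => p.2) (Sum.elim (fun p => {p.2.2})
    (Sum.elim (fun p => {p.2}) fun p => {p.2}))
  have h1 : ∑ σ ∈ St, Real.exp (-th σ) ≤ 1 := by
    refine le_trans ?_ hsum
    simp only [St, th, sum_disjSum, Sum.elim_inl, Sum.elim_inr, sum_const, nsmul_eq_mul,
      card_product, card_powersetCard, card_range, card_sigma]
    have c1 : ∑ x ∈ L, (Nb x).card.choose t₁ * T ≤ L.card * T * k.choose t₁ := by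
      calc _ ≤ ∑ x ∈ L, k.choose t₁ * T := sum_le_sum fun x hx =>
            Nat.mul_le_mul_right _ (Nat.choose_le_choose _ (hNb x hx))
        _ = _ := by rw [sum_const, smul_eq_mul]; ring
    have c2 : A.card.choose t₂ * T ≤ T * (4 * k).choose t₂ := by
      rw [mul_comm]
      exact Nat.mul_le_mul_left _ (Nat.choose_le_choose _ hA)
    have c1' := mul_le_mul_of_nonneg_right ((Nat.cast_le (α := ℝ)).2 c1)
      (Real.exp_pos (-(t₁ * g))).le
    have c2' := mul_le_mul_of_nonneg_right ((Nat.cast_le (α := ℝ)).2 c2)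
      (Real.exp_pos (-(t₂ * g))).le
    push_cast at c1' c2' ⊢
    linarith
  have h2 : ∀ σ ∈ St, |sg σ| ≤ 1 / 2 := by
    rintro (p | p | p | p) _
    · exact abs_le.2 ⟨by simp only [sg, Sum.elim_inl]; linarith, hs1⟩
    · exact abs_le.2 ⟨by simp only [sg, Sum.elim_inl, Sum.elim_inr]; linarith, hs1⟩
    · exact (abs_neg s).trans_le (abs_le.2 ⟨by linarith, hs1⟩)
    · exact (abs_of_pos one_half_pos).le
  have h3 : ∀ σ v, 0 ≤ e σ v ∧ e σ v ≤ 2 := by
    rintro (p | p | p | p) v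
    · exact mr_e_le _ _ _ _
    · exact mr_e_le _ _ _ _
    · exact mr_e_le _ _ _ _
    · simp only [e, Sum.elim_inr]
      split_ifs <;> norm_num
  obtain ⟨pre, f, ho, hf, H⟩ := hSQL V (mr_K Λ) M O St sg th e W hne hloc h1 h2 h3
  refine ⟨pre, f, ho, hf, fun x hx Z hZ hc => ?_, fun x hx X hX hc j hj => ?_,
    fun X hX hc j hj => ?_, fun x hx j hj => ?_⟩
  · have := H (.inl (x, Z)) (by simp [St, hx, hZ, hc])
    simp only [sg, th, e, W, Sum.elim_inl] at this
    rw [mr_1, mr_2 M a b fun v => O v (pre v) f] at this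
    simpa only [sum_singleton] using this
  · have := H (.inr (.inl ⟨x, X, j⟩)) (by simp [St, hx, hX, hc, hj])
    simp only [sg, th, e, W, Sum.elim_inl, Sum.elim_inr] at this
    rw [mr_1, mr_2 M a b fun v => O v (pre v) f] at this
    simpa only [sum_singleton] using this
  · have := H (.inr (.inr (.inl (X, j)))) (by simp [St, hX, hc, hj])
    simp only [sg, th, e, W, Sum.elim_inl, Sum.elim_inr] at this
    rw [mr_1, mr_2 M a b fun v => O v (pre v) f, neg_sq] at this
    simpa only [sum_singleton] using this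
  · have := H (.inr (.inr (.inr (x, j)))) (by simp [St, hx, hj])
    simp only [sg, th, e, W, Sum.elim_inr] at this
    rw [mr_card, mr_sum]
    rw [mr_sum] at this
    have e1 : ∀ v, (if v ∈ Y x ∧ f v = j then (1 : ℝ) else 0) =
        if f v ∈ ({j} : Finset ℕ) then (if v ∈ Y x then 1 else 0) else 0 := fun v => by
      by_cases q1 : v ∈ Y x <;> by_cases q2 : f v = j <;> simp [q1, q2]
    have e2 : ∀ v, (if v ∈ Y x ∧ j ∈ O v (pre v) f then (1 : ℝ) / (O v (pre v) f).card else 0) =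
        (if v ∈ Y x then 1 else 0) * ((O v (pre v) f ∩ {j}).card : ℝ) / (O v (pre v) f).card :=
      fun v => by by_cases q1 : v ∈ Y x <;> by_cases q2 : j ∈ O v (pre v) f <;> simp [q1, q2]
    rw [show (1 / 2 : ℝ) + 2 * (1 / 2) ^ 2 = 1 by norm_num, one_mul] at this
    convert this using 3 with v _ v _
    · convert e1 v
    · convert e2 v

end

end Pool.Agent.P.MP_1fec7a_co.S
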