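import Pool.Agent.P.MP_1fec7a_co.S.Iface

/-! The main sequential choice and the matchings of a row. -/

set_option autoImplicit false
set_option linter.unusedSectionVars false
set_option linter.unusedVariables false

namespace Pool.Agent.P.MP_1fec7a_co.S

section


open Finset

lemma mn_cho (hCHO : S_CHO) (N t : ℕ) (ρ g x : ℝ) (hρ : 0 < ρ) (h : ρ * N ≤ t)
    (he : Real.exp 1 / ρ ≤ Real.exp (g / 2)) (hx : x ≤ t * (g / 2)) :
    (N.choose t : ℝ) * Real.exp (-(t * g)) ≤ Real.exp (-x) := by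
  have h1 : (N.choose t : ℝ) ≤ Real.exp (t * (g / 2)) := by
    refine (hCHO N t ρ hρ h).trans ?_
    rw [Real.exp_nat_mul]
    exact pow_le_pow_left₀ (by positivity) he t
  refine (mul_le_mul_of_nonneg_right h1 (Real.exp_pos _).le).trans ?_
  rw [← Real.exp_add]
  exact Real.exp_le_exp.2 (by linarith)

lemma mn_poly (c A : ℝ) (hc : 0 < c) (hA : 0 < A) :
    ∃ k₀ : ℕ, ∀ k ≥ k₀, A * (k : ℝ) ^ 2 * Real.exp (-(c * k)) ≤ 1 / 4 := by
  refine ⟨⌈24 * A / c ^ 3⌉₊, fun k hk => ?_⟩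
  have h1 : 24 * A / c ^ 3 ≤ k := (Nat.le_ceil _).trans (by exact_mod_cast hk)
  rw [div_le_iff₀ (by positivity)] at h1
  have h2 : (c * k) ^ 3 / (Nat.factorial 3 : ℕ) ≤ Real.exp (c * k) :=
    Real.pow_div_factorial_le_exp _ (by positivity) 3
  have h3 : ((Nat.factorial 3 : ℕ) : ℝ) = 6 := by norm_num [Nat.factorial]
  rw [h3] at h2
  rw [Real.exp_neg, ← div_eq_mul_inv, div_le_iff₀ (Real.exp_pos _)]
  have h4 : 24 * A * (k : ℝ) ^ 2 ≤ k * c ^ 3 * (k : ℝ) ^ 2 :=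
    mul_le_mul_of_nonneg_right h1 (by positivity)
  have h5 : (c * k) ^ 3 = k * c ^ 3 * (k : ℝ) ^ 2 := by ring
  linarith

lemma mn_m (a B : ℝ) (ha : 0 < a) (hB : 0 < B) :
    ∃ m₀ : ℕ, ∀ m ≥ m₀, 1 ≤ m ∧ B * ((m : ℝ) + 1) ≤ Real.exp (a * m) := by
  refine ⟨⌈4 * B / a ^ 2⌉₊ + 1, fun m hm => ⟨by omega, ?_⟩⟩
  have h0 : (1 : ℝ) ≤ m := by exact_mod_cast (show 1 ≤ m by omega)
  have h1 : 4 * B / a ^ 2 ≤ m :=
    (Nat.le_ceil _).trans (by exact_mod_cast (show ⌈4 * B / a ^ 2⌉₊ ≤ m by omega))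
  rw [div_le_iff₀ (by positivity)] at h1
  have h2 : (a * m) ^ 2 / (Nat.factorial 2 : ℕ) ≤ Real.exp (a * m) :=
    Real.pow_div_factorial_le_exp _ (by positivity) 2
  have h3 : ((Nat.factorial 2 : ℕ) : ℝ) = 2 := by norm_num [Nat.factorial]
  rw [h3] at h2
  have h4 : 4 * B * (m : ℝ) ≤ m * a ^ 2 * m := mul_le_mul_of_nonneg_right h1 (by positivity)
  have h5 : (a * m) ^ 2 = m * a ^ 2 * (m : ℝ) := by ring
  have h6 : B * 1 ≤ B * m := mul_le_mul_of_nonneg_left h0 hB.le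
  linarith

theorem p_MN (hCHO : S_CHO) :
    S_MN := by
  intro γ ζ hγ hγ1 hζ hζ1
  obtain ⟨m₀, hm₀⟩ := mn_m (γ ^ 2 / 64) (Real.exp 1 * 256 / (γ * ζ)) (by positivity) (by positivity)
  refine ⟨m₀, fun m hm C => ?_⟩
  obtain ⟨hm1, hB⟩ := hm₀ m hm
  have hm1' : (1 : ℝ) ≤ m := by exact_mod_cast hm1
  obtain ⟨k₀, hk₀⟩ := mn_poly (γ ^ 3 * ζ / 16384) (|C| + 1) (by positivity) (by positivity)
  refine ⟨k₀ + 2 * m, fun k hk n t₀ t₁ t₂ hn h0 h1 h2 => ?_⟩
  have hP := hk₀ k (by omega)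
  have hk1 : (1 : ℝ) ≤ k := by exact_mod_cast (show 1 ≤ k by omega)
  have hT1 : ((k / m : ℕ) : ℝ) ≤ k := by exact_mod_cast Nat.div_le_self k m
  have hT2 : (k : ℝ) ≤ 2 * ((k / m : ℕ) * m) := by
    have h3 := Nat.div_add_mod k m
    have h4 := Nat.mod_lt k (show 0 < m by omega)
    have h5 : k ≤ 2 * (k / m * m) := by rw [mul_comm (k / m) m]; omega
    exact_mod_cast h5
  have hT0 : (0 : ℝ) ≤ ((k / m : ℕ) : ℝ) := by positivity
  generalize hT : ((k / m : ℕ) : ℝ) = T at *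
  have hg : γ ^ 2 / 64 * m = γ ^ 2 * m / 32 / 2 := by ring
  rw [hg] at hB
  have hE := Real.exp_pos 1
  have hγζ : 0 < γ * ζ := by positivity
  have key : ∀ ρ : ℝ, 0 < ρ → γ * ζ / (256 * (m + 1)) ≤ ρ →
      Real.exp 1 / ρ ≤ Real.exp (γ ^ 2 * m / 32 / 2) := fun ρ hρ h => by
    refine le_trans ?_ hB
    refine (div_le_div_of_nonneg_left hE.le (by positivity) h).trans (le_of_eq ?_)
    field_simp
  have hb : γ * ζ / (256 * (m + 1)) ≤ γ / 256 := by
    rw [div_le_div_iff₀ (by positivity) (by positivity)]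
    have : γ * ζ ≤ γ * (m + 1) := mul_le_mul_of_nonneg_left (by linarith) hγ.le
    linarith
  have hx0 : γ ^ 3 * ζ / 16384 * k ≤ γ ^ 3 / 16384 * k := by
    have : γ ^ 3 * ζ ≤ γ ^ 3 * 1 := mul_le_mul_of_nonneg_left hζ1 (by positivity)
    exact mul_le_mul_of_nonneg_right (by linarith) (by positivity)
  have hgp : 0 ≤ γ ^ 2 * m / 32 / 2 := by positivity
  have e0 := mn_cho hCHO (k / m) t₀ (γ / 128) (γ ^ 2 * m / 32) (γ ^ 3 * ζ / 16384 * k)
    (by positivity) (by rw [hT]; exact h0) (key _ (by positivity) (by linarith)) (by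
      refine hx0.trans (le_trans ?_ (mul_le_mul_of_nonneg_right h0 hgp))
      have : γ ^ 3 / 16384 * k ≤ γ ^ 3 / 16384 * (2 * (T * m)) :=
        mul_le_mul_of_nonneg_left hT2 (by positivity)
      exact this.trans (le_of_eq (by ring)))
  have e1 := mn_cho hCHO k t₁ (γ / 256) (γ ^ 2 * m / 32) (γ ^ 3 * ζ / 16384 * k)
    (by positivity) h1 (key _ (by positivity) hb) (by
      refine hx0.trans (le_trans ?_ (mul_le_mul_of_nonneg_right h1 hgp))
      have : γ ^ 3 / 16384 * k * 1 ≤ γ ^ 3 / 16384 * k * m :=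
        mul_le_mul_of_nonneg_left hm1' (by positivity)
      exact (le_of_eq (by ring)).trans (this.trans (le_of_eq (by ring))))
  have hγ2 : γ ^ 2 ≤ 1 := pow_le_one₀ hγ.le hγ1
  have e2 := mn_cho hCHO (4 * k) t₂ (ζ / (4 * (m + 1))) (γ ^ 2 * m / 32) (γ ^ 3 * ζ / 16384 * k)
    (by positivity) (le_of_eq_of_le (by push_cast; field_simp) h2) (key _ (by positivity) (by
      rw [div_le_div_iff₀ (by positivity) (by positivity)]
      have : γ * (ζ * (m + 1)) ≤ 1 * (ζ * (m + 1)) := mul_le_mul_of_nonneg_right hγ1 (by positivity)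
      have h9 : 0 ≤ ζ * (m + 1) := by positivity
      linarith)) (by
      refine le_trans ?_ (mul_le_mul_of_nonneg_right h2 hgp)
      rw [div_mul_eq_mul_div (ζ * k), le_div_iff₀ (by positivity)]
      have h9 : γ * (m + 1) ≤ 1 * (256 * m) :=
        mul_le_mul hγ1 (by linarith) (by positivity) (by positivity)
      have : γ ^ 2 * ζ * k / 16384 * (γ * (m + 1)) ≤ γ ^ 2 * ζ * k / 16384 * (1 * (256 * m)) :=
        mul_le_mul_of_nonneg_left h9 (by positivity)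
      exact (le_of_eq (by ring)).trans (this.trans (le_of_eq (by ring))))
  have e3 : Real.exp (-(γ * ζ * k / 512)) ≤ Real.exp (-(γ ^ 3 * ζ / 16384 * k)) := by
    refine Real.exp_le_exp.2 (neg_le_neg ?_)
    have : γ * ζ * k * γ ^ 2 ≤ γ * ζ * k * 1 := mul_le_mul_of_nonneg_left hγ2 (by positivity)
    have h9 : 0 ≤ γ * ζ * k := by positivity
    have h8 : γ ^ 3 * ζ / 16384 * k = γ * ζ * k * γ ^ 2 / 16384 := by ring
    linarith
  have hC : (n : ℝ) ≤ |C| * k := hn.trans (mul_le_mul_of_nonneg_right (le_abs_self C) (by positivity))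
  have hkk : (k : ℝ) ≤ k ^ 2 := by nlinarith
  have hA := abs_nonneg C
  have hCk : |C| * k ≤ |C| * k ^ 2 := mul_le_mul_of_nonneg_left hkk hA
  have c0 : (n : ℝ) ≤ (|C| + 1) * k ^ 2 := by linarith
  have c1 : (n : ℝ) * T ≤ (|C| + 1) * k ^ 2 := by
    have := mul_le_mul hC hT1 hT0 (by positivity)
    have h9 : |C| * k * k = |C| * k ^ 2 := by ring
    linarith
  have c2 : T ≤ (|C| + 1) * k ^ 2 := by
    have : 0 ≤ |C| * (k : ℝ) ^ 2 := by positivity
    linarith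
  have hp : (0 : ℝ) ≤ (|C| + 1) * k ^ 2 := by positivity
  have f0 := mul_le_mul c0 e0 (by positivity) hp
  have f1 := mul_le_mul c1 e1 (by positivity) hp
  have f2 := mul_le_mul c2 e2 (by positivity) hp
  have f3 := mul_le_mul c1 e3 (by positivity) hp
  rw [← mul_assoc] at f0 f1 f2
  linarith

end

section


open Finset

section aux

variable {V Λ : Type} [DecidableEq V] [DecidableEq Λ]

lemma main_sum_le {S S' : Finset V} {o : V → Finset ℕ} {c : ℝ} (hc : 0 < c) (h : S ⊆ S')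
    (h' : ∀ v ∈ S, c ≤ (o v).card) : c * ∑ v ∈ S, (1 : ℝ) / (o v).card ≤ S'.card := by
  rw [mul_sum]
  refine (sum_le_card_nsmul _ _ 1 fun v hv => ?_).trans (by simpa using card_le_card h)
  rw [mul_one_div]
  exact (div_le_one (hc.trans_le (h' v hv))).2 (h' v hv)

lemma main_le_sum {S : Finset V} {o : V → Finset ℕ} {c : ℝ}
    (h : ∀ v ∈ S, (0 : ℝ) < (o v).card ∧ ((o v).card : ℝ) ≤ c) :
    (S.card : ℝ) ≤ c * ∑ v ∈ S, (1 : ℝ) / (o v).card := by
  rw [mul_sum]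
  refine le_trans (by simp) (card_nsmul_le_sum _ _ 1 fun v hv => ?_)
  rw [mul_one_div]
  exact (one_le_div (h v hv).1).2 (h v hv).2

lemma main_few {ι : Type} {B : Finset ι} {t : ℕ} {s s' g : ℝ} {l e : ι → ℝ} (ht : 0 < t)
    (h : ∀ W ⊆ B, W.card = t → s * ∑ i ∈ W, l i ≤ t * g + s' * ∑ i ∈ W, e i)
    (h' : ∀ i ∈ B, g + s' * e i < s * l i) : B.card < t := by
  by_contra! hc
  obtain ⟨W, h1, h2⟩ := exists_subset_card_eq hc
  have := sum_lt_sum_of_nonempty (card_pos.1 (h2 ▸ ht)) fun i hi => h' i (h1 hi)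
  rw [sum_add_distrib, sum_const, h2, nsmul_eq_mul, ← mul_sum, ← mul_sum] at this
  exact this.not_ge (h W h1 h2)

lemma main_up {γ m p l e : ℝ} (h0 : 0 < γ) (h1 : γ ≤ 1) (hm : 0 < m) (hp : p ≤ l) (hp' : p ≤ m)
    (he : 0 ≤ e) (h : (1 - γ / 16) * e ≤ p - γ * m) :
    γ ^ 2 * m / 32 + (γ / 8 + 2 * (γ / 8) ^ 2) * e < γ / 8 * l := by
  have a1 := mul_pos h0 hm
  have a2 := mul_nonneg h0.le he
  have a3 := mul_le_mul_of_nonneg_left h h0.le
  have a4 := mul_le_mul_of_nonneg_left hp' h0.le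
  have a5 := mul_le_mul_of_nonneg_right h1 a2
  have a6 := mul_pos h0 a1
  have : γ * m / 4 + (1 + γ / 4) * e < l := by linarith
  linarith [mul_lt_mul_of_pos_left this h0]

lemma main_down {γ δ m lo l e : ℝ} (h0 : 0 < γ) (h1 : γ ≤ 1) (hm : 0 < m) (hδ : 192 * δ ≤ γ)
    (hl : l < lo - γ * m) (hlo : lo ≤ m) (he : 0 ≤ e) (h : lo - 3 * γ * m / 64 ≤ (1 + 2 * δ) * e) :
    γ ^ 2 * m / 32 + (-(γ / 8) + 2 * (γ / 8) ^ 2) * e < -(γ / 8) * l := by
  have a1 := mul_pos h0 hm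
  have : l + γ * m / 4 < (1 - γ / 4) * e := by
    by_contra! hc
    have a2 := mul_le_mul_of_nonneg_right h1 he
    have a3 : γ * e ≤ γ * (4 / 3 * m) := mul_le_mul_of_nonneg_left (by linarith) h0.le
    have a4 := mul_le_mul_of_nonneg_right hδ he
    linarith
  linarith [mul_lt_mul_of_pos_left this h0]

lemma main_ld_mono {S M : Finset V} (h : S ⊆ M) (a b : V → Λ) (f : V → ℕ) (x : Λ) (j : ℕ) :
    ld S a b f x j ≤ ld M a b f x j := card_le_card (fl_mono fun _ hv e => ⟨h hv, e⟩)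

/-- The types that are still free. -/
noncomputable def main_O (a b : V → Λ) (H : V → V → Prop) (D : V → Finset ℕ) (lim : Λ → ℕ) (v : V)
    (S : Finset V) (f : V → ℕ) : Finset ℕ :=
  fl (D v) fun j => (∀ u ∈ S, H v u → f u ≠ j) ∧ ld S a b f (a v) j < lim (a v) ∧
    ld S a b f (b v) j < lim (b v)

lemma main_congr (a b : V → Λ) (H : V → V → Prop) (D : V → Finset ℕ) (lim : Λ → ℕ) (v : V)
    (S : Finset V) (f g : V → ℕ) (h : ∀ u ∈ S, f u = g u) :
    main_O a b H D lim v S f = main_O a b H D lim v S g := by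
  have e : ld S a b f = ld S a b g := by
    funext x j
    refine congrArg card (Finset.ext fun u => ?_)
    simp only [mem_fl]
    exact and_congr_right fun hu => by rw [h u hu]
  ext j
  simp only [main_O, mem_fl, e]
  exact and_congr_right fun _ => and_congr_left fun _ => forall₂_congr fun u hu => by rw [h u hu]

lemma main_not {a b : V → Λ} {H : V → V → Prop} {D : V → Finset ℕ} {lim : Λ → ℕ} {v : V}
    {S M : Finset V} {f : V → ℕ} {j : ℕ} (hS : S ⊆ M) (h : j ∈ D v)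
    (h' : j ∉ main_O a b H D lim v S f) : (∃ u ∈ M, H v u ∧ f u = j) ∨
      lim (a v) ≤ ld M a b f (a v) j ∨ lim (b v) ≤ ld M a b f (b v) j := by
  by_contra! hc
  exact h' (mem_fl.2 ⟨h, fun u hu => hc.1 u (hS hu), (main_ld_mono hS ..).trans_lt hc.2.1,
    (main_ld_mono hS ..).trans_lt hc.2.2⟩)

end aux

theorem p_MAIN (hMR : S_MR) (hMN : S_MN) :
    S_MAIN := by
  intro γ ζ g0 g1 z0 z1
  obtain ⟨m₀, hm₀⟩ := hMN γ ζ g0 g1 z0 z1
  refine ⟨m₀ + 1, fun m hm => ?_⟩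
  have m1 : (1 : ℝ) ≤ m := by exact_mod_cast (by omega : 1 ≤ m)
  obtain ⟨δ, d0, d1, d2⟩ : ∃ δ : ℝ, 0 < δ ∧ δ * (1 + 2 * m) ≤ γ / 64 ∧ δ * m ≤ γ * ζ / 2304 :=
    ⟨min (γ / 64 / (1 + 2 * m)) (γ * ζ / 2304 / m), by positivity,
      (le_div_iff₀ (by positivity)).1 (min_le_left _ _),
      (le_div_iff₀ (by positivity)).1 (min_le_right _ _)⟩
  refine ⟨δ, d0, fun C => ?_⟩
  obtain ⟨k₀, hk₀⟩ := hm₀ m (by omega) C
  refine ⟨k₀ + m, fun k hk V Λ _ _ M L A a b H D lim Y Wt lo hL hAL hA hab hsi hdeg hsy hH hone hY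
    hD hlim hlo => ?_⟩
  have hN := hk₀ k (by omega) L.card _ _ (⌊ζ * k / (m + 1)⌋₊ + 1) hL (Nat.le_ceil _) (Nat.le_ceil _)
    (by push_cast; exact (Nat.lt_floor_add_one _).le)
  have T1 : 1 ≤ k / m := (Nat.le_div_iff_mul_le (by omega)).2 (by omega)
  have T2 : k ≤ 2 * m * (k / m) := by
    have := Nat.lt_mul_div_succ k (show 0 < m by omega)
    linarith only [this, Nat.mul_le_mul_left m T1]
  generalize k / m = T at *
  replace T1 : (1 : ℝ) ≤ T := by exact_mod_cast T1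
  replace T2 : (k : ℝ) ≤ 2 * m * T := by exact_mod_cast T2
  have T0 : (0 : ℝ) < T := one_pos.trans_le T1
  have m0 : (0 : ℝ) < m := one_pos.trans_le m1
  have k1 : (1 : ℝ) ≤ k := by exact_mod_cast (by omega : 1 ≤ k)
  have d3 : 192 * δ ≤ γ := by linarith only [d0, d1, mul_le_mul_of_nonneg_left m1 d0.le]
  have c0 : 0 < (1 / 2 - γ / 32) * T := mul_pos (by linarith only [g1]) T0
  obtain ⟨O, hO⟩ : ∃ O : V → Finset V → (V → ℕ) → Finset ℕ, ∀ v S f, O v S f =
      if (1 / 2 - γ / 32) * T ≤ (main_O a b H D lim v S f).card then main_O a b H D lim v S f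
      else D v := ⟨_, fun _ _ _ => rfl⟩
  have o1 : ∀ v S f, O v S f ⊆ D v := fun v S f => by
    rw [hO]
    split_ifs
    exacts [fl_subset _ _, Subset.rfl]
  have o2 : ∀ v ∈ M, ∀ S f, (1 / 2 - γ / 32) * T ≤ (O v S f).card := fun v hv S f => by
    rw [hO]
    split_ifs with h
    exacts [h, le_trans (mul_le_mul_of_nonneg_right (by linarith only [d3, g0]) T0.le) (hD v hv).2.1]
  obtain ⟨Nb, hNb⟩ : ∃ Nb : Λ → Finset Λ, ∀ x, Nb x = (fl M fun v => a v = x ∨ b v = x).image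
      fun v => if a v = x then b v else a v := ⟨_, fun _ => rfl⟩
  obtain ⟨pre, f, hord, hf, R0, R1, R2, R3⟩ := hMR V Λ M L A a b Nb Y O k T _ _ _ (γ / 8) _ _
    (fun v hv S f => card_pos.1 (by exact_mod_cast c0.trans_le (o2 v hv S f)))
    (fun v S f g h => by rw [hO, hO, main_congr a b H D lim v S f g h])
    (by linarith only [g0]) (by linarith only [g1])
    (fun x _ => hNb x ▸ card_image_le.trans (hdeg x)) hA hN
  have fD : ∀ v ∈ M, f v ∈ D v := fun v hv => o1 _ _ _ (hf v hv)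
  have e0 : ∀ x j, 0 ≤ exl M a b (fun v => O v (pre v) f) x j := fun x j =>
    sum_nonneg fun _ _ => by positivity
  have up : ∀ x ∈ L, ∀ j, lim x ≤ ld M a b f x j → γ ^ 2 * m / 32 + (γ / 8 + 2 * (γ / 8) ^ 2) *
      exl M a b (fun v => O v (pre v) f) x j < γ / 8 * ld M a b f x j := fun x hx j h => by
    refine main_up (p := lim x) g0 g1 m0 (by exact_mod_cast h)
      (by exact_mod_cast (hlim x hx).1) (e0 x j) (le_of_mul_le_mul_left ?_ T0)
    have : _ * exl M a b (fun v => O v (pre v) f) x j ≤ _ := (main_sum_le c0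
      (fl_mono fun v hv e => ⟨hv, e.1, o1 _ _ _ e.2⟩) fun v hv => o2 v (mem_fl.1 hv).1 _ _).trans
      ((hlim x hx).2 j)
    linarith only [this]
  have A0 : ∀ x ∈ L, ((fl (range T) fun j => lim x ≤ ld M a b f x j).card : ℝ) < γ / 128 * T :=
    fun x hx => Nat.lt_ceil.1 (main_few (Nat.ceil_pos.2 (by positivity))
      (fun W hW => R0 x hx W (hW.trans (fl_subset _ _))) fun j hj => up x hx j (mem_fl.1 hj).2)
  have A1 : ∀ x ∈ L, ∀ j < T, ((fl (Nb x) fun y => lim y ≤ ld M a b f y j).card : ℝ) <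
      γ / 256 * k := fun x hx j hj => by
    refine Nat.lt_ceil.1 (main_few (Nat.ceil_pos.2 (by positivity))
      (fun W hW e => R1 x hx W (hW.trans (fl_subset _ _)) e j hj) fun y hy =>
        up y ?_ j (mem_fl.1 hy).2)
    obtain ⟨v, hv, rfl⟩ := mem_image.1 (hNb x ▸ (mem_fl.1 hy).1)
    split_ifs
    exacts [(hab v (mem_fl.1 hv).1).2.1, (hab v (mem_fl.1 hv).1).1]
  have N0 : ∀ x ∈ L, ∀ j, ((fl M fun v => v ∈ Y x ∧ f v = j).card : ℝ) ≤ γ * ζ * k / 128 := by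
    intro x hx j
    by_cases hj : j < T
    · have h1 := R3 x hx j hj
      have h2 := (main_sum_le (S := fl M fun v => v ∈ Y x ∧ j ∈ O v (pre v) f)
        (o := fun v => O v (pre v) f) c0 (fun v hv => (mem_fl.1 hv).2.1) fun v hv =>
          o2 v (mem_fl.1 hv).1 _ _).trans (hY x hx).1
      have h3 : δ * k ^ 2 ≤ (1 / 2 - γ / 32) * T * (γ * ζ * k / 512) := by
        have b1 := mul_le_mul_of_nonneg_left T2 (show 0 ≤ δ * k by positivity)
        have b2 := mul_le_mul_of_nonneg_right d2 (show (0 : ℝ) ≤ k * T by positivity)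
        have b3 := mul_le_mul_of_nonneg_right g1 (show 0 ≤ γ * ζ * k * T by positivity)
        have b4 : 0 ≤ γ * ζ * k * T := by positivity
        linarith only [b1, b2, b3, b4]
      linarith only [h1, le_of_mul_le_mul_left (h2.trans h3) c0]
    · rw [eq_empty_of_forall_notMem (s := fl M _) fun v hv => hj ?_, card_empty, Nat.cast_zero]
      · positivity
      · obtain ⟨h1, -, rfl⟩ := mem_fl.1 hv
        exact mem_range.1 ((hD v h1).1 (fD v h1))
  have oo : ∀ v ∈ M, O v (pre v) f = main_O a b H D lim v (pre v) f := fun v hv => by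
    rw [hO, if_pos]
    have s1 : D v ⊆ main_O a b H D lim v (pre v) f ∪ (fl M (H v)).image f ∪
        (fl (range T) fun j => lim (a v) ≤ ld M a b f (a v) j) ∪
        fl (range T) fun j => lim (b v) ≤ ld M a b f (b v) j := fun j hj => by
      simp only [mem_union, mem_image, mem_fl, or_assoc]
      exact or_iff_not_imp_left.2 fun h => (main_not (hord.1 v hv).1 hj h).imp (fun ⟨u, h1, h2, h3⟩ => ⟨u, ⟨h1, h2⟩, h3⟩)
        (Or.imp (fun e => ⟨(hD v hv).1 hj, e⟩) fun e => ⟨(hD v hv).1 hj, e⟩)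
    have s2 := (Nat.cast_le (α := ℝ)).2 ((card_le_card s1).trans ((card_union_le _ _).trans
      (add_le_add_left ((card_union_le _ _).trans (add_le_add_left ((card_union_le _ _).trans
        (add_le_add_right card_image_le _)) _)) _)))
    push_cast at s2
    have b1 := mul_le_mul_of_nonneg_left T2 d0.le
    have b2 := mul_le_mul_of_nonneg_right d1 (show (0 : ℝ) ≤ T by positivity)
    linarith only [s2, b1, b2, A0 _ (hab v hv).1, A0 _ (hab v hv).2.1, hH v hv, (hD v hv).2.1]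
  have fO := fun v hv => (mem_fl.1 (oo v hv ▸ hf v hv : f v ∈ main_O a b H D lim v (pre v) f)).2
  refine ⟨f, fD, fun u hu v hv n h => ?_, fun x hx j => ?_, fun x hx j => (N0 x hx j).trans ?_,
    fun j hj => ?_⟩
  · rcases hord.total hu hv n with e | e
    exacts [(fO v hv).1 u e (hsy _ _ h), ((fO u hu).1 v e h).symm]
  · rcases (fl M fun v => (a v = x ∨ b v = x) ∧ f v = j).eq_empty_or_nonempty with e | e
    · rw [ld, e]
      exact Nat.zero_le _
    obtain ⟨v, hv, h⟩ := hord.2 _ (fl_subset _ _) e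
    obtain ⟨h1, h2, rfl⟩ := mem_fl.1 hv
    have : ld M a b f x (f v) ≤ ld (pre v) a b f x (f v) + 1 :=
      le_trans (card_le_card fun u hu => mem_insert.2 (or_iff_not_imp_left.2 fun n =>
        mem_fl.2 ⟨h u hu n, (mem_fl.1 hu).2⟩)) (card_insert_le v _)
    rcases h2 with rfl | rfl
    exacts [this.trans (fO v h1).2.1, this.trans (fO v h1).2.2]
  · have : 0 ≤ ζ * k := by positivity
    linarith only [this, mul_le_mul_of_nonneg_right g1 this]
  rw [← le_div_iff₀' (by positivity), ← Nat.le_floor_iff (by positivity), ← Nat.lt_add_one_iff]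
  refine main_few (Nat.succ_pos _) (fun W hW e => R2 W (hW.trans (fl_subset _ _)) e j hj)
    fun x hx => ?_
  obtain ⟨hx, hw, hl⟩ := mem_fl.1 hx
  have l1 := hlo x hx j hj hw
  have gm : 0 < γ * m := by positivity
  have l2 : lo ≤ lim x - γ * m := le_of_mul_le_mul_right
    (by linarith only [l1, (hlim x (hAL hx)).2 j]) T0
  have l3 : (lim x : ℝ) ≤ m := by exact_mod_cast (hlim x (hAL hx)).1
  have l4 : ld M a b f x j < lim x := by
    have : (ld M a b f x j : ℝ) < lim x := by linarith only [hl, l2, gm]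
    exact_mod_cast this
  refine main_down g0 g1 m0 d3 hl (by linarith only [l2, l3, gm]) (e0 x j)
    (le_of_mul_le_mul_left ?_ T0)
  have s1 : (fl M fun v => (a v = x ∨ b v = x) ∧ j ∈ D v) ⊆
      (fl M fun v => (a v = x ∨ b v = x) ∧ j ∈ O v (pre v) f) ∪
      (fl M fun v => (a v = x ∨ b v = x) ∧ ∃ u ∈ M, H v u ∧ f u = j) ∪
      fl M fun v => (a v = x ∨ b v = x) ∧
        ∃ y, y ≠ x ∧ (a v = y ∨ b v = y) ∧ lim y ≤ ld M a b f y j := fun v hv => by
    obtain ⟨h1, h2, h3⟩ := mem_fl.1 hv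
    simp only [mem_union, mem_fl, h1, h2, true_and, or_assoc, oo v h1]
    exact or_iff_not_imp_left.2 fun h => (main_not (hord.1 v h1).1 h3 h).imp_right fun e => e.elim
      (fun e => ⟨_, fun n => l4.not_ge (n ▸ e), .inl rfl, e⟩)
      fun e => ⟨_, fun n => l4.not_ge (n ▸ e), .inr rfl, e⟩
  have s2 : (fl M fun v => (a v = x ∨ b v = x) ∧ ∃ u ∈ M, H v u ∧ f u = j).card ≤
      (fl M fun v => v ∈ Y x ∧ f v = j).card := card_le_card_of_forall_subsingleton H
    (fun v hv => by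
      obtain ⟨h1, h2, u, h3, h4, h5⟩ := mem_fl.1 hv
      exact ⟨u, mem_fl.2 ⟨h3, (hY x (hAL hx)).2 v h1 u h3 h2 h4, h5⟩, h4⟩)
    fun w hw u hu v hv => hone w (mem_fl.1 hw).1 x u (mem_fl.1 hu.1).1 v (mem_fl.1 hv.1).1
      (mem_fl.1 hu.1).2.1 (mem_fl.1 hv.1).2.1 (hsy _ _ hu.2) (hsy _ _ hv.2)
  have s3 : (fl M fun v => (a v = x ∨ b v = x) ∧
      ∃ y, y ≠ x ∧ (a v = y ∨ b v = y) ∧ lim y ≤ ld M a b f y j).card ≤
      (fl (Nb x) fun y => lim y ≤ ld M a b f y j).card :=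
    card_le_card_of_forall_subsingleton (fun v y => y ≠ x ∧ (a v = y ∨ b v = y))
    (fun v hv => by
      obtain ⟨h1, h2, y, h3, h4, h5⟩ := mem_fl.1 hv
      refine ⟨y, mem_fl.2 ⟨hNb x ▸ mem_image.2 ⟨v, mem_fl.2 ⟨h1, h2⟩, ?_⟩, h5⟩, h3, h4⟩
      split_ifs with e
      exacts [h4.resolve_left fun n => h3 (n ▸ e),
        h4.resolve_right fun n => h3 (n ▸ h2.resolve_left e)])
    fun y hy u hu v hv => hsi u (mem_fl.1 hu.1).1 v (mem_fl.1 hv.1).1 x y hu.2.1.symm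
      (mem_fl.1 hu.1).2.1 hu.2.2 (mem_fl.1 hv.1).2.1 hv.2.2
  have s4 := (Nat.cast_le (α := ℝ)).2 ((card_le_card s1).trans ((card_union_le _ _).trans
    (add_le_add ((card_union_le _ _).trans (add_le_add_right s2 _)) s3)))
  push_cast at s4
  have s5 : _ ≤ _ * exl M a b (fun v => O v (pre v) f) x j := main_le_sum fun v hv =>
    ⟨c0.trans_le (o2 v (mem_fl.1 hv).1 _ _), le_trans (by exact_mod_cast card_le_card (o1 _ _ _))
      (hD v (mem_fl.1 hv).1).2.2⟩
  have b1 := mul_le_mul_of_nonneg_left T2 g0.le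
  have b2 := mul_le_mul_of_nonneg_left z1 (show 0 ≤ γ * k by positivity)
  linarith only [l1, s4, s5, b1, b2, N0 x (hAL hx) j, A1 x (hAL hx) j hj]

end

section


open Finset

/-- The places. -/
def rm_Sl (J : Finset ℕ) (μ : ℕ → ℕ) : Finset (Σ _ : ℕ, ℕ) := J.sigma fun j => range (μ j)

lemma rm_mem {J : Finset ℕ} {μ : ℕ → ℕ} {s : Σ _ : ℕ, ℕ} :
    s ∈ rm_Sl J μ ↔ s.1 ∈ J ∧ s.2 < μ s.1 := by simp [rm_Sl]

lemma rm_mu {J : Finset ℕ} {μ : ℕ → ℕ} {W : Finset (Σ _ : ℕ, ℕ)} (hW : W ⊆ rm_Sl J μ) (j : ℕ) :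
    (fl W fun s => s.1 = j).card ≤ μ j := by
  rw [← card_range (μ j)]
  refine card_le_card_of_injOn (fun s => s.2) (fun s hs => ?_) fun s hs t ht e => ?_
  · obtain ⟨h1, rfl⟩ := mem_fl.1 (mem_coe.1 hs)
    simpa using (rm_mem.1 (hW h1)).2
  · obtain ⟨a, b⟩ := s
    obtain ⟨c, d⟩ := t
    have h1 : a = j := (mem_fl.1 (mem_coe.1 hs)).2
    have h2 : c = j := (mem_fl.1 (mem_coe.1 ht)).2
    have h3 : b = d := e
    subst h1 h2 h3; rfl

lemma rm_cnt {J : Finset ℕ} {μ : ℕ → ℕ} {W : Finset (Σ _ : ℕ, ℕ)} (hW : W ⊆ rm_Sl J μ)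
    (p : ℕ → Prop) : ((fl W fun s => p s.1).card : ℝ) =
      ∑ j ∈ fl J p, ((fl W fun s => s.1 = j).card : ℝ) := by
  rw [card_eq_sum_card_fiberwise (s := fl W fun s => p s.1) (t := fl J p) (f := fun s => s.1)
    fun s hs => mem_coe.2 (mem_fl.2 ⟨(rm_mem.1 (hW (mem_fl.1 hs).1)).1, (mem_fl.1 hs).2⟩)]
  push_cast
  refine sum_congr rfl fun j hj => congrArg _ (congrArg card ?_)
  ext s
  simp only [mem_filter, mem_fl]
  exact ⟨fun h => ⟨h.1.1, h.2⟩, fun h => ⟨⟨h.1, h.2 ▸ (mem_fl.1 hj).2⟩, h.2⟩⟩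

lemma rm_three {α : Type} (W : Finset α) (p q r : α → Prop) (h : ∀ a ∈ W, p a ∨ q a ∨ r a) :
    (W.card : ℝ) ≤ (fl W p).card + (fl W q).card + (fl W r).card := by
  classical
  have : W ⊆ fl W p ∪ fl W q ∪ fl W r := fun a ha => by
    rcases h a ha with e | e | e <;> simp [ha, e]
  have h1 := (card_le_card this).trans
    ((card_union_le _ _).trans (Nat.add_le_add_right (card_union_le _ _) _))
  exact_mod_cast h1

lemma rm_hall {V : Type} [DecidableEq V] {Z : Finset V} {J : Finset ℕ} {μ : ℕ → ℕ}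
    {Dis Fo : V → ℕ → Prop} {n : ℕ} (h : RowOK Z J μ Dis Fo n (1 / 20))
    (Us : V → (Σ _ : ℕ, ℕ) → Prop)
    (u1 : ∀ v ∈ Z, ((fl (rm_Sl J μ) (Us v)).card : ℝ) ≤ n / 20)
    (u2 : ∀ s, ((fl Z fun v => Us v s).card : ℝ) ≤ n / 20) :
    ∃ f : V → Σ _ : ℕ, ℕ, Set.InjOn f Z ∧
      ∀ v ∈ Z, f v ∈ rm_Sl J μ ∧ ¬ Dis v (f v).1 ∧ ¬ Fo v (f v).1 ∧ ¬ Us v (f v) := by
  classical
  have hS : (rm_Sl J μ).card = n := by simp [rm_Sl, h.tot]
  have key := (all_card_le_biUnion_card_iff_exists_injective fun v : {v // v ∈ Z} =>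
    fl (rm_Sl J μ) fun s => ¬ Dis v s.1 ∧ ¬ Fo v s.1 ∧ ¬ Us v s).1 (fun s => ?_)
  · obtain ⟨f, f1, f2⟩ := key
    refine ⟨fun v => if hv : v ∈ Z then f ⟨v, hv⟩ else ⟨0, 0⟩, fun u hu v hv e => ?_,
      fun v hv => ?_⟩
    · simp only [dif_pos (mem_coe.1 hu), dif_pos (mem_coe.1 hv)] at e
      exact congrArg Subtype.val (f1 e)
    · simp only [dif_pos hv]
      exact mem_fl.1 (f2 ⟨v, hv⟩)
  by_contra hc
  push Not at hc
  set N := s.biUnion fun v : {v // v ∈ Z} =>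
    fl (rm_Sl J μ) fun s => ¬ Dis v s.1 ∧ ¬ Fo v s.1 ∧ ¬ Us v s with hN
  set S := s.map (Function.Embedding.subtype _) with hSd
  set W := rm_Sl J μ \ N with hWd
  have hSZ : S ⊆ Z := fun v hv => by
    obtain ⟨a, -, rfl⟩ := mem_map.1 hv
    exact a.2
  have hW : W ⊆ rm_Sl J μ := sdiff_subset
  have hSc : S.card = s.card := card_map _
  have bad : ∀ v ∈ S, ∀ w ∈ W, Dis v w.1 ∨ Fo v w.1 ∨ Us v w := by
    intro v hv w hw
    obtain ⟨a, ha, rfl⟩ := mem_map.1 hv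
    by_contra hb
    push Not at hb
    exact (mem_sdiff.1 hw).2 (mem_biUnion.2 ⟨a, ha, mem_fl.2 ⟨hW hw, hb⟩⟩)
  have c1 : n < S.card + W.card := by
    have := le_card_sdiff N (rm_Sl J μ)
    rw [← hWd, hS] at this
    omega
  have c2 : S.card ≤ n := (card_le_card hSZ).trans h.card
  obtain ⟨v₀, hv₀⟩ : S.Nonempty := card_pos.1 (by omega)
  obtain ⟨w₀, hw₀⟩ : W.Nonempty := card_pos.1 (by omega)
  have le : ∀ p : ℕ → Prop, ((fl W fun s => p s.1).card : ℝ) ≤ ∑ j ∈ fl J p, (μ j : ℝ) :=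
    fun p => by
      rw [rm_cnt hW]
      exact sum_le_sum fun j _ => by exact_mod_cast rm_mu hW j
  have row : ∀ v ∈ S, (W.card : ℝ) ≤ (fl W fun s => Dis v s.1).card + n / 10 := by
    intro v hv
    have a1 := rm_three W _ _ _ (bad v hv)
    have a2 := (le (Fo v)).trans (h.f1 v (hSZ hv))
    have a3 : ((fl W (Us v)).card : ℝ) ≤ (fl (rm_Sl J μ) (Us v)).card := by
      exact_mod_cast card_le_card (fl_mono fun a ha e => ⟨hW ha, e⟩)
    have a4 := u1 v (hSZ hv)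
    linarith
  have c3 : (W.card : ℝ) ≤ 13 / 20 * n := by
    have a1 := row v₀ hv₀
    have a2 := (le (Dis v₀)).trans (h.h1 v₀ (hSZ hv₀))
    linarith
  have c4 : (S.card : ℝ) ≤ 13 / 20 * n := by
    obtain ⟨b1, b2⟩ := rm_mem.1 (hW hw₀)
    have mo : ∀ p : V → Prop, ((fl S p).card : ℝ) ≤ (fl Z p).card := fun p => by
      exact_mod_cast card_le_card (fl_mono fun a ha e => ⟨hSZ ha, e⟩)
    have a1 := rm_three S _ _ _ fun v hv => bad v hv w₀ hw₀
    have a2 := (mo _).trans (h.h2 _ b1 (by omega))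
    have a3 := (mo _).trans (h.f2 _ b1 (by omega))
    have a4 := (mo _).trans (u2 w₀)
    linarith
  have c5 := h.h3 S hSZ (fun j => (fl W fun s => s.1 = j).card) (rm_mu hW)
  have c6 : ∑ j ∈ J, ((fl W fun s => s.1 = j).card : ℝ) = W.card := by
    have := rm_cnt hW fun _ => True
    rw [show (fl W fun s => True) = W by ext; simp, show (fl J fun s => True) = J by ext; simp]
      at this
    exact this.symm
  have c7 := sum_le_sum row
  simp only [sum_add_distrib, sum_const, nsmul_eq_mul, rm_cnt hW] at c7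
  rw [c6] at c5
  have c8 : (n : ℝ) < S.card + W.card := by exact_mod_cast c1
  have c9 : (0 : ℝ) ≤ n := Nat.cast_nonneg n
  nlinarith [mul_pos (show (0 : ℝ) < S.card - 7 / 20 * n by linarith)
    (show (0 : ℝ) < W.card - 7 / 20 * n by linarith), mul_nonneg c9 c9,
    mul_nonneg c9 (show (0 : ℝ) ≤ S.card - 7 / 20 * n by linarith),
    mul_nonneg c9 (show (0 : ℝ) ≤ W.card - 7 / 20 * n by linarith)]

theorem p_RM :
    S_RM := by
  intro V _ Z J μ Dis Fo n h
  classical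
  have key : ∀ q, q ≤ n / 20 → ∃ m : ℕ → V → Σ _ : ℕ, ℕ, (∀ p, p < q → Set.InjOn (m p) Z ∧
      ∀ v ∈ Z, m p v ∈ rm_Sl J μ ∧ ¬ Dis v (m p v).1 ∧ ¬ Fo v (m p v).1) ∧
      ∀ p, p < q → ∀ p', p' < q → ∀ v ∈ Z, m p v = m p' v → p = p' := by
    intro q
    induction q with
    | zero => exact fun _ => ⟨fun _ _ => ⟨0, 0⟩, by simp, by simp⟩
    | succ q ih =>
      intro hq
      obtain ⟨m, m1, m2⟩ := ih (by omega)
      have hq' : (q : ℝ) ≤ n / 20 := by
        have : (q : ℝ) ≤ (n / 20 : ℕ) := by exact_mod_cast (by omega : q ≤ n / 20)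
        exact this.trans (by exact_mod_cast Nat.cast_div_le)
      obtain ⟨f, f1, f2⟩ := rm_hall h (fun v s => ∃ p, p < q ∧ m p v = s) (fun v hv => by
        refine le_trans ?_ hq'
        have : (fl (rm_Sl J μ) fun s => ∃ p, p < q ∧ m p v = s) ⊆
            (range q).image fun p => m p v := fun s hs => by
          obtain ⟨p, p1, p2⟩ := (mem_fl.1 hs).2
          exact mem_image.2 ⟨p, mem_range.2 p1, p2⟩
        exact_mod_cast (card_le_card this).trans (card_image_le.trans (card_range q).le))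
        (fun s => by
        refine le_trans ?_ hq'
        have : (fl Z fun v => ∃ p, p < q ∧ m p v = s) ⊆
            (range q).biUnion fun p => fl Z fun v => m p v = s := fun v hv => by
          obtain ⟨p, p1, p2⟩ := (mem_fl.1 hv).2
          exact mem_biUnion.2 ⟨p, mem_range.2 p1, mem_fl.2 ⟨(mem_fl.1 hv).1, p2⟩⟩
        have h2 := card_biUnion_le_card_mul (range q) (fun p => fl Z fun v => m p v = s) 1
          fun p hp => card_le_one.2 fun a ha b hb => (m1 p (mem_range.1 hp)).1 (mem_fl.1 ha).1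
            (mem_fl.1 hb).1 ((mem_fl.1 ha).2.trans (mem_fl.1 hb).2.symm)
        rw [card_range, mul_one] at h2
        exact_mod_cast (card_le_card this).trans h2)
      refine ⟨fun p => if p = q then f else m p, fun p hp => ?_, fun p hp p' hp' v hv e => ?_⟩
      · by_cases e : p = q
        · simp only [if_pos e]
          exact ⟨f1, fun v hv => ⟨(f2 v hv).1, (f2 v hv).2.1, (f2 v hv).2.2.1⟩⟩
        · simp only [if_neg e]
          exact m1 p (by omega)
      · by_cases e1 : p = q <;> by_cases e2 : p' = q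
        · omega
        · simp only [if_pos e1, if_neg e2] at e
          exact ((f2 v hv).2.2.2 ⟨p', by omega, e.symm⟩).elim
        · simp only [if_neg e1, if_pos e2] at e
          exact ((f2 v hv).2.2.2 ⟨p, by omega, e⟩).elim
        · simp only [if_neg e1, if_neg e2] at e
          exact m2 p (by omega) p' (by omega) v hv e
  obtain ⟨m, m1, m2⟩ := key _ le_rfl
  refine ⟨fun q v => (m q v).1, fun q hq => ⟨fun v hv => ⟨(rm_mem.1 ((m1 q hq).2 v hv).1).1,
    ((m1 q hq).2 v hv).2⟩, fun j => ?_⟩, fun v hv j => ?_⟩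
  · refine le_trans ?_ (rm_mu (Subset.refl (rm_Sl J μ)) j)
    exact card_le_card_of_injOn (m q) (fun v hv => mem_coe.2 (mem_fl.2
      ⟨((m1 q hq).2 v (mem_fl.1 hv).1).1, (mem_fl.1 hv).2⟩))
      fun a ha b hb e => (m1 q hq).1 (mem_fl.1 ha).1 (mem_fl.1 hb).1 e
  · refine le_trans ?_ (rm_mu (Subset.refl (rm_Sl J μ)) j)
    exact card_le_card_of_injOn (fun q => m q v) (fun q hq => mem_coe.2 (mem_fl.2
      ⟨((m1 q (mem_range.1 (mem_fl.1 hq).1)).2 v hv).1, (mem_fl.1 hq).2⟩))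
      fun a ha b hb e => m2 a (mem_range.1 (mem_fl.1 ha).1) b (mem_range.1 (mem_fl.1 hb).1) v hv e

end

end Pool.Agent.P.MP_1fec7a_co.S
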