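import Pool.Agent.P.MP_1fec7a_co.S.Iface

/-! The rows, the parameters and the first stage. -/

set_option autoImplicit false
set_option linter.unusedSectionVars false
set_option linter.unusedVariables false

namespace Pool.Agent.P.MP_1fec7a_co.S

section


open Finset

lemma row_avg {V : Type} [DecidableEq V] (T : Finset V) (g : ℕ → V → ℕ) (j μ n : ℕ) {M : ℝ}
    (hM : 0 < M) (hn : 20 ≤ n) (h1 : ∀ q < n / 20, ((fl T fun v => g q v = j).card : ℝ) ≤ M)
    (h2 : ∀ v ∈ T, (fl (range (n / 20)) fun q => g q v = j).card ≤ μ) :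
    (∑ q ∈ range (n / 20), Real.exp ((fl T fun v => g q v = j).card / M)) / (n / 20 : ℕ) - 1 ≤
      80 / M * (T.card * μ / n) := by
  have h3 : (0 : ℝ) < (n / 20 : ℕ) := Nat.cast_pos.2 (by omega)
  have h4 : (n : ℝ) ≤ 40 * (n / 20 : ℕ) := by exact_mod_cast (by omega : n ≤ 40 * (n / 20))
  have h5 : (0 : ℝ) < n := Nat.cast_pos.2 (by omega)
  have h6 : ∑ q ∈ range (n / 20), ((fl T fun v => g q v = j).card : ℝ) ≤ T.card * μ := by
    have : ∑ q ∈ range (n / 20), (fl T fun v => g q v = j).card ≤ T.card * μ := by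
      simp only [fl_eq, card_filter] at h2 ⊢
      rw [sum_comm]
      exact sum_le_card_nsmul _ _ _ h2
    exact_mod_cast this
  have h7 : ∑ q ∈ range (n / 20), Real.exp ((fl T fun v => g q v = j).card / M) ≤
      (n / 20 : ℕ) + 2 / M * (T.card * μ) := by
    refine (sum_le_sum (g := fun q => 1 + 2 / M * (fl T fun v => g q v = j).card)
      fun q hq => ?_).trans ?_
    · have a : (0 : ℝ) ≤ (fl T fun v => g q v = j).card / M := by positivity
      have := Real.abs_exp_sub_one_le (x := (fl T fun v => g q v = j).card / M)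
        (by rw [abs_of_nonneg a, div_le_one hM]; exact h1 q (mem_range.1 hq))
      rw [abs_of_nonneg a] at this
      rw [div_mul_eq_mul_div, mul_div_assoc]
      linarith [le_abs_self (Real.exp ((fl T fun v => g q v = j).card / M) - 1)]
    · rw [sum_add_distrib, ← mul_sum, sum_const, card_range, nsmul_one]
      gcongr
  rw [sub_le_iff_le_add', div_le_iff₀ h3, add_mul, one_mul]
  refine h7.trans (add_le_add_right ?_ _)
  calc 2 / M * (T.card * μ : ℝ) = 2 / M * (T.card * μ / n) * n := by field_simp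
    _ ≤ 2 / M * (T.card * μ / n) * (40 * (n / 20 : ℕ)) := by gcongr
    _ = _ := by ring

theorem p_ROW (hSEQ : S_SEQ) (hRM : S_RM) :
    S_ROW := by
  intro V Λ _ _ A L Z Y J μ n Dis Fo G n₀ M Δ E N hAL hd hs H hE h20 hM hN hN'
  classical
  have hn : ∀ x ∈ A, 20 ≤ n x := fun x hx => by exact_mod_cast h20.trans (H x hx).2.1
  have hf : ∀ (x : Λ) (F : V → ℕ → Prop), ∃ g : ℕ → V → ℕ, x ∈ A →
      ((∀ q, q < n x / 20 → (∀ v ∈ Z x, g q v ∈ J ∧ ¬Dis v (g q v) ∧ ¬Fo v (g q v)) ∧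
        ∀ j, (fl (Z x) fun v => g q v = j).card ≤ μ x j) ∧
      ∀ v ∈ Z x, ∀ j, (fl (range (n x / 20)) fun q => g q v = j).card ≤ μ x j) ∧
      (RowOK (Z x) J (μ x) Dis (fun v j => Fo v j ∨ F v j) (n x) (1 / 20) →
        ∀ q, q < n x / 20 → ∀ v ∈ Z x, ¬F v (g q v)) := fun x F => by
    by_cases hx : x ∈ A
    swap
    · exact ⟨0, fun h => absurd h hx⟩
    by_cases h : RowOK (Z x) J (μ x) Dis (fun v j => Fo v j ∨ F v j) (n x) (1 / 20)
    · obtain ⟨g, g1, g2⟩ := hRM V _ _ _ _ _ _ h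
      exact ⟨g, fun _ => ⟨⟨fun q hq => ⟨fun v hv => ⟨((g1 q hq).1 v hv).1, ((g1 q hq).1 v hv).2.1,
        fun h => ((g1 q hq).1 v hv).2.2 (Or.inl h)⟩, (g1 q hq).2⟩, g2⟩,
        fun _ q hq v hv h => ((g1 q hq).1 v hv).2.2 (Or.inr h)⟩⟩
    · have e : (1 / 40 : ℝ) * n x ≤ 1 / 20 * n x := by
        linarith [(Nat.cast_nonneg (n x) : (0 : ℝ) ≤ _)]
      obtain ⟨g, g1⟩ := hRM V _ _ _ _ _ _ { (H x hx).1 with
        f1 := fun v hv => ((H x hx).1.f1 v hv).trans e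
        f2 := fun j hj h => ((H x hx).1.f2 j hj h).trans e }
      exact ⟨g, fun _ => ⟨g1, fun h' => absurd h' h⟩⟩
  choose fam hfam using hf
  let F : Finset Λ → (Λ → ℕ × (V → ℕ)) → V → ℕ → Prop := fun S f v j =>
    ∃ y ∈ S, y ∈ A ∧ ∃ u ∈ Z y, G v u ∧ (f y).2 u = j
  obtain ⟨pre, f, o1, o2, o3⟩ := hSEQ Λ (ℕ × (V → ℕ)) (Λ × ℕ) A
    (fun x S f => (range (n x / 20)).image fun q => (q, fam x (F S f) q)) (L ×ˢ J)
    (fun σ x o => (fl (Z x ∩ Y σ.1) fun v => o.2 v = σ.2).card / M)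
    (fun _ => Real.log (L.card * J.card))
    (fun x hx S f => (nonempty_range_iff.2 (by have := hn x hx; omega)).image _)
    (fun x S f f' h => by
      have : F S f = F S f' := funext₂ fun v j => propext
        (exists_congr fun y => and_congr_right fun hy => by rw [h y hy])
      rw [this])
    (by
      rw [sum_const, card_product, nsmul_eq_mul, Nat.cast_mul, Real.exp_neg]
      rcases eq_or_lt_of_le (by positivity : (0 : ℝ) ≤ L.card * J.card) with h | h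
      · rw [← h]; simp
      · rw [Real.exp_log h, mul_inv_cancel₀ h.ne'])
  have o4 : ∀ x ∈ A, ∃ q < n x / 20, (f x).2 = fam x (F (pre x) f) q := fun x hx => by
    obtain ⟨q, q1, q2⟩ := mem_image.1 (o2 x hx)
    exact ⟨q, mem_range.1 q1, q2 ▸ rfl⟩
  obtain ⟨g, hg⟩ : ∃ g : V → ℕ, ∀ x ∈ A, ∀ v ∈ Z x, g v = (f x).2 v :=
    ⟨fun v => if h : ∃ x ∈ A, v ∈ Z x then (f h.choose).2 v else 0, fun x hx v hv => by
      have h : ∃ x ∈ A, v ∈ Z x := ⟨x, hx, hv⟩
      simp only [dif_pos h]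
      rw [hd _ h.choose_spec.1 x hx v h.choose_spec.2 hv]⟩
  have k : ∀ z ∈ L, ∀ j ∈ J, ((fl (A.biUnion Z) fun v => v ∈ Y z ∧ g v = j).card : ℝ) ≤ N := by
    intro z hz j hj
    have h1 := (o3 (z, j) (mk_mem_product hz hj)).trans (add_le_add_right (sum_le_sum
      (g := fun x => 80 / M * (((Z x ∩ Y z).card : ℝ) * μ x j / n x)) fun x hx => by
        have i : Set.InjOn (fun q => (q, fam x (F (pre x) f) q)) (range (n x / 20)) :=
          fun _ _ _ _ h => congrArg Prod.fst h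
        rw [sum_image i, card_image_of_injOn i, card_range]
        refine row_avg _ _ j _ _ hM (hn x hx) (fun q hq => le_trans ?_ ((H x hx).2.2.1 j hj))
          fun v hv => (hfam x _ hx).1.2 v (mem_inter.1 hv).1 j
        exact_mod_cast (card_le_card (fl_mono fun v hv h => ⟨(mem_inter.1 hv).1, h⟩)).trans
          (((hfam x _ hx).1.1 q hq).2 j)) _)
    rw [← mul_sum, ← sum_div, div_le_iff₀ hM] at h1
    have h2 : (fl (A.biUnion Z) fun v => v ∈ Y z ∧ g v = j).card ≤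
        ∑ x ∈ A, (fl (Z x ∩ Y z) fun v => (f x).2 v = j).card :=
      (card_le_card fun v hv => by
        obtain ⟨h3, h4, h5⟩ := mem_fl.1 hv
        obtain ⟨x, hx, h6⟩ := mem_biUnion.1 h3
        exact mem_biUnion.2 ⟨x, hx, mem_fl.2 ⟨mem_inter.2 ⟨h6, h4⟩, hg x hx v h6 ▸ h5⟩⟩).trans
        card_biUnion_le
    have h3 := mul_le_mul_of_nonneg_left (hE z hz j hj) (by norm_num : (0 : ℝ) ≤ 80)
    rw [add_mul, mul_right_comm, div_mul_cancel₀ _ hM.ne'] at h1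
    refine le_trans (by exact_mod_cast h2) (h1.trans (by linarith))
  have ok : ∀ x ∈ A, RowOK (Z x) J (μ x) Dis (fun v j => Fo v j ∨ F (pre x) f v j) (n x)
      (1 / 20) := fun x hx => by
    obtain ⟨r, r1, -, r3, r4, -, r6, r7⟩ := H x hx
    refine { r with f1 := fun v hv => ?_, f2 := fun j hj h0 => ?_ }
    · have h1 := r3 (fl J (F (pre x) f v)) (fl_subset _ _) (le_trans (by
        exact_mod_cast (card_le_card fun j hj => by
          obtain ⟨y, -, hy, u, hu, h2, h3⟩ := (mem_fl.1 hj).2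
          exact mem_image.2 ⟨u, mem_fl.2 ⟨mem_biUnion.2 ⟨y, hy, hu⟩, h2⟩,
            (hg y hy u hu).trans h3⟩).trans (card_image_le (f := g))) (r4 v hv))
      have h2 : ∑ j ∈ fl J fun j => Fo v j ∨ F (pre x) f v j, (μ x j : ℝ) ≤
          ∑ j ∈ fl J (Fo v) ∪ fl J (F (pre x) f v), (μ x j : ℝ) :=
        sum_le_sum_of_subset_of_nonneg (fun j hj => by
          simpa only [mem_union, mem_fl, and_or_left] using hj) fun _ _ _ => Nat.cast_nonneg _
      have h3 := sum_union_inter (s₁ := fl J (Fo v)) (s₂ := fl J (F (pre x) f v))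
        (f := fun j => (μ x j : ℝ))
      have h4 : 0 ≤ ∑ j ∈ fl J (Fo v) ∩ fl J (F (pre x) f v), (μ x j : ℝ) := by positivity
      linarith [r.f1 v hv]
    · have h1 : (fl (Z x) fun v => Fo v j ∨ F (pre x) f v j).card ≤ (fl (Z x) fun v => Fo v j).card +
          (fl (A.biUnion Z) fun u => u ∈ Y x ∧ g u = j).card * 2 := by
        refine (card_le_card (t := (fl (Z x) fun v => Fo v j) ∪ (fl (A.biUnion Z) fun u =>
          u ∈ Y x ∧ g u = j).biUnion fun u => fl (Z x) fun v => G v u) fun v hv => ?_).trans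
          ((card_union_le _ _).trans (add_le_add_right
            (card_biUnion_le_card_mul _ _ _ fun u hu => r6 u (mem_fl.1 hu).1) _))
        obtain ⟨h2, h3 | ⟨y, -, hy, u, hu, h3, h4⟩⟩ := mem_fl.1 hv
        · exact mem_union_left _ (mem_fl.2 ⟨h2, h3⟩)
        · have h5 := mem_biUnion.2 ⟨y, hy, hu⟩
          exact mem_union_right _ (mem_biUnion.2 ⟨u, mem_fl.2 ⟨h5, r7 v h2 u h5 h3,
            (hg y hy u hu).trans h4⟩, mem_fl.2 ⟨h2, h3⟩⟩)
      have h2 := (Nat.cast_le (α := ℝ)).2 h1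
      push_cast at h2
      linarith [r.f2 j hj h0, k x (hAL hx) j hj]
  have ne : ∀ x ∈ A, ∀ y ∈ A, y ∈ pre x → ∀ u ∈ Z x, ∀ v ∈ Z y, G u v → g u ≠ g v :=
    fun x hx y hy h u hu v hv h1 e => by
      obtain ⟨q, q1, q2⟩ := o4 x hx
      refine (hfam x _ hx).2 (ok x hx) q q1 u hu ⟨y, h, hy, v, hv, h1, ?_⟩
      rw [← q2, ← hg x hx u hu, ← hg y hy v hv, e]
  refine ⟨g, fun x hx => ?_, fun u hu v hv h => ?_, k⟩
  · obtain ⟨q, q1, q2⟩ := o4 x hx
    obtain ⟨h1, h2⟩ := (hfam x (F (pre x) f) hx).1.1 q q1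
    rw [← q2] at h1 h2
    exact ⟨fun v hv => hg x hx v hv ▸ h1 v hv, fun j =>
      (card_le_card (fl_mono fun v hv h => ⟨hv, hg x hx v hv ▸ h⟩)).trans (h2 j)⟩
  · obtain ⟨x, hx, h1⟩ := mem_biUnion.1 hu
    obtain ⟨y, hy, h2⟩ := mem_biUnion.1 hv
    rcases o1.total hx hy (fun e => (H x hx).2.2.2.2.2.1 u h1 v (e ▸ h2) h) with h3 | h3
    · exact (ne y hy x hx h3 v h2 u h1 (hs _ _ h)).symm
    · exact ne x hx y hy h3 u h1 v h2 h

end

section


open Finset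

lemma nums_log (C : ℝ) (k : ℕ) (hk : 0 < k) : Real.log (C * k * k) ≤ |C| + 2 * Real.log k := by
  have hk' : (0 : ℝ) < k := by exact_mod_cast hk
  have h1 : 0 ≤ Real.log k := Real.log_natCast_nonneg k
  rcases eq_or_ne C 0 with rfl | hC
  · simp only [zero_mul, Real.log_zero, abs_zero]; linarith
  · rw [Real.log_mul (mul_ne_zero hC hk'.ne') hk'.ne', Real.log_mul hC hk'.ne']
    have : Real.log C ≤ |C| := by
      rw [← Real.log_abs]; exact Real.log_le_self (abs_nonneg C)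
    linarith

lemma nums_ev (l M C : ℝ) (hl : 0 < l) (hM : 0 < M) (m : ℕ) : ∃ k₀ : ℕ, ∀ k ≥ k₀, 0 < k ∧
    m * m ≤ k ∧ 10 ^ 6 * (l * m + 1) ≤ l * k ∧ M * Real.log (C * k * k) ≤ l * k / 200 := by
  have t : Filter.Tendsto (fun k : ℕ => (k : ℝ)) Filter.atTop Filter.atTop :=
    tendsto_natCast_atTop_atTop
  have e1 := t.eventually (Real.isLittleO_log_id_atTop.bound (c := l / (800 * M)) (by positivity))
  have e2 := t.eventually_ge_atTop (10 ^ 6 * (l * m + 1) / l)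
  have e3 := t.eventually_ge_atTop (400 * M * |C| / l)
  obtain ⟨k₀, h⟩ := Filter.eventually_atTop.1
    (e1.and (e2.and (e3.and ((Filter.eventually_ge_atTop (m * m)).and
      (Filter.eventually_gt_atTop 0)))))
  refine ⟨k₀, fun k hk => ?_⟩
  obtain ⟨a, b, c, d, e⟩ := h k hk
  rw [div_le_iff₀ hl] at b c
  refine ⟨e, d, by linarith, ?_⟩
  have a' : Real.log k ≤ l / (800 * M) * k := by
    simp only [id, Real.norm_eq_abs, Nat.abs_cast] at a
    exact (le_abs_self _).trans a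
  have a2 : M * Real.log k ≤ l * k / 800 := by
    calc M * Real.log k ≤ M * (l / (800 * M) * k) := mul_le_mul_of_nonneg_left a' hM.le
      _ = l * k / 800 := by field_simp
  have := mul_le_mul_of_nonneg_left (nums_log C k e) hM.le
  nlinarith

theorem p_NUMS :
    S_NUMS := by
  intro β hβ hβ1
  obtain ⟨l, hl⟩ : ∃ l : ℝ, l = β ^ 2 / 10 ^ 7 := ⟨_, rfl⟩
  have l0 : 0 < l := by rw [hl]; positivity
  have lβ : l ≤ β / 10 ^ 7 := by rw [hl]; nlinarith
  have l1 : l ≤ 1 / 10 ^ 7 := by linarith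
  refine ⟨⌈100 / l⌉₊, fun m hm => ⟨l ^ 2 / (10 ^ 5 * (m + 1)), by positivity, ?_⟩⟩
  intro δ d0 d1 C
  have hm' : 100 ≤ l * m := by
    have := (Nat.le_ceil (100 / l)).trans (Nat.cast_le.2 hm : (⌈100 / l⌉₊ : ℝ) ≤ m)
    rw [div_le_iff₀ l0] at this; linarith
  have m0 : (0 : ℝ) < m := by
    by_contra h
    have : l * m ≤ 0 := mul_nonpos_of_nonneg_of_nonpos l0.le (not_lt.1 h)
    linarith
  have m0' : 0 < m := by exact_mod_cast m0
  have dm : δ * (m + 1) ≤ l ^ 2 / 10 ^ 5 := by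
    rw [le_div_iff₀ (by positivity)] at d1
    rw [le_div_iff₀ (by positivity)]; linarith
  have dm1 : δ * (m + 1) ≤ l / 10 ^ 5 := by nlinarith
  have dm2 : δ * m ≤ 1 / 10 ^ 5 := by nlinarith
  obtain ⟨k₀, hk₀⟩ := nums_ev l (m + 1) C l0 (by positivity) m
  refine ⟨k₀, fun k hk => ?_⟩
  obtain ⟨k0, hmm, hK, hlog⟩ := hk₀ k hk
  have k0' : (0 : ℝ) < k := by exact_mod_cast k0
  have z : β ^ 2 / 10 ^ 13 = l / 10 ^ 6 := by rw [hl]; ring
  rw [← hl, z]
  obtain ⟨r, hr⟩ : ∃ r : ℕ, r = ⌈l * k⌉₊ := ⟨_, rfl⟩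
  have r1 : l * k ≤ r := hr ▸ Nat.le_ceil _
  have r2 : (r : ℝ) ≤ l * k + 1 := hr ▸ (Nat.ceil_lt_add_one (by positivity)).le
  rw [← hr]
  obtain ⟨b, hb⟩ : ∃ b : ℕ, b = ⌈99 / 100 * l * m⌉₊ := ⟨_, rfl⟩
  have b1 : 99 / 100 * l * m ≤ b := hb ▸ Nat.le_ceil _
  have b2 : (b : ℝ) ≤ 99 / 100 * l * m + 1 := hb ▸ (Nat.ceil_lt_add_one (by positivity)).le
  have b3 : (b : ℝ) ≤ l * m := by linarith
  obtain ⟨κ, hκ⟩ : ∃ κ : ℕ, κ = ⌊β * m / 2⌋₊ := ⟨_, rfl⟩
  have c1 : (κ : ℝ) ≤ β * m / 2 := hκ ▸ Nat.floor_le (by positivity)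
  have c2 : β * m / 2 < κ + 1 := hκ ▸ Nat.lt_floor_add_one _
  have βm : 10 ^ 7 * (l * m) ≤ β * m := by
    linarith only [mul_le_mul_of_nonneg_right lβ m0.le]
  have c3 : β * m / 4 ≤ κ := by linarith
  have c0 : (0 : ℝ) < β * κ := mul_pos hβ (by linarith only [c3, βm, hm'])
  obtain ⟨G, hG⟩ : ∃ G : ℕ, G = ⌈8 * (r : ℝ) / (β * κ)⌉₊ := ⟨_, rfl⟩
  have g1 : 8 * (r : ℝ) / (β * κ) ≤ G := hG ▸ Nat.le_ceil _
  have g2 : (G : ℝ) ≤ 8 * (r : ℝ) / (β * κ) + 1 :=
    hG ▸ (Nat.ceil_lt_add_one (by positivity)).le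
  have r0 : (0 : ℝ) ≤ r := Nat.cast_nonneg r
  have g3 : l * m * G ≤ 32 / 10 ^ 7 * r + l * m := by
    have h1 : l * m * (8 * (r : ℝ) / (β * κ)) ≤ 32 / 10 ^ 7 * r := by
      rw [← mul_div_assoc, div_le_iff₀ c0]
      have h2 : 10 ^ 7 * (l * m) ≤ 4 * (β * κ) := by
        have : 10 ^ 7 * (l * m) = 4 * (β * (β * m / 4)) := by rw [hl]; ring
        have h3 := mul_le_mul_of_nonneg_left c3 hβ.le
        linarith only [this, h3]
      have h4 := mul_le_mul_of_nonneg_right h2 r0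
      linarith only [h4]
    have h5 := mul_le_mul_of_nonneg_left g2 (mul_pos l0 m0).le
    rw [mul_add, mul_one] at h5
    linarith only [h1, h5]
  have T1 : (m : ℝ) * (k / m : ℕ) ≤ k := by exact_mod_cast Nat.mul_div_le k m
  have T2 : (k : ℝ) ≤ m * (k / m : ℕ) + m := by
    have h1 := Nat.div_add_mod k m
    have h2 := Nat.mod_lt k m0'
    exact_mod_cast (by omega : k ≤ m * (k / m) + m)
  have T0 : (0 : ℝ) ≤ (k / m : ℕ) := Nat.cast_nonneg _
  have bδ : (b : ℝ) * (δ * k) ≤ l * k / 10 ^ 5 := by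
    calc (b : ℝ) * (δ * k) ≤ l * m * (δ * k) := mul_le_mul_of_nonneg_right b3 (by positivity)
      _ = δ * m * (l * k) := by ring
      _ ≤ 1 / 10 ^ 5 * (l * k) := mul_le_mul_of_nonneg_right dm2 (by positivity)
      _ = _ := by ring
  refine ⟨b, κ, G, ⟨m0', hmm, ?_, d0, by positivity, by linarith, by positivity, ?_, ?_, by linarith,
    ?_, ?_, ?_, ?_, by linarith⟩, b2, c1, ?_, ?_, ?_⟩
  · exact_mod_cast (by linarith : (10000 : ℝ) ≤ r)
  · calc (b : ℝ) * (k / m : ℕ) ≤ l * m * (k / m : ℕ) := mul_le_mul_of_nonneg_right b3 T0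
      _ = l * (m * (k / m : ℕ)) := by ring
      _ ≤ l * k := mul_le_mul_of_nonneg_left T1 l0.le
      _ ≤ r := r1
  · have h1 := mul_le_mul_of_nonneg_right b1 T0
    have h2 := mul_le_mul_of_nonneg_left T2 l0.le
    linarith only [h1, h2, bδ, r2, hK, hm']
  · have h1 : (b : ℝ) * G ≤ l * m * G := mul_le_mul_of_nonneg_right b3 (Nat.cast_nonneg _)
    linarith only [h1, g3, bδ, r1, hK, hm']
  · have h1 := mul_le_mul_of_nonneg_right dm1 k0'.le
    linarith only [h1, r1, r0]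
  · have h1 := mul_le_mul_of_nonneg_right dm (sq_nonneg (k : ℝ))
    have h2 : (l * k) ^ 2 ≤ (r : ℝ) ^ 2 := pow_le_pow_left₀ (by positivity) r1 2
    linarith only [h1, h2]
  · linarith only [g3, r1, hK, hm']
  · exact_mod_cast (by linarith : (b : ℝ) ≤ κ)
  · have h1 := mul_le_mul_of_nonneg_right lβ k0'.le
    linarith only [h1, r2, hK, hm']
  · rw [div_le_iff₀ c0] at g1; linarith

end

section


open Finset

lemma ta_up {p z l m T k c n q : ℝ} (hl : 0 < l) (hm : 400 ≤ l * m) (hT : m ≤ T) (hm1 : 1 ≤ m)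
    (hk : k ≤ m * T + m) (hk0 : 0 ≤ k) (hz0 : 0 ≤ z) (hz : z ≤ l / 1200) (hp : l ≤ p) (hp1 : p ≤ 1)
    (hc : c + p * k ≤ k) (hn : n ≤ c / 2 + z * k) (hq : (1 - p + l / 100) * m - 1 ≤ q) :
    n ≤ (q - l / 400 * m) * T / 2 := by
  have h0 : 0 ≤ T := by linarith
  have h1 : (1 - p + 2 * z) * k ≤ (1 - p + 2 * z) * (m * T + m) :=
    mul_le_mul_of_nonneg_left hk (by linarith)
  have h2 : (1 - p + 2 * z) * m ≤ m := by nlinarith
  have h3 : 400 * T ≤ l * m * T := mul_le_mul_of_nonneg_right hm h0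
  have h4 : z * (m * T) ≤ l / 1200 * (m * T) := mul_le_mul_of_nonneg_right hz (by positivity)
  have h5 : ((1 - p + l / 100) * m - 1) * T ≤ q * T := mul_le_mul_of_nonneg_right hq h0
  nlinarith

lemma ta_lo {z l d m T k c n r u : ℝ} (hl : 0 < l) (hl2 : l ≤ 1 / 2) (hm : 400 ≤ l * m)
    (hT : m ≤ T) (hm1 : 1 ≤ m) (hk : m * T ≤ k) (hz : z ≤ l / 1200) (hd0 : 0 ≤ d)
    (hd : (m + 1) * d ≤ l / 16) (hr : r ≤ l * k + 1) (hu : u ≤ d * k) (hc : c + r + u = k)
    (hn : c / 2 - z * k - (m + 1) * (d * k) ≤ n) : (1 - 3 * l / 2) * m * T / 2 ≤ n := by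
  have h0 : 1 ≤ T := by linarith
  have hk0 : 0 ≤ k := le_trans (by positivity) hk
  have h1 : z * k ≤ l / 1200 * k := mul_le_mul_of_nonneg_right hz hk0
  have h2 : (m + 1) * d * k ≤ l / 16 * k := mul_le_mul_of_nonneg_right hd hk0
  have h3 : d * k ≤ (m + 1) * d * k := by nlinarith [mul_nonneg hd0 hk0]
  have h4 : (1 - 5 * l / 4) * (m * T) ≤ (1 - 5 * l / 4) * k :=
    mul_le_mul_of_nonneg_left hk (by linarith)
  have h5 : l * m * 1 ≤ l * m * T := mul_le_mul_of_nonneg_left h0 (by linarith)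
  have h6 : 0 ≤ l * k := by positivity
  nlinarith

variable {V Λ : Type} [DecidableEq V] [DecidableEq Λ]

lemma ta_ld0 {M : Finset V} {a b : V → Λ} {f : V → ℕ} {x : Λ} {j : ℕ}
    (h : ∀ v ∈ M, (a v = x ∨ b v = x) → f v ≠ j) : ld M a b f x j = 0 := by
  rw [ld, card_eq_zero, eq_empty_iff_forall_notMem]
  intro v hv
  obtain ⟨h1, h2, h3⟩ := mem_fl.1 hv
  exact h v h1 h2 h3

lemma ta_Y {I : Inst V Λ} {k : ℕ} {δ C : ℝ} (G : I.Good k δ C) (hd : 0 ≤ δ) (R : Finset V)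
    (x : Λ) : ((fl (I.mn R) fun v => ∃ u ∈ I.pts x, I.H u v).card : ℝ) ≤ δ * k ^ 2 := by
  have h1 : (fl (I.mn R) fun v => ∃ u ∈ I.pts x, I.H u v) ⊆
      (I.pts x).biUnion fun u => fl I.P (I.H u) := by
    intro v hv
    obtain ⟨h1, u, hu, h2⟩ := mem_fl.1 hv
    exact mem_biUnion.2 ⟨u, hu, mem_fl.2 ⟨(Inst.mem_mn.1 h1).1.1, h2⟩⟩
  have h2 := (card_le_card h1).trans card_biUnion_le
  have h3 : ∑ u ∈ I.pts x, ((fl I.P (I.H u)).card : ℝ) ≤ (I.pts x).card • (δ * k) :=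
    sum_le_card_nsmul _ _ _ fun u hu => G.hdeg u (Inst.mem_pts.1 hu).1
  have h4 : ((I.pts x).card : ℝ) ≤ k := by exact_mod_cast le_of_add_le_left (G.size x)
  rw [nsmul_eq_mul] at h3
  calc _ ≤ ∑ u ∈ I.pts x, ((fl I.P (I.H u)).card : ℝ) := by exact_mod_cast h2
    _ ≤ k * (δ * k) := h3.trans (mul_le_mul_of_nonneg_right h4 (by positivity))
    _ = _ := by ring

theorem p_TA (hSIDE : S_SIDE) (hMAIN : S_MAIN) (hTA1 : S_TA1) :
    S_TA := by
  intro β l ζ hl hl2 hlβ hβ hζ hζ1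
  obtain ⟨m₀, hm₀⟩ := hMAIN (l / 400) ζ (by positivity) (by linarith) hζ hζ1
  refine ⟨max m₀ ⌈400 / l⌉₊, fun m hm => ?_⟩
  obtain ⟨d, hd, hM⟩ := hm₀ m (le_of_max_le_left hm)
  have hlm : 400 ≤ l * m := by
    have : 400 / l ≤ m := Nat.ceil_le.1 (le_of_max_le_right hm)
    rwa [div_le_iff₀' hl] at this
  have hm1 : (1 : ℝ) ≤ m := by nlinarith
  have hm0 : 0 < m := by exact_mod_cast (by linarith : (0 : ℝ) < m)
  obtain ⟨z, hz0, hzd, hzl, hzζ⟩ : ∃ z : ℝ, 0 < z ∧ z ≤ d / 2 ∧ z ≤ l / 1200 ∧ z ≤ ζ :=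
    ⟨min (d / 2) (min (l / 1200) ζ), by positivity, min_le_left _ _,
      (min_le_right _ _).trans (min_le_left _ _), (min_le_right _ _).trans (min_le_right _ _)⟩
  obtain ⟨δ, hδ, hδd, hδl⟩ : ∃ δ : ℝ, 0 < δ ∧ 12 * m * δ ≤ d ∧ (m + 1) * δ ≤ l / 16 := by
    refine ⟨min (d / (12 * m)) (l / 16 / (m + 1)), by positivity, ?_, ?_⟩
    · rw [← le_div_iff₀' (by positivity)]
      exact min_le_left _ _
    · rw [← le_div_iff₀' (by positivity)]
      exact min_le_right _ _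
  have hδd' : δ ≤ d := by nlinarith
  refine ⟨δ, hδ, fun C => ?_⟩
  obtain ⟨k₁, hk₁⟩ := hM C
  obtain ⟨k₂, hk₂⟩ := hSIDE z C hz0 m hm0
  refine ⟨max (max k₁ k₂) (m * m), fun k hk V Λ _ _ I r b₀ κ G₀ A F R t o gp hr1 hr2 hb hκ hbκ
    G S hF Rs => ?_⟩
  have hmm : m * m ≤ k := le_of_max_le_right hk
  have hT : (m : ℝ) ≤ (k / m : ℕ) := by exact_mod_cast (Nat.le_div_iff_mul_le hm0).2 hmm
  have hk1 : (m : ℝ) * (k / m : ℕ) ≤ k := by exact_mod_cast Nat.mul_div_le k m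
  have hk2 : (k : ℝ) ≤ m * (k / m : ℕ) + m := by
    have := Nat.div_add_mod k m
    have := Nat.mod_lt k hm0
    exact_mod_cast (by omega : k ≤ m * (k / m) + m)
  have hk0 : (0 : ℝ) ≤ k := Nat.cast_nonneg k
  have hκm : κ ≤ m := by exact_mod_cast (by nlinarith : (κ : ℝ) ≤ m)
  have hP : ∀ v ∈ I.mn R, v ∈ I.P := fun v hv => (Inst.mem_mn.1 hv).1.1
  have hpts : ∀ x, (I.pts x).card ≤ k := fun x => le_of_add_le_left (G.size x)
  have hMx : ∀ x, (fl (I.mn R) fun v => I.On v x).card ≤ k := fun x =>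
    (card_le_card (fl_mono fun v hv h => ⟨hP v hv, h⟩)).trans (hpts x)
  have hto : ∀ v ∈ R, I.On v (t v) ∧ I.On v (o v) := fun v hv => by
    rcases (Rs.ends v hv).2.2 with h | h
    exacts [⟨Or.inl h.1, Or.inr h.2⟩, ⟨Or.inr h.2, Or.inl h.1⟩]
  have hL : ∀ v ∈ I.P, ∀ x, I.On v x → x ∈ I.L := fun v hv x h => by
    rcases h with h | h
    exacts [h ▸ (G.mem v hv).1, h ▸ (G.mem v hv).2]
  obtain ⟨s, hs1, hs2⟩ := hk₂ k ((le_max_right _ _).trans (le_of_max_le_left hk)) Λ I.L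
    (fun x => (fl (I.mn R) fun v => I.On v x).image (I.oth x))
    (fun x => (fl R fun v => t v = x).image o) G.cardL fun x hx => by
      refine ⟨fun y hy => ?_, fun y hy => ?_, card_image_le.trans (hMx x),
        card_image_le.trans ((card_le_card (fl_mono fun v hv h => ⟨Rs.sub hv, ?_⟩)).trans (hpts x))⟩
      · obtain ⟨v, hv, rfl⟩ := mem_image.1 hy
        have := G.mem v (hP v (mem_fl.1 hv).1)
        rw [Inst.oth]
        split_ifs
        exacts [this.2, this.1]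
      · obtain ⟨v, hv, rfl⟩ := mem_image.1 hy
        exact hL v (Rs.sub (mem_fl.1 hv).1) _ (hto v (mem_fl.1 hv).1).2
      · exact h ▸ (hto v hv).1
  obtain ⟨t1, t2, t3, t4, t5, t6⟩ := hTA1 V Λ I k m r κ G₀ β δ C z A F R t o gp s hm0 hmm hz0.le
    G S Rs hs1 fun x hx j hj b => (hs2 x hx j hj b).1
  obtain ⟨f, f1, f2, f3, f4, f5⟩ := hk₁ k ((le_max_left _ _).trans (le_of_max_le_left hk)) V Λ
    (I.mn R) I.L A I.a I.b I.H (I.dd (k / m) s) (fun x => if x ∈ F then m - κ else m - b₀)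
    (fun x => fl (I.mn R) fun v => ∃ u ∈ I.pts x, I.H u v) (fun x j => uc (I.U x) (k / m) j = 0)
    ((1 - 3 * l / 2) * m) G.cardL S.AL S.cardA
    (fun v hv => ⟨(G.mem v (hP v hv)).1, (G.mem v (hP v hv)).2, (Inst.mem_mn.1 hv).2⟩)
    (fun u hu v hv => G.simple u (hP u hu) v (hP v hv)) hMx G.symm
    (fun v hv => le_trans (by exact_mod_cast card_le_card (fl_mono fun u hu h => ⟨hP u hu, h⟩))
      ((G.hdeg v (hP v hv)).trans (mul_le_mul_of_nonneg_right hδd' hk0)))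
    (fun v hv x u hu u' hu' h h' => G.hone v (hP v hv) x u (Inst.mem_pts.2 ⟨hP u hu, h⟩) u'
      (Inst.mem_pts.2 ⟨hP u' hu', h'⟩))
    (fun x hx => ⟨(ta_Y G hδ.le R x).trans (mul_le_mul_of_nonneg_right hδd' (by positivity)),
      fun u hu v hv h h' => mem_fl.2 ⟨hv, u, Inst.mem_pts.2 ⟨hP u hu, h⟩, h'⟩⟩)
    (fun v hv => by
      obtain ⟨h1, h2⟩ := t1 v hv
      have h0 : (1 : ℝ) ≤ (k / m : ℕ) := hm1.trans hT
      have h3 : (k : ℝ) ≤ 2 * (m * (k / m : ℕ)) := by nlinarith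
      have h4 := mul_le_mul_of_nonneg_left h3 hδ.le
      have h5 := mul_le_mul_of_nonneg_right hδd (zero_le_one.trans h0)
      have h6 := mul_le_mul_of_nonneg_right hzd (zero_le_one.trans h0)
      have h7 := mul_nonneg hd.le (zero_le_one.trans h0)
      exact ⟨fl_subset _ _, by nlinarith, by nlinarith⟩)
    (fun x hx => by
      by_cases h : x ∈ F
      · simp only [h, if_true]
        refine ⟨Nat.sub_le _ _, fun j => ta_up hl hlm hT hm1 hk2 hk0 hz0.le hzl hlβ hβ (t5 x h)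
          (t2 x hx j) ?_⟩
        rw [Nat.cast_sub hκm]
        nlinarith
      · simp only [h, if_false]
        refine ⟨Nat.sub_le _ _, fun j => ta_up hl hlm hT hm1 hk2 hk0 hz0.le hzl le_rfl
          (by linarith) ?_ (t2 x hx j) ?_⟩
        · have : (((fl (I.mn R) fun v => I.On v x).card + r : ℕ) : ℝ) ≤ k := by
            exact_mod_cast t4 x hx
          push_cast at this
          linarith
        · rw [Nat.cast_sub (hbκ.trans hκm)]
          linarith)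
    (fun x hx j hj h => ta_lo hl hl2 hlm hT hm1 hk1 hzl hδ.le hδl hr2 (G.Ule x)
      (by exact_mod_cast t6 x hx) (t3 x (S.AL hx) j hj h))
  have hfit := fun v hv => (mem_fl.1 (f1 v hv)).2
  have hout : ∀ x ∉ I.L, ∀ j, ld (I.mn R) I.a I.b f x j = 0 := fun x hx j =>
    ta_ld0 fun v hv h _ => hx (hL v (hP v hv) x h)
  have hload : ∀ x j, ld (I.mn R) I.a I.b f x j + b₀ ≤ m := fun x j => by
    by_cases hx : x ∈ I.L
    · have := f3 x hx j
      split_ifs at this <;> omega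
    · rw [hout x hx]
      omega
  have hζk : z * k ≤ ζ * k := mul_le_mul_of_nonneg_right hzζ hk0
  refine ⟨s, f, ⟨fun v hv => mem_range.1 (mem_fl.1 (f1 v hv)).1, fun v hv _ => (hfit v hv).1,
    fun v hv => (hfit v hv).2, fun x j hj => ?_, fun u hu v hv h => f2 u hu v hv ?_ h⟩,
    fun x hx y hy hxy => ?_, fun x hx j hj => ?_, hload, fun y hy j => ?_, fun x j => ?_,
    fun j hj => le_trans ?_ (f5 j hj)⟩
  · by_cases h : uc (I.U x) (k / m) j = 0
    · have := (cap_bounds hm0 hmm hj).1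
      have := hload x j
      omega
    · rw [ta_ld0, zero_add]
      · exact uc_le_cap (G.Ult x) _ _
      · rintro v hv (rfl | rfl) rfl
        exacts [h (hfit v hv).1.2.1, h (hfit v hv).1.2.2]
  · rintro rfl
    have := Inst.mem_pts.2 ⟨hP u hu, (Or.inl rfl : I.On u (I.a u))⟩
    exact G.hzero _ u this u this h
  · have := (abs_le.1 (hs1 x hx y hy hxy)).2
    have := mul_le_mul_of_nonneg_right hzζ (Nat.cast_nonneg (k / m) : (0 : ℝ) ≤ _)
    linarith
  · have inj : Set.InjOn o (fl R fun v => t v = x) := fun u hu v hv e => by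
      obtain ⟨hu, eu⟩ := mem_fl.1 (mem_coe.1 hu)
      obtain ⟨hv, ev⟩ := mem_fl.1 (mem_coe.1 hv)
      exact G.simple u (Rs.sub hu) v (Rs.sub hv) x (o u)
        (fun h => disjoint_left.1 S.disj hx (h ▸ (Rs.ends u hu).2.1)) (eu ▸ (hto u hu).1)
        (hto u hu).2 (ev ▸ (hto v hv).1) (e ▸ (hto v hv).2)
    have h1 := (abs_le.1 (hs2 x (S.AL hx) j hj (s x j)).2).2
    rw [card_image_of_injOn inj] at h1
    have h2 : (fl R fun v => t v = x ∧ s (o v) j = s x j).card ≤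
        (fl ((fl R fun v => t v = x).image o) fun y => s y j = s x j).card :=
      card_le_card_of_injOn o (fun v hv => by
        obtain ⟨h1, h2, h3⟩ := mem_fl.1 (mem_coe.1 hv)
        exact mem_coe.2 (mem_fl.2 ⟨mem_image_of_mem o (mem_fl.2 ⟨h1, h2⟩), h3⟩))
        (inj.mono (coe_subset.2 (fl_mono fun v hv h => ⟨hv, h.1⟩)))
    have h3 : ((fl R fun v => t v = x ∧ s (o v) j = s x j).card : ℝ) ≤ _ := Nat.cast_le.2 h2
    linarith
  · by_cases hx : y ∈ I.L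
    · have := f3 y hx j
      rw [if_pos hy] at this
      omega
    · rw [hout y hx]
      omega
  · by_cases hx : x ∈ I.L
    · refine le_trans (Nat.cast_le.2 (card_le_card (fl_mono fun v hv h => ?_))) (f4 x hx j)
      exact ⟨hv, mem_fl.2 ⟨hv, h.1⟩, h.2⟩
    · have : I.nh (I.mn R) f x j = 0 := by
        rw [Inst.nh, card_eq_zero, eq_empty_iff_forall_notMem]
        intro v hv
        obtain ⟨_, ⟨u, hu, _⟩, _⟩ := mem_fl.1 hv
        exact hx (hL u (Inst.mem_pts.1 hu).1 x (Inst.mem_pts.1 hu).2)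
      rw [this, Nat.cast_zero]
      positivity
  · refine mul_le_mul_of_nonneg_left (Nat.cast_le.2 (card_le_card (fl_mono fun x hx h => ?_)))
      (by positivity)
    have h0 : 0 < I.mu k (k / m) (I.mn R) f x j := by
      exact_mod_cast (by nlinarith : (0 : ℝ) < I.mu k (k / m) (I.mn R) f x j)
    have h1 : uc (I.U x) (k / m) j = 0 := by
      by_contra h1
      obtain ⟨c, hc⟩ := card_pos.1 (Nat.pos_of_ne_zero h1)
      obtain ⟨hc, e⟩ := mem_fl.1 hc
      have : cap k (k / m) j ≤ uc (I.U x) (k / m) j := card_le_card (fl_mono fun c' h' e' =>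
        ⟨hF x hx c hc c' (mem_range.1 h') (e'.trans e.symm), e'⟩)
      rw [Inst.mu] at h0
      omega
    have h2 : I.mu k (k / m) (I.mn R) f x j + ld (I.mn R) I.a I.b f x j ≤ m + 1 := by
      have := (cap_bounds hm0 hmm hj).2
      rw [Inst.mu] at h0 ⊢
      omega
    have h3 : (I.mu k (k / m) (I.mn R) f x j : ℝ) + ld (I.mn R) I.a I.b f x j ≤ m + 1 := by
      exact_mod_cast h2
    exact ⟨hx, h1, by nlinarith⟩

end

end Pool.Agent.P.MP_1fec7a_co.S
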