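import Pool.Agent.P.MP_1fec7a_co.S.Iface

/-! Counts for the first two stages. -/

set_option autoImplicit false
set_option linter.unusedSectionVars false
set_option linter.unusedVariables false

namespace Pool.Agent.P.MP_1fec7a_co.S

section


open Finset

variable {V Λ : Type} [DecidableEq V] [DecidableEq Λ] {I : Inst V Λ}

lemma ta1_oth {x : Λ} {v : V} (h : I.On v x) (e : I.a v ≠ I.b v) :
    I.oth x v ≠ x ∧ (I.a v = x ∧ I.b v = I.oth x v ∨ I.b v = x ∧ I.a v = I.oth x v) := by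
  unfold Inst.oth
  split_ifs with a
  · exact ⟨fun b => e (a.trans b.symm), Or.inl ⟨a, rfl⟩⟩
  · exact ⟨a, Or.inr ⟨h.resolve_left a, rfl⟩⟩

lemma ta1_side {k : ℕ} {δ C : ℝ} (hG : I.Good k δ C) (R : Finset V) (x : Λ) (p : Λ → Prop) :
    (fl ((fl (I.mn R) fun v => I.On v x).image (I.oth x)) p).card =
      (fl (I.mn R) fun v => I.On v x ∧ p (I.oth x v)).card := by
  refine (card_bij (fun v _ => I.oth x v) (fun v hv => ?_) (fun u hu v hv e => ?_)
    fun y hy => ?_).symm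
  · obtain ⟨a, b, c⟩ := mem_fl.1 hv
    exact mem_fl.2 ⟨mem_image_of_mem _ (mem_fl.2 ⟨a, b⟩), c⟩
  · obtain ⟨a, b, -⟩ := mem_fl.1 hu
    obtain ⟨a', b', -⟩ := mem_fl.1 hv
    obtain ⟨c, d⟩ := ta1_oth b (Inst.mem_mn.1 a).2
    obtain ⟨-, d'⟩ := ta1_oth b' (Inst.mem_mn.1 a').2
    refine hG.simple u (Inst.mem_mn.1 a).1.1 v (Inst.mem_mn.1 a').1.1 x _ c.symm b
      (d.elim (fun q => Or.inr q.2) fun q => Or.inl q.2) b' ?_
    rw [e]
    exact d'.elim (fun q => Or.inr q.2) fun q => Or.inl q.2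
  · obtain ⟨a, b⟩ := mem_fl.1 hy
    obtain ⟨v, c, rfl⟩ := mem_image.1 a
    exact ⟨v, mem_fl.2 ⟨(mem_fl.1 c).1, (mem_fl.1 c).2, b⟩, rfl⟩

lemma ta1_ne {s : Λ → ℕ → Bool} {x : Λ} {v : V} {j : ℕ} (h : I.On v x) (e : I.a v ≠ I.b v) :
    s (I.a v) j ≠ s (I.b v) j ↔ s (I.oth x v) j = !s x j := by
  obtain ⟨-, ⟨a, b⟩ | ⟨a, b⟩⟩ := ta1_oth h e <;> rw [← b, a] <;>
    cases s x j <;> simp

theorem p_TA1 :
    S_TA1 := by
  intro V Λ _ _ I k m r κ G₀ β δ C ζ A F R t o gp s hm hk hζ hG hS hR h1 h2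
  have k0 : (0 : ℝ) ≤ k := Nat.cast_nonneg k
  have all : ∀ x, ((fl (I.mn R) fun v => I.On v x).image (I.oth x)).card =
      (fl (I.mn R) fun v => I.On v x).card := fun x => by
    have := ta1_side hG R x fun _ => True
    rwa [show ∀ S : Finset Λ, (fl S fun _ => True) = S from fun S => by ext; simp,
      funext fun v => and_true (I.On v x)] at this
  have sub : ∀ x, (fl (I.mn R) fun v => I.On v x) ⊆ I.edg x := fun x =>
    fl_mono fun v a b => ⟨(Inst.mem_mn.1 a).1.1, b, (Inst.mem_mn.1 a).2⟩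
  have eqA : ∀ x ∈ A, (fl (I.mn R) fun v => I.On v x).card + r + (I.U x).card = k := by
    intro x hx
    have a1 : ∀ v ∈ R, I.a v ≠ I.b v ∧ (I.On v x ↔ t v = x) := fun v hv => by
      obtain ⟨a, b, c⟩ := hR.ends v hv
      have d : t v ≠ o v := fun e => disjoint_left.1 hS.disj a (e ▸ b)
      have e : o v ≠ x := fun e => disjoint_left.1 hS.disj hx (e ▸ b)
      rcases c with ⟨c, c'⟩ | ⟨c, c'⟩ <;> simp [Inst.On, c, c', d, e, d.symm]
    have a2 : (fl (I.mn R) fun v => I.On v x) = I.edg x \ fl R fun v => t v = x := by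
      ext v
      by_cases a : v ∈ R
      · simp +contextual [a, (a1 v a).2]
      · simp [a, and_comm, and_left_comm]
    have a3 : (fl R fun v => t v = x) ⊆ I.edg x := fl_mono fun v a b =>
      ⟨hR.sub a, (a1 v a).2.2 b, (a1 v a).1⟩
    have := card_sdiff_add_card_eq_card a3
    have := hR.num x hx
    rw [a2]
    omega
  refine ⟨fun v hv => ?_, fun x hx j => ?_, fun x hx j hj hu => ?_, fun x hx => ?_,
    fun x hx => ?_, eqA⟩
  · obtain ⟨⟨v1, -⟩, v2⟩ := Inst.mem_mn.1 hv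
    obtain ⟨a1, a2⟩ := abs_le.1 (h1 _ (hG.mem v v1).1 _ (hG.mem v v1).2 v2)
    have a3 := card_filter_add_card_filter_not (s := range (k / m))
      fun j => s (I.a v) j = s (I.b v) j
    rw [card_range, ← fl_eq, ← fl_eq, ← Nat.cast_inj (R := ℝ), Nat.cast_add] at a3
    have a4 : ((I.dd (k / m) s v).card : ℝ) ≤
        (fl (range (k / m)) fun j => ¬ s (I.a v) j = s (I.b v) j).card :=
      Nat.cast_le.2 (card_le_card (fl_mono fun j a b => ⟨a, b.1.1⟩))
    refine ⟨?_, by linarith⟩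
    have a5 : (fl (range (k / m)) fun j => ¬ s (I.a v) j = s (I.b v) j) ⊆ I.dd (k / m) s v ∪
        (I.U (I.a v) ∪ I.U (I.b v) ∪ I.Fb v).image (· % (k / m)) := fun j hj => by
      rw [mem_union, or_iff_not_imp_right, mem_image]
      intro a
      refine mem_fl.2 ⟨(mem_fl.1 hj).1, ⟨(mem_fl.1 hj).2, ?_, ?_⟩, ?_⟩ <;>
        exact uc_eq_zero.2 fun c b e => a ⟨c, by simp [b], e⟩
    have a6 := Nat.cast_le (α := ℝ).2 ((card_le_card a5).trans ((card_union_le _ _).trans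
      (Nat.add_le_add_left (card_image_le.trans ((card_union_le _ _).trans
        (Nat.add_le_add_right (card_union_le _ _) _))) _)))
    push_cast at a6
    linarith [hG.Ule (I.a v), hG.Ule (I.b v), hG.Fle v v1]
  · by_cases hj : j < k / m
    · have a1 := (abs_le.1 (h2 x hx j hj (!s x j))).2
      rw [ta1_side hG, all] at a1
      have a2 : ((fl (I.mn R) fun v => I.On v x ∧ j ∈ I.dd (k / m) s v).card : ℝ) ≤
          (fl (I.mn R) fun v => I.On v x ∧ s (I.oth x v) j = !s x j).card :=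
        Nat.cast_le.2 (card_le_card (fl_mono fun v a b =>
          ⟨a, b.1, (ta1_ne b.1 (Inst.mem_mn.1 a).2).1 (mem_fl.1 b.2).2.1.1⟩))
      linarith
    · rw [show (fl (I.mn R) fun v => I.On v x ∧ j ∈ I.dd (k / m) s v) = ∅ from
        eq_empty_of_forall_notMem fun v a => hj (mem_range.1 (mem_fl.1 (mem_fl.1 a).2.2).1),
        card_empty, Nat.cast_zero]
      positivity
  · have a1 := (abs_le.1 (h2 x hx j hj (!s x j))).1
    rw [ta1_side hG, all] at a1
    have a2 : (fl (I.mn R) fun v => I.On v x ∧ s (I.oth x v) j = !s x j) ⊆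
        (fl (I.mn R) fun v => I.On v x ∧ j ∈ I.dd (k / m) s v) ∪
        (fl (range k) fun c => c % (k / m) = j).biUnion fun c => fl (I.pts x) fun v =>
          c ∈ I.Fb v ∨ ∃ y, y ≠ x ∧ I.On v y ∧ c ∈ I.U y := fun v hv => by
      obtain ⟨b1, b2, b3⟩ := mem_fl.1 hv
      obtain ⟨⟨v1, -⟩, v2⟩ := Inst.mem_mn.1 b1
      rw [mem_union, or_iff_not_imp_right, mem_biUnion]
      intro a
      have key : ∀ y, I.On v y → uc (I.U y) (k / m) j = 0 := fun y hy => by
        by_cases e : y = x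
        · exact e ▸ hu
        · exact uc_eq_zero.2 fun c b d => a ⟨c, mem_fl.2 ⟨mem_range.2 (hG.Ult y c b), d⟩,
            mem_fl.2 ⟨Inst.mem_pts.2 ⟨v1, b2⟩, Or.inr ⟨y, e, hy, b⟩⟩⟩
      exact mem_fl.2 ⟨b1, b2, mem_fl.2 ⟨mem_range.2 hj, ⟨(ta1_ne b2 v2).2 b3, key _ (Or.inl rfl),
        key _ (Or.inr rfl)⟩, uc_eq_zero.2 fun c b d => a ⟨c,
          mem_fl.2 ⟨mem_range.2 (hG.Flt v v1 c b), d⟩,
          mem_fl.2 ⟨Inst.mem_pts.2 ⟨v1, b2⟩, Or.inl b⟩⟩⟩⟩
    have a3 := Nat.cast_le (α := ℝ).2 ((card_le_card a2).trans ((card_union_le _ _).trans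
      (Nat.add_le_add_left card_biUnion_le _)))
    rw [Nat.cast_add, Nat.cast_sum] at a3
    have a4 := sum_le_card_nsmul (fl (range k) fun c => c % (k / m) = j) _ _
      fun c _ => hG.spread x c
    have a5 : (cap k (k / m) j : ℝ) ≤ m + 1 := by exact_mod_cast (cap_bounds hm hk hj).2
    have a6 := mul_le_mul_of_nonneg_right a5 ((Nat.cast_nonneg _).trans (hG.Ule x))
    rw [nsmul_eq_mul] at a4
    unfold cap at a6
    linarith
  · by_cases a : x ∈ A
    · have := eqA x a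
      omega
    · have := hS.loose x hx a
      have := card_le_card (sub x)
      omega
  · have a := hS.flex x hx
    have b := Nat.cast_le (α := ℝ).2 (card_le_card (sub x))
    linarith [(Nat.cast_nonneg (I.U x).card : (0 : ℝ) ≤ _)]

end

section


open Finset

lemma tb1_types (U : Finset ℕ) (T j : ℕ) (h : uc U T j ≠ 0) : j ∈ U.image (· % T) := by
  rw [Ne, uc_eq_zero] at h
  push Not at h
  exact mem_image.2 h

/-- The excess bound. -/
lemma tb1_excess {T b₀ r : ℕ} {d : ℝ} {μ : ℕ → ℕ} {B : Finset ℕ} (tot : ∑ j ∈ range T, μ j = r)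
    (hB : (B.card : ℝ) ≤ d) (hb : ∀ j < T, j ∉ B → b₀ ≤ μ j)
    (ex : 79 / 80 * (r : ℝ) + b₀ * d ≤ b₀ * T) {W : Finset ℕ} (hW : W ⊆ range T) :
    ∑ j ∈ W, (μ j : ℝ) ≤ b₀ * W.card + r / 80 := by
  have h1 : ∑ j ∈ range T \ W, μ j + ∑ j ∈ W, μ j = r := by rw [sum_sdiff hW, tot]
  have h2 : ((range T \ W) \ B).card * b₀ ≤ ∑ j ∈ range T \ W, μ j :=
    le_trans (card_nsmul_le_sum _ _ _ fun j hj => hb j
      (mem_range.1 (mem_sdiff.1 (mem_sdiff.1 hj).1).1) (mem_sdiff.1 hj).2)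
      (sum_le_sum_of_subset sdiff_subset)
  have h3 := le_card_sdiff B (range T \ W)
  have h4 := card_sdiff_add_card_eq_card hW
  rw [card_range] at h4
  have h5 : T ≤ ((range T \ W) \ B).card + B.card + W.card := by omega
  have h6 : (T : ℝ) ≤ ((range T \ W) \ B).card + B.card + W.card := by exact_mod_cast h5
  have h7 : (((range T \ W) \ B).card : ℝ) * b₀ + ∑ j ∈ W, (μ j : ℝ) ≤ r := by
    have : ((range T \ W) \ B).card * b₀ + ∑ j ∈ W, μ j ≤ r := by omega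
    exact_mod_cast this
  have h8 : (0 : ℝ) ≤ b₀ := Nat.cast_nonneg _
  nlinarith [mul_le_mul_of_nonneg_left h6 h8, mul_le_mul_of_nonneg_left hB h8]

/-- Truncating the weights at `b₀` loses little. -/
lemma tb1_trunc {T b₀ : ℕ} {e : ℝ} {μ ν : ℕ → ℕ} (hν : ∀ j, ν j ≤ μ j)
    (hE : ∀ W ⊆ range T, ∑ j ∈ W, (μ j : ℝ) ≤ b₀ * W.card + e) {D : Finset ℕ} (hD : D ⊆ range T) :
    ∑ j ∈ D, (ν j : ℝ) ≤ ∑ j ∈ D, ((min (ν j) b₀ : ℕ) : ℝ) + e := by
  have h1 := hE (D.filter fun j => b₀ < ν j) ((filter_subset _ _).trans hD)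
  have h2 : ∑ j ∈ D, (ν j : ℝ) ≤ ∑ j ∈ D, (((min (ν j) b₀ : ℕ) : ℝ) +
      if b₀ < ν j then (μ j : ℝ) - b₀ else 0) := by
    refine sum_le_sum fun j _ => ?_
    have : (ν j : ℝ) ≤ μ j := by exact_mod_cast hν j
    split_ifs with h
    · rw [min_eq_right h.le]; linarith
    · rw [min_eq_left (not_lt.1 h)]; linarith
  rw [sum_add_distrib, ← sum_filter, sum_sub_distrib, sum_const, nsmul_eq_mul] at h2
  linarith

theorem p_TB1 (hQL : S_QL) :
    S_TB1 := by
  intro V Λ _ _ I k m r b₀ κ G₀ β δ ζ w C A F R t o gp s f hN hG hS hF hR hA x hx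
  have hT : 0 < k / m := lt_of_lt_of_le hN.m0 ((Nat.le_div_iff_mul_le hN.m0).2 hN.mm)
  have hk : (0 : ℝ) ≤ δ * k := mul_nonneg hN.d0 (Nat.cast_nonneg _)
  have hb0 : (0 : ℝ) ≤ b₀ := Nat.cast_nonneg _
  have hr0 : (10000 : ℝ) ≤ r := by exact_mod_cast hN.r4
  have hG0 : (0 : ℝ) ≤ G₀ := Nat.cast_nonneg _
  have hAF : ∀ y ∈ A, ∀ z ∈ F, y ≠ z := fun y hy z hz e => disjoint_left.1 hS.disj hy (e ▸ hz)
  have hab : ∀ v ∈ R, I.a v ≠ I.b v := fun v hv => by
    obtain ⟨h1, h2, h3 | h3⟩ := hR.ends v hv <;> rw [h3.1, h3.2]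
    exacts [hAF _ h1 _ h2, (hAF _ h1 _ h2).symm]
  have hon : ∀ v ∈ R, I.On v (t v) ∧ I.On v (o v) := fun v hv => by
    obtain ⟨h1, h2, h3 | h3⟩ := hR.ends v hv
    exacts [⟨.inl h3.1, .inr h3.2⟩, ⟨.inr h3.2, .inl h3.1⟩]
  have htx : ∀ v ∈ R, I.On v x → t v = x := fun v hv h => by
    obtain ⟨h1, h2, h3 | h3⟩ := hR.ends v hv <;> rcases h with h | h
    exacts [h3.1.symm.trans h, absurd (h.symm.trans h3.2) (hAF _ hx _ h2),
      absurd (h.symm.trans h3.1) (hAF _ hx _ h2), h3.2.symm.trans h]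
  have hrow : ∀ v ∈ I.row R t x, v ∈ I.pts x := fun v hv => by
    obtain ⟨h1, h2 | h2⟩ := mem_fl.1 hv
    exacts [Inst.mem_pts.2 ⟨h1, h2.2 ▸ (hon v h2.1).1⟩, Inst.mem_pts.2 ⟨h1, .inl h2.1⟩]
  have hdis : ∀ v ∈ R, t v = x → ∀ j, I.dis R s v j ↔ s (o v) j = s x j := fun v hv e j => by
    obtain ⟨h1, h2, h3 | h3⟩ := hR.ends v hv <;> simp only [Inst.dis, hv, true_and, h3.1, h3.2, e]
    exact eq_comm
  have hsplit : (fl (I.mn R) fun v => I.a v = x ∨ I.b v = x).card +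
      (fl R fun v => t v = x).card = (I.edg x).card := by
    rw [← card_union_of_disjoint (disjoint_left.2 fun v h1 h2 =>
      (Inst.mem_mn.1 (mem_fl.1 h1).1).1.2 (mem_fl.1 h2).1)]
    congr 1
    ext v
    simp only [mem_union, mem_fl, Inst.mem_mn, Inst.mem_edg]
    constructor
    · rintro (⟨⟨⟨h1, -⟩, h2⟩, h3⟩ | ⟨h1, h2⟩)
      exacts [⟨h1, h3, h2⟩, ⟨hR.sub h1, h2 ▸ (hon v h1).1, hab v h1⟩]
    · rintro ⟨h1, h2, h3⟩
      by_cases hv : v ∈ R
      exacts [.inr ⟨hv, htx v hv h2⟩, .inl ⟨⟨⟨h1, hv⟩, h3⟩, h2⟩]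
  have hnum := hR.num x hx
  have tot : ∑ j ∈ range (k / m), I.mu k (k / m) (I.mn R) f x j = r := by
    have h1 : ∑ j ∈ range (k / m), (I.mu k (k / m) (I.mn R) f x j + uc (I.U x) (k / m) j +
        ld (I.mn R) I.a I.b f x j) = ∑ j ∈ range (k / m), cap k (k / m) j :=
      sum_congr rfl fun j hj => by
        have := hA.ty.cnt x j (mem_range.1 hj)
        unfold Inst.mu
        omega
    rw [sum_add_distrib, sum_add_distrib, sum_cap k _ hT, sum_uc _ _ hT,
      sum_ld _ _ _ _ _ _ hA.ty.lt] at h1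
    omega
  have hcard : (fl R fun v => t v = x).card +
      (fl I.P fun v => I.a v = x ∧ I.b v = x).card ≤ r := by
    have h1 : (I.edg x).card + (fl I.P fun v => I.a v = x ∧ I.b v = x).card ≤ (I.pts x).card := by
      rw [← card_union_of_disjoint (disjoint_left.2 fun v h1 h2 =>
        (Inst.mem_edg.1 h1).2.2 ((mem_fl.1 h2).2.1.trans (mem_fl.1 h2).2.2.symm))]
      refine card_le_card fun v hv => ?_
      rcases mem_union.1 hv with h | h
      exacts [Inst.mem_pts.2 ⟨(Inst.mem_edg.1 h).1, (Inst.mem_edg.1 h).2.1⟩,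
        Inst.mem_pts.2 ⟨(mem_fl.1 h).1, .inl (mem_fl.1 h).2.1⟩]
    have := hG.size x
    omega
  have hcr : (I.row R t x).card ≤ r := by
    refine le_trans (le_trans (card_le_card fun v hv => ?_) (card_union_le _ _)) hcard
    obtain ⟨h1, h2 | h2⟩ := mem_fl.1 hv
    exacts [mem_union_left _ (mem_fl.2 h2), mem_union_right _ (mem_fl.2 ⟨h1, h2⟩)]
  have hE : ∀ W ⊆ range (k / m),
      ∑ j ∈ W, (I.mu k (k / m) (I.mn R) f x j : ℝ) ≤ b₀ * W.card + r / 80 := fun W hW => by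
    refine tb1_excess (B := (I.U x).image (· % (k / m))) tot
      (le_trans (by exact_mod_cast card_image_le) (hG.Ule x)) (fun j hj h => ?_) hN.ex hW
    have h1 : uc (I.U x) (k / m) j = 0 := by
      by_contra h1
      exact h (tb1_types _ _ _ h1)
    have h2 := (cap_bounds hN.m0 hN.mm hj).1
    have h3 := hA.load x j
    unfold Inst.mu
    omega
  have hbT := hN.bT
  have hz := hN.z1
  have hbd := hN.bd
  refine ⟨⟨tot, hcr, fun v hv => ?_, fun j hj _ => ?_, fun S hS' ν hν => ?_, fun v hv => ?_,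
    fun j hj hμ => ?_⟩, fun W hW hc => ?_⟩
  · have h1 : ((fl (range (k / m)) (I.dis R s v)).card : ℝ) ≤ (1 / 2 + ζ) * (k / m : ℕ) := by
      by_cases hvR : v ∈ R
      · have := hG.mem v (hR.sub hvR)
        refine le_trans ?_ (hA.s1 _ this.1 _ this.2 (hab v hvR))
        exact_mod_cast card_le_card (fl_mono fun j hj (e : I.dis R s v j) => ⟨hj, e.2⟩)
      · have : fl (range (k / m)) (I.dis R s v) = ∅ :=
          eq_empty_of_forall_notMem fun j hj => hvR (mem_fl.1 hj).2.1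
        rw [this, card_empty, Nat.cast_zero]
        have := hN.z0
        positivity
    have h2 := hE _ (fl_subset _ (I.dis R s v))
    have h3 := mul_le_mul_of_nonneg_left h1 hb0
    have h4 : (1 / 2 + ζ) * ((b₀ : ℝ) * (k / m : ℕ)) ≤ (1 / 2 + 1 / 20000) * r :=
      mul_le_mul (by linarith) hbT (by positivity) (by norm_num)
    nlinarith
  · have h1 : (fl (I.row R t x) fun v => I.dis R s v j).card ≤
        (fl R fun v => t v = x ∧ s (o v) j = s x j).card :=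
      card_le_card (fl_mono fun v hv e => by
        have := htx v e.1 (Inst.mem_pts.1 (hrow v hv)).2
        exact ⟨e.1, this, (hdis v e.1 this j).1 e⟩)
    have h2 := hA.s2 x hx j (mem_range.1 hj)
    have h3 : ((fl R fun v => t v = x).card : ℝ) ≤ r := by exact_mod_cast (by omega)
    have h4 := hN.zk
    have h5 : ((fl (I.row R t x) fun v => I.dis R s v j).card : ℝ) ≤
        (fl R fun v => t v = x ∧ s (o v) j = s x j).card := by exact_mod_cast h1
    linarith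
  · have hS1 : ∀ v ∈ fl S (· ∈ R), v ∈ R ∧ t v = x := fun v hv =>
      ⟨(mem_fl.1 hv).2, htx v (mem_fl.1 hv).2 (Inst.mem_pts.1 (hrow v (hS' (mem_fl.1 hv).1))).2⟩
    have hc1 : ((fl S (· ∈ R)).card : ℝ) ≤ S.card := by exact_mod_cast card_fl_le _ _
    have hc2 : (S.card : ℝ) ≤ r := by exact_mod_cast (card_le_card hS').trans hcr
    have h1 := hQL V (fl S (· ∈ R)) (range (k / m)) (I.dis R s) (fun j => (min (ν j) b₀ : ℕ))
      b₀ ζ (3 / 200) r (fun j _ => ⟨Nat.cast_nonneg _, by exact_mod_cast min_le_right _ _⟩) hb0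
      hN.z0 (by norm_num) (hc1.trans hc2) (fun u hu v hv huv => ?_) (by nlinarith)
    · have h2 : ∑ v ∈ S, ∑ j ∈ fl (range (k / m)) (I.dis R s v), (ν j : ℝ) =
          ∑ v ∈ fl S (· ∈ R), ∑ j ∈ fl (range (k / m)) (I.dis R s v), (ν j : ℝ) :=
        (sum_subset (fl_subset _ _) fun v hv h => sum_eq_zero fun j hj =>
          (h (mem_fl.2 ⟨hv, (mem_fl.1 hj).2.1⟩)).elim).symm
      have h3 := sum_le_sum fun v (_ : v ∈ fl S (· ∈ R)) =>
        tb1_trunc hν hE (fl_subset (range (k / m)) (I.dis R s v))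
      rw [sum_add_distrib, sum_const, nsmul_eq_mul] at h3
      have h4 : ∑ j ∈ range (k / m), ((min (ν j) b₀ : ℕ) : ℝ) ≤ ∑ j ∈ range (k / m), (ν j : ℝ) :=
        sum_le_sum fun j _ => by exact_mod_cast min_le_left _ _
      have h5 := mul_le_mul hc1 h4 (by positivity) (by positivity)
      rw [card_range] at h1
      have h6 := mul_le_mul_of_nonneg_right hbT (by linarith : (0 : ℝ) ≤ r)
      have h7 := mul_le_mul_of_nonneg_right (hc1.trans hc2) (by linarith : (0 : ℝ) ≤ r)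
      rw [h2]
      nlinarith
    · obtain ⟨u1, u2⟩ := hS1 u hu
      obtain ⟨v1, v2⟩ := hS1 v hv
      have hL : ∀ z ∈ R, o z ∈ I.L := fun z hz => by
        rcases (hon z hz).2 with h | h <;> rw [← h]
        exacts [(hG.mem z (hR.sub hz)).1, (hG.mem z (hR.sub hz)).2]
      have hne : o u ≠ o v := fun e => huv (hG.simple u (hR.sub u1) v (hR.sub v1) x (o u)
        (hAF _ hx _ (hR.ends u u1).2.1) (u2 ▸ (hon u u1).1) (hon u u1).2 (v2 ▸ (hon v v1).1)
        (e ▸ (hon v v1).2))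
      rw [card_range]
      refine le_trans ?_ (hA.s1 _ (hL u u1) _ (hL v v1) hne)
      exact_mod_cast card_le_card (fl_mono fun j hj e => ⟨hj, by
        rw [hdis u u1 u2, hdis v v1 v2] at e
        revert e
        cases s (o u) j <;> cases s (o v) j <;> cases s x j <;> simp⟩)
  · have hv' := (Inst.mem_pts.1 (hrow v hv)).1
    have h1 : fl (range (k / m)) (I.fo (k / m) R (I.mn R) f v) ⊆
        (I.Fb v).image (· % (k / m)) ∪ (I.U (I.a v)).image (· % (k / m)) ∪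
          (I.U (I.b v)).image (· % (k / m)) ∪ (fl I.P (I.H v)).image f := fun j hj => by
      simp only [mem_union]
      rcases (mem_fl.1 hj).2 with h | ⟨-, h | h⟩ | ⟨u, hu, h, e⟩
      exacts [.inl (.inl (.inl (tb1_types _ _ _ h))), .inl (.inl (.inr (tb1_types _ _ _ h))),
        .inl (.inr (tb1_types _ _ _ h)),
        .inr (mem_image.2 ⟨u, mem_fl.2 ⟨(Inst.mem_mn.1 hu).1.1, h⟩, e⟩)]
    have h2 : (fl (range (k / m)) (I.fo (k / m) R (I.mn R) f v)).card ≤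
        (I.Fb v).card + (I.U (I.a v)).card + (I.U (I.b v)).card + (fl I.P (I.H v)).card :=
      (card_le_card h1).trans <| (card_union_le _ _).trans <| add_le_add ((card_union_le _ _).trans
        <| add_le_add ((card_union_le _ _).trans <| add_le_add card_image_le card_image_le)
          card_image_le) card_image_le
    have h3 : ((fl (range (k / m)) (I.fo (k / m) R (I.mn R) f v)).card : ℝ) ≤
        4 * (δ * k) + G₀ := by
      have : ((fl (range (k / m)) (I.fo (k / m) R (I.mn R) f v)).card : ℝ) ≤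
        (I.Fb v).card + (I.U (I.a v)).card + (I.U (I.b v)).card + (fl I.P (I.H v)).card := by
        exact_mod_cast h2
      linarith [hG.Fle v hv', hG.Ule (I.a v), hG.Ule (I.b v), hG.hdeg v hv']
    linarith [hE _ (fl_subset _ (I.fo (k / m) R (I.mn R) f v)), mul_le_mul_of_nonneg_left h3 hb0]
  · have hu : uc (I.U x) (k / m) j = 0 := by
      by_contra h
      obtain ⟨c, hc, e⟩ := mem_image.1 (tb1_types _ _ _ h)
      have : cap k (k / m) j ≤ uc (I.U x) (k / m) j := card_le_card (fl_mono fun c' h1 h2 =>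
        ⟨hF x hx c hc c' (mem_range.1 h1) (h2.trans e.symm), h2⟩)
      unfold Inst.mu at hμ
      omega
    have h1 : (fl (I.row R t x) fun v => I.fo (k / m) R (I.mn R) f v j) ⊆
        (fl (range k) fun c => c % (k / m) = j).biUnion (fun c => fl (I.pts x) fun v =>
          c ∈ I.Fb v ∨ ∃ y, y ≠ x ∧ I.On v y ∧ c ∈ I.U y) ∪
          fl (I.pts x) fun v => ∃ u ∈ I.mn R, I.H v u ∧ f u = j := fun v hv => by
      have hp := hrow v (mem_fl.1 hv).1
      have key : ∀ y, I.On v y → uc (I.U y) (k / m) j ≠ 0 → ∃ c ∈ fl (range k) fun c =>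
          c % (k / m) = j, v ∈ fl (I.pts x) fun v =>
            c ∈ I.Fb v ∨ ∃ y, y ≠ x ∧ I.On v y ∧ c ∈ I.U y := fun y hy h => by
        obtain ⟨c, hc, e⟩ := mem_image.1 (tb1_types _ _ _ h)
        exact ⟨c, mem_fl.2 ⟨mem_range.2 (hG.Ult y c hc), e⟩,
          mem_fl.2 ⟨hp, .inr ⟨y, fun q => h (q ▸ hu), hy, hc⟩⟩⟩
      rw [mem_union, mem_biUnion]
      rcases (mem_fl.1 hv).2 with h | ⟨-, h | h⟩ | h
      · obtain ⟨c, hc, e⟩ := mem_image.1 (tb1_types _ _ _ h)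
        exact .inl ⟨c, mem_fl.2 ⟨mem_range.2 (hG.Flt v (Inst.mem_pts.1 hp).1 c hc), e⟩,
          mem_fl.2 ⟨hp, .inl hc⟩⟩
      exacts [.inl (key _ (.inl rfl) h), .inl (key _ (.inr rfl) h), .inr (mem_fl.2 ⟨hp, h⟩)]
    have h2 : (fl (I.pts x) fun v => ∃ u ∈ I.mn R, I.H v u ∧ f u = j).card ≤
        I.nh (I.mn R) f x j := by
      refine card_le_card_of_forall_subsingleton (fun v u => I.H u v) (fun v hv => ?_)
        fun u hu v hv v' hv' => ?_
      · obtain ⟨hp, u, hu, h, e⟩ := mem_fl.1 hv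
        exact ⟨u, mem_fl.2 ⟨hu, ⟨v, hp, h⟩, e⟩, hG.symm _ _ h⟩
      · exact hG.hone u (Inst.mem_mn.1 (mem_fl.1 hu).1).1.1 x v (mem_fl.1 hv.1).1 v'
          (mem_fl.1 hv'.1).1 hv.2 hv'.2
    have h3 := ((card_le_card h1).trans (card_union_le _ _)).trans
      (add_le_add card_biUnion_le h2)
    have h4 := sum_le_card_nsmul (fl (range k) fun c => c % (k / m) = j) _ _
      fun c _ => hG.spread x c
    have h5 : ((fl (range k) fun c => c % (k / m) = j).card : ℝ) ≤ m + 1 := by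
      exact_mod_cast (cap_bounds hN.m0 hN.mm (mem_range.1 hj)).2
    rw [nsmul_eq_mul] at h4
    have h6 := (Nat.cast_le (α := ℝ)).2 h3
    push_cast at h6
    linarith [hA.nh x j, hN.zk, hN.md, mul_le_mul_of_nonneg_right h5 hk]
  · have h3 : (W.card : ℝ) ≤ 4 * (δ * k) + G₀ := by linarith
    linarith [hE W hW, mul_le_mul_of_nonneg_left h3 hb0]

end

section


open Finset

lemma tb2_sum {V Λ : Type} [DecidableEq V] (A : Finset Λ) (Z : Λ → Finset V) (Y : Finset V)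
    (h : ∀ x ∈ A, ∀ y ∈ A, ∀ v ∈ Z x, v ∈ Z y → x = y) :
    ∑ x ∈ A, ((Z x ∩ Y).card : ℝ) ≤ Y.card := by
  have h1 := card_biUnion (s := A) (t := fun x => Z x ∩ Y) fun x hx y hy e =>
    disjoint_left.2 fun v h1 h2 => e (h x hx y hy v (mem_inter.1 h1).1 (mem_inter.1 h2).1)
  have h2 : (A.biUnion fun x => Z x ∩ Y).card ≤ Y.card :=
    card_le_card (biUnion_subset.2 fun x _ => inter_subset_right)
  exact_mod_cast h1 ▸ h2

lemma tb2_grp {V Λ : Type} [DecidableEq V] (A : Finset Λ) (Z : Λ → Finset V) (Y : Finset V)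
    (μ : Λ → ℝ) (w M : ℝ) (h : ∀ x ∈ A, ∀ y ∈ A, ∀ v ∈ Z x, v ∈ Z y → x = y) (hw : 0 ≤ w)
    (h1 : ∀ x ∈ A, (Z x ∩ Y).card ≤ 1) (hM : ∀ x, 0 ≤ μ x ∧ μ x ≤ M) :
    ∑ x ∈ A, ((Z x ∩ Y).card : ℝ) * μ x ≤ Y.card * w + M * (fl A fun x => w < μ x).card := by
  classical
  have e : ((fl A fun x => w < μ x).card : ℝ) = ∑ x ∈ A, if w < μ x then (1 : ℝ) else 0 := by
    rw [fl_eq, sum_boole]
  refine le_trans ?_ (add_le_add_left (mul_le_mul_of_nonneg_right (tb2_sum A Z Y h) hw) _)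
  rw [e, sum_mul, mul_sum, ← sum_add_distrib]
  refine sum_le_sum fun x hx => ?_
  have a0 : (0 : ℝ) ≤ (Z x ∩ Y).card := Nat.cast_nonneg _
  have a1 : ((Z x ∩ Y).card : ℝ) ≤ 1 := by exact_mod_cast h1 x hx
  obtain ⟨b0, b1⟩ := hM x
  split_ifs with c
  · nlinarith [mul_nonneg a0 hw]
  · nlinarith [mul_le_mul_of_nonneg_left (not_lt.1 c) a0]

theorem p_TB2 :
    S_TB2 := by
  intro V Λ _ _ I k m r b₀ κ G₀ β δ ζ w C A F R t o gp s f hN hG hS hR hA
  have mrow : ∀ {x v}, v ∈ I.row R t x ↔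
      v ∈ I.P ∧ ((v ∈ R ∧ t v = x) ∨ (I.a v = x ∧ I.b v = x)) := mem_fl
  have mzz : ∀ {v}, v ∈ I.zz A R ↔ v ∈ I.P ∧ (v ∈ R ∨ (I.a v = I.b v ∧ I.a v ∈ A)) := mem_fl
  have hto : ∀ v ∈ R, ∀ x ∈ A, x ≠ o v := fun v hv x hx e =>
    disjoint_left.1 hS.disj hx (e ▸ (hR.ends v hv).2.1)
  have hon : ∀ v ∈ R, I.On v (t v) ∧ I.On v (o v) ∧ I.a v ≠ I.b v ∧
      ∀ x, I.On v x → x = t v ∨ x = o v := by
    intro v hv
    obtain ⟨h1, -, h3⟩ := hR.ends v hv
    have h2 := hto v hv _ h1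
    unfold Inst.On
    rcases h3 with ⟨p, q⟩ | ⟨p, q⟩ <;> rw [p, q]
    · exact ⟨.inl rfl, .inr rfl, h2, fun x h => h.imp Eq.symm Eq.symm⟩
    · exact ⟨.inr rfl, .inl rfl, h2.symm, fun x h => h.symm.imp Eq.symm Eq.symm⟩
  have hrt : ∀ x, ∀ v ∈ I.row R t x, v ∈ R → t v = x := fun x v hv h =>
    ((mrow.1 hv).2.resolve_right fun q => (hon v h).2.2.1 (q.1.trans q.2.symm)).2
  have hrp : ∀ x, ∀ v ∈ I.row R t x, v ∈ I.pts x := fun x v hv =>
    Inst.mem_pts.2 ⟨(mrow.1 hv).1, (mrow.1 hv).2.elim (fun q => q.2 ▸ (hon v q.1).1)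
      fun q => .inl q.1⟩
  have hsame : ∀ x ∈ A, ∀ u ∈ I.row R t x, ∀ v ∈ I.row R t x, u ∈ R → v ∈ R → o u = o v →
      u = v := fun x hx u hu v hv h1 h2 e =>
    hG.simple u (hR.sub h1) v (hR.sub h2) x (o u) (hto u h1 x hx) (Inst.mem_pts.1 (hrp x u hu)).2
      (hon u h1).2.1 (Inst.mem_pts.1 (hrp x v hv)).2 (e ▸ (hon v h2).2.1)
  have hdis : ∀ x ∈ A, ∀ y ∈ A, ∀ v ∈ I.row R t x, v ∈ I.row R t y → x = y := by
    intro x _ y _ v h1 h2
    by_cases h : v ∈ R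
    · exact (hrt x v h1 h).symm.trans (hrt y v h2 h)
    · exact ((mrow.1 h1).2.resolve_left fun q => h q.1).1.symm.trans
        ((mrow.1 h2).2.resolve_left fun q => h q.1).1
  refine ⟨?_, hdis, ?_, ?_, ?_, ?_⟩
  · ext v
    rw [mem_biUnion, mzz]
    constructor
    · rintro ⟨x, hx, h⟩
      refine ⟨(mrow.1 h).1, (mrow.1 h).2.imp And.left fun q => ⟨q.1.trans q.2.symm, ?_⟩⟩
      rwa [q.1]
    · rintro ⟨h, q | q⟩
      · exact ⟨t v, (hR.ends v q).1, mrow.2 ⟨h, .inl ⟨q, rfl⟩⟩⟩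
      · exact ⟨I.a v, q.2, mrow.2 ⟨h, .inr ⟨rfl, q.1.symm⟩⟩⟩
  · intro x hx v hv
    refine ⟨fun h => (Inst.mem_pts.1 (hrp x v h)).2, fun h => mrow.2 ⟨(mzz.1 hv).1, ?_⟩⟩
    rcases (mzz.1 hv).2 with q | q
    · exact .inl ⟨q, (((hon v q).2.2.2 x h).resolve_right (hto v q x hx)).symm⟩
    · exact .inr (h.elim (fun e => ⟨e, q.1 ▸ e⟩) fun e => ⟨q.1 ▸ e, e⟩)
  · intro v hv
    have h1 : fl (I.zz A R) (I.cf R o gp v) ⊆
        fl I.P (I.H v) ∪ fl R fun u => o u = o v ∧ gp u = gp v := by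
      intro u hu
      obtain ⟨p, q | q⟩ := mem_fl.1 hu
      · exact mem_union_left _ (mem_fl.2 ⟨(mzz.1 p).1, q⟩)
      · exact mem_union_right _ (mem_fl.2 ⟨q.2.2.1, q.2.2.2.1.symm, q.2.2.2.2.symm⟩)
    have h2 : ((fl (I.zz A R) (I.cf R o gp v)).card : ℝ) ≤ (fl I.P (I.H v)).card + G₀ := by
      exact_mod_cast ((card_le_card h1).trans (card_union_le _ _)).trans
        (Nat.add_le_add_left (hR.grp _ _) _)
    linarith [hG.hdeg v (mzz.1 hv).1]
  · intro x hx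
    refine ⟨fun u hu v hv h => ?_, fun v hv => ?_, fun u hu v hv h => ?_⟩
    · rcases h with h | h
      · exact hG.hzero x u (hrp x u hu) v (hrp x v hv) h
      · exact h.1 (hsame x hx u hu v hv h.2.1 h.2.2.1 h.2.2.2.1)
    · have h1 : (fl (I.row R t x) fun u => I.cf R o gp u v) ⊆
          (fl (I.row R t x) fun u => I.H u v) ∪ fl (I.row R t x) fun u => u ∈ R ∧ o u = o v := by
        intro u hu
        obtain ⟨p, q | q⟩ := mem_fl.1 hu
        · exact mem_union_left _ (mem_fl.2 ⟨p, q⟩)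
        · exact mem_union_right _ (mem_fl.2 ⟨p, q.2.1, q.2.2.2.1⟩)
      refine ((card_le_card h1).trans (card_union_le _ _)).trans
        (Nat.add_le_add (card_le_one.2 fun a ha b hb => ?_) (card_le_one.2 fun a ha b hb => ?_))
      · rw [mem_fl] at ha hb
        exact hG.hone v (mzz.1 hv).1 x a (hrp x a ha.1) b (hrp x b hb.1) (hG.symm _ _ ha.2)
          (hG.symm _ _ hb.2)
      · rw [mem_fl] at ha hb
        exact hsame x hx a ha.1 b hb.1 ha.2.1 hb.2.1 (ha.2.2.trans hb.2.2.symm)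
    · refine mem_fl.2 ⟨(mzz.1 hv).1, h.imp (fun q => ⟨u, hrp x u hu, q⟩) fun q => ?_⟩
      exact ⟨q.2.2.1, u, q.2.1, hrt x u hu q.2.1, q.2.2.2⟩
  · intro z j hj
    set μ : Λ → ℝ := fun x => I.mu k (k / m) (I.mn R) f x j with hμ
    have hM : ∀ x, 0 ≤ μ x ∧ μ x ≤ m + 1 := fun x => ⟨Nat.cast_nonneg _, by
      have := (cap_bounds hN.m0 hN.mm hj).2
      have h : I.mu k (k / m) (I.mn R) f x j ≤ m + 1 := by unfold Inst.mu; omega
      exact (Nat.cast_le.2 h).trans_eq (Nat.cast_succ m)⟩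
    set Hs := (I.pts z).biUnion fun u => fl I.P (I.H u)
    set Rz := fl R fun v => t v = z
    set gr : V → Finset V := fun u => fl R fun v => o v = o u ∧ gp v = gp u
    have d0 : (0 : ℝ) ≤ δ * k := mul_nonneg hN.d0 (Nat.cast_nonneg k)
    have hHs : (Hs.card : ℝ) ≤ k * (δ * k) := by
      have h1 : (Hs.card : ℝ) ≤ ∑ u ∈ I.pts z, ((fl I.P (I.H u)).card : ℝ) := by
        exact_mod_cast card_biUnion_le
      have h2 := sum_le_card_nsmul (I.pts z) (fun u => ((fl I.P (I.H u)).card : ℝ)) _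
        fun u hu => hG.hdeg u (Inst.mem_pts.1 hu).1
      have h3 : ((I.pts z).card : ℝ) ≤ k := by exact_mod_cast le_of_add_le_left (hG.size z)
      rw [nsmul_eq_mul] at h2
      exact (h1.trans h2).trans (mul_le_mul_of_nonneg_right h3 d0)
    have hRz : (Rz.card : ℝ) ≤ r := by
      by_cases hz : z ∈ A
      · have h1 := hR.num z hz
        have h2 := hG.size z
        have h3 : (I.edg z).card ≤ (I.pts z).card :=
          card_le_card (fl_mono fun v hv q => ⟨hv, q.1⟩)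
        exact_mod_cast (by omega : (fl R fun v => t v = z).card ≤ r)
      · have : Rz = ∅ := eq_empty_of_forall_notMem fun v hv =>
          hz ((mem_fl.1 hv).2 ▸ (hR.ends v (mem_fl.1 hv).1).1)
        rw [this, card_empty]
        exact_mod_cast Nat.zero_le r
    have hx : ∀ x, ((I.row R t x ∩ I.tg R t o gp z).card : ℝ) ≤
        (I.row R t x ∩ Hs).card + ∑ u ∈ Rz, ((I.row R t x ∩ gr u).card : ℝ) := by
      intro x
      have h1 : I.row R t x ∩ I.tg R t o gp z ⊆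
          (I.row R t x ∩ Hs) ∪ Rz.biUnion fun u => I.row R t x ∩ gr u := by
        intro v hv
        obtain ⟨p, q⟩ := mem_inter.1 hv
        obtain ⟨q0, ⟨u, hu, q⟩ | ⟨q1, u, hu, q⟩⟩ := mem_fl.1 q
        · exact mem_union_left _ (mem_inter.2 ⟨p, mem_biUnion.2 ⟨u, hu, mem_fl.2 ⟨q0, q⟩⟩⟩)
        · exact mem_union_right _ (mem_biUnion.2 ⟨u, mem_fl.2 ⟨hu, q.1⟩,
            mem_inter.2 ⟨p, mem_fl.2 ⟨q1, q.2.1.symm, q.2.2.symm⟩⟩⟩)
      exact_mod_cast ((card_le_card h1).trans (card_union_le _ _)).trans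
        (Nat.add_le_add_left card_biUnion_le _)
    have hg : ∀ u ∈ Rz, ∑ x ∈ A, ((I.row R t x ∩ gr u).card : ℝ) * μ x ≤ 3 * r / 100000 := by
      intro u _
      have h1 := tb2_grp A (I.row R t) (gr u) μ w (m + 1) hdis hN.w0 (fun x hx =>
        card_le_one.2 fun a ha b hb => by
          rw [mem_inter, mem_fl] at ha hb
          exact hsame x hx a ha.1 b hb.1 ha.2.1 hb.2.1 (ha.2.2.1.trans hb.2.2.1.symm)) hM
      have h2 : ((gr u).card : ℝ) ≤ G₀ := by exact_mod_cast hR.grp _ _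
      have h3 := hA.under j hj
      linarith [hN.gw, hN.zk, mul_le_mul_of_nonneg_right h2 hN.w0]
    have r0 : (0 : ℝ) < r := by exact_mod_cast lt_of_lt_of_le (by norm_num) hN.r4
    have m0 : (0 : ℝ) ≤ m + 1 := by positivity
    rw [← sum_div, div_le_iff₀ r0]
    calc _ ≤ ∑ x ∈ A, (((I.row R t x ∩ Hs).card : ℝ) * (m + 1) +
          ∑ u ∈ Rz, ((I.row R t x ∩ gr u).card : ℝ) * μ x) := by
          refine sum_le_sum fun x _ => (mul_le_mul_of_nonneg_right (hx x) (hM x).1).trans ?_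
          rw [add_mul, sum_mul]
          exact add_le_add_left (mul_le_mul_of_nonneg_left (hM x).2 (Nat.cast_nonneg _)) _
      _ ≤ k * (δ * k) * (m + 1) + r * (3 * r / 100000) := by
          rw [sum_add_distrib, ← sum_mul, sum_comm]
          refine add_le_add (mul_le_mul_of_nonneg_right
            ((tb2_sum A _ Hs hdis).trans hHs) m0) ((sum_le_card_nsmul _ _ _ hg).trans ?_)
          rw [nsmul_eq_mul]
          exact mul_le_mul_of_nonneg_right hRz (by positivity)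
      _ ≤ _ := by nlinarith [hN.ee]

end

end Pool.Agent.P.MP_1fec7a_co.S
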