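import Pool.Agent.P.MP_1fec7a_co.S.Iface

/-! The last stages and the assembly. -/

set_option autoImplicit false
set_option linter.unusedSectionVars false
set_option linter.unusedVariables false

namespace Pool.Agent.P.MP_1fec7a_co.S

section


open Finset

lemma tb_split {V : Type} [DecidableEq V] {M Z M' Z' : Finset V} {p : V → Prop}
    (h1 : ∀ v ∈ M, p v → v ∈ M') (h2 : ∀ v ∈ Z, p v → v ∈ Z') :
    (fl (M ∪ Z) p).card ≤ M'.card + Z'.card := by
  refine (card_le_card fun v hv => ?_).trans (card_union_le M' Z')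
  obtain ⟨a1, a2⟩ := mem_fl.1 hv
  exact mem_union.2 ((mem_union.1 a1).imp (fun a => h1 v a a2) fun a => h2 v a a2)

theorem p_TB (hROW : S_ROW) (hTB1 : S_TB1) (hTB2 : S_TB2) :
    S_TB := by
  intro V Λ _ _ I k m r b₀ κ G₀ β δ ζ w C A F R t o gp s f hN hG hS hF hR hA
  have t1 := hTB1 V Λ I k m r b₀ κ G₀ β δ ζ w C A F R t o gp s f hN hG hS hF hR hA
  obtain ⟨b1, b2, b3, b4, b5, b6⟩ :=
    hTB2 V Λ I k m r b₀ κ G₀ β δ ζ w C A F R t o gp s f hN hG hS hR hA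
  have r4 : (10000 : ℝ) ≤ r := by exact_mod_cast hN.r4
  have cb := fun j (hj : j < k / m) => cap_bounds hN.m0 hN.mm hj
  have rz : ∀ x ∈ A, ∀ v ∈ I.row R t x, v ∈ I.zz A R := fun x hx v hv =>
    b1 ▸ mem_biUnion.2 ⟨x, hx, hv⟩
  obtain ⟨g, g1, g2, g3⟩ := hROW V Λ A I.L (I.row R t) (I.tg R t o gp) (range (k / m))
    (I.mu k (k / m) (I.mn R) f) (fun _ => r) (I.dis R s) (I.fo (k / m) R (I.mn R) f)
    (I.cf R o gp) r (m + 1) (δ * k + G₀) (r / 25000) (r / 80) hS.AL b2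
    (fun u v h => h.imp (hG.symm u v) fun h =>
      ⟨h.1.symm, h.2.2.1, h.2.1, h.2.2.2.1.symm, h.2.2.2.2.symm⟩)
    (fun x hx => ⟨(t1 x hx).1, le_rfl, fun j hj => by
      have := (cb j (mem_range.1 hj)).2
      have h : I.mu k (k / m) (I.mn R) f x j ≤ m + 1 := by unfold Inst.mu; omega
      exact_mod_cast h, (t1 x hx).2, fun v hv => b1 ▸ b4 v (rz x hx v hv), (b5 x hx).1,
      b1 ▸ (b5 x hx).2.1, b1 ▸ (b5 x hx).2.2⟩)
    (fun z _ j hj => b6 z j (mem_range.1 hj)) (by linarith) (by positivity) (by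
      have h1 : ((m : ℝ) + 1) * Real.log (I.L.card * (range (k / m)).card) ≤ r / 200 := by
        rcases (show (0 : ℝ) ≤ I.L.card * (range (k / m)).card by positivity).eq_or_lt with h | h
        · rw [← h, Real.log_zero, mul_zero]
          linarith
        · refine le_trans (mul_le_mul_of_nonneg_left (Real.log_le_log h ?_) (by positivity)) hN.lg
          refine mul_le_mul hG.cardL ?_ (by positivity) ((Nat.cast_nonneg _).trans hG.cardL)
          rw [card_range]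
          exact_mod_cast Nat.div_le_self k m
      linarith) (by linarith)
  rw [b1] at g2 g3
  have mz : ∀ v, v ∈ I.zz A R ↔ v ∈ I.P ∧ (v ∈ R ∨ (I.a v = I.b v ∧ I.a v ∈ A)) := fun v => mem_fl
  have gz : ∀ v ∈ I.zz A R, g v < k / m ∧ ¬ I.dis R s v (g v) ∧
      ¬ I.fo (k / m) R (I.mn R) f v (g v) := fun v hv => by
    obtain ⟨x, hx, h⟩ := mem_biUnion.1 (b1 ▸ hv : v ∈ A.biUnion (I.row R t))
    exact ⟨mem_range.1 ((g1 x hx).1 v h).1, ((g1 x hx).1 v h).2⟩
  obtain ⟨h, h1, h2⟩ : ∃ h : V → ℕ, (∀ v ∈ I.mn R, h v = f v) ∧ ∀ v ∈ I.zz A R, h v = g v := by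
    refine ⟨fun v => if v ∈ I.mn R then f v else g v, fun v hv => if_pos hv, fun v hv => if_neg ?_⟩
    intro h
    rw [Inst.mem_mn] at h
    exact ((mz v).1 hv).2.elim h.1.2 fun e => h.2 e.1
  refine ⟨h, ⟨fun v hv => ?_, fun v hv hab => ?_, fun v hv => ?_, fun x j hj => ?_,
    fun u hu v hv H => ?_⟩, fun x j hj => ?_⟩
  · rcases mem_union.1 hv with a | a
    · exact h1 v a ▸ hA.ty.lt v a
    · exact h2 v a ▸ (gz v a).1
  · rcases mem_union.1 hv with a | a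
    · exact h1 v a ▸ hA.ty.fit v a hab
    · have hv : v ∈ R := ((mz v).1 a).2.resolve_right fun e => hab e.1
      obtain ⟨-, c1, c2⟩ := gz v a
      rw [h2 v a]
      exact ⟨fun e => c1 ⟨hv, e⟩, by_contra fun e => c2 (.inr (.inl ⟨hv, .inl e⟩)),
        by_contra fun e => c2 (.inr (.inl ⟨hv, .inr e⟩))⟩
  · rcases mem_union.1 hv with a | a
    · exact h1 v a ▸ hA.ty.fb v a
    · exact h2 v a ▸ by_contra fun e => (gz v a).2.2 (.inl e)
  · have c0 : ld (I.mn R ∪ I.zz A R) I.a I.b h x j ≤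
        ld (I.mn R) I.a I.b f x j + ld (I.zz A R) I.a I.b g x j :=
      tb_split (fun v a e => mem_fl.2 ⟨a, e.1, h1 v a ▸ e.2⟩)
        fun v a e => mem_fl.2 ⟨a, e.1, h2 v a ▸ e.2⟩
    have c1 := hA.ty.cnt x j hj
    by_cases hx : x ∈ A
    · have c2 : ld (I.zz A R) I.a I.b g x j ≤ I.mu k (k / m) (I.mn R) f x j := by
        refine le_trans (card_le_card fun v hv => ?_) ((g1 x hx).2 j)
        obtain ⟨a1, a2, a3⟩ := mem_fl.1 hv
        exact mem_fl.2 ⟨(b3 x hx v a1).2 a2, a3⟩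
      unfold Inst.mu at c2
      omega
    have key : ∀ v ∈ I.zz A R, (I.a v = x ∨ I.b v = x) → v ∈ R ∧ o v = x := fun v a e => by
      have hv : v ∈ R := ((mz v).1 a).2.resolve_right fun c =>
        hx (e.elim (· ▸ c.2) fun e => e ▸ c.1 ▸ c.2)
      obtain ⟨d1, -, d3⟩ := hR.ends v hv
      refine ⟨hv, ?_⟩
      rcases d3 with ⟨d3, d4⟩ | ⟨d3, d4⟩ <;> rcases e with e | e
      · exact absurd (e ▸ d3 ▸ d1) hx
      · exact d4 ▸ e
      · exact d3 ▸ e
      · exact absurd (e ▸ d4 ▸ d1) hx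
    rcases (fl (I.zz A R) fun v => (I.a v = x ∨ I.b v = x) ∧ g v = j).eq_empty_or_nonempty with
      e | ⟨v, hv⟩
    · have : ld (I.zz A R) I.a I.b g x j = 0 := card_eq_zero.2 e
      omega
    · obtain ⟨a1, a2, a3⟩ := mem_fl.1 hv
      obtain ⟨a4, a5⟩ := key v a1 a2
      have c2 : uc (I.U x) (k / m) j = 0 := by_contra fun e => (gz v a1).2.2 (.inr (.inl
        ⟨a4, a2.imp (fun c => by rw [c, a3]; exact e) fun c => by rw [c, a3]; exact e⟩))
      have c3 := hA.loadF x (a5 ▸ (hR.ends v a4).2.1) j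
      have c4 : ld (I.zz A R) I.a I.b g x j ≤ (range κ).card := by
        refine card_le_card_of_injOn gp (fun u hu => ?_) fun u hu u' hu' e => by_contra fun n => ?_
        · obtain ⟨d1, d2, -⟩ := mem_fl.1 (mem_coe.1 hu)
          exact mem_coe.2 (mem_range.2 (hR.lt u (key u d1 d2).1))
        · obtain ⟨d1, d2, d3⟩ := mem_fl.1 (mem_coe.1 hu)
          obtain ⟨e1, e2, e3⟩ := mem_fl.1 (mem_coe.1 hu')
          exact g2 u d1 u' e1 (.inr ⟨n, (key u d1 d2).1, (key u' e1 e2).1,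
            (key u d1 d2).2.trans (key u' e1 e2).2.symm, e⟩) (d3.trans e3.symm)
      rw [card_range] at c4
      have := (cb j hj).1
      omega
  · rcases mem_union.1 hu with a | a <;> rcases mem_union.1 hv with b | b
    · rw [h1 u a, h1 v b]
      exact hA.ty.hne u a v b H
    · rw [h1 u a, h2 v b]
      exact fun e => (gz v b).2.2 (.inr (.inr ⟨u, a, hG.symm _ _ H, e⟩))
    · rw [h2 u a, h1 v b]
      exact fun e => (gz u a).2.2 (.inr (.inr ⟨v, b, H, e.symm⟩))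
    · rw [h2 u a, h2 v b]
      exact g2 u a v b (.inl H)
  · by_cases hx : x ∈ I.L
    · have c0 : I.nh (I.mn R ∪ I.zz A R) h x j ≤ I.nh (I.mn R) f x j +
          (fl (I.zz A R) fun v => v ∈ I.tg R t o gp x ∧ g v = j).card :=
        tb_split (fun v a e => mem_fl.2 ⟨a, e.1, h1 v a ▸ e.2⟩)
          fun v a e => mem_fl.2 ⟨a, mem_fl.2 ⟨((mz v).1 a).1, .inl e.1⟩, h2 v a ▸ e.2⟩
      have c1 : (I.nh (I.mn R ∪ I.zz A R) h x j : ℝ) ≤ I.nh (I.mn R) f x j +
          (fl (I.zz A R) fun v => v ∈ I.tg R t o gp x ∧ g v = j).card := by exact_mod_cast c0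
      linarith [hA.nh x j, g3 x hx j (mem_range.2 hj)]
    · have c0 : I.nh (I.mn R ∪ I.zz A R) h x j = 0 := by
        refine card_eq_zero.2 (eq_empty_of_forall_notMem fun v hv => ?_)
        obtain ⟨-, ⟨u, hu, -⟩, -⟩ := mem_fl.1 hv
        obtain ⟨a1, a2⟩ := Inst.mem_pts.1 hu
        exact hx (a2.elim (· ▸ (hG.mem u a1).1) (· ▸ (hG.mem u a1).2))
      have := mul_nonneg hN.z0 (Nat.cast_nonneg (α := ℝ) k)
      rw [c0, Nat.cast_zero]
      linarith

end

section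


open Finset

variable {V Λ : Type} [DecidableEq V] [DecidableEq Λ]

lemma tc_sum_le {J W : Finset ℕ} {μ : ℕ → ℕ} {M D : ℝ} (hM : 0 ≤ M) (hW : W ⊆ J)
    (h : ∀ j ∈ J, (μ j : ℝ) ≤ M) (hc : (W.card : ℝ) ≤ D) : ∑ j ∈ W, (μ j : ℝ) ≤ M * D := by
  have := sum_le_card_nsmul W (fun j => (μ j : ℝ)) M fun j hj => h j (hW hj)
  rw [nsmul_eq_mul] at this
  nlinarith

lemma tc_bi {α β : Type} [DecidableEq β] (s : Finset α) (t : α → Finset β) {D : ℝ}
    (h : ∀ a ∈ s, ((t a).card : ℝ) ≤ D) : ((s.biUnion t).card : ℝ) ≤ s.card * D := by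
  have h1 : ((s.biUnion t).card : ℝ) ≤ ∑ a ∈ s, ((t a).card : ℝ) := by
    exact_mod_cast card_biUnion_le
  have h2 := sum_le_card_nsmul s (fun a => ((t a).card : ℝ)) D h
  rw [nsmul_eq_mul] at h2
  exact h1.trans h2

lemma tc_types {I : Inst V Λ} {k T : ℕ} {δ C : ℝ} (hG : I.Good k δ C) {Q : Finset V}
    (hQ : Q ⊆ I.P) (h : V → ℕ) {v : V} (hv : v ∈ I.P) (J : Finset ℕ) :
    ((fl J (I.fo T ∅ Q h v)).card : ℝ) ≤ 2 * (δ * k) := by
  have s : fl J (I.fo T ∅ Q h v) ⊆ (I.Fb v).image (· % T) ∪ (fl I.P (I.H v)).image h := by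
    intro j hj
    rcases (mem_fl.1 hj).2 with e | ⟨e, -⟩ | ⟨u, hu, e, rfl⟩
    · rw [Ne, uc_eq_zero] at e
      push Not at e
      obtain ⟨c, hc, rfl⟩ := e
      exact mem_union_left _ (mem_image_of_mem _ hc)
    · simp at e
    · exact mem_union_right _ (mem_image_of_mem _ (mem_fl.2 ⟨hQ hu, e⟩))
  have c : (fl J (I.fo T ∅ Q h v)).card ≤ (I.Fb v).card + (fl I.P (I.H v)).card :=
    (card_le_card s).trans ((card_union_le _ _).trans (add_le_add card_image_le card_image_le))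
  have c' : ((fl J (I.fo T ∅ Q h v)).card : ℝ) ≤ (I.Fb v).card + (fl I.P (I.H v)).card := by
    exact_mod_cast c
  linarith [hG.Fle v hv, hG.hdeg v hv]

lemma tc_pts {I : Inst V Λ} {k T : ℕ} {δ C : ℝ} (hG : I.Good k δ C) {Q : Finset V}
    (hQ : Q ⊆ I.P) (h : V → ℕ) (x : Λ) (j : ℕ) {Z : Finset V} (hZ : Z ⊆ I.pts x) :
    ((fl Z fun v => I.fo T ∅ Q h v j).card : ℝ) ≤ cap k T j * (δ * k) + I.nh Q h x j := by
  classical
  let B := (fl (range k) fun c => c % T = j).biUnion fun c => fl (I.pts x) fun v =>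
    c ∈ I.Fb v ∨ ∃ y, y ≠ x ∧ I.On v y ∧ c ∈ I.U y
  let D := fl (I.pts x) fun v => ∃ u ∈ Q, I.H v u ∧ h u = j
  have hB : (B.card : ℝ) ≤ cap k T j * (δ * k) := tc_bi _ _ fun c _ => hG.spread x c
  have hD : D.card ≤ I.nh Q h x j := by
    refine card_le_card_of_forall_subsingleton (fun v u => I.H v u ∧ u ∈ Q ∧ h u = j)
      (fun v hv => ?_) fun u hu v hv v' hv' => ?_
    · obtain ⟨hv, u, hu, e, e'⟩ := mem_fl.1 hv
      exact ⟨u, mem_fl.2 ⟨hu, ⟨v, hv, e⟩, e'⟩, e, hu, e'⟩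
    · exact hG.hone u (hQ (mem_fl.1 hu).1) x v (mem_fl.1 hv.1).1 v' (mem_fl.1 hv'.1).1
        (hG.symm _ _ hv.2.1) (hG.symm _ _ hv'.2.1)
  have s : (fl Z fun v => I.fo T ∅ Q h v j) ⊆ B ∪ D := by
    intro v hv
    obtain ⟨hv, e | ⟨e, -⟩ | e⟩ := mem_fl.1 hv
    · rw [Ne, uc_eq_zero] at e
      push Not at e
      obtain ⟨c, hc, e⟩ := e
      exact mem_union_left _ (mem_biUnion.2 ⟨c, mem_fl.2 ⟨mem_range.2
        (hG.Flt v (Inst.mem_pts.1 (hZ hv)).1 c hc), e⟩, mem_fl.2 ⟨hZ hv, Or.inl hc⟩⟩)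
    · simp at e
    · exact mem_union_right _ (mem_fl.2 ⟨hZ hv, e⟩)
  have c : ((fl Z fun v => I.fo T ∅ Q h v j).card : ℝ) ≤ B.card + I.nh Q h x j := by
    exact_mod_cast (card_le_card s).trans ((card_union_le _ _).trans (add_le_add le_rfl hD))
  linarith

theorem p_TC (hROW : S_ROW) :
    S_TC := by
  intro V Λ _ _ I k m r b₀ G₀ δ ζ w C Q s h hN hG hQ hT hP hnh
  have hm := hN.m0
  have hT0 : 0 < k / m := lt_of_lt_of_le hm ((Nat.le_div_iff_mul_le hm).2 hN.mm)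
  have hr : (10000 : ℝ) ≤ r := by exact_mod_cast hN.r4
  have hd : 0 ≤ δ * k := mul_nonneg hN.d0 (Nat.cast_nonneg k)
  let A := fl I.L fun x => (I.U x).card + (fl Q fun u => I.On u x).card + r ≤ k
  let Z : Λ → Finset V := fun x => fl (I.P \ Q) fun v => I.a v = x
  let Y : Λ → Finset V := fun z => fl I.P fun v => ∃ u ∈ I.pts z, I.H u v
  let n : Λ → ℕ := fun x => k - (I.U x).card - (fl Q fun u => I.On u x).card
  have hZ : ∀ x, Z x ⊆ I.pts x := fun x v hv =>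
    Inst.mem_pts.2 ⟨(mem_sdiff.1 (mem_fl.1 hv).1).1, Or.inl (mem_fl.1 hv).2⟩
  have hB : ∀ v ∈ A.biUnion Z, v ∈ I.P := fun v hv => by
    obtain ⟨x, -, hx⟩ := mem_biUnion.1 hv
    exact (Inst.mem_pts.1 (hZ x hx)).1
  have hA : ∀ v ∈ I.P \ Q, I.a v ∈ A ∧ v ∈ Z (I.a v) := fun v hv =>
    ⟨mem_fl.2 ⟨(hG.mem v (mem_sdiff.1 hv).1).1, (hP v hv).2⟩, mem_fl.2 ⟨hv, rfl⟩⟩
  have hcap : ∀ j ∈ range (k / m), (cap k (k / m) j : ℝ) ≤ m + 1 := fun j hj => by
    exact_mod_cast (cap_bounds hm hN.mm (mem_range.1 hj)).2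
  have hmu : ∀ x, ∀ j ∈ range (k / m), (I.mu k (k / m) Q h x j : ℝ) ≤ m + 1 := fun x j hj =>
    le_trans (by exact_mod_cast (Nat.sub_le _ _).trans (Nat.sub_le _ _)) (hcap j hj)
  have hn : ∀ x ∈ A, (r : ℝ) ≤ n x := fun x hx => by
    have := (mem_fl.1 hx).2
    exact_mod_cast (by omega : r ≤ k - (I.U x).card - (fl Q fun u => I.On u x).card)
  have hM : (0 : ℝ) < m + 1 := by positivity
  have md := hN.md
  obtain ⟨g, g1, g2, -⟩ := hROW V Λ A I.L Z Y (range (k / m)) (I.mu k (k / m) Q h) n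
    (fun _ _ => False) (I.fo (k / m) ∅ Q h) I.H r (m + 1) (δ * k) (r / 100000) (r / 80)
    (fl_subset _ _) (fun x _ y _ v hx hy => (mem_fl.1 hx).2.symm.trans (mem_fl.1 hy).2) hG.symm
    (fun x hx => by
      have hx' := hn x hx
      have e0 : ∀ {α : Type} (S : Finset α), (fl S fun _ => False) = ∅ := fun S => by ext; simp
      refine ⟨⟨?_, ?_, fun v _ => ?_, fun j _ _ => ?_, fun S _ ν _ => ?_, fun v hv => ?_,
        fun j hj _ => ?_⟩, hx', hmu x, fun W hW hc => ?_, fun v hv => ?_,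
        fun u hu v hv => hG.hzero x u (hZ x hu) v (hZ x hv), fun v hv => ?_,
        fun u hu v hv e => mem_fl.2 ⟨hB v hv, u, hZ x hu, e⟩⟩
      · have e1 := sum_cap k _ hT0
        have e2 := sum_uc (I.U x) _ hT0
        have e3 : _ = (fl Q fun u => I.On u x).card := sum_ld Q I.a I.b h x _ hT.lt
        have e4 : ∑ j ∈ range (k / m), (I.mu k (k / m) Q h x j + uc (I.U x) (k / m) j +
            ld Q I.a I.b h x j) = ∑ j ∈ range (k / m), cap k (k / m) j :=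
          sum_congr rfl fun j hj => by
            have := hT.cnt x j (mem_range.1 hj)
            unfold Inst.mu
            omega
        rw [sum_add_distrib, sum_add_distrib] at e4
        show _ = k - (I.U x).card - (fl Q fun u => I.On u x).card
        omega
      · have e1 : (Z x ∪ fl Q fun u => I.On u x).card ≤ (I.pts x).card :=
          card_le_card (union_subset (hZ x) (fl_mono fun u hu e => ⟨hQ hu, e⟩))
        rw [card_union_of_disjoint (disjoint_left.2 fun v hv hv' =>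
          (mem_sdiff.1 (mem_fl.1 hv).1).2 (mem_fl.1 hv').1)] at e1
        have := hG.size x
        have e2 : (Z x).card + (fl Q fun u => I.On u x).card ≤ (I.pts x).card := e1
        show _ ≤ k - (I.U x).card - (fl Q fun u => I.On u x).card
        omega
      · rw [e0, sum_empty]
        positivity
      · rw [e0, card_empty, Nat.cast_zero]
        positivity
      · simp only [e0, sum_empty, sum_const_zero]
        positivity
      · have := tc_sum_le hM.le (fl_subset _ _) (hmu x)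
          (tc_types (T := k / m) hG hQ h (Inst.mem_pts.1 (hZ x hv)).1 (range (k / m)))
        nlinarith
      · have e1 := tc_pts (T := k / m) hG hQ h x j (hZ x)
        have e2 := mul_le_mul_of_nonneg_right (hcap j hj) hd
        have e3 := hnh x j (mem_range.1 hj)
        have e4 := hN.zk
        linarith
      · have := tc_sum_le hM.le hW (hmu x) hc
        linarith
      · refine le_trans ?_ (hG.hdeg v (Inst.mem_pts.1 (hZ x hv)).1)
        exact_mod_cast card_le_card (fl_mono fun u hu e => ⟨hB u hu, e⟩)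
      · refine le_trans (card_le_one.2 fun u hu u' hu' => ?_) one_le_two
        exact hG.hone v (hB v hv) x u (hZ x (mem_fl.1 hu).1) u' (hZ x (mem_fl.1 hu').1)
          (hG.symm _ _ (mem_fl.1 hu).2) (hG.symm _ _ (mem_fl.1 hu').2))
    (fun z _ j hj => by
      have e1 : ∑ x ∈ A, (Z x ∩ Y z).card ≤ (Y z).card := by
        rw [← card_biUnion fun x _ y _ e => disjoint_left.2 fun v hv hv' => e
          ((mem_fl.1 (mem_inter.1 hv).1).2.symm.trans (mem_fl.1 (mem_inter.1 hv').1).2)]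
        exact card_le_card (biUnion_subset.2 fun x _ => inter_subset_right)
      have e2 : ((Y z).card : ℝ) ≤ k * (δ * k) := by
        have a1 := tc_bi (I.pts z) (fun u => fl I.P (I.H u))
          fun u hu => hG.hdeg u (Inst.mem_pts.1 hu).1
        have a2 : (Y z).card ≤ ((I.pts z).biUnion fun u => fl I.P (I.H u)).card :=
          card_le_card fun v hv => by
            obtain ⟨hv, u, hu, e⟩ := mem_fl.1 hv
            exact mem_biUnion.2 ⟨u, hu, mem_fl.2 ⟨hv, e⟩⟩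
        have a3 : ((I.pts z).card : ℝ) ≤ k := by
          exact_mod_cast le_trans (Nat.le_add_right _ _) (hG.size z)
        exact le_trans (by exact_mod_cast a2) (a1.trans (mul_le_mul_of_nonneg_right a3 hd))
      have e3 : ∑ x ∈ A, ((Z x ∩ Y z).card : ℝ) ≤ k * (δ * k) :=
        le_trans (by exact_mod_cast e1) e2
      have r0 : (0 : ℝ) < r := by linarith
      calc _ ≤ ∑ x ∈ A, ((Z x ∩ Y z).card : ℝ) * (m + 1) / r := sum_le_sum fun x hx =>
            div_le_div₀ (by positivity)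
              (mul_le_mul_of_nonneg_left (hmu x j hj) (Nat.cast_nonneg _)) r0 (hn x hx)
        _ = (∑ x ∈ A, ((Z x ∩ Y z).card : ℝ)) * (m + 1) / r := by rw [← sum_div, ← sum_mul]
        _ ≤ _ := by
          rw [div_le_iff₀ r0]
          have := mul_le_mul_of_nonneg_right e3 hM.le
          have := hN.ee
          nlinarith)
    (by linarith) hM
    (by
      have lg := hN.lg
      rcases (mul_nonneg (Nat.cast_nonneg I.L.card)
        (Nat.cast_nonneg (range (k / m)).card) : (0 : ℝ) ≤ _).eq_or_lt with e | e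
      · rw [← e, Real.log_zero]
        linarith
      · have a1 : ((range (k / m)).card : ℝ) ≤ k := by
          rw [card_range]
          exact_mod_cast Nat.div_le_self k m
        have a2 := Real.log_le_log e (mul_le_mul hG.cardL a1 (Nat.cast_nonneg _)
          ((Nat.cast_nonneg _).trans hG.cardL))
        have := mul_le_mul_of_nonneg_left a2 hM.le
        linarith)
    (by linarith)
  have gv := fun v hv hq => (g1 _ (hA v (mem_sdiff.2 ⟨hv, hq⟩)).1).1 v (hA v (mem_sdiff.2 ⟨hv, hq⟩)).2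
  refine ⟨fun v => if v ∈ Q then h v else g v, fun v hv => ?_, fun v hv e => ?_, fun v hv => ?_,
    fun x j hj => ?_, fun u hu v hv e => ?_⟩
  · split_ifs with hq
    exacts [hT.lt v hq, mem_range.1 (gv v hv hq).1]
  · split_ifs with hq
    exacts [hT.fit v hq e, absurd (hP v (mem_sdiff.2 ⟨hv, hq⟩)).1 e]
  · split_ifs with hq
    exacts [hT.fb v hq, not_not.1 fun e => (gv v hv hq).2.2 (Or.inl e)]
  · have e1 : ld I.P I.a I.b (fun v => if v ∈ Q then h v else g v) x j ≤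
        ld Q I.a I.b h x j + (fl (Z x) fun v => g v = j).card := by
      refine le_trans (card_le_card fun v hv => ?_) (card_union_le _ _)
      obtain ⟨hv, e, e'⟩ := mem_fl.1 hv
      by_cases hq : v ∈ Q
      · exact mem_union_left _ (mem_fl.2 ⟨hq, e, by simpa [hq] using e'⟩)
      · have hv' := mem_sdiff.2 ⟨hv, hq⟩
        exact mem_union_right _ (mem_fl.2 ⟨mem_fl.2 ⟨hv', e.elim id (hP v hv').1.trans⟩,
          by simpa [hq] using e'⟩)
    have e2 := hT.cnt x j hj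
    by_cases hx : x ∈ A
    · have e3 := (g1 x hx).2 j
      unfold Inst.mu at e3
      omega
    · have e3 : (fl (Z x) fun v => g v = j).card = 0 := card_eq_zero.2 <|
        eq_empty_of_forall_notMem fun v hv => by
          obtain ⟨hv, e⟩ := mem_fl.1 (mem_fl.1 hv).1
          exact hx (e ▸ (hA v hv).1)
      omega
  · have hb : ∀ v ∈ I.P, v ∉ Q → v ∈ A.biUnion Z := fun v hv hq =>
      mem_biUnion.2 ⟨_, hA v (mem_sdiff.2 ⟨hv, hq⟩)⟩
    by_cases hq : u ∈ Q <;> by_cases hq' : v ∈ Q <;> simp only [hq, hq', if_true, if_false]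
    · exact hT.hne u hq v hq' e
    · exact fun e' => (gv v hv hq').2.2 (Or.inr (Or.inr ⟨u, hq, hG.symm _ _ e, e'⟩))
    · exact fun e' => (gv u hu hq).2.2 (Or.inr (Or.inr ⟨v, hq', e, e'.symm⟩))
    · exact g2 u (hb u hu hq) v (hb v hv hq') e

end

section


open Finset

theorem p_TYP (hNUMS : S_NUMS) (hRES : S_RES) (hTA : S_TA) (hTB : S_TB) (hTC : S_TC) :
    S_TYP := by
  intro β hβ hβ1
  obtain ⟨m₁, H1⟩ := hNUMS β hβ hβ1
  have b2 : β ^ 2 ≤ β := by nlinarith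
  have b3 : 0 < β ^ 2 := by positivity
  obtain ⟨m₀, H0⟩ := hTA β (β ^ 2 / 10 ^ 7) (β ^ 2 / 10 ^ 13) (by positivity) (by linarith)
    (by linarith) hβ1 (by positivity) (by linarith)
  obtain ⟨δ₁, hδ₁, H1⟩ := H1 (max (max m₀ m₁) 1) (by omega)
  obtain ⟨δ₀, hδ₀, H0⟩ := H0 (max (max m₀ m₁) 1) (by omega)
  refine ⟨max (max m₀ m₁) 1, by omega, min δ₀ δ₁, lt_min hδ₀ hδ₁, fun C => ?_⟩
  obtain ⟨k₁, H1⟩ := H1 (min δ₀ δ₁) (lt_min hδ₀ hδ₁).le (min_le_right _ _) C
  obtain ⟨k₀, H0⟩ := H0 C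
  refine ⟨max k₀ k₁, fun k hk V Λ _ _ I A F hG hS hM hF => ?_⟩
  obtain ⟨b₀, κ, G₀, hN, n1, n2, n3, n4, n5⟩ := H1 k (by omega)
  obtain ⟨R, t, o, gp, hR⟩ := hRES V Λ I k _ κ G₀ β _ C A F hβ hG hS hM n4 n5
  obtain ⟨s, f, hA⟩ := H0 k (by omega) V Λ I _ b₀ κ G₀ A F R t o gp (Nat.le_ceil _)
    (Nat.ceil_lt_add_one (by positivity)).le n1 n2 n3 (hG.mono (min_le_left _ _)) hS hF hR
  obtain ⟨h, h1, h2⟩ := hTB V Λ I k _ _ b₀ κ G₀ β _ _ _ C A F R t o gp s f hN hG hS hF hR hA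
  refine ⟨s, hTC V Λ I k _ _ b₀ G₀ _ _ _ C (I.mn R ∪ I.zz A R) s h hN hG
    (union_subset ((fl_subset _ _).trans sdiff_subset) (fl_subset _ _)) h1 (fun v hv => ?_) h2⟩
  obtain ⟨v1, v2⟩ := mem_sdiff.1 hv
  rw [mem_union, not_or, Inst.mem_mn, Inst.zz, mem_fl] at v2
  have v3 : v ∉ R := fun e => v2.2 ⟨v1, Or.inl e⟩
  have v4 : I.a v = I.b v := by_contra fun e => v2.1 ⟨⟨v1, v3⟩, e⟩
  have v5 : I.a v ∉ A := fun e => v2.2 ⟨v1, Or.inr ⟨v4, e⟩⟩
  refine ⟨v4, le_trans ?_ (hS.loose _ (hG.mem v v1).1 v5)⟩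
  refine Nat.add_le_add_right (Nat.add_le_add_left (card_le_card (fl_mono fun u hu e => ?_)) _) _
  rcases mem_union.1 hu with hu | hu
  · exact ⟨(Inst.mem_mn.1 hu).1.1, e, (Inst.mem_mn.1 hu).2⟩
  obtain ⟨u1, u2 | u2⟩ := mem_fl.1 hu
  · obtain ⟨a1, a2, a3⟩ := hR.ends u u2
    have a4 : t u ≠ o u := fun e => disjoint_left.1 hS.disj a1 (e ▸ a2)
    refine ⟨u1, e, ?_⟩
    rcases a3 with ⟨a5, a6⟩ | ⟨a5, a6⟩ <;> rw [a5, a6]
    · exact a4
    · exact a4.symm
  · exact absurd (e.elim (fun e => e ▸ u2.2) fun e => e ▸ u2.1 ▸ u2.2) v5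

end

section


open Finset

theorem p_ABS (hFLX : S_FLX) (hST1 : S_ST1) (hST2 : S_ST2) (hTYP : S_TYP) (hCOL : S_COL) :
    S_ABS := by
  intro ε hε hε1
  obtain ⟨m, hm, δ₀, hδ₀, H0⟩ := hTYP (ε / 5) (by positivity) (by linarith)
  have hη : 0 < min (δ₀ / 5) (ε / 5) := lt_min (by positivity) (by positivity)
  obtain ⟨δ₁, hδ₁, k₁, H1⟩ := hST1 (ε / 5) _ (by positivity) hη m
  have hδ : 0 < min (min δ₁ (δ₀ / 5)) (ε / 20) := lt_min (lt_min hδ₁ (by positivity)) (by positivity)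
  refine ⟨_, hδ, fun C => ?_⟩
  obtain ⟨k₀, H0⟩ := H0 C
  obtain ⟨k₂, h₂⟩ := exists_nat_gt (10 / ε)
  refine ⟨max (max k₀ k₁) (max k₂ (m * m)), fun k hk V Λ _ _ I hG hG0 => ?_⟩
  have d1 : min (min δ₁ (δ₀ / 5)) (ε / 20) ≤ δ₁ := (min_le_left _ _).trans (min_le_left _ _)
  have d2 : min (min δ₁ (δ₀ / 5)) (ε / 20) ≤ δ₀ / 5 := (min_le_left _ _).trans (min_le_right _ _)
  have k0 : (0 : ℝ) ≤ k := Nat.cast_nonneg k
  have k2 : 10 < ε * k := by
    have : (k₂ : ℝ) ≤ k := Nat.cast_le.2 (by omega)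
    rw [div_lt_iff₀ hε] at h₂
    nlinarith
  have mk : m * m ≤ k := by omega
  obtain ⟨A, F, hS, hM, hU⟩ := hFLX V Λ I k ⌈(ε / 5) ^ 2 / 10 ^ 7 * k⌉₊ ε _ C hε hε1
    (min_le_right _ _) (by
      refine (Nat.ceil_lt_add_one (by positivity)).trans_le ?_
      have : ε * (ε * k) ≤ ε * k := by nlinarith
      nlinarith) hG hG0
  have hT : 0 < k / m := lt_of_lt_of_le hm ((Nat.le_div_iff_mul_le hm).2 mk)
  obtain ⟨S, c, hc⟩ := H1 k (by omega) (k / m) C V Λ I A F hT (fun j hj => (cap_bounds hm mk hj).2)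
    (hG.mono d1) hS.disj hS.cardA hM fun c => (hU c).trans (mul_le_mul_of_nonneg_right d1 k0)
  obtain ⟨g1, g2, g3, g4, g5⟩ := hST2 V Λ I k _ _ _ C A S c hδ.le hη.le hG hc
  obtain ⟨s, ty, h⟩ := H0 k (by omega) V Λ (I.ext S c) A F
    (g1.mono (by linarith [min_le_left (δ₀ / 5) (ε / 5)]))
    ⟨hS.AL, hS.disj, hS.cardA, fun x hx => (g2 x).symm ▸ hS.tight x hx,
      fun x hx hx' => (g2 x).symm ▸ hS.loose x hx hx', fun y hy => by
        have := hS.flex y hy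
        have e : (((I.ext S c).U y).card + ((I.ext S c).edg y).card : ℝ) =
          (I.U y).card + (I.edg y).card := by exact_mod_cast g2 y
        rwa [e]⟩
    ((g4 _ F hM).mono (by nlinarith [min_le_right (δ₀ / 5) (ε / 5)])) g3
  exact g5 (hCOL V Λ _ k _ s ty h)

end

section


open Finset

theorem p_DENSE (hSTR : S_STR) (hEXC : S_EXC) (hWGT : S_WGT) (hRED : S_RED) (hABS : S_ABS) :
    S_DENSE := by
  intro ε hε hε1
  obtain ⟨δ₀, hδ₀, H0⟩ := hABS ε hε (by linarith)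
  have hδ : 0 < min δ₀ (1 / 2) := lt_min hδ₀ (by norm_num)
  obtain ⟨σ₁, hσ₁, H1⟩ := hEXC ε _ hε hε1 hδ
  obtain ⟨C, k₂, H2⟩ := hSTR (min (σ₁ / 2) (min δ₀ (1 / 2))) (lt_min (by positivity) hδ)
  obtain ⟨k₀, H0⟩ := H0 C
  obtain ⟨k₁, H1⟩ := H1 (1 + 2 * C)
  obtain ⟨k₃, h₃⟩ := exists_nat_gt (8 * C / ε)
  refine ⟨max (max k₀ k₁) (max (max k₂ k₃) 1), fun k hk V Λ _ _ _ P ln hG hs hd hi hB => ?_⟩
  have kp : 0 < k := by omega
  have k0 : (0 : ℝ) < k := Nat.cast_pos.2 kp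
  rcases isEmpty_or_nonempty Λ with hΛ | hΛ
  · have : ∀ v, v ∉ P := fun v hv => by
      obtain ⟨u, hu⟩ := card_pos.1 (kp.trans_le (hd v hv))
      obtain ⟨-, -, i, -⟩ := mem_fl.1 hu
      exact hΛ.false i
    exact ⟨fun _ => 0, fun v hv => absurd hv (this v), fun v hv => absurd hv (this v)⟩
  obtain ⟨X, Bd, Lg, x1, x2, x3, x4, x5, x6, x7, x8⟩ := H2 k (by omega) V Λ P ln hG hs hi
  obtain ⟨w1, w2, w3, w4⟩ := hWGT V Λ P X ln Lg k C _ kp hG x4 hB
  have s1 := mul_le_mul_of_nonneg_right (min_le_left (σ₁ / 2) (min δ₀ (1 / 2))) k0.le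
  have s2 := mul_le_mul_of_nonneg_right (min_le_right (σ₁ / 2) (min δ₀ (1 / 2))) k0.le
  have s3 := mul_le_mul_of_nonneg_right (min_le_left (σ₁ / 2) (min δ₀ (1 / 2))) (sq_nonneg (k : ℝ))
  have s4 : 0 < σ₁ * k := by positivity
  have f1 : ((F2 P X ln Lg).card : ℝ) ≤ (1 - ε) * k ^ 2 := by
    have : (k₃ : ℝ) ≤ k := Nat.cast_le.2 (by omega)
    rw [div_lt_iff₀ hε] at h₃
    have : 8 * C ≤ ε * k := by nlinarith
    nlinarith
  have f2 : ((A0 P X ln Lg k).card : ℝ) ≤ 4 * k := by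
    have : (k : ℝ) * (A0 P X ln Lg k).card ≤ 4 * (F2 P X ln Lg).card := by exact_mod_cast w3
    refine le_of_mul_le_mul_left (this.trans ?_) k0
    nlinarith [mul_pos hε (pow_pos k0 2)]
  obtain ⟨c, c1, c2⟩ := H1 k (by omega) V Λ P X ln Bd
    (fun v => 1 + (thr ln (A0 P X ln Lg k) v).card) hG hs hB (by linarith)
    (fun i hi => (x7 i hi).trans (by linarith))
    (fun v hv => ⟨le_add_of_nonneg_right (Nat.cast_nonneg _), by linarith [w2 v hv]⟩) (by
      have : ∑ v ∈ X, ((thr ln (A0 P X ln Lg k) v).card : ℝ) ≤ ∑ v ∈ X, ((thr ln Lg v).card : ℝ) :=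
        sum_le_sum fun v _ => Nat.cast_le.2 (card_le_card (fl_mono fun i a b =>
          ⟨fl_subset _ _ a, b⟩))
      rw [sum_add_distrib, sum_const, nsmul_eq_mul, mul_one]
      linarith) fun i hi => by
      have a1 : ((ln i ∩ X).card : ℝ) ≤ k :=
        Nat.cast_le.2 ((card_le_card inter_subset_left).trans (hs i))
      have a2 := Nat.cast_le (α := ℝ).2 ((sum_le_sum_of_subset (inter_subset_left (s₂ := X))).trans
        (w4 i (disjoint_left.1 x2 hi)))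
      rw [Nat.cast_sum] at a2
      rw [sum_add_distrib, sum_const, nsmul_eq_mul, mul_one]
      linarith
  have c3 : ∀ c₀, ((fl X fun v => c v = c₀).card : ℝ) + ∑ v ∈ fl X fun v => c v = c₀,
      ((thr ln (A0 P X ln Lg k) v).card : ℝ) ≤ min δ₀ (1 / 2) * k := fun c₀ => by
    simpa only [sum_add_distrib, sum_const, nsmul_eq_mul, mul_one] using c2 c₀
  obtain ⟨I, i1, i2, i3⟩ := hRED V Λ P X ln Lg k ε _ C c kp hδ.le
    ((min_le_right _ _).trans_lt (by norm_num)) hG hs hd x1 x4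
    (fun i hi => (x7 i (disjoint_right.1 x2 hi)).trans s2)
    (fun v hv => ⟨(x8 v hv).1, (x8 v hv).2.trans s2⟩) f1 c1
    (fun c₀ => (le_add_of_nonneg_right (sum_nonneg fun _ _ => Nat.cast_nonneg _)).trans (c3 c₀))
    fun c₀ => by
      refine le_trans ?_ ((le_add_of_nonneg_left (Nat.cast_nonneg _)).trans (c3 c₀))
      rw [← Nat.cast_sum, Nat.cast_le]
      refine le_trans (card_le_card fun x hx => ?_) card_biUnion_le
      obtain ⟨a1, v, a2, a3⟩ := mem_fl.1 hx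
      exact mem_biUnion.2 ⟨v, mem_fl.2 ⟨(mem_inter.1 a2).2, a3⟩, mem_fl.2 ⟨a1, (mem_inter.1 a2).1⟩⟩
  exact i3 (H0 k (by omega) V Λ I (i1.mono (min_le_left _ _)) (i2.mono (min_le_left _ _)))

end

end Pool.Agent.P.MP_1fec7a_co.S
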