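import Pool.Agent.P.MP_1fec7a_co.GenusBound
import Pool.Agent.P.MP_1fec7a_co.CP

/-! Working definitions for the sharp bound: geometries, instances, typings. -/

set_option autoImplicit false
set_option linter.unusedSectionVars false
set_option linter.dupNamespace false

namespace Pool.Agent.P.MP_1fec7a_co.S

open Finset

/-- The elements of `s` with property `p` (no decidability instance in the term). -/
noncomputable def fl {α : Type} (s : Finset α) (p : α → Prop) : Finset α :=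
  @Finset.filter α p (Classical.decPred p) s

@[simp] lemma mem_fl {α : Type} {s : Finset α} {p : α → Prop} {a : α} :
    a ∈ fl s p ↔ a ∈ s ∧ p a := @mem_filter α p (Classical.decPred p) s a

lemma fl_eq {α : Type} (s : Finset α) (p : α → Prop) [DecidablePred p] : fl s p = s.filter p := by
  ext a; simp

lemma fl_subset {α : Type} (s : Finset α) (p : α → Prop) : fl s p ⊆ s := fun _ h => (mem_fl.1 h).1

lemma card_fl_le {α : Type} (s : Finset α) (p : α → Prop) : (fl s p).card ≤ s.card :=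
  card_le_card (fl_subset s p)

lemma fl_mono {α : Type} {s t : Finset α} {p q : α → Prop} (h : ∀ a ∈ s, p a → a ∈ t ∧ q a) :
    fl s p ⊆ fl t q := fun a ha => mem_fl.2 (h a (mem_fl.1 ha).1 (mem_fl.1 ha).2)

variable {V Λ : Type} [DecidableEq V] [DecidableEq Λ]

/-! ### Geometries -/

/-- Points `P` and lines `ln i`: two points lie on at most one line and three pairwise collinear
points lie on one line. -/
structure Geo (P : Finset V) (ln : Λ → Finset V) : Prop where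
  sub : ∀ i, ln i ⊆ P
  lin : ∀ i j u v, u ≠ v → u ∈ ln i → v ∈ ln i → u ∈ ln j → v ∈ ln j → i = j
  tri : ∀ i j l u v w, u ≠ v → v ≠ w → u ≠ w → u ∈ ln i → v ∈ ln i → v ∈ ln j → w ∈ ln j →
    u ∈ ln l → w ∈ ln l → i = j

/-- The cost of a line with `q` points. -/
noncomputable def cost (q : ℕ) : ℝ := max 0 (max (((q : ℝ) - 1) / 2) (3 * (q : ℝ) / 4 - 4))

/-- The Euler bound for all sets of points. -/
def Budget [Fintype Λ] (ln : Λ → Finset V) (B : ℝ) : Prop :=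
  ∀ U : Finset V, ∑ i, cost (ln i ∩ U).card ≤ U.card + B

/-- Two distinct points on a common line. -/
def Coll (ln : Λ → Finset V) (u v : V) : Prop := u ≠ v ∧ ∃ i, u ∈ ln i ∧ v ∈ ln i

/-- The points of `U` collinear with `v`. -/
noncomputable def nb (ln : Λ → Finset V) (U : Finset V) (v : V) : Finset V := fl U (Coll ln v)

/-- A proper colouring of the points of `X` with the colours below `k`. -/
def PC (ln : Λ → Finset V) (X : Finset V) (k : ℕ) (c : V → ℕ) : Prop :=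
  (∀ v ∈ X, c v < k) ∧ ∀ u ∈ X, ∀ v ∈ X, Coll ln u v → c u ≠ c v

/-- The lines of `Lg` through `v`. -/
noncomputable def thr (ln : Λ → Finset V) (Lg : Finset Λ) (v : V) : Finset Λ :=
  fl Lg fun i => v ∈ ln i

/-- The points outside `X` on exactly two lines of `Lg`. -/
noncomputable def F2 (P X : Finset V) (ln : Λ → Finset V) (Lg : Finset Λ) : Finset V :=
  fl (P \ X) fun v => (thr ln Lg v).card = 2

/-- The lines of `Lg` with at least `k / 2` points of `F2`. -/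
noncomputable def A0 (P X : Finset V) (ln : Λ → Finset V) (Lg : Finset Λ) (k : ℕ) : Finset Λ :=
  fl Lg fun x => k ≤ 2 * (ln x ∩ F2 P X ln Lg).card

/-- The collinearity graph. -/
def gr (ln : Λ → Finset V) : SimpleGraph V where
  Adj := Coll ln
  symm := ⟨fun _ _ h => ⟨h.1.symm, h.2.imp fun _ q => q.symm⟩⟩
  loopless := ⟨fun _ h => h.1 rfl⟩

/-! ### Instances -/

/-- Points `P` with two ends `a v`, `b v` among the lines `L` (equal for a private point), further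
conflicts `H`, colours `U x` used on a line and colours `Fb v` forbidden at a point. -/
structure Inst (V Λ : Type) where
  P : Finset V
  L : Finset Λ
  a : V → Λ
  b : V → Λ
  H : V → V → Prop
  U : Λ → Finset ℕ
  Fb : V → Finset ℕ

namespace Inst

variable (I : Inst V Λ)

/-- The point `v` has the end `x`. -/
def On (v : V) (x : Λ) : Prop := I.a v = x ∨ I.b v = x

/-- The points on `x`. -/
noncomputable def pts (x : Λ) : Finset V := fl I.P fun v => I.On v x

/-- The points on `x` with two different ends. -/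
noncomputable def edg (x : Λ) : Finset V := fl I.P fun v => I.On v x ∧ I.a v ≠ I.b v

/-- The instance has a colouring with the colours below `k`. -/
def Col (k : ℕ) : Prop := ∃ c : V → ℕ,
  (∀ v ∈ I.P, c v < k ∧ c v ∉ I.U (I.a v) ∧ c v ∉ I.U (I.b v) ∧ c v ∉ I.Fb v) ∧
  (∀ x, ∀ u ∈ I.pts x, ∀ v ∈ I.pts x, c u = c v → u = v) ∧
  ∀ u ∈ I.P, ∀ v ∈ I.P, I.H u v → c u ≠ c v

/-- The instance left after colouring the points of `S` by `c`. -/
noncomputable def ext (S : Finset V) (c : V → ℕ) : Inst V Λ where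
  P := I.P \ S
  L := I.L
  a := I.a
  b := I.b
  H := I.H
  U := fun x => I.U x ∪ (fl S fun v => I.On v x).image c
  Fb := fun v => I.Fb v ∪ (fl S fun u => I.H v u).image c

/-- The standing assumptions. -/
structure Good (k : ℕ) (δ C : ℝ) : Prop where
  mem : ∀ v ∈ I.P, I.a v ∈ I.L ∧ I.b v ∈ I.L
  cardL : (I.L.card : ℝ) ≤ C * k
  simple : ∀ u ∈ I.P, ∀ v ∈ I.P, ∀ x y, x ≠ y → I.On u x → I.On u y → I.On v x → I.On v y → u = v
  symm : ∀ u v, I.H u v → I.H v u
  hdeg : ∀ v ∈ I.P, ((fl I.P (I.H v)).card : ℝ) ≤ δ * k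
  hone : ∀ v ∈ I.P, ∀ x, ∀ u ∈ I.pts x, ∀ u' ∈ I.pts x, I.H v u → I.H v u' → u = u'
  hzero : ∀ x, ∀ u ∈ I.pts x, ∀ v ∈ I.pts x, ¬ I.H u v
  size : ∀ x, (I.pts x).card + (I.U x).card ≤ k
  Ult : ∀ x, ∀ c ∈ I.U x, c < k
  Flt : ∀ v ∈ I.P, ∀ c ∈ I.Fb v, c < k
  Ule : ∀ x, ((I.U x).card : ℝ) ≤ δ * k
  Fle : ∀ v ∈ I.P, ((I.Fb v).card : ℝ) ≤ δ * k
  spread : ∀ x c, ((fl (I.pts x) fun v =>
    c ∈ I.Fb v ∨ ∃ y, y ≠ x ∧ I.On v y ∧ c ∈ I.U y).card : ℝ) ≤ δ * k

/-- No triangles, few edges, and every colour is used on few dense lines. -/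
structure Good0 (k : ℕ) (ε δ : ℝ) : Prop where
  tri : ∀ u ∈ I.P, ∀ v ∈ I.P, ∀ w ∈ I.P, ∀ x y z, x ≠ y → y ≠ z → x ≠ z → I.On u x → I.On u y →
    I.On v y → I.On v z → I.On w x → I.On w z → False
  few : ((fl I.P fun v => I.a v ≠ I.b v).card : ℝ) ≤ (1 - ε) * k ^ 2
  spr : ∀ c, ((fl I.L fun x => k ≤ 2 * (I.edg x).card ∧ c ∈ I.U x).card : ℝ) ≤ δ * k

/-- Tight lines `A` and flexible lines `F`. -/
structure Spl (k r : ℕ) (β : ℝ) (A F : Finset Λ) : Prop where
  AL : A ⊆ I.L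
  disj : Disjoint A F
  cardA : A.card ≤ 4 * k
  tight : ∀ x ∈ A, k ≤ (I.U x).card + (I.edg x).card + r
  loose : ∀ x ∈ I.L, x ∉ A → (I.U x).card + (I.edg x).card + r ≤ k
  flex : ∀ y ∈ F, ((I.U y).card + (I.edg y).card : ℝ) + β * k ≤ k

/-- Every tight line has at least `n` edges to flexible lines. -/
def Many (n : ℝ) (A F : Finset Λ) : Prop :=
  ∀ x ∈ A, n ≤ ((fl (I.edg x) fun v => I.a v ∈ F ∨ I.b v ∈ F).card : ℝ)

/-- The colours used on a tight line form whole residue classes modulo `T`. -/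
def Full (k T : ℕ) (A : Finset Λ) : Prop :=
  ∀ x ∈ A, ∀ c ∈ I.U x, ∀ c', c' < k → c' % T = c % T → c' ∈ I.U x

/-- A set `S` of edges with a colouring `c` that fills the residue classes met by `U x`, `x ∈ A`. -/
structure Star (k T : ℕ) (η : ℝ) (A : Finset Λ) (S : Finset V) (c : V → ℕ) : Prop where
  sub : S ⊆ I.P
  edge : ∀ v ∈ S, I.a v ≠ I.b v
  ok : ∀ v ∈ S, c v < k ∧ c v ∉ I.U (I.a v) ∧ c v ∉ I.U (I.b v) ∧ c v ∉ I.Fb v
  inj : ∀ u ∈ S, ∀ v ∈ S, ∀ x, I.On u x → I.On v x → c u = c v → u = v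
  hne : ∀ u ∈ S, ∀ v ∈ S, I.H u v → c u ≠ c v
  line : ∀ x, ((fl S fun v => I.On v x).card : ℝ) ≤ η * k
  cls : ∀ c₀, ((fl S fun v => c v = c₀).card : ℝ) ≤ η * k
  typ : ∀ x ∈ A, ∀ v ∈ S, I.On v x → ∃ c₀ ∈ I.U x, c₀ % T = c v % T
  full : ∀ x ∈ A, ∀ c₀ ∈ I.U x, ∀ c', c' < k → c' % T = c₀ % T →
    c' ∈ I.U x ∨ ∃ v ∈ S, I.On v x ∧ c v = c'

end Inst

/-- The number of colours below `k` of type `j`. -/
noncomputable def cap (k T j : ℕ) : ℕ := (fl (range k) fun c => c % T = j).card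

/-- The number of elements of `U` of type `j`. -/
noncomputable def uc (U : Finset ℕ) (T j : ℕ) : ℕ := (fl U fun c => c % T = j).card

/-- The number of points of `M` with an end `x` and type `j`. -/
noncomputable def ld (M : Finset V) (a b : V → Λ) (f : V → ℕ) (x : Λ) (j : ℕ) : ℕ :=
  (fl M fun v => (a v = x ∨ b v = x) ∧ f v = j).card

/-- `pre v` is the set of the elements of `M` that come before `v`. -/
def Ord {α : Type} (M : Finset α) (pre : α → Finset α) : Prop :=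
  (∀ v ∈ M, pre v ⊆ M ∧ v ∉ pre v) ∧
    ∀ B ⊆ M, B.Nonempty → ∃ v ∈ B, ∀ u ∈ B, u ≠ v → u ∈ pre v

lemma Ord.total {α : Type} {M : Finset α} {pre : α → Finset α} (h : Ord M pre) {u v : α}
    (hu : u ∈ M) (hv : v ∈ M) (huv : u ≠ v) : u ∈ pre v ∨ v ∈ pre u := by
  classical
  obtain ⟨w, hw, H⟩ := h.2 {u, v} (by simp [insert_subset_iff, hu, hv]) (by simp)
  rcases mem_insert.1 hw with rfl | hw
  · exact Or.inr (H v (by simp) huv.symm)
  · rw [mem_singleton.1 hw] at H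
    exact Or.inl (H u (by simp) huv)

/-- The expected number of points of `M` with an end `x` and type `j`, for the options `o v`. -/
noncomputable def exl (M : Finset V) (a b : V → Λ) (o : V → Finset ℕ) (x : Λ) (j : ℕ) : ℝ :=
  ∑ v ∈ fl M fun v => (a v = x ∨ b v = x) ∧ j ∈ o v, (1 : ℝ) / (o v).card

/-- A row: points `Z`, `μ j` places of type `j ∈ J`, `n` places in all, pairs `Dis` that are not
allowed (about one half, well spread) and pairs `Fo` that are forbidden (a fraction `φ`). -/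
structure RowOK (Z : Finset V) (J : Finset ℕ) (μ : ℕ → ℕ) (Dis Fo : V → ℕ → Prop) (n : ℕ)
    (φ : ℝ) : Prop where
  tot : ∑ j ∈ J, μ j = n
  card : Z.card ≤ n
  h1 : ∀ v ∈ Z, ∑ j ∈ fl J (Dis v), (μ j : ℝ) ≤ 11 / 20 * n
  h2 : ∀ j ∈ J, 0 < μ j → ((fl Z fun v => Dis v j).card : ℝ) ≤ 11 / 20 * n
  h3 : ∀ S ⊆ Z, ∀ ν : ℕ → ℕ, (∀ j, ν j ≤ μ j) → ∑ v ∈ S, ∑ j ∈ fl J (Dis v), (ν j : ℝ) ≤
    S.card * (∑ j ∈ J, (ν j : ℝ)) / 2 + (n : ℝ) ^ 2 / 50
  f1 : ∀ v ∈ Z, ∑ j ∈ fl J (Fo v), (μ j : ℝ) ≤ φ * n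
  f2 : ∀ j ∈ J, 0 < μ j → ((fl Z fun v => Fo v j).card : ℝ) ≤ φ * n

/-- The inequalities between the parameters used in the last two stages. -/
structure Num (k m r b₀ G₀ : ℕ) (δ ζ w C : ℝ) : Prop where
  m0 : 0 < m
  mm : m * m ≤ k
  r4 : 10000 ≤ r
  d0 : 0 ≤ δ
  z0 : 0 ≤ ζ
  z1 : ζ ≤ 1 / 20000
  w0 : 0 ≤ w
  bT : (b₀ : ℝ) * (k / m : ℕ) ≤ r
  ex : 79 / 80 * (r : ℝ) + b₀ * (δ * k) ≤ b₀ * (k / m : ℕ)
  zk : ζ * k ≤ r / 100000
  bd : (b₀ : ℝ) * (4 * (δ * k) + G₀) ≤ r / 80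
  md : ((m : ℝ) + 1) * (δ * k) ≤ r / 400
  ee : δ * k ^ 2 * (m + 1) ≤ (r : ℝ) ^ 2 / 100000
  gw : G₀ * w ≤ r / 50000
  lg : ((m : ℝ) + 1) * Real.log (C * k * k) ≤ r / 200

namespace Inst

variable (I : Inst V Λ)

/-- No colour of type `j` is forbidden at `v` or used on an end of `v`, and the two ends of `v` have
different sides for `j`. -/
def Fit (T : ℕ) (s : Λ → ℕ → Bool) (v : V) (j : ℕ) : Prop :=
  s (I.a v) j ≠ s (I.b v) j ∧ uc (I.U (I.a v)) T j = 0 ∧ uc (I.U (I.b v)) T j = 0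

/-- The other end. -/
def oth (x : Λ) (v : V) : Λ := if I.a v = x then I.b v else I.a v

/-- The types that are possible for the edge `v`. -/
noncomputable def dd (T : ℕ) (s : Λ → ℕ → Bool) (v : V) : Finset ℕ :=
  fl (range T) fun j => I.Fit T s v j ∧ uc (I.Fb v) T j = 0

/-- The ends of the reserved edge `v` have the same side for `j`. -/
def dis (R : Finset V) (s : Λ → ℕ → Bool) (v : V) (j : ℕ) : Prop :=
  v ∈ R ∧ s (I.a v) j = s (I.b v) j

/-- The type `j` is forbidden for `v` by a colour or by a point of `Q`. -/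
def fo (T : ℕ) (R Q : Finset V) (f : V → ℕ) (v : V) (j : ℕ) : Prop :=
  uc (I.Fb v) T j ≠ 0 ∨ (v ∈ R ∧ (uc (I.U (I.a v)) T j ≠ 0 ∨ uc (I.U (I.b v)) T j ≠ 0)) ∨
    ∃ u ∈ Q, I.H v u ∧ f u = j

/-- A valid assignment of types to the points of `Q`. -/
structure Typing (k T : ℕ) (s : Λ → ℕ → Bool) (Q : Finset V) (ty : V → ℕ) : Prop where
  lt : ∀ v ∈ Q, ty v < T
  fit : ∀ v ∈ Q, I.a v ≠ I.b v → I.Fit T s v (ty v)
  fb : ∀ v ∈ Q, uc (I.Fb v) T (ty v) = 0
  cnt : ∀ x j, j < T → ld Q I.a I.b ty x j + uc (I.U x) T j ≤ cap k T j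
  hne : ∀ u ∈ Q, ∀ v ∈ Q, I.H u v → ty u ≠ ty v

/-- The number of points of `Q` of type `j` in conflict with a point on `x`. -/
noncomputable def nh (Q : Finset V) (ty : V → ℕ) (x : Λ) (j : ℕ) : ℕ :=
  (fl Q fun v => (∃ u ∈ I.pts x, I.H u v) ∧ ty v = j).card

/-- Reserved edges `R` from the tight end `t v` to the flexible end `o v`, in groups `gp v`. -/
structure Res (k r κ G₀ : ℕ) (A F : Finset Λ) (R : Finset V) (t o : V → Λ) (gp : V → ℕ) : Prop where
  sub : R ⊆ I.P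
  ends : ∀ v ∈ R, t v ∈ A ∧ o v ∈ F ∧ (I.a v = t v ∧ I.b v = o v ∨ I.a v = o v ∧ I.b v = t v)
  lt : ∀ v ∈ R, gp v < κ
  num : ∀ x ∈ A, (fl R fun v => t v = x).card + k = r + (I.U x).card + (I.edg x).card
  grp : ∀ y g, (fl R fun v => o v = y ∧ gp v = g).card ≤ G₀

/-- The edges that are not reserved. -/
noncomputable def mn (R : Finset V) : Finset V := fl (I.P \ R) fun v => I.a v ≠ I.b v

/-- The reserved edges and the private points of tight lines. -/
noncomputable def zz (A : Finset Λ) (R : Finset V) : Finset V :=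
  fl I.P fun v => v ∈ R ∨ (I.a v = I.b v ∧ I.a v ∈ A)

/-- The row of the tight line `x`. -/
noncomputable def row (R : Finset V) (t : V → Λ) (x : Λ) : Finset V :=
  fl I.P fun v => (v ∈ R ∧ t v = x) ∨ (I.a v = x ∧ I.b v = x)

/-- The number of free places of type `j` on `x`. -/
noncomputable def mu (k T : ℕ) (Q : Finset V) (f : V → ℕ) (x : Λ) (j : ℕ) : ℕ :=
  cap k T j - uc (I.U x) T j - ld Q I.a I.b f x j

/-- The conflicts of the second stage. -/
def cf (R : Finset V) (o : V → Λ) (gp : V → ℕ) (u v : V) : Prop :=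
  I.H u v ∨ (u ≠ v ∧ u ∈ R ∧ v ∈ R ∧ o u = o v ∧ gp u = gp v)

/-- The points in conflict with the line `z`. -/
noncomputable def tg (R : Finset V) (t o : V → Λ) (gp : V → ℕ) (z : Λ) : Finset V :=
  fl I.P fun v => (∃ u ∈ I.pts z, I.H u v) ∨
    (v ∈ R ∧ ∃ u ∈ R, t u = z ∧ o u = o v ∧ gp u = gp v)

/-- The outcome of the first stage: sides `s` and types `f` of the edges that are not reserved. -/
structure StA (k m b₀ κ : ℕ) (w ζ : ℝ) (A F : Finset Λ) (R : Finset V) (t o : V → Λ)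
    (s : Λ → ℕ → Bool) (f : V → ℕ) : Prop where
  ty : I.Typing k (k / m) s (I.mn R) f
  s1 : ∀ x ∈ I.L, ∀ y ∈ I.L, x ≠ y →
    ((fl (range (k / m)) fun j => s x j = s y j).card : ℝ) ≤ (1 / 2 + ζ) * (k / m : ℕ)
  s2 : ∀ x ∈ A, ∀ j, j < k / m → ((fl R fun v => t v = x ∧ s (o v) j = s x j).card : ℝ) ≤
    (fl R fun v => t v = x).card / 2 + ζ * k
  load : ∀ x j, ld (I.mn R) I.a I.b f x j + b₀ ≤ m
  loadF : ∀ y ∈ F, ∀ j, ld (I.mn R) I.a I.b f y j + κ ≤ m
  nh : ∀ x j, (I.nh (I.mn R) f x j : ℝ) ≤ ζ * k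
  under : ∀ j, j < k / m →
    ((m : ℝ) + 1) * (fl A fun x => w < I.mu k (k / m) (I.mn R) f x j).card ≤ ζ * k

end Inst

/-! ### The example -/

/-- The lines of the example: the vertices of the complete bipartite graph with one edge
subdivided; the points are its edges. -/
def rl (k : ℕ) [NeZero k] : ZMod k ⊕ ZMod k ⊕ Unit → Finset (Option (ZMod k × ZMod k))
  | .inl i => univ.image fun j => some (i, j)
  | .inr (.inl j) => univ.image fun i => if i = 0 ∧ j = 0 then none else some (i, j)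
  | .inr (.inr _) => {none, some (0, 0)}

lemma sum_cap (k T : ℕ) (hT : 0 < T) : ∑ j ∈ range T, cap k T j = k := by
  have := card_eq_sum_card_fiberwise (s := range k) (t := range T) (f := fun c => c % T)
    fun c _ => by simpa using Nat.mod_lt c hT
  rw [card_range] at this
  exact (sum_congr rfl fun j _ => by rw [cap, fl_eq]).trans this.symm

lemma sum_uc (U : Finset ℕ) (T : ℕ) (hT : 0 < T) : ∑ j ∈ range T, uc U T j = U.card := by
  rw [card_eq_sum_card_fiberwise (s := U) (t := range T) (f := fun c => c % T)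
    fun c _ => by simpa using Nat.mod_lt c hT]
  exact sum_congr rfl fun j _ => by rw [uc, fl_eq]

lemma cap_bounds {k m j : ℕ} (hm : 0 < m) (hk : m * m ≤ k) (hj : j < k / m) :
    m ≤ cap k (k / m) j ∧ cap k (k / m) j ≤ m + 1 := by
  have h1 : m ≤ k / m := (Nat.le_div_iff_mul_le hm).2 hk
  have h2 : k / (k / m) = m := by
    have := Nat.div_add_mod k m
    have := Nat.mod_lt k hm
    exact Nat.div_eq_of_lt_le (by omega) (by rw [add_mul]; omega)
  have h3 : cap k (k / m) j = Nat.count (· ≡ j [MOD k / m]) k := by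
    rw [cap, Nat.count_eq_card_filter_range, fl_eq]
    exact congrArg card (filter_congr fun c _ => by rw [Nat.ModEq, Nat.mod_eq_of_lt hj])
  rw [h3, Nat.count_modEq_card _ (by omega), h2]
  split_ifs <;> omega

lemma uc_le_cap {U : Finset ℕ} {k : ℕ} (h : ∀ c ∈ U, c < k) (T j : ℕ) : uc U T j ≤ cap k T j :=
  card_le_card (fl_mono fun c hc e => ⟨mem_range.2 (h c hc), e⟩)

lemma uc_eq_zero {U : Finset ℕ} {T j : ℕ} : uc U T j = 0 ↔ ∀ c ∈ U, c % T ≠ j := by
  simp [uc, eq_empty_iff_forall_notMem]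

lemma sum_ld (M : Finset V) (a b : V → Λ) (f : V → ℕ) (x : Λ) (T : ℕ) (h : ∀ v ∈ M, f v < T) :
    ∑ j ∈ range T, ld M a b f x j = (fl M fun v => a v = x ∨ b v = x).card := by
  rw [card_eq_sum_card_fiberwise (s := fl M fun v => a v = x ∨ b v = x) (t := range T) (f := f)
    fun v hv => by simpa using h v (mem_fl.1 hv).1]
  exact sum_congr rfl fun j _ => congrArg card (by ext v; simp [and_assoc])

lemma Inst.Good.mono {I : Inst V Λ} {k : ℕ} {δ δ' C : ℝ} (h : I.Good k δ C) (e : δ ≤ δ') :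
    I.Good k δ' C :=
  have e' : δ * k ≤ δ' * k := mul_le_mul_of_nonneg_right e (Nat.cast_nonneg k)
  { h with
    hdeg := fun v hv => (h.hdeg v hv).trans e'
    Ule := fun x => (h.Ule x).trans e'
    Fle := fun v hv => (h.Fle v hv).trans e'
    spread := fun x c => (h.spread x c).trans e' }

lemma Inst.Good0.mono {I : Inst V Λ} {k : ℕ} {ε δ δ' : ℝ} (h : I.Good0 k ε δ) (e : δ ≤ δ') :
    I.Good0 k ε δ' :=
  { h with spr := fun c => (h.spr c).trans (mul_le_mul_of_nonneg_right e (Nat.cast_nonneg k)) }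

lemma Inst.Many.mono {I : Inst V Λ} {n n' : ℝ} {A F : Finset Λ} (h : I.Many n A F) (e : n' ≤ n) :
    I.Many n' A F := fun x hx => e.trans (h x hx)

@[simp] lemma Inst.mem_pts {I : Inst V Λ} {x : Λ} {v : V} : v ∈ I.pts x ↔ v ∈ I.P ∧ I.On v x :=
  mem_fl

@[simp] lemma Inst.mem_edg {I : Inst V Λ} {x : Λ} {v : V} :
    v ∈ I.edg x ↔ v ∈ I.P ∧ I.On v x ∧ I.a v ≠ I.b v := mem_fl

@[simp] lemma Inst.mem_mn {I : Inst V Λ} {R : Finset V} {v : V} :
    v ∈ I.mn R ↔ (v ∈ I.P ∧ v ∉ R) ∧ I.a v ≠ I.b v := mem_fl.trans (by rw [mem_sdiff])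

/-- A point off a line is collinear with at most one point of the line. -/
lemma Geo.one {P : Finset V} {ln : Λ → Finset V} (h : Geo P ln) {i : Λ} {p u v : V}
    (hp : p ∉ ln i) (hu : u ∈ ln i) (hv : v ∈ ln i) (h1 : Coll ln p u) (h2 : Coll ln p v) :
    u = v := by
  by_contra e
  obtain ⟨n1, j, a1, a2⟩ := h1
  obtain ⟨n2, l, b1, b2⟩ := h2
  exact hp (h.tri i l j u v p e n2.symm n1.symm hu hv b2 b1 a2 a1 ▸ b1)

lemma Coll.symm {ln : Λ → Finset V} {u v : V} (h : Coll ln u v) : Coll ln v u :=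
  ⟨h.1.symm, h.2.imp fun _ q => q.symm⟩

lemma cost_nonneg (q : ℕ) : 0 ≤ cost q := le_max_left _ _

lemma half_le_cost (q : ℕ) : ((q : ℝ) - 1) / 2 ≤ cost q := le_max_of_le_right (le_max_left _ _)

lemma big_le_cost (q : ℕ) : 3 * (q : ℝ) / 4 - 4 ≤ cost q := le_max_of_le_right (le_max_right _ _)

end Pool.Agent.P.MP_1fec7a_co.S
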