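import Pool.Agent.P.MP_1fec7a_co.S.Base

/-! The statements of the steps. -/

set_option autoImplicit false

namespace Pool.Agent.P.MP_1fec7a_co.S

open Finset

/-! ### From the geometry to an instance -/

-- deps:
def S_REM : Prop := ∀ δ C : ℝ, 0 < δ → ∃ k₀ : ℕ, ∀ k ≥ k₀, ∀ (V Λ : Type) [DecidableEq V]
  [DecidableEq Λ] (P : Finset V) (ln : Λ → Finset V) (Lr : Finset Λ), Geo P ln →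
  (Lr.card : ℝ) ≤ C * k → ∑ v ∈ P, (((thr ln Lr v).card / 3 : ℕ) : ℝ) ≤ δ * k ^ 2

-- deps: REM
def S_STR : Prop := ∀ σ : ℝ, 0 < σ → ∃ C : ℝ, ∃ k₀ : ℕ, ∀ k ≥ k₀, ∀ (V Λ : Type) [DecidableEq V]
  [DecidableEq Λ] [Fintype Λ] (P : Finset V) (ln : Λ → Finset V), Geo P ln →
  (∀ i, (ln i).card ≤ k) → ∑ i, (ln i).card ≤ 400 * k ^ 2 →
  ∃ (X : Finset V) (Bd Lg : Finset Λ), X ⊆ P ∧ Disjoint Bd Lg ∧ (Bd.card : ℝ) ≤ σ * k ∧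
    (Lg.card : ℝ) ≤ C * k ∧ (X.card : ℝ) ≤ σ * k ^ 2 ∧
    ∑ v ∈ X, ((thr ln Lg v).card : ℝ) ≤ σ * k ^ 2 ∧ (∀ i ∉ Bd, ((ln i ∩ X).card : ℝ) ≤ σ * k) ∧
    ∀ v ∈ P \ X, (thr ln Lg v).card ≤ 2 ∧
      ((fl P fun u => u ≠ v ∧ ∃ i ∉ Lg, u ∈ ln i ∧ v ∈ ln i).card : ℝ) ≤ σ * k

-- deps:
def S_DEG : Prop := ∀ (V Λ : Type) [DecidableEq V] [DecidableEq Λ] [Fintype Λ] (P U : Finset V)
  (ln : Λ → Finset V) (D s : ℝ), Geo P ln → U.Nonempty → 0 ≤ D → s ≤ D →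
  (∀ v ∈ U, D ≤ (nb ln U v).card) → (∀ i, ((ln i ∩ U).card : ℝ) ≤ s) →
  D * (D - s) / 2 ≤ ∑ i, cost (ln i ∩ U).card

-- deps:
def S_BAL : Prop := ∀ (V : Type) [DecidableEq V] (W : Finset V) (Ad : V → V → Prop) (k : ℕ)
  (e M S : ℝ) (w : V → ℝ), (∀ u v, Ad u v → Ad v u) → (∀ v, ¬ Ad v v) → 0 < e → 0 ≤ M →
  (∀ v ∈ W, 0 ≤ w v ∧ w v ≤ M) → ∑ v ∈ W, w v ≤ S →
  (∀ W' ⊆ W, W'.Nonempty → ∃ v ∈ W', ((fl W' (Ad v)).card : ℝ) + e ≤ k) →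
  ∃ c : V → ℕ, (∀ v ∈ W, c v < k) ∧ (∀ u ∈ W, ∀ v ∈ W, Ad u v → c u ≠ c v) ∧
    ∀ c₀, ∑ v ∈ fl W fun v => c v = c₀, w v ≤ S / e + M

-- deps:
def S_DH : Prop := ∀ (V : Type) [DecidableEq V] (Z : Finset V) (S : Finset ℕ) (Bad : V → ℕ → Prop)
  (p q : ℝ), Z.card ≤ S.card → (∀ v ∈ Z, ((fl S (Bad v)).card : ℝ) ≤ p) →
  (∀ c ∈ S, ((fl Z fun v => Bad v c).card : ℝ) ≤ q) → p + q ≤ S.card →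
  ∃ g : V → ℕ, (∀ v ∈ Z, g v ∈ S ∧ ¬ Bad v (g v)) ∧ ∀ u ∈ Z, ∀ v ∈ Z, g u = g v → u = v

-- deps: DH
def S_EX2 : Prop := ∀ (V Λ : Type) [DecidableEq V] [DecidableEq Λ] (P X W : Finset V)
  (ln : Λ → Finset V) (Bd : Finset Λ) (k : ℕ) (c : V → ℕ), Geo P ln → W ⊆ X → PC ln W k c →
  (∀ v ∈ X \ W, (thr ln Bd v).card = 1) →
  (∀ i ∈ Bd, (ln i).card ≤ k ∧ 2 * (ln i ∩ W).card ≤ k ∧
    ∀ v ∈ X \ W, v ∈ ln i → 4 * (nb ln X v \ ln i).card ≤ k) →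
  (∀ c₀, 4 * ((fl W fun v => c v = c₀).card + Bd.card) ≤ k) →
  ∃ c' : V → ℕ, PC ln X k c' ∧ ∀ v ∈ W, c' v = c v

-- deps: DEG BAL
def S_EX1 : Prop := ∀ ε τ : ℝ, 0 < ε → ε ≤ 1 / 2 → 0 < τ → τ ≤ ε / 40 → ∀ (k : ℕ) (M : ℝ)
  (V Λ : Type) [DecidableEq V] [DecidableEq Λ] [Fintype Λ] (P X : Finset V) (ln : Λ → Finset V)
  (Bd : Finset Λ) (w : V → ℝ), 0 < k → 0 ≤ M → Geo P ln → Budget ln ((1 / 2 - ε) * k ^ 2) →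
  (Bd.card : ℝ) ≤ τ ^ 2 * k → (∀ i ∉ Bd, ((ln i ∩ X).card : ℝ) ≤ τ ^ 2 * k) →
  (∀ v ∈ X, 1 ≤ w v ∧ w v ≤ M) → ∑ v ∈ X, w v ≤ τ ^ 2 * k ^ 2 →
  (∀ i ∈ Bd, ∑ v ∈ ln i ∩ X, w v ≤ 5 * k) →
  ∃ (W : Finset V) (c : V → ℕ), W ⊆ X ∧ PC ln W k c ∧
    (∀ v ∈ X \ W, (thr ln Bd v).card = 1 ∧ w v ≤ 1 / τ) ∧
    (∀ i ∈ Bd, 2 * (ln i ∩ W).card ≤ k ∧ ∀ v ∈ X \ W, v ∈ ln i → 4 * (nb ln X v \ ln i).card ≤ k) ∧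
    ∀ c₀, ∑ v ∈ fl W fun v => c v = c₀, w v ≤ τ * k + M

-- deps: EX1 EX2
def S_EXC : Prop := ∀ ε δ : ℝ, 0 < ε → ε ≤ 1 / 2 → 0 < δ → ∃ σ : ℝ, 0 < σ ∧ ∀ M : ℝ, ∃ k₀ : ℕ,
  ∀ k ≥ k₀, ∀ (V Λ : Type) [DecidableEq V] [DecidableEq Λ] [Fintype Λ] (P X : Finset V)
  (ln : Λ → Finset V) (Bd : Finset Λ) (w : V → ℝ), Geo P ln → (∀ i, (ln i).card ≤ k) →
  Budget ln ((1 / 2 - ε) * k ^ 2) → (Bd.card : ℝ) ≤ σ * k →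
  (∀ i ∉ Bd, ((ln i ∩ X).card : ℝ) ≤ σ * k) → (∀ v ∈ X, 1 ≤ w v ∧ w v ≤ M) →
  ∑ v ∈ X, w v ≤ σ * k ^ 2 → (∀ i ∈ Bd, ∑ v ∈ ln i ∩ X, w v ≤ 5 * k) →
  ∃ c : V → ℕ, PC ln X k c ∧ ∀ c₀, ∑ v ∈ fl X fun v => c v = c₀, w v ≤ δ * k

-- deps:
def S_WGT : Prop := ∀ (V Λ : Type) [DecidableEq V] [DecidableEq Λ] [Fintype Λ] (P X : Finset V)
  (ln : Λ → Finset V) (Lg : Finset Λ) (k : ℕ) (C B : ℝ), 0 < k → Geo P ln →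
  (Lg.card : ℝ) ≤ C * k → Budget ln B →
  ((F2 P X ln Lg).card : ℝ) ≤ 2 * B + 8 * (C * k) ∧
    (∀ v ∈ X, ((thr ln (A0 P X ln Lg k) v).card : ℝ) ≤ 2 * C) ∧
    k * (A0 P X ln Lg k).card ≤ 4 * (F2 P X ln Lg).card ∧
    ∀ i ∉ Lg, ∑ v ∈ ln i, (thr ln (A0 P X ln Lg k) v).card ≤ (A0 P X ln Lg k).card

-- deps:
def S_RED : Prop := ∀ (V Λ : Type) [DecidableEq V] [DecidableEq Λ] [Nonempty Λ] (P X : Finset V)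
  (ln : Λ → Finset V) (Lg : Finset Λ) (k : ℕ) (ε δ C : ℝ) (c₀ : V → ℕ), 0 < k → 0 ≤ δ → δ < 1 →
  Geo P ln → (∀ i, (ln i).card ≤ k) → (∀ v ∈ P, k ≤ (nb ln P v).card) → X ⊆ P →
  (Lg.card : ℝ) ≤ C * k → (∀ i ∈ Lg, ((ln i ∩ X).card : ℝ) ≤ δ * k) →
  (∀ v ∈ P \ X, (thr ln Lg v).card ≤ 2 ∧
    ((fl P fun u => u ≠ v ∧ ∃ i ∉ Lg, u ∈ ln i ∧ v ∈ ln i).card : ℝ) ≤ δ * k) →
  ((F2 P X ln Lg).card : ℝ) ≤ (1 - ε) * k ^ 2 → PC ln X k c₀ →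
  (∀ c, ((fl X fun v => c₀ v = c).card : ℝ) ≤ δ * k) →
  (∀ c, ((fl (A0 P X ln Lg k) fun x => ∃ v ∈ ln x ∩ X, c₀ v = c).card : ℝ) ≤ δ * k) →
  ∃ I : Inst V Λ, I.Good k δ C ∧ I.Good0 k ε δ ∧ (I.Col k → ∃ c, PC ln P k c)

/-! ### Preparing the instance -/

-- deps:
def S_FLX : Prop := ∀ (V Λ : Type) [DecidableEq V] [DecidableEq Λ] (I : Inst V Λ) (k r : ℕ)
  (ε δ C : ℝ), 0 < ε → ε ≤ 1 → δ ≤ ε / 20 → (r : ℝ) < ε / 5 * k → I.Good k δ C → I.Good0 k ε δ →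
  ∃ A F : Finset Λ, I.Spl k r (ε / 5) A F ∧ I.Many (2 * (ε / 5) * k) A F ∧
    ∀ c, ((fl A fun x => c ∈ I.U x).card : ℝ) ≤ δ * k

-- deps:
def S_ST1 : Prop := ∀ β η : ℝ, 0 < β → 0 < η → ∀ m : ℕ, ∃ δ : ℝ, 0 < δ ∧ ∃ k₀ : ℕ, ∀ k ≥ k₀,
  ∀ (T : ℕ) (C : ℝ) (V Λ : Type) [DecidableEq V] [DecidableEq Λ] (I : Inst V Λ) (A F : Finset Λ),
  0 < T → (∀ j, j < T → cap k T j ≤ m + 1) → I.Good k δ C → Disjoint A F → A.card ≤ 4 * k →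
  I.Many (2 * β * k) A F → (∀ c, ((fl A fun x => c ∈ I.U x).card : ℝ) ≤ δ * k) →
  ∃ (S : Finset V) (c : V → ℕ), I.Star k T η A S c

-- deps:
def S_ST2 : Prop := ∀ (V Λ : Type) [DecidableEq V] [DecidableEq Λ] (I : Inst V Λ) (k T : ℕ)
  (δ η C : ℝ) (A : Finset Λ) (S : Finset V) (c : V → ℕ), 0 ≤ δ → 0 ≤ η → I.Good k δ C →
  I.Star k T η A S c → (I.ext S c).Good k (2 * δ + 3 * η) C ∧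
    (∀ x, ((I.ext S c).U x).card + ((I.ext S c).edg x).card = (I.U x).card + (I.edg x).card) ∧
    (I.ext S c).Full k T A ∧ (∀ n F, I.Many n A F → (I.ext S c).Many (n - η * k) A F) ∧
    ((I.ext S c).Col k → I.Col k)

-- deps:
def S_RES : Prop := ∀ (V Λ : Type) [DecidableEq V] [DecidableEq Λ] (I : Inst V Λ) (k r κ G₀ : ℕ)
  (β δ C : ℝ) (A F : Finset Λ), 0 < β → I.Good k δ C → I.Spl k r β A F → I.Many (β * k) A F →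
  2 * (r : ℝ) ≤ β * k → 8 * (r : ℝ) ≤ β * κ * G₀ →
  ∃ (R : Finset V) (t o : V → Λ) (gp : V → ℕ), I.Res k r κ G₀ A F R t o gp

-- deps:
-- imports: Pool.Agent.P.MP_e2f256_co.EC
def S_COL : Prop := ∀ (V Λ : Type) [DecidableEq V] [DecidableEq Λ] (I : Inst V Λ) (k T : ℕ)
  (s : Λ → ℕ → Bool) (ty : V → ℕ), I.Typing k T s I.P ty → I.Col k

/-! ### Random choices -/

-- deps:
def S_HC : Prop := ∀ (ι : Type) [Fintype ι] [DecidableEq ι] (S : Finset ι) (β : Bool) (n t : ℝ),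
  0 < n → 0 ≤ t → (S.card : ℝ) ≤ n →
  ((fl univ fun ω : ι → Bool => t < |((fl S fun i => ω i = β).card : ℝ) - S.card / 2|).card : ℝ) ≤
    2 ^ Fintype.card ι * (2 * Real.exp (-(2 * t ^ 2 / n)))

-- deps: HC
def S_SIDE : Prop := ∀ ζ C : ℝ, 0 < ζ → ∀ m : ℕ, 0 < m → ∃ k₀ : ℕ, ∀ k ≥ k₀, ∀ (Λ : Type)
  [DecidableEq Λ] (L : Finset Λ) (S₁ S₂ : Λ → Finset Λ), (L.card : ℝ) ≤ C * k →
  (∀ x ∈ L, S₁ x ⊆ L ∧ S₂ x ⊆ L ∧ (S₁ x).card ≤ k ∧ (S₂ x).card ≤ k) → ∃ s : Λ → ℕ → Bool,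
    (∀ x ∈ L, ∀ y ∈ L, x ≠ y → |((fl (range (k / m)) fun j => s x j = s y j).card : ℝ) -
      (k / m : ℕ) / 2| ≤ ζ * (k / m : ℕ)) ∧
    ∀ x ∈ L, ∀ j, j < k / m → ∀ β : Bool,
      |((fl (S₁ x) fun y => s y j = β).card : ℝ) - (S₁ x).card / 2| ≤ ζ * k ∧
      |((fl (S₂ x) fun y => s y j = β).card : ℝ) - (S₂ x).card / 2| ≤ ζ * k

-- deps:
def S_SEQ : Prop := ∀ (V Ω κ : Type) [DecidableEq V] [Nonempty Ω] (M : Finset V)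
  (O : V → Finset V → (V → Ω) → Finset Ω) (St : Finset κ) (Δ : κ → V → Ω → ℝ) (θ : κ → ℝ),
  (∀ v ∈ M, ∀ S f, (O v S f).Nonempty) → (∀ v S f g, (∀ u ∈ S, f u = g u) → O v S f = O v S g) →
  ∑ σ ∈ St, Real.exp (-θ σ) ≤ 1 →
  ∃ (pre : V → Finset V) (f : V → Ω), Ord M pre ∧ (∀ v ∈ M, f v ∈ O v (pre v) f) ∧
    ∀ σ ∈ St, ∑ v ∈ M, Δ σ v (f v) ≤ θ σ + ∑ v ∈ M,
      ((∑ o ∈ O v (pre v) f, Real.exp (Δ σ v o)) / (O v (pre v) f).card - 1)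

-- deps: SEQ
def S_SQL : Prop := ∀ (V κ : Type) [DecidableEq V] (M : Finset V)
  (O : V → Finset V → (V → ℕ) → Finset ℕ) (St : Finset κ) (s θ : κ → ℝ) (e : κ → V → ℝ)
  (W : κ → Finset ℕ), (∀ v ∈ M, ∀ S f, (O v S f).Nonempty) →
  (∀ v S f g, (∀ u ∈ S, f u = g u) → O v S f = O v S g) → ∑ σ ∈ St, Real.exp (-θ σ) ≤ 1 →
  (∀ σ ∈ St, |s σ| ≤ 1 / 2) → (∀ σ v, 0 ≤ e σ v ∧ e σ v ≤ 2) →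
  ∃ (pre : V → Finset V) (f : V → ℕ), Ord M pre ∧ (∀ v ∈ M, f v ∈ O v (pre v) f) ∧
    ∀ σ ∈ St, s σ * ∑ v ∈ fl M fun v => f v ∈ W σ, e σ v ≤ θ σ + (s σ + 2 * s σ ^ 2) *
      ∑ v ∈ M, e σ v * (O v (pre v) f ∩ W σ).card / (O v (pre v) f).card

-- deps:
def S_CHO : Prop := ∀ (n t : ℕ) (ρ : ℝ), 0 < ρ → ρ * n ≤ t →
  (n.choose t : ℝ) ≤ (Real.exp 1 / ρ) ^ t

-- deps: SQL
def S_MR : Prop := ∀ (V Λ : Type) [DecidableEq V] [DecidableEq Λ] (M : Finset V) (L A : Finset Λ)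
  (a b : V → Λ) (Nb : Λ → Finset Λ) (Y : Λ → Finset V) (O : V → Finset V → (V → ℕ) → Finset ℕ)
  (k T t₀ t₁ t₂ : ℕ) (s g θ : ℝ), (∀ v ∈ M, ∀ S f, (O v S f).Nonempty) →
  (∀ v S f g, (∀ u ∈ S, f u = g u) → O v S f = O v S g) → 0 ≤ s → s ≤ 1 / 2 →
  (∀ x ∈ L, (Nb x).card ≤ k) → A.card ≤ 4 * k →
  (L.card : ℝ) * T.choose t₀ * Real.exp (-(t₀ * g)) +
    L.card * T * k.choose t₁ * Real.exp (-(t₁ * g)) +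
    T * (4 * k).choose t₂ * Real.exp (-(t₂ * g)) + L.card * T * Real.exp (-θ) ≤ 1 →
  ∃ (pre : V → Finset V) (f : V → ℕ), Ord M pre ∧ (∀ v ∈ M, f v ∈ O v (pre v) f) ∧
    (∀ x ∈ L, ∀ W ⊆ range T, W.card = t₀ → s * ∑ j ∈ W, (ld M a b f x j : ℝ) ≤
      t₀ * g + (s + 2 * s ^ 2) * ∑ j ∈ W, exl M a b (fun v => O v (pre v) f) x j) ∧
    (∀ x ∈ L, ∀ X ⊆ Nb x, X.card = t₁ → ∀ j, j < T → s * ∑ y ∈ X, (ld M a b f y j : ℝ) ≤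
      t₁ * g + (s + 2 * s ^ 2) * ∑ y ∈ X, exl M a b (fun v => O v (pre v) f) y j) ∧
    (∀ X ⊆ A, X.card = t₂ → ∀ j, j < T → -s * ∑ y ∈ X, (ld M a b f y j : ℝ) ≤
      t₂ * g + (-s + 2 * s ^ 2) * ∑ y ∈ X, exl M a b (fun v => O v (pre v) f) y j) ∧
    ∀ x ∈ L, ∀ j, j < T → 1 / 2 * ((fl M fun v => v ∈ Y x ∧ f v = j).card : ℝ) ≤
      θ + ∑ v ∈ fl M fun v => v ∈ Y x ∧ j ∈ O v (pre v) f, (1 : ℝ) / (O v (pre v) f).card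

-- deps: CHO
def S_MN : Prop := ∀ γ ζ : ℝ, 0 < γ → γ ≤ 1 → 0 < ζ → ζ ≤ 1 → ∃ m₀ : ℕ, ∀ m ≥ m₀, ∀ C : ℝ,
  ∃ k₀ : ℕ, ∀ k ≥ k₀, ∀ n t₀ t₁ t₂ : ℕ, (n : ℝ) ≤ C * k → γ / 128 * (k / m : ℕ) ≤ t₀ →
  γ / 256 * k ≤ t₁ → ζ * k / (m + 1) ≤ t₂ →
  (n : ℝ) * (k / m).choose t₀ * Real.exp (-(t₀ * (γ ^ 2 * m / 32))) +
    n * (k / m : ℕ) * k.choose t₁ * Real.exp (-(t₁ * (γ ^ 2 * m / 32))) +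
    (k / m : ℕ) * (4 * k).choose t₂ * Real.exp (-(t₂ * (γ ^ 2 * m / 32))) +
    n * (k / m : ℕ) * Real.exp (-(γ * ζ * k / 512)) ≤ 1

-- deps: MR MN
def S_MAIN : Prop := ∀ γ ζ : ℝ, 0 < γ → γ ≤ 1 → 0 < ζ → ζ ≤ 1 → ∃ m₀ : ℕ, ∀ m ≥ m₀, ∃ δ : ℝ,
  0 < δ ∧ ∀ C : ℝ, ∃ k₀ : ℕ, ∀ k ≥ k₀, ∀ (V Λ : Type) [DecidableEq V] [DecidableEq Λ] (M : Finset V)
  (L A : Finset Λ) (a b : V → Λ) (H : V → V → Prop) (D : V → Finset ℕ) (lim : Λ → ℕ)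
  (Y : Λ → Finset V) (Wt : Λ → ℕ → Prop) (lo : ℝ), (L.card : ℝ) ≤ C * k → A ⊆ L → A.card ≤ 4 * k →
  (∀ v ∈ M, a v ∈ L ∧ b v ∈ L ∧ a v ≠ b v) →
  (∀ u ∈ M, ∀ v ∈ M, ∀ x y, x ≠ y → (a u = x ∨ b u = x) → (a u = y ∨ b u = y) →
    (a v = x ∨ b v = x) → (a v = y ∨ b v = y) → u = v) →
  (∀ x, (fl M fun v => a v = x ∨ b v = x).card ≤ k) → (∀ u v, H u v → H v u) →
  (∀ v ∈ M, ((fl M (H v)).card : ℝ) ≤ δ * k) →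
  (∀ v ∈ M, ∀ x, ∀ u ∈ M, ∀ u' ∈ M, (a u = x ∨ b u = x) → (a u' = x ∨ b u' = x) → H v u → H v u' →
    u = u') →
  (∀ x ∈ L, ((Y x).card : ℝ) ≤ δ * k ^ 2 ∧
    ∀ u ∈ M, ∀ v ∈ M, (a u = x ∨ b u = x) → H u v → v ∈ Y x) →
  (∀ v ∈ M, D v ⊆ range (k / m) ∧ (1 / 2 - δ) * (k / m : ℕ) ≤ (D v).card ∧
    ((D v).card : ℝ) ≤ (1 / 2 + δ) * (k / m : ℕ)) →
  (∀ x ∈ L, lim x ≤ m ∧ ∀ j, ((fl M fun v => (a v = x ∨ b v = x) ∧ j ∈ D v).card : ℝ) ≤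
    (lim x - γ * m) * (k / m : ℕ) / 2) →
  (∀ x ∈ A, ∀ j, j < k / m → Wt x j →
    lo * (k / m : ℕ) / 2 ≤ (fl M fun v => (a v = x ∨ b v = x) ∧ j ∈ D v).card) →
  ∃ f : V → ℕ, (∀ v ∈ M, f v ∈ D v) ∧ (∀ u ∈ M, ∀ v ∈ M, u ≠ v → H u v → f u ≠ f v) ∧
    (∀ x ∈ L, ∀ j, ld M a b f x j ≤ lim x) ∧
    (∀ x ∈ L, ∀ j, ((fl M fun v => v ∈ Y x ∧ f v = j).card : ℝ) ≤ ζ * k) ∧
    ∀ j, j < k / m → ((m : ℝ) + 1) *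
      (fl A fun x => Wt x j ∧ (ld M a b f x j : ℝ) < lo - γ * m).card ≤ ζ * k

-- deps:
def S_RM : Prop := ∀ (V : Type) [DecidableEq V] (Z : Finset V) (J : Finset ℕ) (μ : ℕ → ℕ)
  (Dis Fo : V → ℕ → Prop) (n : ℕ), RowOK Z J μ Dis Fo n (1 / 20) → ∃ g : ℕ → V → ℕ,
    (∀ q, q < n / 20 → (∀ v ∈ Z, g q v ∈ J ∧ ¬ Dis v (g q v) ∧ ¬ Fo v (g q v)) ∧
      ∀ j, (fl Z fun v => g q v = j).card ≤ μ j) ∧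
    ∀ v ∈ Z, ∀ j, (fl (range (n / 20)) fun q => g q v = j).card ≤ μ j

-- deps: SEQ RM
def S_ROW : Prop := ∀ (V Λ : Type) [DecidableEq V] [DecidableEq Λ] (A L : Finset Λ)
  (Z Y : Λ → Finset V) (J : Finset ℕ) (μ : Λ → ℕ → ℕ) (n : Λ → ℕ) (Dis Fo : V → ℕ → Prop)
  (G : V → V → Prop) (n₀ M Δ E N : ℝ), A ⊆ L →
  (∀ x ∈ A, ∀ y ∈ A, ∀ v ∈ Z x, v ∈ Z y → x = y) → (∀ u v, G u v → G v u) →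
  (∀ x ∈ A, RowOK (Z x) J (μ x) Dis Fo (n x) (1 / 40) ∧ n₀ ≤ n x ∧ (∀ j ∈ J, (μ x j : ℝ) ≤ M) ∧
    (∀ W ⊆ J, (W.card : ℝ) ≤ Δ → ∑ j ∈ W, (μ x j : ℝ) ≤ 1 / 40 * n x) ∧
    (∀ v ∈ Z x, ((fl (A.biUnion Z) (G v)).card : ℝ) ≤ Δ) ∧ (∀ u ∈ Z x, ∀ v ∈ Z x, ¬ G u v) ∧
    (∀ v ∈ A.biUnion Z, (fl (Z x) fun u => G u v).card ≤ 2) ∧
    ∀ u ∈ Z x, ∀ v ∈ A.biUnion Z, G u v → v ∈ Y x) →
  (∀ z ∈ L, ∀ j ∈ J, ∑ x ∈ A, ((Z x ∩ Y z).card : ℝ) * μ x j / n x ≤ E) →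
  20 ≤ n₀ → 0 < M → 80 * E + M * Real.log (L.card * J.card) ≤ N → 80 * N ≤ n₀ →
  ∃ g : V → ℕ, (∀ x ∈ A, (∀ v ∈ Z x, g v ∈ J ∧ ¬ Dis v (g v) ∧ ¬ Fo v (g v)) ∧
      ∀ j, (fl (Z x) fun v => g v = j).card ≤ μ x j) ∧
    (∀ u ∈ A.biUnion Z, ∀ v ∈ A.biUnion Z, G u v → g u ≠ g v) ∧
    ∀ z ∈ L, ∀ j ∈ J, ((fl (A.biUnion Z) fun v => v ∈ Y z ∧ g v = j).card : ℝ) ≤ N

-- deps:
def S_QL : Prop := ∀ (V : Type) (S : Finset V) (J : Finset ℕ) (e : V → ℕ → Prop) (ν : ℕ → ℝ)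
  (b ζ ρ n : ℝ), (∀ j ∈ J, 0 ≤ ν j ∧ ν j ≤ b) → 0 ≤ b → 0 ≤ ζ → 0 ≤ ρ → (S.card : ℝ) ≤ n →
  (∀ u ∈ S, ∀ v ∈ S, u ≠ v → ((fl J fun j => e u j ↔ e v j).card : ℝ) ≤ (1 / 2 + ζ) * J.card) →
  n + 2 * ζ * n ^ 2 ≤ ρ ^ 2 * n ^ 2 →
  ∑ v ∈ S, ∑ j ∈ fl J (e v), ν j ≤ S.card * (∑ j ∈ J, ν j) / 2 + b * J.card * ρ * n / 2

/-! ### The three stages of the typing -/

-- deps:
def S_NUMS : Prop := ∀ β : ℝ, 0 < β → β ≤ 1 → ∃ m₁ : ℕ, ∀ m ≥ m₁, ∃ δ₁ : ℝ, 0 < δ₁ ∧ ∀ δ : ℝ,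
  0 ≤ δ → δ ≤ δ₁ → ∀ C : ℝ, ∃ k₀ : ℕ, ∀ k ≥ k₀, ∃ b₀ κ G₀ : ℕ,
  Num k m ⌈β ^ 2 / 10 ^ 7 * k⌉₊ b₀ G₀ δ (β ^ 2 / 10 ^ 13) (3 * (β ^ 2 / 10 ^ 7) * m) C ∧
    (b₀ : ℝ) ≤ 99 / 100 * (β ^ 2 / 10 ^ 7) * m + 1 ∧ (κ : ℝ) ≤ β * m / 2 ∧ b₀ ≤ κ ∧
    2 * (⌈β ^ 2 / 10 ^ 7 * k⌉₊ : ℝ) ≤ β * k ∧ 8 * (⌈β ^ 2 / 10 ^ 7 * k⌉₊ : ℝ) ≤ β * κ * G₀

-- deps:
def S_TA1 : Prop := ∀ (V Λ : Type) [DecidableEq V] [DecidableEq Λ] (I : Inst V Λ)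
  (k m r κ G₀ : ℕ) (β δ C ζ : ℝ) (A F : Finset Λ) (R : Finset V) (t o : V → Λ) (gp : V → ℕ)
  (s : Λ → ℕ → Bool), 0 < m → m * m ≤ k → 0 ≤ ζ → I.Good k δ C → I.Spl k r β A F →
  I.Res k r κ G₀ A F R t o gp →
  (∀ x ∈ I.L, ∀ y ∈ I.L, x ≠ y → |((fl (range (k / m)) fun j => s x j = s y j).card : ℝ) -
    (k / m : ℕ) / 2| ≤ ζ * (k / m : ℕ)) →
  (∀ x ∈ I.L, ∀ j, j < k / m → ∀ β : Bool,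
    |((fl ((fl (I.mn R) fun v => I.On v x).image (I.oth x)) fun y => s y j = β).card : ℝ) -
      ((fl (I.mn R) fun v => I.On v x).image (I.oth x)).card / 2| ≤ ζ * k) →
  (∀ v ∈ I.mn R, (1 / 2 - ζ) * (k / m : ℕ) - 3 * (δ * k) ≤ (I.dd (k / m) s v).card ∧
    ((I.dd (k / m) s v).card : ℝ) ≤ (1 / 2 + ζ) * (k / m : ℕ)) ∧
  (∀ x ∈ I.L, ∀ j, ((fl (I.mn R) fun v => I.On v x ∧ j ∈ I.dd (k / m) s v).card : ℝ) ≤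
    (fl (I.mn R) fun v => I.On v x).card / 2 + ζ * k) ∧
  (∀ x ∈ I.L, ∀ j, j < k / m → uc (I.U x) (k / m) j = 0 →
    ((fl (I.mn R) fun v => I.On v x).card : ℝ) / 2 - ζ * k - (m + 1) * (δ * k) ≤
      (fl (I.mn R) fun v => I.On v x ∧ j ∈ I.dd (k / m) s v).card) ∧
  (∀ x ∈ I.L, (fl (I.mn R) fun v => I.On v x).card + r ≤ k) ∧
  (∀ x ∈ F, ((fl (I.mn R) fun v => I.On v x).card : ℝ) + β * k ≤ k) ∧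
  ∀ x ∈ A, (fl (I.mn R) fun v => I.On v x).card + r + (I.U x).card = k

-- deps: SIDE MAIN TA1
def S_TA : Prop := ∀ β l ζ : ℝ, 0 < l → l ≤ 1 / 2 → l ≤ β → β ≤ 1 → 0 < ζ → ζ ≤ 1 → ∃ m₀ : ℕ,
  ∀ m ≥ m₀, ∃ δ : ℝ, 0 < δ ∧ ∀ C : ℝ, ∃ k₀ : ℕ, ∀ k ≥ k₀, ∀ (V Λ : Type) [DecidableEq V]
  [DecidableEq Λ] (I : Inst V Λ) (r b₀ κ G₀ : ℕ) (A F : Finset Λ) (R : Finset V) (t o : V → Λ) (gp : V → ℕ),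
  l * k ≤ r → (r : ℝ) ≤ l * k + 1 → (b₀ : ℝ) ≤ 99 / 100 * l * m + 1 → (κ : ℝ) ≤ β * m / 2 →
  b₀ ≤ κ → I.Good k δ C → I.Spl k r β A F → I.Full k (k / m) A → I.Res k r κ G₀ A F R t o gp →
  ∃ (s : Λ → ℕ → Bool) (f : V → ℕ), I.StA k m b₀ κ (3 * l * m) ζ A F R t o s f

-- deps: QL
def S_TB1 : Prop := ∀ (V Λ : Type) [DecidableEq V] [DecidableEq Λ] (I : Inst V Λ)
  (k m r b₀ κ G₀ : ℕ) (β δ ζ w C : ℝ) (A F : Finset Λ) (R : Finset V) (t o : V → Λ) (gp : V → ℕ)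
  (s : Λ → ℕ → Bool) (f : V → ℕ), Num k m r b₀ G₀ δ ζ w C → I.Good k δ C → I.Spl k r β A F →
  I.Full k (k / m) A → I.Res k r κ G₀ A F R t o gp → I.StA k m b₀ κ w ζ A F R t o s f →
  ∀ x ∈ A, RowOK (I.row R t x) (range (k / m)) (I.mu k (k / m) (I.mn R) f x) (I.dis R s)
      (I.fo (k / m) R (I.mn R) f) r (1 / 40) ∧
    ∀ W ⊆ range (k / m), (W.card : ℝ) ≤ δ * k + G₀ →
      ∑ j ∈ W, (I.mu k (k / m) (I.mn R) f x j : ℝ) ≤ 1 / 40 * r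

-- deps:
def S_TB2 : Prop := ∀ (V Λ : Type) [DecidableEq V] [DecidableEq Λ] (I : Inst V Λ)
  (k m r b₀ κ G₀ : ℕ) (β δ ζ w C : ℝ) (A F : Finset Λ) (R : Finset V) (t o : V → Λ) (gp : V → ℕ)
  (s : Λ → ℕ → Bool) (f : V → ℕ), Num k m r b₀ G₀ δ ζ w C → I.Good k δ C → I.Spl k r β A F →
  I.Res k r κ G₀ A F R t o gp → I.StA k m b₀ κ w ζ A F R t o s f →
  A.biUnion (I.row R t) = I.zz A R ∧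
    (∀ x ∈ A, ∀ y ∈ A, ∀ v ∈ I.row R t x, v ∈ I.row R t y → x = y) ∧
    (∀ x ∈ A, ∀ v ∈ I.zz A R, v ∈ I.row R t x ↔ I.On v x) ∧
    (∀ v ∈ I.zz A R, ((fl (I.zz A R) (I.cf R o gp v)).card : ℝ) ≤ δ * k + G₀) ∧
    (∀ x ∈ A, (∀ u ∈ I.row R t x, ∀ v ∈ I.row R t x, ¬ I.cf R o gp u v) ∧
      (∀ v ∈ I.zz A R, (fl (I.row R t x) fun u => I.cf R o gp u v).card ≤ 2) ∧
      ∀ u ∈ I.row R t x, ∀ v ∈ I.zz A R, I.cf R o gp u v → v ∈ I.tg R t o gp x) ∧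
    ∀ z j, j < k / m → ∑ x ∈ A, ((I.row R t x ∩ I.tg R t o gp z).card : ℝ) *
      I.mu k (k / m) (I.mn R) f x j / r ≤ r / 25000

-- deps: ROW TB1 TB2
def S_TB : Prop := ∀ (V Λ : Type) [DecidableEq V] [DecidableEq Λ] (I : Inst V Λ)
  (k m r b₀ κ G₀ : ℕ) (β δ ζ w C : ℝ) (A F : Finset Λ) (R : Finset V) (t o : V → Λ) (gp : V → ℕ)
  (s : Λ → ℕ → Bool) (f : V → ℕ), Num k m r b₀ G₀ δ ζ w C → I.Good k δ C → I.Spl k r β A F →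
  I.Full k (k / m) A → I.Res k r κ G₀ A F R t o gp → I.StA k m b₀ κ w ζ A F R t o s f →
  ∃ h : V → ℕ, I.Typing k (k / m) s (I.mn R ∪ I.zz A R) h ∧
    ∀ x j, j < k / m → (I.nh (I.mn R ∪ I.zz A R) h x j : ℝ) ≤ ζ * k + r / 80

-- deps: ROW
def S_TC : Prop := ∀ (V Λ : Type) [DecidableEq V] [DecidableEq Λ] (I : Inst V Λ)
  (k m r b₀ G₀ : ℕ) (δ ζ w C : ℝ) (Q : Finset V) (s : Λ → ℕ → Bool) (h : V → ℕ),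
  Num k m r b₀ G₀ δ ζ w C → I.Good k δ C → Q ⊆ I.P → I.Typing k (k / m) s Q h →
  (∀ v ∈ I.P \ Q, I.a v = I.b v ∧
    (I.U (I.a v)).card + (fl Q fun u => I.On u (I.a v)).card + r ≤ k) →
  (∀ x j, j < k / m → (I.nh Q h x j : ℝ) ≤ ζ * k + r / 80) →
  ∃ ty : V → ℕ, I.Typing k (k / m) s I.P ty

-- deps: NUMS RES TA TB TC
def S_TYP : Prop := ∀ β : ℝ, 0 < β → β ≤ 1 → ∃ m : ℕ, 0 < m ∧ ∃ δ : ℝ, 0 < δ ∧ ∀ C : ℝ, ∃ k₀ : ℕ,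
  ∀ k ≥ k₀, ∀ (V Λ : Type) [DecidableEq V] [DecidableEq Λ] (I : Inst V Λ) (A F : Finset Λ),
  I.Good k δ C → I.Spl k ⌈β ^ 2 / 10 ^ 7 * k⌉₊ β A F → I.Many (β * k) A F → I.Full k (k / m) A →
  ∃ (s : Λ → ℕ → Bool) (ty : V → ℕ), I.Typing k (k / m) s I.P ty

-- deps: FLX ST1 ST2 TYP COL
def S_ABS : Prop := ∀ ε : ℝ, 0 < ε → ε ≤ 1 → ∃ δ : ℝ, 0 < δ ∧ ∀ C : ℝ, ∃ k₀ : ℕ, ∀ k ≥ k₀,
  ∀ (V Λ : Type) [DecidableEq V] [DecidableEq Λ] (I : Inst V Λ), I.Good k δ C → I.Good0 k ε δ →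
  I.Col k

-- deps: STR EXC WGT RED ABS
def S_DENSE : Prop := ∀ ε : ℝ, 0 < ε → ε ≤ 1 / 2 → ∃ k₀ : ℕ, ∀ k ≥ k₀, ∀ (V Λ : Type)
  [DecidableEq V] [DecidableEq Λ] [Fintype Λ] (P : Finset V) (ln : Λ → Finset V), Geo P ln →
  (∀ i, (ln i).card ≤ k) → (∀ v ∈ P, k ≤ (nb ln P v).card) → ∑ i, (ln i).card ≤ 400 * k ^ 2 →
  Budget ln ((1 / 2 - ε) * k ^ 2) → ∃ c, PC ln P k c

/-! ### The example -/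

-- deps:
def S_GCP : Prop := ∀ (V Λ : Type) [Fintype V] [DecidableEq V] [DecidableEq Λ] (ln : Λ → Finset V)
  (k : ℕ), 0 < k → Geo univ ln → (∀ i, (ln i).card ≤ k) → CliquePartitioned (gr ln) ∧
    HasAdjacencyGraph (fun i => (ln i : Set V)) (gr ln) ∧ (gr ln).cliqueNum ≤ k

-- deps:
def S_GEN : Prop := ∀ (V Λ Φ : Type) [Fintype V] [Fintype Λ] [Fintype Φ] (ln : Λ → Finset V)
  (pt : Φ → V) (li : Φ → Λ) (α ρ : Equiv.Perm Φ) (S : Finset Φ) (g : ℕ),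
  (∀ v i, v ∈ ln i ↔ ∃ f, pt f = v ∧ li f = i) → (∀ f f', pt f = pt f' → li f = li f' → f = f') →
  (∀ v, ∃ f, pt f = v) → (∀ f f', α.SameCycle f f' ↔ pt f = pt f') →
  (∀ f f', ρ.SameCycle f f' ↔ li f = li f') → (∀ f ∈ S, ((α * ρ) ^ 4) f = f) →
  4 * Fintype.card Λ + 4 * Fintype.card Φ ≤ 4 * Fintype.card V + S.card + 8 * g →
  genus (incidenceGraph fun i => (ln i : Set V)) ≤ g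

-- deps:
def S_RG1 : Prop := ∀ (k : ℕ) [NeZero k], 2 ≤ k →
  Geo univ (rl k) ∧ (∀ i, (rl k i).card ≤ k) ∧ ¬ ∃ c, PC (rl k) univ k c

-- deps: GEN
def S_RG2 : Prop := ∀ (n : ℕ) [NeZero (2 * n)], 2 ≤ n →
  genus (incidenceGraph fun i => (rl (2 * n) i : Set (Option (ZMod (2 * n) × ZMod (2 * n))))) ≤
    n ^ 2 + 4 * n + 1

-- deps: GCP RG1 RG2
def S_LOW : Prop := ∀ ε : ℝ, 0 < ε → ∃ g₀ : ℕ, ∀ g ≥ g₀, ∃ (V : Type) (_ : Fintype V)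
  (G : SimpleGraph V) (n : ℕ), CliquePartitioned G ∧ reducedGenus G ≤ g ∧
    G.chromaticNumber = n ∧ max ((2 - ε) * √(g : ℝ)) (G.cliqueNum : ℝ) < n

end Pool.Agent.P.MP_1fec7a_co.S
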