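import Pool.Agent.P.MP_1fec7a_co.S.Iface
import Pool.Agent.P.MP_1fec7a_co.K68.Crit

/-! The upper bound for graphs from the colouring theorem for geometries. -/

set_option autoImplicit false

namespace Pool.Agent.P.MP_1fec7a_co.S

open Finset

lemma up_cost {q : ℕ} (h : 2 ≤ q) : cost q ≤ K68.fw q := by
  have : (2 : ℝ) ≤ q := by exact_mod_cast h
  refine max_le (le_max_of_le_left (by linarith)) (max_le_max le_rfl (by linarith))

lemma up_cost0 {q : ℕ} (h : ¬ 2 ≤ q) : cost q = 0 := by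
  have : (q : ℝ) ≤ 1 := by exact_mod_cast (by omega : q ≤ 1)
  exact max_eq_left (max_le (by linarith) (by linarith))

lemma up_budget {V : Type} [Finite V] [DecidableEq V] {G : SimpleGraph V} {U : Finset V}
    {L : Finset (Finset V)} (h : K68.Geo (K68.res G U) U L) :
    Budget (fun K : L => K.1) (2 * (reducedGenus G : ℝ)) := by
  intro W
  let L₂ := L.filter fun K => 2 ≤ (K ∩ W).card
  have key : K68.Geo (K68.res G (U ∩ W)) (U ∩ W) (L₂.image (· ∩ W)) := by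
    refine ⟨fun K hK => ?_, fun K hK => ?_, fun K hK u hu v hv e => ?_, fun u v e => ?_,
      fun K hK u hu v hv e w a b => ?_⟩
    · obtain ⟨K, a, rfl⟩ := mem_image.1 hK
      exact inter_subset_inter_right (h.sub K (mem_filter.1 a).1)
    · obtain ⟨K, a, rfl⟩ := mem_image.1 hK
      exact (mem_filter.1 a).2
    · obtain ⟨K, a, rfl⟩ := mem_image.1 hK
      have := h.cl K (mem_filter.1 a).1 u (mem_inter.1 hu).1 v (mem_inter.1 hv).1 e
      exact ⟨this.1, mem_inter.2 ⟨this.2.1, (mem_inter.1 hu).2⟩,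
        mem_inter.2 ⟨this.2.2, (mem_inter.1 hv).2⟩⟩
    · obtain ⟨K, a, b, c⟩ := h.cov u v ⟨e.1, (mem_inter.1 e.2.1).1, (mem_inter.1 e.2.2).1⟩
      have b' := mem_inter.2 ⟨b, (mem_inter.1 e.2.1).2⟩
      have c' := mem_inter.2 ⟨c, (mem_inter.1 e.2.2).2⟩
      exact ⟨K ∩ W, mem_image_of_mem _ (mem_filter.2 ⟨a, one_lt_card.2 ⟨u, b', v, c', e.1.ne⟩⟩),
        b', c'⟩
    · obtain ⟨K, d, rfl⟩ := mem_image.1 hK
      exact mem_inter.2 ⟨h.out K (mem_filter.1 d).1 u (mem_inter.1 hu).1 v (mem_inter.1 hv).1 e w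
        ⟨a.1, (mem_inter.1 a.2.1).1, (mem_inter.1 a.2.2).1⟩
        ⟨b.1, (mem_inter.1 b.2.1).1, (mem_inter.1 b.2.2).1⟩, (mem_inter.1 a.2.2).2⟩
  have h1 := K68.geo_euler key
  rw [sum_image fun K a K' b e => by
    obtain ⟨u, hu, v, hv, huv⟩ := one_lt_card.1 (mem_filter.1 a).2
    have e' : K ∩ W = K' ∩ W := e
    exact h.lin (mem_filter.1 a).1 (mem_filter.1 b).1 huv (mem_inter.1 hu).1 (mem_inter.1 hv).1
      (mem_inter.1 (e' ▸ hu)).1 (mem_inter.1 (e' ▸ hv)).1] at h1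
  have h2 : ((U ∩ W).card : ℝ) ≤ W.card := Nat.cast_le.2 (card_le_card inter_subset_right)
  rw [sum_coe_sort L fun K => cost (K ∩ W).card,
    ← sum_filter_of_ne (p := fun K => 2 ≤ (K ∩ W).card) fun K _ a => by_contra fun b =>
      a (up_cost0 b)]
  linarith [sum_le_sum fun K (a : K ∈ L₂) => up_cost (mem_filter.1 a).2]

theorem up_col (hD : S_DENSE) (ε : ℝ) (hε : 0 < ε) (hε1 : ε ≤ 1 / 2) : ∃ k₀ : ℕ, ∀ k ≥ k₀,
    ∀ (V : Type) [Fintype V] (G : SimpleGraph V), CliquePartitioned G → G.cliqueNum ≤ k →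
      2 * (reducedGenus G : ℝ) ≤ (1 / 2 - ε) * k ^ 2 → G.Colorable k := by
  classical
  obtain ⟨k₀, H⟩ := hD ε hε hε1
  refine ⟨max k₀ 240, fun k hk V _ G hG hω hg => by_contra fun hc => ?_⟩
  obtain ⟨U, L, h⟩ := K68.exists_crit hG hω hc
  have kp : 0 < k := by omega
  obtain ⟨c, c1, c2⟩ := H k (by omega) V L U (fun K => K.1)
    ⟨fun K => h.sub _ K.2, fun i j u v e a b c d => Subtype.ext (h.toGeo.lin i.2 j.2 e a b c d),
      fun i j l u v w e1 e2 e3 a b c d e f => Subtype.ext (h.toGeo.lin i.2 j.2 e2 b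
        (h.out _ i.2 u a v b e1 w (h.cl _ l.2 u e w f e3) (h.cl _ j.2 v c w d e2)) c d)⟩
    (fun K => h.le _ K.2) (fun v hv => by
      obtain ⟨c, hc⟩ := h.crit v hv
      refine (Fintype.card_fin k).ge.trans ((card_le_card fun β _ => ?_).trans
        (card_image_le (f := c)))
      obtain ⟨u, a, b⟩ := h.seen hc β
      obtain ⟨K, d, e, f⟩ := h.cov _ _ a
      exact mem_image.2 ⟨u, mem_fl.2 ⟨a.2.2, a.ne, ⟨K, d⟩, e, f⟩, b⟩) (by
      have a1 := h.inc_le (by omega)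
      have a2 := K68.geo_euler h.toGeo
      rw [sum_coe_sort L card, ← Nat.cast_le (α := ℝ)]
      push_cast
      nlinarith [mul_nonneg hε.le (sq_nonneg (k : ℝ)), sq_nonneg (k : ℝ)])
    fun W => (up_budget h.toGeo W).trans (by linarith)
  obtain ⟨u, v, a, b⟩ := h.ncol fun v => if e : c v < k then ⟨c v, e⟩ else ⟨0, kp⟩
  obtain ⟨K, d, e, f⟩ := h.cov _ _ a
  simp only [dif_pos (c1 u a.2.1), dif_pos (c1 v a.2.2), Fin.mk.injEq] at b
  exact c2 u a.2.1 v a.2.2 ⟨a.ne, ⟨K, d⟩, e, f⟩ b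

theorem up (hD : S_DENSE) (ε : ℝ) (hε : 0 < ε) : ∃ g₀ : ℕ, ∀ g ≥ g₀, ∀ (V : Type) [Fintype V]
    (G : SimpleGraph V) (n : ℕ), CliquePartitioned G → reducedGenus G ≤ g →
      G.chromaticNumber = n → (n : ℝ) ≤ max ((2 + ε) * √(g : ℝ)) (G.cliqueNum : ℝ) := by
  have e1 : (0 : ℝ) < 4 + 2 * ε := by positivity
  obtain ⟨k₀, H⟩ := up_col hD (ε / (4 + 2 * ε)) (by positivity)
    (by rw [div_le_iff₀ e1]; linarith)
  obtain ⟨N, hN⟩ := exists_nat_gt (max (k₀ : ℝ) (2 / ε))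
  refine ⟨N ^ 2, fun g hg V _ G n hG hr hn => ?_⟩
  have s1 : (N : ℝ) ≤ √(g : ℝ) := Real.le_sqrt_of_sq_le (by exact_mod_cast hg)
  have s2 : (k₀ : ℝ) < √(g : ℝ) := ((le_max_left _ _).trans_lt hN).trans_le s1
  have s3 : 2 < ε * √(g : ℝ) := by
    have := ((le_max_right _ _).trans_lt hN).trans_le s1
    rwa [div_lt_iff₀' hε] at this
  have s4 := Real.sqrt_nonneg (g : ℝ)
  have s5 := Real.sq_sqrt (Nat.cast_nonneg g : (0 : ℝ) ≤ g)
  set k := max ⌊(2 + ε) * √(g : ℝ)⌋₊ G.cliqueNum with hk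
  have k1 : (2 + ε / 2) * √(g : ℝ) ≤ k := by
    have a := Nat.lt_floor_add_one ((2 + ε) * √(g : ℝ))
    have b : (⌊(2 + ε) * √(g : ℝ)⌋₊ : ℝ) ≤ k := Nat.cast_le.2 (le_max_left _ _)
    linarith
  have k2 := H k (Nat.cast_le (α := ℝ).1 (by nlinarith)) V G hG (le_max_right _ _) (by
    have a : (reducedGenus G : ℝ) ≤ g := Nat.cast_le.2 hr
    have b := pow_le_pow_left₀ (by positivity) k1 2
    have c : 1 / 2 - ε / (4 + 2 * ε) = 2 / (4 + 2 * ε) := by field_simp; ring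
    rw [mul_pow, s5] at b
    rw [c, div_mul_eq_mul_div, le_div_iff₀ e1]
    nlinarith [mul_nonneg (sq_nonneg ε) (Nat.cast_nonneg g : (0 : ℝ) ≤ g)])
  have k3 : n ≤ k := by
    have := k2.chromaticNumber_le
    rw [hn] at this
    exact_mod_cast this
  refine (Nat.cast_le.2 k3).trans ?_
  rw [hk, Nat.cast_max]
  exact max_le_max (Nat.floor_le (by positivity)) le_rfl

end Pool.Agent.P.MP_1fec7a_co.S
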