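import Pool.Agent.P.MP_1fec7a_co.S.B1
import Pool.Agent.P.MP_1fec7a_co.S.B2
import Pool.Agent.P.MP_1fec7a_co.S.B3
import Pool.Agent.P.MP_1fec7a_co.S.B4
import Pool.Agent.P.MP_1fec7a_co.S.B5
import Pool.Agent.P.MP_1fec7a_co.S.B6
import Pool.Agent.P.MP_1fec7a_co.S.B7
import Pool.Agent.P.MP_1fec7a_co.S.B8
import Pool.Agent.P.MP_1fec7a_co.S.B9
import Pool.Agent.P.MP_1fec7a_co.S.B10
import Pool.Agent.P.MP_1fec7a_co.S.Up

/-! All steps put together. -/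

set_option autoImplicit false

namespace Pool.Agent.P.MP_1fec7a_co.S

theorem dense : S_DENSE :=
  have hROW := p_ROW p_SEQ p_RM
  p_DENSE (p_STR p_REM) (p_EXC (p_EX1 p_DEG p_BAL) (p_EX2 p_DH)) p_WGT p_RED
    (p_ABS p_FLX p_ST1 p_ST2 (p_TYP p_NUMS p_RES
      (p_TA (p_SIDE p_HC) (p_MAIN (p_MR (p_SQL p_SEQ)) (p_MN p_CHO)) p_TA1)
      (p_TB hROW (p_TB1 p_QL) p_TB2) (p_TC hROW)) p_COL)

theorem low : S_LOW := p_LOW p_GCP p_RG1 (p_RG2 p_GEN)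

end Pool.Agent.P.MP_1fec7a_co.S
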